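import Pool.Agent.Lib_helper86.RatV.KCert

/-!
Packed certificates of unbounded special cases (data).
-/

set_option autoImplicit false
set_option maxRecDepth 100000

namespace Pool.Agent.RatRec

/-- A certificate. -/
def kc_2_16 : KCert :=
  ⟨2, 16, [1], [4], [0, 1, 0, 0, 0], [0, 0, 0, 0, -1], 1, 0x10001000100020001, 0x1000100010001, 0,
  0, 8, 11, 10, [0, 5, 1, -8], 9, [1], (.splT 15 (.cons (.splT 13 (.cons (.splT 12 (.cons (.splT
  10 (.cons (.splT 3 (.cons (.splT 2 (.cons (.splT 1 (.cons (.splT 0 (.cons (.splS 11 (.cons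
  (.splS 9 (.cons (.splS 8 (.cons (.splS 7 (.cons (.splS 6 (.cons (.splS 5 (.cons (.leaf 19
  0x1800002427a03c26a02426202425903c25201c24904424107c23905423102c22902c21a02c21202c20a02c202021098039088039040029000)
  .nil)) .nil)) .nil)) .nil)) .nil)) .nil)) .nil)) .nil)) .nil)) .nil)) .nil)) .nil)) .nil))
  .nil))⟩

theorem kc_2_16_ok1 : kc_2_16.ok1 = true := by decide +kernel

theorem kc_2_16_ok2 : kc_2_16.ok2 = true := by decide +kernel

/-- A certificate. -/
def kc_2_20 : KCert :=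
  ⟨2, 20, [1], [2, 4], [0, 1, 0, 0, 0], [0, 0, -1, 0, -1], 1, 0x10001000100020001,
  0x1000000010001, 0, 1, 6, 9, 16, [84, 0, 0, 0], 9, [1], (.splS 10 (.cons (.splS 9 (.cons (.splS
  7 (.cons (.splS 6 (.cons (.splS 5 (.cons (.splS 4 (.cons (.splS 3 (.cons (.splS 2 (.cons (.splT
  8 (.cons (.splT 7 (.cons (.splT 5 (.cons (.leaf 4 0x800000a23900a82c009040) (.cons (.splT 4
  (.cons (.leaf 6 0x1800001223900c23100a23101282400a242) (.cons (.splT 3 (.cons (.leaf 6
  0x1800000c23100a23101422901281c00a242) (.cons (.splT 2 (.cons (.leaf 6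
  0x800000c22900c22100a81400a242009050) (.cons (.splT 0 (.cons (.splT 1 (.cons (.leaf 9
  0x800000c23100c22900c22100c21900a20a00a20200a242009000) (.cons (.leaf 11
  0x800000c23100a23102422901421901421102420a01280402220200a242021000) .nil))) (.cons (.leaf 7
  0x800001223900a23100c40400c21200c21a009040) .nil))) .nil))) .nil))) .nil))) .nil))) (.cons
  (.leaf 5 0x800000a24900a23900c23a009050) .nil))) (.cons (.leaf 5 0x800000a25100a24900c242009040)
  .nil))) .nil)) .nil)) .nil)) .nil)) .nil)) .nil)) .nil)) .nil))⟩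

theorem kc_2_20_ok1 : kc_2_20.ok1 = true := by decide +kernel

theorem kc_2_20_ok2 : kc_2_20.ok2 = true := by decide +kernel

/-- A certificate. -/
def kc_7_1 : KCert :=
  ⟨7, 1, [0, 1, 2], [0], [2, 2, -2, 0, 0], [0, 0, 0, 0, 0], 2, 0x20002000000040004,
  0x20002000200020002, 1, 0, 4, 1, 1, [0, 0, 0, 0], 4, [1], (.splT 0 (.cons (.leaf 2 0x8202009000)
  .nil))⟩

theorem kc_7_1_ok1 : kc_7_1.ok1 = true := by decide +kernel

theorem kc_7_1_ok2 : kc_7_1.ok2 = true := by decide +kernel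

/-- A certificate. -/
def kc_7_3 : KCert :=
  ⟨7, 3, [0, 1, 2], [0, 1], [-3, -3, 6, 0, 0], [3, 6, 0, 0, 0], 3, 0x30003000900000000,
  0x30003000300090006, 1, 1, 4, 2, 12, [9, 9, 9, 28], 5, [1], (.splS 2 (.cons (.leaf 2
  0x8000008011) (.cons (.leaf 2 0x8000009211) (.cons (.splS 1 (.cons (.leaf 2 0x800000820b) (.cons
  (.splT 0 (.cons (.leaf 2 0x8402009000) (.cons (.leaf 2 0x9004009209) .nil))) (.cons (.leaf 4
  0x800000a20b009411009020) .nil)))) .nil))))⟩

theorem kc_7_3_ok1 : kc_7_3.ok1 = true := by decide +kernel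

theorem kc_7_3_ok2 : kc_7_3.ok2 = true := by decide +kernel

/-- A certificate. -/
def kc_8_20 : KCert :=
  ⟨8, 20, [3], [2, 4], [0, 0, 0, 1, 0], [0, 0, -1, 0, -1], 1, 0x10002000100010001,
  0x1000000010001, 0, 1, 6, 3, 5, [6, 0, 0, 6], 6, [1], (.splS 4 (.cons (.splS 3 (.cons (.splS 2
  (.cons (.splT 0 (.cons (.leaf 5 0x800000a61900c61100a602009000) (.cons (.leaf 5
  0x800000a62100c61900c602009000) .nil))) .nil)) .nil)) .nil))⟩

theorem kc_8_20_ok1 : kc_8_20.ok1 = true := by decide +kernel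

theorem kc_8_20_ok2 : kc_8_20.ok2 = true := by decide +kernel

/-- A certificate. -/
def kc_9_4 : KCert :=
  ⟨9, 4, [0, 3], [2], [-3, 0, 0, 0, 0], [0, 0, -3, 0, 0], 3, 0x30003000300030000,
  0x30003000000030003, 1, 0, 8, 4, 40, [0, 85, 0, 0], 8, [1], (.splT 7 (.cons (.splT 6 (.cons
  (.splT 5 (.cons (.splT 3 (.cons (.splT 1 (.cons (.splT 0 (.cons (.splS 4 (.cons (.leaf 6
  0xa03a00a63200a62a01062300a021009028) (.cons (.splS 5 (.cons (.leaf 6
  0x1203200a61a01062b00a02900a621009018) (.cons (.splS 2 (.cons (.leaf 5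
  0xa01a00a60200861300a011009000) (.cons (.splS 3 (.cons (.leaf 6
  0x1260a00a60200a01900a611011008009000) (.cons (.splS 6 (.cons (.leaf 8
  0x800001260a00a03101261901b01300a62900a621011008) (.cons (.splS 7 (.cons (.leaf 9
  0x1000001a60a00a03900a63101a61902301300a629012621019008) (.cons (.leaf 10
  0x800001a60a00a63900a63101a61902301300a629012621009050019008) .nil))) .nil))) .nil))) .nil)))
  .nil))) .nil))) .nil)) .nil)) .nil)) .nil)) .nil)) .nil))⟩

theorem kc_9_4_ok1 : kc_9_4.ok1 = true := by decide +kernel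

theorem kc_9_4_ok2 : kc_9_4.ok2 = true := by decide +kernel

/-- A certificate. -/
def kc_9_21 : KCert :=
  ⟨9, 21, [0, 3], [0, 2, 4], [3, 0, 0, 6, 0], [-9, 0, 12, 0, 3], 9, 0x9000f00090009000c,
  0xc0009001500090000, 1, 1, 6, 3, 26, [27, 0, 0, 27], 6, [1], (.splT 1 (.cons (.leaf 2
  0x800000840c) (.cons (.splS 3 (.cons (.leaf 2 0x8000008019) (.cons (.splS 2 (.cons (.splT 0
  (.cons (.leaf 2 0x8602009000) (.cons (.leaf 5 0x800000a60200c011008619009000) (.cons (.splS 4
  (.cons (.leaf 5 0x800000a02100c602008619009000) (.cons (.leaf 5 0x800000a62100c60200c619009000)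
  .nil))) .nil)))) (.cons (.leaf 3 0xb01300a619009030) .nil))) .nil))) (.cons (.leaf 2
  0xc40c009028) .nil))))⟩

theorem kc_9_21_ok1 : kc_9_21.ok1 = true := by decide +kernel

theorem kc_9_21_ok2 : kc_9_21.ok2 = true := by decide +kernel

/-- A certificate. -/
def kc_12_8 : KCert :=
  ⟨12, 8, [2, 3], [3], [0, 0, 6, -6, 0], [0, 0, 0, -6, 0], 6, 0x60000000c00060006,
  0x60000000600060006, 1, 0, 10, 2, 39, [0, 0, 27, 6], 10, [1], (.splT 7 (.cons (.splT 5 (.cons
  (.splT 0 (.cons (.splS 2 (.cons (.splS 3 (.cons (.splS 4 (.cons (.leaf 5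
  0x800000b63a00b42100a61b00b411) (.cons (.leaf 4 0x800000b62a00b62100b411) .nil))) (.cons (.leaf
  3 0xb40200b619009000) .nil))) (.cons (.leaf 2 0x800000b611) .nil))) .nil)) .nil)) .nil))⟩

theorem kc_12_8_ok1 : kc_12_8.ok1 = true := by decide +kernel

theorem kc_12_8_ok2 : kc_12_8.ok2 = true := by decide +kernel

/-- A certificate. -/
def kc_13_11 : KCert :=
  ⟨13, 11, [0, 2, 3], [0, 1, 3], [0, 0, 6, -6, 0], [3, 6, 0, -6, 0], 6, 0x60000000c00060006,
  0x600000006000c0009, 1, 1, 4, 2, 14, [0, 0, 0, 33], 5, [1], (.splS 2 (.cons (.leaf 2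
  0x8000008011) (.cons (.splS 1 (.cons (.leaf 3 0x800000860b008411) (.cons (.leaf 3
  0x800000a60b009411) (.cons (.splT 0 (.cons (.leaf 2 0x8402009000) (.cons (.leaf 3
  0x9004009609009020) (.cons (.leaf 3 0xb004009411009020) .nil)))) .nil)))) (.cons (.leaf 2
  0x800000b611) .nil))))⟩

theorem kc_13_11_ok1 : kc_13_11.ok1 = true := by decide +kernel

theorem kc_13_11_ok2 : kc_13_11.ok2 = true := by decide +kernel

/-- A certificate. -/
def kc_13_17 : KCert :=
  ⟨13, 17, [0, 2, 3], [0, 4], [0, 0, -10, 10, 0], [-20, 0, 0, 0, 10], 20, 0x14001e000a00140014,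
  0x1e0014001400140000, 1, 1, 8, 5, 76, [0, 860, 0, 0], 9, [1], (.splS 2 (.cons (.leaf 2
  0x8000008613) (.cons (.leaf 2 0xa613009020) (.cons (.splT 3 (.cons (.leaf 2 0x841a009018) (.cons
  (.splT 2 (.cons (.leaf 2 0x8612009010) (.cons (.splT 1 (.cons (.leaf 2 0x800000880c) (.cons
  (.splS 5 (.cons (.leaf 2 0x8000008029) (.cons (.splS 4 (.cons (.leaf 3 0x8000008623008429)
  (.cons (.leaf 3 0xa623008429009030) (.cons (.splS 7 (.cons (.leaf 3 0x8000008039008429) (.cons
  (.leaf 3 0x800000843900c429) (.cons (.splS 6 (.cons (.leaf 6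
  0x800000c03100863900842900c612009010) (.cons (.leaf 5 0xc43100863900a62b00c612009010) (.cons
  (.leaf 6 0x800000c63100863900c42900c612009010) .nil)))) .nil)))) .nil)))) (.cons (.splS 6 (.cons
  (.leaf 3 0x8000008433008629) (.cons (.splS 8 (.cons (.leaf 3 0x8000008041008629) (.cons (.leaf 4
  0x844100c43100c612009010) (.cons (.splS 7 (.cons (.leaf 6 0x800000c03900864100862900c41a009018)
  (.cons (.leaf 6 0x800000c43900864100c62900c41a009018) (.cons (.splS 3 (.cons (.leaf 3
  0x800000c01900c41a) (.cons (.splS 9 (.cons (.leaf 4 0x800000844b008641008629) (.cons (.splT 4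
  (.cons (.leaf 3 0x8000008824008629) (.cons (.splT 6 (.cons (.leaf 8
  0x800000843200c63900864100c43100862900c41a009018) (.cons (.splT 7 (.cons (.leaf 5
  0x800000863a00c639008641008629) (.cons (.splT 9 (.cons (.leaf 4 0x800000844a00864100c629) (.cons
  (.splT 0 (.cons (.leaf 8 0x860200840200c63900864100c43100c61200c41a011000) (.cons (.splS 4
  (.cons (.leaf 11 0x1000001402100c60200c40200c63900864100c43101062900c61200c41a011000) (.cons
  (.leaf 9 0x800000c42100c60200c63900864100c43100862900c41a009000) (.cons (.leaf 9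
  0x800000c62100c40200c63900864100c43100862900c612009000) .nil)))) .nil))) .nil))) .nil))) .nil)))
  .nil))) (.cons (.leaf 4 0x800000b44b00c641008629) .nil)))) (.cons (.leaf 7
  0x800000c61900c63900864100c43101441a009018) .nil)))) .nil)))) .nil)))) (.cons (.leaf 3
  0x800000b43300c629) .nil)))) .nil)))) .nil))) .nil))) .nil))) .nil))))⟩

theorem kc_13_17_ok1 : kc_13_17.ok1 = true := by decide +kernel

theorem kc_13_17_ok2 : kc_13_17.ok2 = true := by decide +kernel

/-- A certificate. -/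
def kc_13_21 : KCert :=
  ⟨13, 21, [0, 2, 3], [0, 2, 4], [3, 0, -3, 3, 0], [0, 0, 6, 0, -6], 6, 0x60009000300060009,
  0x6000c00060006, 1, 1, 6, 3, 20, [9, -16, 5, 20], 6, [1], (.splS 3 (.cons (.leaf 2 0x8000008019)
  (.cons (.leaf 2 0x800000a419) (.cons (.splS 4 (.cons (.leaf 3 0x8000008423008619) (.cons (.splS
  2 (.cons (.splT 0 (.cons (.leaf 2 0x8602009000) (.cons (.leaf 5 0x800000a60200c011008619009000)
  (.cons (.leaf 2 0xc00400a421) .nil)))) (.cons (.leaf 2 0xa01300a421) (.cons (.leaf 3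
  0xb01300a619009030) .nil)))) (.cons (.leaf 3 0x800000b42300c619) .nil)))) .nil))))⟩

theorem kc_13_21_ok1 : kc_13_21.ok1 = true := by decide +kernel

theorem kc_13_21_ok2 : kc_13_21.ok2 = true := by decide +kernel

/-- A certificate. -/
def kc_15_1 : KCert :=
  ⟨15, 1, [0, 1, 2, 3], [0], [1, -1, 1, 0, 0], [-1, 0, 0, 0, 0], 1, 0x10001000200000002,
  0x10001000100010000, 1, 0, 4, 2, 1, [0, 2, 0, 0], 4, [1], (.splT 0 (.cons (.leaf 2 0x8402009000)
  .nil))⟩

theorem kc_15_1_ok1 : kc_15_1.ok1 = true := by decide +kernel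

theorem kc_15_1_ok2 : kc_15_1.ok2 = true := by decide +kernel

/-- A certificate. -/
def kc_16_1 : KCert :=
  ⟨16, 1, [4], [0], [0, 0, 0, 0, 1], [-1, 0, 0, 0, 0], 1, 0x20001000100010001,
  0x10001000100010000, 0, 0, 4, 4, 1, [6, 3, 6, 6], 4, [1], (.splT 0 (.cons (.leaf 2 0x8802009000)
  .nil))⟩

theorem kc_16_1_ok1 : kc_16_1.ok1 = true := by decide +kernel

theorem kc_16_1_ok2 : kc_16_1.ok2 = true := by decide +kernel

/-- A certificate. -/
def kc_16_12 : KCert :=
  ⟨16, 12, [4], [2, 3], [0, 0, 0, 0, 1], [0, 0, -1, -1, 0], 1, 0x20001000100010001,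
  0x10000000000010001, 0, 1, 8, 5, 26, [57, -57, 0, 57], 8, [1], (.splS 9 (.cons (.splS 8 (.cons
  (.splS 7 (.cons (.splS 6 (.cons (.splS 5 (.cons (.splS 4 (.cons (.splS 3 (.cons (.splS 2 (.cons
  (.splT 6 (.cons (.leaf 3 0x800000b82900a634) (.cons (.splT 1 (.cons (.leaf 8
  0x2000000a84900a83901282901a81901a80a009068019008) (.cons (.splT 0 (.cons (.leaf 12
  0x800000b84900a84100b83101382901a82102381102280203b80a009068039008021000) (.cons (.leaf 10
  0x800000a84900a83901282901a81901b80201b80a009068019008019000) .nil))) .nil))) .nil))) .nil))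
  .nil)) .nil)) .nil)) .nil)) .nil)) .nil)) .nil))⟩

theorem kc_16_12_ok1 : kc_16_12.ok1 = true := by decide +kernel

theorem kc_16_12_ok2 : kc_16_12.ok2 = true := by decide +kernel

/-- A certificate. -/
def kc_17_2 : KCert :=
  ⟨17, 2, [0, 4], [1], [7, 0, 0, 0, -7], [0, -7, 0, 0, 0], 7, 0x700070007000e,
  0x70007000700000007, 1, 0, 10, 2, 35, [0, 0, 36, 0], 10, [1], (.splT 7 (.cons (.splT 6 (.cons
  (.splT 4 (.cons (.splT 3 (.cons (.splT 0 (.cons (.splS 2 (.cons (.splS 1 (.cons (.leaf 6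
  0x800000901a009802009009009011009000) (.cons (.splS 4 (.cons (.leaf 7
  0x1000001101a009802009021009809011011009000) (.cons (.leaf 8
  0x800001101a009802009821009809011011009040009000) .nil))) .nil))) (.cons (.splS 1 (.cons (.splS
  5 (.cons (.leaf 9 0x800000903a00982200981a011802009029011009009811011000) (.cons (.splS 6 (.cons
  (.leaf 10 0x800000903a00982200901a01180200903100880b011009009811011000) (.cons (.splS 8 (.cons
  (.leaf 10 0x800000903a00902200981a011802009041009829011009009811011000) (.cons (.leaf 12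
  0x903a00902201101a019802009841009831009829019009011811009060009050019000) .nil))) .nil)))
  .nil))) (.cons (.splS 5 (.cons (.leaf 10
  0x1800000903a01103200982201981a021802029029021809019811021000) (.cons (.leaf 7
  0x901a009802009829009809009811009048009000) .nil))) .nil))) .nil))) .nil)) .nil)) .nil)) .nil))
  .nil))⟩

theorem kc_17_2_ok1 : kc_17_2.ok1 = true := by decide +kernel

theorem kc_17_2_ok2 : kc_17_2.ok2 = true := by decide +kernel

/-- A certificate. -/
def kc_17_5 : KCert :=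
  ⟨17, 5, [0, 4], [0, 2], [3, 0, 0, 0, 0], [-3, 0, 0, 0, 0], 3, 0x30003000300030006,
  0x30003000300030000, 1, 1, 4, 4, 8, [8, 4, -3, 4], 4, [1], (.splS 4 (.cons (.leaf 2
  0x8000008021) (.cons (.splS 2 (.cons (.splT 0 (.cons (.leaf 2 0x8802009000) (.cons (.leaf 4
  0x800000a80200a011009000) .nil))) (.cons (.leaf 3 0xc01300a821009040) .nil))) .nil)))⟩

theorem kc_17_5_ok1 : kc_17_5.ok1 = true := by decide +kernel

theorem kc_17_5_ok2 : kc_17_5.ok2 = true := by decide +kernel

/-- A certificate. -/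
def kc_18_7 : KCert :=
  ⟨18, 7, [1, 4], [0, 1, 2], [0, 5, 0, 0, 10], [0, -10, 5, 0, 0], 10, 0x14000a000a000f000a,
  0xa000a000f0000000a, 1, 1, 4, 4, 38, [39, 0, 0, 0], 4, [1], (.splT 2 (.cons (.leaf 2
  0x8000008414) (.cons (.leaf 2 0x9414009018) (.cons (.splS 4 (.cons (.leaf 2 0x8000009221) (.cons
  (.splT 3 (.cons (.leaf 2 0x800000821c) (.cons (.splS 2 (.cons (.splT 1 (.cons (.leaf 2
  0x840c00921a) (.cons (.leaf 3 0x800000940c00a211) (.cons (.splT 0 (.cons (.leaf 2 0x8802009000)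
  (.cons (.splS 1 (.cons (.leaf 5 0x800000a20900980200a211009000) (.cons (.leaf 6
  0xa80900980200921a009821009040009000) .nil))) (.cons (.leaf 4 0xa80200a211009018009000) .nil))))
  .nil)))) (.cons (.leaf 4 0xc21300921a00a821009040) .nil))) (.cons (.leaf 4
  0x800000a21c009821009040) .nil)))) .nil))) .nil))))⟩

theorem kc_18_7_ok1 : kc_18_7.ok1 = true := by decide +kernel

theorem kc_18_7_ok2 : kc_18_7.ok2 = true := by decide +kernel

/-- A certificate. -/
def kc_18_9 : KCert :=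
  ⟨18, 9, [1, 4], [0, 3], [0, -21, 0, 0, 21], [0, 0, 0, -21, 0], 21, 0x2a0015001500000015,
  0x150000001500150015, 1, 1, 10, 4, 175, [0, 176, 0, 176], 13, [1], (.splS 4 (.cons (.leaf 2
  0x8221009028) (.cons (.splS 3 (.cons (.splT 5 (.cons (.leaf 3 0x800000862c008821) (.cons (.splT
  1 (.cons (.leaf 2 0x800000860c) (.cons (.splT 7 (.cons (.leaf 3 0x800000823a00b821) (.cons
  (.splS 6 (.cons (.leaf 5 0x800000983300b23a013821009040) (.cons (.splS 0 (.cons (.leaf 2
  0x9803009008) (.cons (.splT 0 (.cons (.leaf 2 0x8802009000) (.cons (.splT 6 (.cons (.leaf 6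
  0x883200b80200b23a00b21900b821009000) (.cons (.splS 10 (.cons (.leaf 4 0x825100b83a00b821009040)
  (.cons (.splS 9 (.cons (.splS 8 (.cons (.leaf 4 0x8241008249008821009050) (.cons (.leaf 7
  0x884100b24900b83200b80200b219008821009000) .nil))) (.cons (.leaf 6
  0x800000c24b00b85101323a013821009070) .nil))) .nil))) .nil))) .nil))) .nil))) .nil))) .nil)))
  .nil))) .nil))) (.cons (.leaf 4 0x800000c21b00b821009040) .nil))) .nil)))⟩

theorem kc_18_9_ok1 : kc_18_9.ok1 = true := by decide +kernel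

theorem kc_18_9_ok2 : kc_18_9.ok2 = true := by decide +kernel

/-- A certificate. -/
def kc_19_2 : KCert :=
  ⟨19, 2, [0, 1, 4], [1], [8, -8, 0, 0, -4], [0, 0, 0, 0, 0], 8, 0x40008000800000010,
  0x80008000800080008, 1, 0, 6, 4, 21, [0, 0, 0, 22], 7, [1], (.splT 5 (.cons (.splT 2 (.cons
  (.splT 0 (.cons (.splS 4 (.cons (.leaf 3 0x800000922a009021) (.cons (.leaf 2 0x8000009221)
  (.cons (.splS 1 (.cons (.splS 3 (.cons (.leaf 2 0x800000821b) (.cons (.leaf 5
  0x9012009802009219009009009000) (.cons (.splS 6 (.cons (.leaf 3 0x800000823300c21b) (.cons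
  (.leaf 4 0x902a009231009821009040) (.cons (.leaf 6 0x902a00983100c21b009821009050009040)
  .nil)))) .nil)))) (.cons (.leaf 3 0x9802009209009000) (.cons (.leaf 3 0xc00b009821009040)
  .nil)))) .nil)))) .nil)) .nil)) .nil))⟩

theorem kc_19_2_ok1 : kc_19_2.ok1 = true := by decide +kernel

theorem kc_19_2_ok2 : kc_19_2.ok2 = true := by decide +kernel

/-- A certificate. -/
def kc_19_4 : KCert :=
  ⟨19, 4, [0, 1, 4], [2], [0, -2, 0, 0, 2], [0, 0, 2, 0, 0], 2, 0x40002000200000002,
  0x20002000400020002, 1, 0, 4, 4, 5, [3, 0, -5, 3], 4, [1], (.splT 3 (.cons (.splT 1 (.cons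
  (.splT 0 (.cons (.splS 2 (.cons (.leaf 4 0x800000a80200a011009000) (.cons (.leaf 4
  0xa80200a211009018009000) (.cons (.splS 4 (.cons (.leaf 8
  0x2000000a21a00a80a00a20201a02101421300a811009000) (.cons (.leaf 6
  0x800000a80200a22100a811009028009000) (.cons (.leaf 6 0x800000a80200a82100a811009040009000)
  .nil)))) .nil)))) .nil)) .nil)) .nil))⟩

theorem kc_19_4_ok1 : kc_19_4.ok1 = true := by decide +kernel

theorem kc_19_4_ok2 : kc_19_4.ok2 = true := by decide +kernel

/-- A certificate. -/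
def kc_19_12 : KCert :=
  ⟨19, 12, [0, 1, 4], [2, 3], [-40, -40, 0, 0, 40], [0, 0, -40, -40, 0], 40, 0x500028002800000000,
  0x280000000000280028, 1, 1, 12, 5, 1782, [0, 0, 0, 1783], 14, [1, 1], (.splT 5 (.cons (.splS 4
  (.cons (.leaf 4 0x800001822300a22a009030) (.cons (.splT 2 (.cons (.leaf 4
  0x800001a614012221009020) (.cons (.splS 1 (.cons (.leaf 4 0x800001880b00a22a009030) (.cons
  (.splS 2 (.cons (.leaf 5 0x1000001b01101980b01222a011030) (.cons (.leaf 3 0x981300980b009010)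
  (.cons (.splS 3 (.cons (.leaf 5 0x800001881b01381101180b01a22a) (.cons (.leaf 6
  0x1000001981b02381102180b01a22101a22a) (.cons (.splT 1 (.cons (.leaf 5
  0xa80a00b81900980b009030009008) (.cons (.leaf 4 0xb80a00980b00a221009008) .nil))) .nil))))
  .nil)))) (.cons (.splT 4 (.cons (.splS 5 (.cons (.leaf 5 0x800001a02900a22201a22a009020) (.cons
  (.splS 3 (.cons (.leaf 4 0x881b00821b00a22200a22a) (.cons (.splS 2 (.cons (.leaf 5
  0x800001b01100a22201b812009020) (.cons (.leaf 6 0x1000001b21101a21901b81200a221011020) (.cons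
  (.splT 3 (.cons (.splT 1 (.cons (.leaf 7 0x1000002280a00981b02221902380900a22100a22a) (.cons
  (.splT 0 (.cons (.leaf 5 0xa20201380a00b811012221009000) (.cons (.leaf 5
  0xb80200b80a00a21900a221009000) .nil))) .nil))) (.cons (.leaf 4 0x1341c00981b00a22100a22a)
  .nil))) .nil)))) (.cons (.splS 2 (.cons (.leaf 6 0x1000002301100c21b00a22900a222023812) (.cons
  (.leaf 6 0x1000002b21101a81901a22903b812011010) (.cons (.splT 1 (.cons (.leaf 5
  0xa80a00b81900a22900b812009008) (.cons (.splT 0 (.cons (.leaf 5 0xa20201380a00b811012221009000)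
  (.cons (.leaf 8 0x1800004340400b20a03a81903a22900a80904b81200a221) .nil))) .nil))) .nil))))
  .nil)))) (.cons (.splS 6 (.cons (.leaf 6 0x1000001b03101a82901222201a22a011020) (.cons (.leaf 3
  0x800000b23100a829) (.cons (.splS 3 (.cons (.leaf 7 0x800001821b01383102282901a22202222a011048)
  (.cons (.splS 7 (.cons (.leaf 7 0x800001b03901b83101a82902222203222a021020) (.cons (.leaf 8
  0x1000001b23901b83101a82901222201a62c01a22a011020) (.cons (.splS 2 (.cons (.leaf 5
  0x800001b01100a22201b812009020) (.cons (.leaf 6 0x1000001b21101a21901b81200a221011020) (.cons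
  (.splT 6 (.cons (.leaf 8 0x2000003283200b83904383104282903262c01a22a009050) (.cons (.splT 3
  (.cons (.splT 7 (.cons (.leaf 6 0x800001a83a01b83901b83100a222009020) (.cons (.splT 8 (.cons
  (.splT 1 (.cons (.leaf 8 0x2000003260c00b83903221901383101282901a22a009050) (.cons (.splT 0
  (.cons (.leaf 5 0xa20201380a00b811012221009000) (.cons (.leaf 5 0xb80200b80a00a21900a221009000)
  .nil))) .nil))) (.cons (.leaf 8 0x1000003324200b83a02383105282903262c01a22a029050) .nil)))
  .nil))) (.cons (.leaf 8 0x800001b21a00b83901a21901383101282901a22a009050) .nil))) .nil)))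
  .nil)))) .nil)))) (.cons (.leaf 7 0x1000001c21b02383104282901a22202a22a021048) .nil)))) .nil))))
  .nil)))) (.cons (.splS 5 (.cons (.leaf 3 0x800000a02900b424) (.cons (.leaf 5
  0x800001222901b22201a221009030) (.cons (.splS 6 (.cons (.leaf 6
  0x2000001b03101a82901342400b222009020) (.cons (.leaf 3 0x800000b23100a829) (.cons (.leaf 7
  0x2000001b83103282903322202a221019048009020) .nil)))) .nil)))) .nil))) .nil)))) .nil))) (.cons
  (.splS 6 (.cons (.leaf 3 0x800000a03100c223) (.cons (.leaf 5 0x800001223101c223009038009030)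
  (.cons (.splS 7 (.cons (.leaf 6 0x2000001b03901a83102c22301262c00a22a) (.cons (.leaf 5
  0x800000b23900a83100c22300a62c) (.cons (.leaf 7 0x2000001b83903283104422301262c00a22a019050)
  .nil)))) .nil)))) .nil)))) (.cons (.splS 4 (.cons (.leaf 4 0x800000882301022300b22a) (.cons
  (.splT 2 (.cons (.leaf 4 0x800001a614012221009020) (.cons (.splS 1 (.cons (.leaf 4
  0x800001880b00982300b22a) (.cons (.splS 2 (.cons (.leaf 5 0x1000001b01101980b01182301322a)
  (.cons (.leaf 3 0x981300980b009010) (.cons (.leaf 4 0xb81100980b00982300b22a) .nil)))) (.cons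
  (.splT 4 (.cons (.splS 5 (.cons (.leaf 5 0x800001b02900a22201b22a009020) (.cons (.splS 6 (.cons
  (.splT 7 (.cons (.leaf 7 0x1000001a03a01b03101a03101222201b42c011020) (.cons (.leaf 7
  0x800001b03a01883301a03100a22201b42c009020) .nil))) (.cons (.leaf 6
  0x800001a23101a22900a22201b22a009020) (.cons (.splT 7 (.cons (.leaf 5
  0x800001a63c01b83100a222009020) (.cons (.splT 8 (.cons (.splS 2 (.cons (.leaf 5
  0x800001b01100a22201b812009020) (.cons (.splS 3 (.cons (.leaf 4 0x800000a01900b21100b812) (.cons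
  (.leaf 6 0x1000001a21901b21101b81200a221011020) (.cons (.leaf 6
  0x1000001a81902b21101a22903b812011010) .nil)))) (.cons (.splS 9 (.cons (.leaf 6
  0x800002824b01b03a01283101a22901322a) (.cons (.splT 6 (.cons (.splS 8 (.cons (.splT 9 (.cons
  (.leaf 8 0x1000002a24a02204102a63402b83a02283101222901b42c) (.cons (.leaf 7
  0x1000002b24a02204102a63402a842022831013229) .nil))) (.cons (.leaf 7
  0x800002a24101a83201b03a02b83101a22901322a) (.cons (.splS 10 (.cons (.leaf 8
  0x800003205103284104b03a01a83100a22204b42c009020) (.cons (.leaf 8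
  0x800002a25102a84102b83a01b03a01283104222903b22a) (.cons (.splS 12 (.cons (.leaf 9
  0x800003206103285106284107b03a01a83100a22207b42c009020) (.cons (.leaf 8
  0x800002a26102b85102a84104303a01283104222903b22a) (.cons (.splS 14 (.cons (.leaf 10
  0x800001a07101a86103285104a84106303a01a83100a22206342c009020) (.cons (.leaf 8
  0x800002a27102b86102a85106c04301a84201283100b229) (.cons (.splT 11 (.cons (.leaf 9
  0x800004265c01a05a04385101984b01b83a01283101a22901322a) (.cons (.splS 13 (.cons (.leaf 8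
  0x800002826b02a85102a84104303a01283104222903b22a) (.cons (.splT 3 (.cons (.splT 9 (.cons (.leaf
  6 0xa24a01261c00a63400b83a00b22900a229) (.cons (.leaf 5 0xb24a01261c00a63400a842013229) .nil)))
  (.cons (.splS 11 (.cons (.leaf 6 0x800001025b02b41c01284101283102322a) (.cons (.splT 9 (.cons
  (.leaf 9 0x1800004204a03b25903a85101283200b83a04383101322900a229) (.cons (.splS 7 (.cons (.leaf
  4 0x1023b00b24a00a63400a842) (.cons (.splS 3 (.cons (.splT 1 (.cons (.leaf 7
  0x1000002a60c00a20a03301902a222013812009008) (.cons (.splT 0 (.cons (.leaf 5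
  0xa20201380a00b811012221009000) (.cons (.leaf 9
  0x2000005340405201900b04a01283200a84200a242023229053812) .nil))) .nil))) (.cons (.leaf 6
  0x1101b00b24a00a63400a842013229012221) (.cons (.leaf 7
  0x1000001c01b00a81902323900b21a02283100a222) .nil)))) (.cons (.leaf 9
  0x1000002423b02b24a02325902285100a83202a84202b831013229) .nil)))) .nil))) (.cons (.leaf 10
  0x800000b85904b41c00b25a00a86100a85101a84102283103b22a009078) .nil)))) .nil))) (.cons (.splT 9
  (.cons (.leaf 13
  0x1000005a24a01426b01287101286103425301384101a83201b83a05b83100b22901a229011088) (.cons (.leaf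
  11 0x500000eb24a02426b02287102286106285100a83206a8420eb831073229021088) .nil))) .nil)))) .nil)))
  .nil)))) .nil)))) .nil)))) .nil)))) (.cons (.splT 3 (.cons (.splS 0 (.cons (.leaf 3
  0x880300a61c00a222) (.cons (.splT 1 (.cons (.splS 3 (.cons (.leaf 8
  0x800002a01902a60c01b83203283102a22203322a019048) (.cons (.leaf 7
  0x800001a21901a80a01380900b81200a221009008) (.cons (.leaf 7
  0x800001281901280a02a61c012229012222013809) .nil)))) (.cons (.splT 0 (.cons (.leaf 5
  0xa20201380a00b811012221009000) (.cons (.splS 3 (.cons (.leaf 6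
  0x800001a01901b40400a22201b812009020) (.cons (.leaf 6 0x1221900b40400b80200980300b812009000)
  (.cons (.leaf 9 0x1800003a81904320200b20a04220103a22900a80904b81200a221) .nil)))) .nil)))
  .nil))) (.cons (.splT 1 (.cons (.splS 3 (.cons (.leaf 9
  0x3000005201902a60c02a80a02c20301b83203283103322a019048) (.cons (.leaf 6
  0x1000001a21901a80a01c203022221011020) (.cons (.leaf 7
  0x1000001a81901a80a01c20300a22901a221011030) .nil)))) (.cons (.leaf 6
  0xb80a00c20300b83200a24200b229012221) .nil))) .nil)))) (.cons (.splS 8 (.cons (.leaf 5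
  0x800001204102b41c01283102322a) (.cons (.leaf 5 0x800001224101b41c01383101322a) (.cons (.splS 10
  (.cons (.leaf 6 0x800000a05100a84102341c01283101b22a) (.cons (.leaf 8
  0x800002a25102a84102b83a01b03a01283104222903b22a) (.cons (.splS 11 (.cons (.leaf 6
  0x800001025b01284102b41c01283102322a) (.cons (.splS 12 (.cons (.leaf 7
  0x1800001206101285102284106b41c03283105322a) (.cons (.leaf 7
  0x800000a26100b85100a84102341c01283101b22a) (.cons (.splS 13 (.cons (.leaf 7
  0x800000826b00a85100a84102341c01283101b22a) (.cons (.splS 14 (.cons (.leaf 8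
  0x280000120710128610228510328410ab41c05283108322a) (.cons (.leaf 9
  0x1000000a27100a86100985b01285101284104341c02283103322a) (.cons (.splT 9 (.cons (.leaf 9
  0x2000004a24a03325901c25301a85101a84200a242043831023229) (.cons (.splT 10 (.cons (.splT 11
  (.cons (.leaf 11 0x1800001225a02b24a01326901286101325901285101b41c00a84202b83100a831) (.cons
  (.splT 12 (.cons (.splT 13 (.cons (.leaf 11
  0x1000000a26a02b24a00b26901286101285101b41c00a84202b83100a831009078) (.cons (.splT 14 (.cons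
  (.splS 7 (.cons (.splS 3 (.cons (.splT 1 (.cons (.leaf 9
  0x1000002260c02201901a84101b83201b24901a83102222203322a) (.cons (.splT 0 (.cons (.leaf 5
  0xa20201380a00b811012221009000) (.cons (.leaf 6 0x1000002340402a01900b21a00a222023812) .nil)))
  .nil))) (.cons (.splT 1 (.cons (.leaf 7 0x1000002a60c00a20a03221901381200a221009008) (.cons
  (.splT 0 (.cons (.leaf 5 0xa20201380a00b811012221009000) (.cons (.leaf 6
  0x800001340402a21901b21a013812012221) .nil))) .nil))) (.cons (.leaf 9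
  0x1000002a81902b03902b21a00b83203a83102a22203b22a009048) .nil)))) (.cons (.splS 3 (.cons (.splT
  1 (.cons (.leaf 9 0x1000002260c02201901a84101b83201b24901a83102222203322a) (.cons (.splT 0
  (.cons (.leaf 5 0xa20201380a00b811012221009000) (.cons (.leaf 6
  0x1000002340402a01900b21a00a222023812) .nil))) .nil))) (.cons (.splT 1 (.cons (.leaf 7
  0x1000002a60c00a20a03221901381200a221009008) (.cons (.splT 0 (.cons (.leaf 5
  0xa20201380a00b811012221009000) (.cons (.leaf 6 0x800001340402a21901b21a013812012221) .nil)))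
  .nil))) (.cons (.leaf 7 0x1000001c01b00a81902323900b21a02283100a222) .nil)))) (.cons (.leaf 10
  0x800001383900b24a01325901285100b41c00a84201303a00b83100a831) .nil)))) (.cons (.leaf 11
  0x3000001387206b24a02287102286103285104341c01a84206b83101a831011088) .nil))) .nil))) (.cons
  (.leaf 13 0x280000238620a324a04286104285100b21a00b8110428420a383104322900a22200b212021078)
  .nil))) .nil))) (.cons (.leaf 8 0x800000b85201324a00b26900a86100a85100b41c013831) .nil)))
  .nil))) .nil)))) (.cons (.leaf 9 0x1800001426b0128610228510328410ab41c05283108322a011080)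
  .nil)))) .nil)))) (.cons (.leaf 8 0x800001425b01285102284106b41c03283105322a011070) .nil))))
  .nil)))) .nil)))) .nil))) .nil))) (.cons (.splS 10 (.cons (.leaf 8
  0x800001b05101c24b01b03a01a83100a22201b42c009020) (.cons (.leaf 8
  0x1000002b25102c24b02b83a00b03a02283103222902322a) (.cons (.splT 9 (.cons (.leaf 10
  0x1000004a24a02385104424b04b83a04b83101a83104a22901b22a021068) (.cons (.leaf 9
  0x1000005b84a02285107c24b03a84205b83100a831033229021068) .nil))) .nil)))) .nil)))) .nil))))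
  (.cons (.leaf 6 0x2344401b83a01283100a22901342c009050) .nil))) .nil))) .nil)))) (.cons (.splS 6
  (.cons (.leaf 5 0x1000001b03101c22b012222011020) (.cons (.leaf 3 0x800000b23100a829) (.cons
  (.splS 3 (.cons (.leaf 7 0x800001821b01383102382901a22202322a011048) (.cons (.splS 2 (.cons
  (.leaf 5 0x800001b01100a22201b812009020) (.cons (.leaf 6 0x1000001b21101a21901b81200a221011020)
  (.cons (.splT 6 (.cons (.leaf 6 0x1000001a83202383102b82901322a009048) (.cons (.splT 3 (.cons
  (.splT 7 (.cons (.leaf 5 0x800001a63c01b83100a222009020) (.cons (.splT 8 (.cons (.splT 1 (.cons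
  (.leaf 7 0x1000001a60c01a21900b83101382901322a009048) (.cons (.splT 0 (.cons (.leaf 5
  0xa20201380a00b811012221009000) (.cons (.leaf 5 0xb80200b80a00a21900a221009000) .nil))) .nil)))
  (.cons (.leaf 8 0x1000003324200b83a02383104b82900a82901b22a029050) .nil))) .nil))) (.cons (.leaf
  7 0x800001b21a01a21901383102382902322a011048) .nil))) .nil))) .nil)))) (.cons (.leaf 8
  0x1000001c21b02383102b82901a82901a22202b22a021048) .nil)))) .nil)))) .nil)))) (.cons (.splS 5
  (.cons (.leaf 3 0x800000a02900b424) (.cons (.leaf 5 0x800001222901b22201a221009030) (.cons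
  (.leaf 7 0x800003282903322202a22101b82a019040009020) .nil)))) .nil))) .nil)))) .nil))) (.cons
  (.splS 6 (.cons (.leaf 3 0x800000a03100c223) (.cons (.leaf 5 0x800001223101422300b42c009038)
  (.cons (.splS 5 (.cons (.leaf 4 0x1000001b02900c22301322a) (.cons (.splS 7 (.cons (.leaf 4
  0x800001823b01422300b22a) (.cons (.splS 8 (.cons (.leaf 5 0x2000001a04101a83102c22300b22a)
  (.cons (.leaf 6 0x2000001a24103283104422300b22a019048) (.cons (.splS 9 (.cons (.leaf 4
  0x800000824b00a83100c223) (.cons (.splS 10 (.cons (.leaf 6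
  0x3800001a05101a84103283104422300b22a) (.cons (.leaf 7
  0x3800001a25101a84104a83105c22300b22a019050) (.cons (.splS 11 (.cons (.leaf 6
  0x2000001825b01a84101a83102c22300b22a) (.cons (.splS 12 (.cons (.leaf 7
  0x5800001a06101a85103284104a83106c22301322a) (.cons (.leaf 8
  0x2800000a26101285101a84102a83103c22300b22a009068) (.cons (.splS 13 (.cons (.leaf 7
  0x3800001826b01a85101a84103283104422300b22a) (.cons (.splS 14 (.cons (.leaf 8
  0x3000000a07100a86101285101a84102a83103c22300b22a) (.cons (.leaf 9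
  0xb000001a27101a86104a8510628410aa8310ec22302322a019070) (.cons (.splT 4 (.cons (.splT 6 (.cons
  (.splT 3 (.cons (.leaf 4 0x800001a61c013229014223) (.cons (.splT 7 (.cons (.leaf 6
  0x800000a23a00b239012831014223009048) (.cons (.splT 8 (.cons (.splT 9 (.cons (.leaf 7
  0x2000001a64c01a84103283104422300b22a019050) (.cons (.splT 10 (.cons (.splT 11 (.cons (.leaf 8
  0x5800001a65c03285103284106283108422301322a019068) (.cons (.splT 12 (.cons (.splT 13 (.cons
  (.leaf 9 0x2800000a26a01a85101a84103283104422300b22a009070009068) (.cons (.splS 3 (.cons (.splS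
  2 (.cons (.leaf 5 0x1000002081300a01900b21a00a222) (.cons (.leaf 3 0x800000981300a019) (.cons
  (.splT 2 (.cons (.leaf 9 0x1000001a61401326a01286201285100b22901283101a821011068) (.cons (.splT
  1 (.cons (.leaf 6 0x800001a60c01b01900a82201222200b22a) (.cons (.leaf 5
  0xb80a00b81200b22900a821009008) .nil))) .nil))) .nil)))) (.cons (.leaf 9
  0x800001901b00b26a00a86200a85101322900a83101a821009068) (.cons (.leaf 6
  0x1000001c01b01b23900b22901a83100c223) .nil)))) .nil))) (.cons (.leaf 8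
  0x5800001b46403285103284106283108422301322a019070) .nil))) .nil))) (.cons (.leaf 8
  0x4000001b85203285103284104a83106c22301322a019068) .nil))) .nil))) (.cons (.leaf 7
  0x1000000b84200b25900a85100a841012831014223) .nil))) .nil))) .nil))) (.cons (.leaf 7
  0x1000001b83201b24901a84101a83102422301322a) .nil))) (.cons (.leaf 7
  0x2000000b82201322201b23901322901a83101a821) .nil))) .nil)))) (.cons (.leaf 9
  0x2800000c26b00a86101285101a84102a83103c22300b22a009080) .nil)))) .nil)))) (.cons (.leaf 8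
  0x4000001c25b01a85103284104a83106c22301322a019070) .nil)))) .nil)))) (.cons (.leaf 7
  0x2000001c24b01a84103283104422300b22a019060) .nil)))) .nil)))) (.cons (.leaf 6
  0x800001c23b01a83102c22300b22a019050) .nil)))) (.cons (.leaf 6
  0x1000001422b00b82901a831024223019048) .nil)))) .nil)))) .nil)))) .nil)))⟩

theorem kc_19_12_ok1 : kc_19_12.ok1 = true := by decide +kernel

theorem kc_19_12_ok2 : kc_19_12.ok2 = true := by decide +kernel

/-- A certificate. -/
def kc_19_15 : KCert :=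
  ⟨19, 15, [0, 1, 4], [0, 1, 2, 3], [4, 0, 0, 0, 0], [-4, 0, 2, -4, 0], 4, 0x40004000400040008,
  0x40000000600040000, 1, 1, 4, 4, 15, [7, 15, 1, -7], 5, [1], (.splT 2 (.cons (.leaf 2
  0x8000008414) (.cons (.leaf 2 0x9414009018) (.cons (.splS 4 (.cons (.leaf 2 0x8000008021) (.cons
  (.leaf 2 0x8000009221) (.cons (.splT 3 (.cons (.leaf 2 0x800000821c) (.cons (.splS 3 (.cons
  (.leaf 3 0x800000901900921a) (.cons (.splS 2 (.cons (.splT 1 (.cons (.leaf 2 0x800000860c)
  (.cons (.leaf 3 0x1000000960c00a011) (.cons (.leaf 3 0x800000a60c009219) (.cons (.splT 0 (.cons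
  (.leaf 2 0x8802009000) (.cons (.splS 1 (.cons (.leaf 4 0x800000b00900960400921a) (.cons (.leaf 5
  0x1000000b20900960400a01100921a) (.cons (.leaf 6 0x800000b80900960400921a009821009040) .nil))))
  (.cons (.leaf 4 0x800000a60400a01100921a) (.cons (.leaf 3 0xb802009219009000) .nil)))))
  .nil))))) (.cons (.leaf 2 0x9013009219) (.cons (.leaf 3 0xc01300a821009040) .nil)))) (.cons
  (.leaf 5 0x800000981900921a00b821009040) .nil)))) (.cons (.leaf 4 0x800000a21c009821009040)
  (.cons (.leaf 4 0x800000b21c00a821009040) .nil))))) .nil)))) (.cons (.leaf 2 0xb414009028)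
  .nil)))))⟩

theorem kc_19_15_ok1 : kc_19_15.ok1 = true := by decide +kernel

theorem kc_19_15_ok2 : kc_19_15.ok2 = true := by decide +kernel

/-- A certificate. -/
def kc_20_9 : KCert :=
  ⟨20, 9, [2, 4], [0, 3], [0, 0, 12, 0, -3], [9, 0, 0, -3, 0], 3, 0x3000f00030003,
  0x3000000030003000c, 1, 1, 6, 2, 42, [0, 0, 5200, 0], 6, [1], (.splS 2 (.cons (.splT 1 (.cons
  (.leaf 3 0x800000860c008411) (.cons (.splS 0 (.cons (.splT 0 (.cons (.leaf 2 0x8402009000)
  (.cons (.splS 1 (.cons (.splS 4 (.cons (.splS 3 (.cons (.leaf 6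
  0x800000b41900842100b40900b80a008411) (.cons (.leaf 6 0x800000b81900b42100b402008411009000)
  .nil))) (.cons (.leaf 3 0x8821008411009040) .nil))) (.cons (.leaf 4 0xc40b00b00400b411009020)
  .nil))) .nil))) (.cons (.leaf 2 0xc403009020) .nil))) .nil))) (.cons (.leaf 2 0x8811009030)
  .nil)))⟩

theorem kc_20_9_ok1 : kc_20_9.ok1 = true := by decide +kernel

theorem kc_20_9_ok2 : kc_20_9.ok2 = true := by decide +kernel

/-- A certificate. -/
def kc_20_14 : KCert :=
  ⟨20, 14, [2, 4], [1, 2, 3], [0, 0, -4, 0, 0], [0, -4, 0, 4, 0], 4, 0x40004000000040004,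
  0x40008000400000004, 1, 1, 4, 4, 17, [4, 1, 1, 18], 7, [1], (.splT 1 (.cons (.leaf 2
  0x960c009010) (.cons (.leaf 2 0xa60c009018) (.cons (.splS 4 (.cons (.leaf 2 0x800000a421) (.cons
  (.splT 3 (.cons (.splT 2 (.cons (.leaf 2 0x9414009018) (.cons (.splS 2 (.cons (.splS 0 (.cons
  (.leaf 3 0x800000a80300a411) (.cons (.splT 0 (.cons (.splS 1 (.cons (.leaf 4
  0x800000b40900980200b801) (.cons (.leaf 6 0x800000b809009802009821009040009000) .nil))) (.cons
  (.leaf 3 0xa80200a411009000) (.cons (.splS 3 (.cons (.leaf 6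
  0x800000941900b40400a412009821009040) (.cons (.leaf 6 0x800000981900b40400a41200b821009040)
  .nil))) .nil)))) .nil))) (.cons (.leaf 5 0x800000a81100a41200a821009040) .nil))) (.cons (.leaf 4
  0x800000b414009821009040) .nil)))) (.cons (.leaf 4 0x800000a21c009821009040) (.cons (.leaf 4
  0x800000b21c00a821009040) .nil)))) .nil))) .nil))))⟩

theorem kc_20_14_ok1 : kc_20_14.ok1 = true := by decide +kernel

theorem kc_20_14_ok2 : kc_20_14.ok2 = true := by decide +kernel

/-- A certificate. -/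
def kc_21_4 : KCert :=
  ⟨21, 4, [0, 2, 4], [2], [3, 0, 0, 0, 3], [0, 0, 3, 0, 0], 0, 0x30000000000000003, 0x300000000,
  1, 0, 4, 4, 6, [7, 1, 0, 1], 4, [1], (.splT 0 (.cons (.splS 2 (.cons (.leaf 2 0x8000008413)
  (.cons (.leaf 3 0xa80200a411009000) (.cons (.splS 4 (.cons (.leaf 3 0x1000000a02100c413) (.cons
  (.leaf 2 0x800000a421) (.cons (.leaf 4 0x800000a82100c413009040) .nil)))) .nil)))) .nil))⟩

theorem kc_21_4_ok1 : kc_21_4.ok1 = true := by decide +kernel

theorem kc_21_4_ok2 : kc_21_4.ok2 = true := by decide +kernel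

/-- A certificate. -/
def kc_21_8 : KCert :=
  ⟨21, 8, [0, 2, 4], [3], [8, 0, -4, 0, -8], [0, 0, 0, 4, 0], 8, 0x8000400080010,
  0x8000c000800080008, 1, 0, 8, 4, 84, [85, 0, 85, 0], 8, [1], (.splT 8 (.cons (.splT 7 (.cons
  (.splT 6 (.cons (.splT 5 (.cons (.splT 2 (.cons (.splT 0 (.cons (.splS 2 (.cons (.leaf 2
  0x8000008413) (.cons (.splS 4 (.cons (.leaf 5 0x800000b43a00b83200842300b021) (.cons (.splS 3
  (.cons (.leaf 10 0x800000b03a00b83200b82a01b80200841b01b01900a82300b421019000) (.cons (.splS 5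
  (.cons (.leaf 8 0x800000b44200b83a00b80200b02900b41900b421009000) (.cons (.leaf 9
  0x800000b44200b83a00b80200b42900b419013421009030009000) (.cons (.splS 6 (.cons (.leaf 12
  0x1800001304201383a00b03a00b41200b40201883301303101382900b41901b421009000) (.cons (.leaf 11
  0x1800001b03a01341201340201a83302343102382901341901a82301b421011000) (.cons (.leaf 11
  0x800001b44201b83a01380201383101382901341900a82301b421011050011000) .nil)))) .nil)))) (.cons
  (.leaf 5 0x800000b80200b81900b421009000) .nil)))) (.cons (.splS 5 (.cons (.leaf 9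
  0x800000b03a00b83201341200882b01302900c42300b821011010) (.cons (.leaf 5
  0x800000b41200b42900b821009010) (.cons (.leaf 6 0xb43a00b41200b82900b821009050009010) .nil))))
  .nil)))) (.cons (.leaf 2 0xc413009030) .nil)))) .nil)) .nil)) .nil)) .nil)) .nil)) .nil))⟩

theorem kc_21_8_ok1 : kc_21_8.ok1 = true := by decide +kernel

theorem kc_21_8_ok2 : kc_21_8.ok2 = true := by decide +kernel

/-- A certificate. -/
def kc_23_3 : KCert :=
  ⟨23, 3, [0, 1, 2, 4], [0, 1], [4, 0, 4, 0, -4], [0, -4, 0, 0, 0], 4, 0x4000800040008,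
  0x40004000400000004, 1, 1, 4, 2, 15, [0, 0, 80, 0], 4, [1], (.splS 2 (.cons (.leaf 2
  0x8000008011) (.cons (.leaf 2 0x8000009211) (.cons (.splS 1 (.cons (.leaf 2 0x800000820b) (.cons
  (.splT 0 (.cons (.leaf 2 0x8402009000) (.cons (.leaf 3 0x9402009209009000) .nil))) (.cons (.leaf
  4 0x800000a20b009411009020) (.cons (.leaf 2 0xc20b009028) .nil))))) (.cons (.leaf 2
  0x8811009030) .nil)))))⟩

theorem kc_23_3_ok1 : kc_23_3.ok1 = true := by decide +kernel

theorem kc_23_3_ok2 : kc_23_3.ok2 = true := by decide +kernel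

/-- A certificate. -/
def kc_23_11 : KCert :=
  ⟨23, 11, [0, 1, 2, 4], [0, 1, 3], [5, -10, 20, 0, -15], [15, 10, 0, 5, 0], 15, 0xf002300050014,
  0xf0014000f0019001e, 1, 1, 4, 2, 43, [0, 0, 44, 0], 4, [1], (.splS 2 (.cons (.leaf 2
  0x8000008011) (.cons (.leaf 2 0x8000009211) (.cons (.splS 1 (.cons (.leaf 2 0x800000820b) (.cons
  (.splT 0 (.cons (.leaf 2 0x8402009000) (.cons (.leaf 2 0x9004009209) (.cons (.leaf 4
  0xb402009411009020009000) .nil)))) (.cons (.leaf 4 0x800000a20b009411009020) (.cons (.leaf 4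
  0x800000c20b00b411009020) .nil))))) (.cons (.leaf 2 0x8811009030) .nil)))))⟩

theorem kc_23_11_ok1 : kc_23_11.ok1 = true := by decide +kernel

theorem kc_23_11_ok2 : kc_23_11.ok2 = true := by decide +kernel

/-- A certificate. -/
def kc_24_5 : KCert :=
  ⟨24, 5, [3, 4], [0, 2], [0, 0, 0, -6, 6], [3, 0, 3, 0, 0], 6, 0xc0000000600060006,
  0x60006000900060009, 1, 1, 4, 4, 10, [60, 0, 0, 0], 4, [1], (.splS 4 (.cons (.leaf 2
  0x8621009038) (.cons (.splT 2 (.cons (.leaf 2 0x8000008414) (.cons (.splS 0 (.cons (.leaf 2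
  0xb803009018) (.cons (.splT 0 (.cons (.leaf 2 0x8802009000) (.cons (.splS 2 (.cons (.leaf 3
  0xa61100a004009028) (.cons (.leaf 5 0x800000a81100a00400a821009040) .nil))) .nil))) .nil)))
  .nil))) .nil)))⟩

theorem kc_24_5_ok1 : kc_24_5.ok1 = true := by decide +kernel

theorem kc_24_5_ok2 : kc_24_5.ok2 = true := by decide +kernel

/-- A certificate. -/
def kc_25_6 : KCert :=
  ⟨25, 6, [0, 3, 4], [1, 2], [0, 0, 0, 3, -12], [0, 12, 6, 0, 0], 12, 0xf000c000c000c,
  0xc000c00120018000c, 1, 1, 4, 3, 7, [6, 0, -5, 7], 6, [1], (.splS 0 (.cons (.leaf 2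
  0x8000008603) (.cons (.splT 2 (.cons (.splT 3 (.cons (.splS 1 (.cons (.splT 0 (.cons (.leaf 4
  0x800000960200a009009000) (.cons (.splS 2 (.cons (.leaf 4 0x800000901100a602009000) (.cons
  (.leaf 6 0x800000961100a60200860b00941c009000) (.cons (.leaf 4 0x981100a602009030009000)
  .nil)))) .nil))) (.cons (.splS 3 (.cons (.leaf 3 0x800000901900b00b) (.cons (.leaf 3
  0x961900b00b009030) (.cons (.leaf 3 0x981900b00b009038) .nil)))) (.cons (.leaf 2 0xc60b00941c)
  .nil)))) (.cons (.splT 1 (.cons (.splS 2 (.cons (.leaf 3 0x1000000901100940c) (.cons (.leaf 4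
  0x800000961100940c009028) (.cons (.leaf 4 0x800000981100940c009030) .nil)))) (.cons (.splT 0
  (.cons (.splS 1 (.cons (.leaf 4 0x800000a009009602009000) (.cons (.splS 3 (.cons (.leaf 5
  0x1000000901900a609009602009000) (.cons (.leaf 6 0x800000961900a609009602009030009000) (.cons
  (.leaf 6 0x800000981900a609009602009038009000) .nil)))) (.cons (.leaf 4
  0xa809009602009028009000) .nil)))) (.cons (.splS 2 (.cons (.leaf 4 0x800000901100a602009000)
  (.cons (.leaf 4 0x961100a602009028009000) (.cons (.leaf 4 0x981100a602009030009000) .nil))))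
  .nil))) .nil))) .nil))) (.cons (.leaf 2 0xa214009020) .nil))) (.cons (.leaf 2 0xc603009020)
  .nil))))⟩

theorem kc_25_6_ok1 : kc_25_6.ok1 = true := by decide +kernel

theorem kc_25_6_ok2 : kc_25_6.ok2 = true := by decide +kernel

/-- A certificate. -/
def kc_25_13 : KCert :=
  ⟨25, 13, [0, 3, 4], [0, 2, 3], [3, 0, 0, 6, -3], [-6, 0, 3, -3, 0], 6, 0x3000c000600060009,
  0x60003000900060000, 1, 1, 6, 4, 23, [8, 0, 23, -10], 6, [1], (.splS 4 (.cons (.leaf 2
  0x8000008021) (.cons (.leaf 2 0x800000b621) (.cons (.splS 3 (.cons (.splS 5 (.cons (.leaf 3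
  0x800000862b008821) (.cons (.splT 5 (.cons (.leaf 4 0x800000862a00b629008821) (.cons (.leaf 4
  0x800000a62a00b62900b821) (.cons (.splT 3 (.cons (.leaf 2 0x841c00b62a) (.cons (.splS 2 (.cons
  (.leaf 2 0x861300b62a) (.cons (.splT 0 (.cons (.leaf 2 0x8802009000) (.cons (.leaf 5
  0x800000a80200a61100b629009000) (.cons (.leaf 4 0xb80200b62a00a019009000) .nil)))) (.cons (.leaf
  3 0xc61300b62a00861b) .nil)))) (.cons (.leaf 3 0xb41c00b62a00861b) .nil)))) .nil)))) (.cons
  (.leaf 3 0xc62b008821009048) .nil)))) (.cons (.leaf 3 0xb01b00a821009040) (.cons (.leaf 3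
  0xc01b00b821009040) .nil)))) .nil))))⟩

theorem kc_25_13_ok1 : kc_25_13.ok1 = true := by decide +kernel

theorem kc_25_13_ok2 : kc_25_13.ok2 = true := by decide +kernel

/-- A certificate. -/
def kc_25_21 : KCert :=
  ⟨25, 21, [0, 3, 4], [0, 2, 4], [0, 0, 0, 6, -3], [3, 0, -3, 0, -3], 3, 0x9000300030003,
  0x3000000030006, 1, 1, 6, 3, 20, [6, 2, 6, 31], 6, [1], (.splS 3 (.cons (.leaf 2 0x8000008019)
  (.cons (.splS 2 (.cons (.leaf 3 0x8000008813008619) (.cons (.leaf 3 0x800000b81300a619) (.cons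
  (.splT 1 (.cons (.leaf 2 0x800000840c) (.cons (.splS 0 (.cons (.leaf 2 0x8000008603) (.cons
  (.splT 0 (.cons (.leaf 2 0x8602009000) (.cons (.leaf 2 0xa00400c811) (.cons (.splS 4 (.cons
  (.leaf 5 0x800000a02100c602008619009000) (.cons (.leaf 5 0x800000a62100c60200c619009000) (.cons
  (.leaf 2 0xc82100c004) .nil)))) .nil)))) (.cons (.leaf 2 0xc603009020) .nil)))) (.cons (.leaf 4
  0x800000c40c00a619009030) .nil)))) .nil)))) (.cons (.leaf 2 0x800000c819) .nil))))⟩

theorem kc_25_21_ok1 : kc_25_21.ok1 = true := by decide +kernel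

theorem kc_25_21_ok2 : kc_25_21.ok2 = true := by decide +kernel

/-- A certificate. -/
def kc_26_22 : KCert :=
  ⟨26, 22, [1, 3, 4], [1, 2, 4], [0, 0, 0, -5, -10], [0, 0, -10, 0, -5], 10, 0x5000a000a000a,
  0x5000a0000000a000a, 1, 1, 4, 3, 20, [0, -45, 45, 0], 5, [1], (.splS 3 (.cons (.leaf 2
  0x8000009219) (.cons (.splS 2 (.cons (.splT 2 (.cons (.splS 1 (.cons (.splT 0 (.cons (.leaf 5
  0x800000960200a209009211009000) (.cons (.leaf 3 0xa602009211009000) (.cons (.leaf 4
  0xc602009619009030009000) .nil)))) (.cons (.leaf 4 0xb20b009212009619009030) (.cons (.leaf 4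
  0xc20b00921200a619009030) .nil)))) (.cons (.leaf 5 0x800000a212009211009619009030) (.cons (.leaf
  2 0xc214009030) .nil)))) (.cons (.leaf 4 0x800000b21300a619009030) (.cons (.leaf 2 0xc213009030)
  .nil)))) (.cons (.leaf 2 0x800000c819) .nil))))⟩

theorem kc_26_22_ok1 : kc_26_22.ok1 = true := by decide +kernel

theorem kc_26_22_ok2 : kc_26_22.ok2 = true := by decide +kernel

/-- A certificate. -/
def kc_27_8 : KCert :=
  ⟨27, 8, [0, 1, 3, 4], [3], [60, -60, 0, 0, 15], [0, 0, 0, -60, 0], 60, 0x4b003c003c00000078,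
  0x3c0000003c003c003c, 1, 0, 12, 4, 305, [0, 306, 0, 306], 13, [1], (.splT 12 (.cons (.splT 11
  (.cons (.splT 10 (.cons (.splT 9 (.cons (.splT 8 (.cons (.splT 7 (.cons (.splT 6 (.cons (.splT 5
  (.cons (.splT 0 (.cons (.splS 4 (.cons (.leaf 13
  0x1800000b06200b85a00b85200b84a01384201b83a02383202b82a02322a05882304822301b021) (.cons (.leaf 3
  0xb63a00b221009028) (.cons (.leaf 2 0x800000b621) (.cons (.splS 3 (.cons (.leaf 2 0x800000821b)
  (.cons (.splS 0 (.cons (.leaf 2 0x8000008803) (.cons (.leaf 2 0x9803009008) (.cons (.leaf 3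
  0xb63200b80300b219) (.cons (.splS 8 (.cons (.leaf 5 0x800000b65a00b63a00b04100b821) (.cons
  (.leaf 5 0xb65a00b63a00b24100b821009048) (.cons (.leaf 13
  0x1800000b06200b85a00b85200b84a01b83a02383202b82a02322a0138430ab64104c22301b821) (.cons (.splS 9
  (.cons (.leaf 4 0x800000b23a00824b00b821) (.cons (.leaf 7
  0xb65a00b63a00b83200b24900b84100961b00b821) (.cons (.leaf 7
  0xb23a00b83200b80200b64900b21900b821009000) (.cons (.splS 10 (.cons (.leaf 5
  0x1000001323a00b05100c24b013821) (.cons (.leaf 8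
  0x1800000b83a01b23a01325101424b00b841023821009060) (.cons (.leaf 4 0x800000b23a00b65100b821)
  (.cons (.leaf 6 0x800001323a00b85100c24b013821009070) .nil))))) .nil))))) .nil))))) .nil)))))
  (.cons (.leaf 3 0xb80200b619009000) (.cons (.leaf 4 0x800000c21b00b821009040) .nil)))))
  .nil))))) .nil)) .nil)) .nil)) .nil)) .nil)) .nil)) .nil)) .nil)) .nil))⟩

theorem kc_27_8_ok1 : kc_27_8.ok1 = true := by decide +kernel

theorem kc_27_8_ok2 : kc_27_8.ok2 = true := by decide +kernel

/-- A certificate. -/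
def kc_27_23 : KCert :=
  ⟨27, 23, [0, 1, 3, 4], [0, 1, 2, 4], [3, 2, 0, 0, -3], [-3, 4, -2, 0, -4], 4,
  0x10004000400060007, 0x4000200080001, 1, 1, 4, 3, 16, [0, 0, 17, 0], 5, [1], (.splS 3 (.cons
  (.leaf 2 0x8000008019) (.cons (.leaf 2 0x8000009219) (.cons (.splS 2 (.cons (.leaf 2
  0x8000008213) (.cons (.splT 2 (.cons (.leaf 3 0x8000008212009211) (.cons (.splS 1 (.cons (.splT
  0 (.cons (.leaf 2 0x8602009000) (.cons (.leaf 4 0x800000940400a009009212) (.cons (.leaf 3
  0xa602009211009000) (.cons (.leaf 4 0xc602009619009030009000) .nil))))) (.cons (.leaf 2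
  0x900b009211) (.cons (.leaf 3 0xb00b009619009030) (.cons (.leaf 3 0xc00b00a619009030) .nil)))))
  (.cons (.leaf 5 0x800000a212009211009619009030) (.cons (.leaf 2 0xc214009030) .nil))))) (.cons
  (.leaf 4 0x800000b21300a619009030) (.cons (.leaf 2 0xc213009030) .nil))))) (.cons (.leaf 2
  0x800000c819) .nil)))))⟩

theorem kc_27_23_ok1 : kc_27_23.ok1 = true := by decide +kernel

theorem kc_27_23_ok2 : kc_27_23.ok2 = true := by decide +kernel

/-- A certificate. -/
def kc_28_12 : KCert :=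
  ⟨28, 12, [2, 3, 4], [2, 3], [0, 0, 4, -8, 16], [0, 0, 16, -16, 0], 16, 0x200008001400100010,
  0x100000002000100010, 1, 1, 6, 4, 66, [0, 0, 137, 0], 6, [1], (.splS 4 (.cons (.leaf 2
  0x800000a421) (.cons (.leaf 2 0x800000b621) (.cons (.splS 2 (.cons (.splS 0 (.cons (.leaf 3
  0x800000a80300a411) (.cons (.leaf 2 0xb803009018) (.cons (.splT 5 (.cons (.leaf 3
  0x800000a62c00b821) (.cons (.splT 3 (.cons (.splT 2 (.cons (.splT 6 (.cons (.splT 0 (.cons
  (.leaf 3 0xa80200a411009000) (.cons (.splS 3 (.cons (.leaf 3 0xa41900b802009000) (.cons (.leaf 6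
  0xa61900b80200b62a00a821009040009000) (.cons (.leaf 6 0xa81900b80200b62a00b821009040009000)
  .nil)))) .nil))) (.cons (.leaf 4 0xb43400b63200a821009048) .nil))) (.cons (.leaf 2 0xb414009028)
  .nil))) (.cons (.leaf 4 0xb41c00b62a00a821009040) .nil))) .nil))) .nil)))) (.cons (.leaf 2
  0xb413009028) (.cons (.leaf 4 0x800000c41300a821009040) .nil)))) .nil))))⟩

theorem kc_28_12_ok1 : kc_28_12.ok1 = true := by decide +kernel

theorem kc_28_12_ok2 : kc_28_12.ok2 = true := by decide +kernel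

/-- A certificate. -/
def kc_28_22 : KCert :=
  ⟨28, 22, [2, 3, 4], [1, 2, 4], [0, 0, 5, 15, -15], [0, -15, -15, 0, -20], 20,
  0x50023001900140014, 0x14000500050014, 1, 1, 4, 3, 62, [0, 720, 0, 0], 4, [1], (.splS 3 (.cons
  (.leaf 2 0x800000a419) (.cons (.splS 2 (.cons (.leaf 3 0x800000a813009619) (.cons (.leaf 3
  0x800000b81300a619) (.cons (.splT 2 (.cons (.splS 1 (.cons (.splT 0 (.cons (.leaf 3
  0x960200a409009000) (.cons (.leaf 3 0xa60200c811009000) (.cons (.leaf 4
  0xc602009619009030009000) .nil)))) (.cons (.leaf 4 0x800000b40b009619009030) (.cons (.leaf 4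
  0x800000c40b00a619009030) .nil)))) (.cons (.leaf 5 0x800000a812009811009619009030) (.cons (.leaf
  2 0xc214009030) .nil)))) .nil)))) (.cons (.leaf 2 0x800000c819) .nil))))⟩

theorem kc_28_22_ok1 : kc_28_22.ok1 = true := by decide +kernel

theorem kc_28_22_ok2 : kc_28_22.ok2 = true := by decide +kernel

/-- A certificate. -/
def kc_29_15 : KCert :=
  ⟨29, 15, [0, 2, 3, 4], [0, 1, 2, 3], [4, 0, -4, -4, 0], [-4, 0, 0, 4, 0], 4,
  0x40000000000040008, 0x40008000400040000, 1, 1, 4, 4, 15, [18, 24, -66, -10], 5, [1], (.splS 4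
  (.cons (.leaf 2 0x8000008021) (.cons (.leaf 2 0x800000a421) (.cons (.leaf 2 0x800000b621) (.cons
  (.splS 3 (.cons (.splT 3 (.cons (.leaf 3 0x800000801a009019) (.cons (.splS 2 (.cons (.leaf 2
  0x8000008413) (.cons (.splT 2 (.cons (.leaf 3 0x800000841200a411) (.cons (.leaf 3
  0x10000009414009019) (.cons (.splS 1 (.cons (.leaf 2 0x800000860b) (.cons (.leaf 3
  0x1000000a60b009019) (.cons (.splT 0 (.cons (.leaf 2 0x8802009000) (.cons (.leaf 3
  0x980200b609009000) (.cons (.leaf 3 0xa80200a411009000) (.cons (.leaf 4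
  0x800000b40400a412009019) .nil))))) (.cons (.leaf 4 0x800000c60b009821009040) .nil))))) (.cons
  (.leaf 5 0x800000b41200a411009821009040) .nil))))) (.cons (.leaf 4 0x800000b413009821009040)
  (.cons (.leaf 4 0x800000c41300a821009040) .nil))))) (.cons (.leaf 5
  0x800000a01a009019009821009040) (.cons (.leaf 5 0x800000b01a00901900a821009040) .nil))))) (.cons
  (.leaf 3 0xa01b009821009040) (.cons (.leaf 3 0xb01b00a821009040) (.cons (.leaf 3
  0xc01b00b821009040) .nil))))) .nil)))))⟩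

theorem kc_29_15_ok1 : kc_29_15.ok1 = true := by decide +kernel

theorem kc_29_15_ok2 : kc_29_15.ok2 = true := by decide +kernel

/-- A certificate. -/
def kc_29_17 : KCert :=
  ⟨29, 17, [0, 2, 3, 4], [0, 4], [0, 0, -10, 30, -40], [-20, 0, 0, 0, -20], 40, 0x46001e00280028,
  0x140028002800280014, 1, 1, 8, 5, 187, [0, 768, 0, 0], 9, [1], (.splS 2 (.cons (.leaf 2
  0x8000008613) (.cons (.leaf 2 0xa613009020) (.cons (.splT 3 (.cons (.leaf 2 0x841a009018) (.cons
  (.splT 2 (.cons (.leaf 2 0x8612009010) (.cons (.splT 1 (.cons (.leaf 2 0x800000880c) (.cons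
  (.splS 5 (.cons (.leaf 2 0x8000008029) (.cons (.splS 4 (.cons (.leaf 3 0x8000008623008429)
  (.cons (.leaf 3 0xa623008429009030) (.cons (.splS 7 (.cons (.leaf 3 0x8000008039008429) (.cons
  (.leaf 3 0x800000843900c429) (.cons (.splS 6 (.cons (.leaf 6
  0x800000c03100863900842900c612009010) (.cons (.leaf 5 0xc43100863900a62b00c612009010) (.cons
  (.leaf 6 0x800000c63100863900c42900c612009010) (.cons (.leaf 3 0xc83100c612009010) .nil)))))
  (.cons (.leaf 3 0x800000c839008429) .nil))))) (.cons (.leaf 2 0xc62300a62b) .nil))))) (.cons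
  (.splS 6 (.cons (.leaf 3 0x8000008433008629) (.cons (.splS 8 (.cons (.leaf 3 0x8000008041008629)
  (.cons (.leaf 4 0x844100c43100c612009010) (.cons (.splS 7 (.cons (.leaf 6
  0x800000c03900864100862900c41a009018) (.cons (.leaf 6 0x800000c43900864100c62900c41a009018)
  (.cons (.splS 4 (.cons (.leaf 3 0x8000008823008629) (.cons (.leaf 8
  0x800000a82300c63900864100c43100862900c41a009018) (.cons (.leaf 8
  0x800000b82300c63900864100c43100862900c612009010) (.cons (.splT 0 (.cons (.leaf 8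
  0x860200840200c63900864100c43100c61200c41a011000) (.cons (.leaf 2 0xc00400c821) .nil)))
  .nil))))) (.cons (.leaf 2 0xc83900c01c) .nil))))) (.cons (.leaf 3 0x800000c841008629) .nil)))))
  (.cons (.leaf 3 0x800000b43300c629) (.cons (.leaf 3 0xc83100c612009010) .nil))))) (.cons (.leaf
  2 0x800000c829) .nil))))) .nil))) .nil))) .nil))) (.cons (.leaf 2 0xc613009030) .nil)))))⟩

theorem kc_29_17_ok1 : kc_29_17.ok1 = true := by decide +kernel

theorem kc_29_17_ok2 : kc_29_17.ok2 = true := by decide +kernel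

/-- A certificate. -/
def kc_30_10 : KCert :=
  ⟨30, 10, [1, 2, 3, 4], [1, 3], [0, 0, 10, -5, 10], [0, 5, 0, 0, 0], 5, 0xf0000000f00050005,
  0x500050005000a0005, 1, 1, 4, 2, 25, [120, 0, 0, 0], 4, [1], (.splT 1 (.cons (.splS 2 (.cons
  (.leaf 2 0x8000009211) (.cons (.splS 1 (.cons (.splT 0 (.cons (.leaf 3 0x9402009209009000)
  (.cons (.leaf 3 0xb802009411009000) .nil))) (.cons (.leaf 5 0x800000940900941100920a009020)
  (.cons (.leaf 2 0xb20b009020) (.cons (.leaf 5 0x800000980900b41100920a009020) .nil))))) (.cons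
  (.leaf 2 0x800000b611) (.cons (.splS 1 (.cons (.splT 0 (.cons (.leaf 3 0x9402009209009000)
  (.cons (.leaf 4 0xb402009811009030009000) .nil))) (.cons (.leaf 5
  0x800000940900981100920a009030) (.cons (.leaf 2 0xb20b009020) (.cons (.leaf 5
  0x800000980900b81100920a009030) .nil))))) .nil))))) (.cons (.leaf 2 0xb20c009020) .nil)))⟩

theorem kc_30_10_ok1 : kc_30_10.ok1 = true := by decide +kernel

theorem kc_30_10_ok2 : kc_30_10.ok2 = true := by decide +kernel

/-- Certificates. -/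
def kd1 : List KCert :=
  [kc_2_16, kc_2_20, kc_7_1, kc_7_3, kc_8_20, kc_9_4, kc_9_21, kc_12_8, kc_13_11, kc_13_17,
  kc_13_21, kc_15_1, kc_16_1, kc_16_12, kc_17_2, kc_17_5, kc_18_7, kc_18_9, kc_19_2, kc_19_4,
  kc_19_12, kc_19_15, kc_20_9, kc_20_14, kc_21_4, kc_21_8, kc_23_3, kc_23_11, kc_24_5, kc_25_6,
  kc_25_13, kc_25_21, kc_26_22, kc_27_8, kc_27_23, kc_28_12, kc_28_22, kc_29_15, kc_29_17,
  kc_30_10]

theorem kd1_ok : AllK kd1 :=
  allK_cons kc_2_16_ok1 kc_2_16_ok2 (
  allK_cons kc_2_20_ok1 kc_2_20_ok2 (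
  allK_cons kc_7_1_ok1 kc_7_1_ok2 (
  allK_cons kc_7_3_ok1 kc_7_3_ok2 (
  allK_cons kc_8_20_ok1 kc_8_20_ok2 (
  allK_cons kc_9_4_ok1 kc_9_4_ok2 (
  allK_cons kc_9_21_ok1 kc_9_21_ok2 (
  allK_cons kc_12_8_ok1 kc_12_8_ok2 (
  allK_cons kc_13_11_ok1 kc_13_11_ok2 (
  allK_cons kc_13_17_ok1 kc_13_17_ok2 (
  allK_cons kc_13_21_ok1 kc_13_21_ok2 (
  allK_cons kc_15_1_ok1 kc_15_1_ok2 (
  allK_cons kc_16_1_ok1 kc_16_1_ok2 (
  allK_cons kc_16_12_ok1 kc_16_12_ok2 (
  allK_cons kc_17_2_ok1 kc_17_2_ok2 (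
  allK_cons kc_17_5_ok1 kc_17_5_ok2 (
  allK_cons kc_18_7_ok1 kc_18_7_ok2 (
  allK_cons kc_18_9_ok1 kc_18_9_ok2 (
  allK_cons kc_19_2_ok1 kc_19_2_ok2 (
  allK_cons kc_19_4_ok1 kc_19_4_ok2 (
  allK_cons kc_19_12_ok1 kc_19_12_ok2 (
  allK_cons kc_19_15_ok1 kc_19_15_ok2 (
  allK_cons kc_20_9_ok1 kc_20_9_ok2 (
  allK_cons kc_20_14_ok1 kc_20_14_ok2 (
  allK_cons kc_21_4_ok1 kc_21_4_ok2 (
  allK_cons kc_21_8_ok1 kc_21_8_ok2 (
  allK_cons kc_23_3_ok1 kc_23_3_ok2 (
  allK_cons kc_23_11_ok1 kc_23_11_ok2 (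
  allK_cons kc_24_5_ok1 kc_24_5_ok2 (
  allK_cons kc_25_6_ok1 kc_25_6_ok2 (
  allK_cons kc_25_13_ok1 kc_25_13_ok2 (
  allK_cons kc_25_21_ok1 kc_25_21_ok2 (
  allK_cons kc_26_22_ok1 kc_26_22_ok2 (
  allK_cons kc_27_8_ok1 kc_27_8_ok2 (
  allK_cons kc_27_23_ok1 kc_27_23_ok2 (
  allK_cons kc_28_12_ok1 kc_28_12_ok2 (
  allK_cons kc_28_22_ok1 kc_28_22_ok2 (
  allK_cons kc_29_15_ok1 kc_29_15_ok2 (
  allK_cons kc_29_17_ok1 kc_29_17_ok2 (
  allK_cons kc_30_10_ok1 kc_30_10_ok2 (
  allK_nil))))))))))))))))))))))))))))))))))))))))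

end Pool.Agent.RatRec
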