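import Pool.Agent.Lib_helper86.RatV.KCert

/-!
Packed certificates of unbounded special cases (data).
-/

set_option autoImplicit false
set_option maxRecDepth 100000

namespace Pool.Agent.RatRec

/-- A certificate. -/
def kc_2_1 : KCert :=
  ⟨2, 1, [1], [0], [0, 1, 0, 0, 0], [-1, 0, 0, 0, 0], 1, 0x10001000100020001, 0x10001000100010000,
  0, 0, 4, 1, 1, [0, 0, 0, 0], 4, [1], (.splT 0 (.cons (.leaf 2 0x8202009000) .nil))⟩

theorem kc_2_1_ok1 : kc_2_1.ok1 = true := by decide +kernel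

theorem kc_2_1_ok2 : kc_2_1.ok2 = true := by decide +kernel

/-- A certificate. -/
def kc_3_16 : KCert :=
  ⟨3, 16, [0, 1], [4], [-6, 0, 0, 0, 0], [0, 0, 0, 0, -6], 6, 0x60006000600060000,
  0x6000600060006, 1, 0, 8, 10, 43, [192, 0, 0, 0], 8, [1], (.splT 14 (.cons (.splT 12 (.cons
  (.splT 11 (.cons (.splT 9 (.cons (.splT 8 (.cons (.splT 4 (.cons (.splT 3 (.cons (.splT 2 (.cons
  (.splT 1 (.cons (.splT 0 (.cons (.splS 10 (.cons (.leaf 5 0xc27200c05a00825300c051009090) (.cons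
  (.splS 9 (.cons (.leaf 2 0x800000824b) (.cons (.splS 8 (.cons (.leaf 3 0xc24a008243009068)
  (.cons (.splS 12 (.cons (.leaf 3 0xc24a008263009048) (.cons (.splS 6 (.cons (.leaf 5
  0xc01a00c21200823300c031009010) (.cons (.splS 7 (.cons (.leaf 15
  0xc27200c25a00c24a00c24200c22200c21a00c21200c20a01023b01403900c23100c251009090009068009008)
  (.cons (.splS 4 (.cons (.leaf 12
  0xc27200c05a01401201420a01420201022301402101423901423100c251009090011000) (.cons (.splS 5 (.cons
  (.leaf 16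
  0xc27200c26200c25a02424a01401201420a01420202402901422101423901423100c251009090009080019068011000)
  (.cons (.leaf 16
  0x800000c27200c26200c05a00c24a00c00a00c20201422900c22101423901423100c24100c251009090009080009000)
  .nil))) .nil))) .nil))) .nil))) .nil))) .nil))) .nil))) .nil))) .nil)) .nil)) .nil)) .nil))
  .nil)) .nil)) .nil)) .nil)) .nil)) .nil))⟩

theorem kc_3_16_ok1 : kc_3_16.ok1 = true := by decide +kernel

theorem kc_3_16_ok2 : kc_3_16.ok2 = true := by decide +kernel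

/-- A certificate. -/
def kc_3_24 : KCert :=
  ⟨3, 24, [0, 1], [3, 4], [0, -4, 0, 0, 0], [0, 0, 0, 4, -4], 4, 0x40004000400000004,
  0x8000400040004, 1, 1, 4, 8, 69, [0, 296, 0, 0], 8, [1], (.splS 7 (.cons (.leaf 2 0x800000823b)
  (.cons (.splT 5 (.cons (.splS 8 (.cons (.splT 7 (.cons (.splT 8 (.cons (.splS 6 (.cons (.splT 6
  (.cons (.leaf 6 0x800000b03200823300c03100b23a008243) (.cons (.splS 5 (.cons (.splS 4 (.cons
  (.splT 4 (.cons (.leaf 4 0x800000b02200c021008233) (.cons (.splS 3 (.cons (.splT 3 (.cons (.leaf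
  5 0x800000b01a00c01900c03100b23a) (.cons (.splT 2 (.cons (.leaf 7
  0xb81400b21200c01a01302900c03200b239009010) (.cons (.splT 1 (.cons (.leaf 8
  0x800000b20a00c01200c02100823300c03100b23a009008) (.cons (.leaf 8
  0x800000c20a00c01200b02900823300c03100b23a009008) .nil))) .nil))) .nil))) (.cons (.leaf 3
  0x800000901b00c021) .nil))) .nil))) (.cons (.leaf 3 0x800000902300b029) .nil))) (.cons (.leaf 6
  0x800000b22900823300c03100b23a00b02a) .nil))) .nil))) (.cons (.splT 6 (.cons (.splS 5 (.cons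
  (.leaf 7 0x800000b02901323200c23100b23a01024300b22a) (.cons (.splS 4 (.cons (.splS 3 (.cons
  (.splS 2 (.cons (.splT 2 (.cons (.leaf 4 0x800000b01200c01100b229) (.cons (.splS 1 (.cons (.splT
  1 (.cons (.leaf 9 0x800000b00a00c00900c02101323200c23100b23a01024300b22a) (.cons (.splT 0 (.cons
  (.leaf 5 0xb20200c00a00b01900b229009000) (.cons (.leaf 8
  0x1420201400a01302101322900c23100b23a009030011000) .nil))) .nil))) (.cons (.leaf 7
  0x800000900b00c01101323200c23100b23a010243) .nil))) .nil))) (.cons (.leaf 7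
  0x800001101301401900b22900c23100b23a00b02a) .nil))) (.cons (.leaf 7
  0x800001101b01302100b22900c23100b23a00b02a) .nil))) (.cons (.leaf 3 0x902300b229009030) .nil)))
  .nil))) (.cons (.splS 5 (.cons (.splS 4 (.cons (.splT 4 (.cons (.leaf 7
  0x800001302201402100b02900c23200b22a00b239) (.cons (.splS 3 (.cons (.splT 3 (.cons (.leaf 7
  0x800001301a01401900b02900c23100b23a00b22a) (.cons (.splS 2 (.cons (.splT 2 (.cons (.leaf 5
  0xb81400b02900c03200903300b239) (.cons (.splT 1 (.cons (.splT 0 (.cons (.leaf 11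
  0x800001320201320a01401201401901402100b02900c23100b23a00b22a011000) (.cons (.leaf 8
  0x800001460401401a01402100b02900c23200b22a00b239) .nil))) (.cons (.leaf 3 0xc60c00c02200b029)
  .nil))) .nil))) (.cons (.leaf 3 0x901300c019009033) .nil))) .nil))) (.cons (.leaf 3
  0x800000901b00c021) .nil))) .nil))) (.cons (.leaf 3 0x800000902300b029) .nil))) (.cons (.splS 4
  (.cons (.splS 3 (.cons (.splS 2 (.cons (.splT 2 (.cons (.leaf 4 0x800000b01200c01100b229) (.cons
  (.splS 1 (.cons (.splT 4 (.cons (.splT 3 (.cons (.splT 1 (.cons (.leaf 8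
  0x800000b00a01302200c00901c02100c23200b22a00b239) (.cons (.splT 0 (.cons (.leaf 5
  0xb20200c00a00b01900b229009000) (.cons (.leaf 8
  0x1420201400a01302101322900c23100b23a009030011000) .nil))) .nil))) (.cons (.leaf 4
  0xc61c00b82400c23200b239) .nil))) (.cons (.splT 3 (.cons (.splT 1 (.cons (.leaf 9
  0x800000b00a01301a00c00901401900c02100c23100b23a00b22a) (.cons (.splT 0 (.cons (.leaf 5
  0xb20200c00a00b01900b229009000) (.cons (.leaf 8
  0xc20200c00a00c62400b02100b22900c23100b23a009000) .nil))) .nil))) (.cons (.splT 0 (.cons (.splT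
  1 (.cons (.leaf 10 0x800001300a01320201401901402100b22900c23100b23a00b02a011000) (.cons (.leaf 5
  0xc00a00b20200b01900b229009000) .nil))) (.cons (.leaf 3 0xc60400c01a00b021) .nil))) .nil)))
  .nil))) (.cons (.leaf 3 0x900b00c01100902b) .nil))) .nil))) (.cons (.leaf 7
  0x800001101301401900b22900c23100b23a00b02a) .nil))) (.cons (.leaf 7
  0x800001101b01302100b22900c23100b23a00b02a) .nil))) (.cons (.leaf 3 0x902300b229009030) .nil)))
  .nil))) .nil))) .nil))) (.cons (.splS 6 (.cons (.splT 6 (.cons (.leaf 6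
  0x800000b03200823300c03100b23a008243) (.cons (.splS 5 (.cons (.splS 4 (.cons (.splT 4 (.cons
  (.leaf 4 0x800000b02200c021008233) (.cons (.splS 3 (.cons (.splT 3 (.cons (.leaf 5
  0x800000b01a00c01900c03100b23a) (.cons (.splT 2 (.cons (.leaf 7
  0xb81400b21200c01a01302900c03200b239009010) (.cons (.splT 1 (.cons (.leaf 8
  0x800000b20a00c01200c02100823300c03100b23a009008) (.cons (.leaf 8
  0x800000c20a00c01200b02900823300c03100b23a009008) .nil))) .nil))) .nil))) (.cons (.leaf 3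
  0x800000901b00c021) .nil))) .nil))) (.cons (.leaf 3 0x800000902300b029) .nil))) (.cons (.leaf 6
  0x800000b22900823300c03100b23a00b02a) .nil))) .nil))) (.cons (.splT 6 (.cons (.splS 5 (.cons
  (.leaf 7 0x800000b02901323200c23100b23a01024300b22a) (.cons (.splS 4 (.cons (.splS 3 (.cons
  (.splS 2 (.cons (.splT 2 (.cons (.leaf 4 0x800000b01200c01100b229) (.cons (.splS 1 (.cons (.splT
  1 (.cons (.leaf 9 0x800000b00a00c00900c02101323200c23100b23a01024300b22a) (.cons (.splT 0 (.cons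
  (.leaf 5 0xb20200c00a00b01900b229009000) (.cons (.leaf 8
  0x1420201400a01302101322900c23100b23a009030011000) .nil))) .nil))) (.cons (.leaf 7
  0x800000900b00c01101323200c23100b23a010243) .nil))) .nil))) (.cons (.leaf 7
  0x800001101301401900b22900c23100b23a00b02a) .nil))) (.cons (.leaf 7
  0x800001101b01302100b22900c23100b23a00b02a) .nil))) (.cons (.leaf 3 0x902300b229009030) .nil)))
  .nil))) (.cons (.splS 5 (.cons (.splS 4 (.cons (.splT 4 (.cons (.leaf 7
  0x800001302201402100b02900c23200b22a00b239) (.cons (.splS 3 (.cons (.splT 3 (.cons (.leaf 7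
  0x800001301a01401900b02900c23100b23a00b22a) (.cons (.splS 2 (.cons (.splT 2 (.cons (.leaf 5
  0xb81400b02900c03200903300b239) (.cons (.splT 1 (.cons (.splT 0 (.cons (.leaf 11
  0x800001320201320a01401201401901402100b02900c23100b23a00b22a011000) (.cons (.leaf 8
  0x800001460401401a01402100b02900c23200b22a00b239) .nil))) (.cons (.leaf 3 0xc60c00c02200b029)
  .nil))) .nil))) (.cons (.leaf 3 0x901300c019009033) .nil))) .nil))) (.cons (.leaf 3
  0x800000901b00c021) .nil))) .nil))) (.cons (.leaf 3 0x800000902300b029) .nil))) (.cons (.splS 4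
  (.cons (.splS 3 (.cons (.splS 2 (.cons (.splT 2 (.cons (.leaf 4 0x800000b01200c01100b229) (.cons
  (.splS 1 (.cons (.splT 4 (.cons (.splT 3 (.cons (.splT 1 (.cons (.leaf 8
  0x800000b00a01302200c00901c02100c23200b22a00b239) (.cons (.splT 0 (.cons (.leaf 5
  0xb20200c00a00b01900b229009000) (.cons (.leaf 8
  0x1420201400a01302101322900c23100b23a009030011000) .nil))) .nil))) (.cons (.leaf 4
  0xc61c00b82400c23200b239) .nil))) (.cons (.splT 3 (.cons (.splT 1 (.cons (.leaf 9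
  0x800000b00a01301a00c00901401900c02100c23100b23a00b22a) (.cons (.splT 0 (.cons (.leaf 5
  0xb20200c00a00b01900b229009000) (.cons (.leaf 8
  0xc20200c00a00c62400b02100b22900c23100b23a009000) .nil))) .nil))) (.cons (.splT 0 (.cons (.splT
  1 (.cons (.leaf 10 0x800001300a01320201401901402100b22900c23100b23a00b02a011000) (.cons (.leaf 5
  0xc00a00b20200b01900b229009000) .nil))) (.cons (.leaf 3 0xc60400c01a00b021) .nil))) .nil)))
  .nil))) (.cons (.leaf 3 0x900b00c01100902b) .nil))) .nil))) (.cons (.leaf 7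
  0x800001101301401900b22900c23100b23a00b02a) .nil))) (.cons (.leaf 7
  0x800001101b01302100b22900c23100b23a00b02a) .nil))) (.cons (.leaf 3 0x902300b229009030) .nil)))
  .nil))) .nil))) .nil))) .nil))) (.cons (.leaf 4 0x800000c23a00b041009038) .nil))) (.cons (.splT
  7 (.cons (.splT 8 (.cons (.splS 6 (.cons (.splS 5 (.cons (.splS 4 (.cons (.splT 4 (.cons (.leaf
  4 0x800000b02200c021008233) (.cons (.splS 3 (.cons (.splT 3 (.cons (.leaf 5
  0x800000b01a00c01900c03100b23a) (.cons (.splT 1 (.cons (.splT 2 (.cons (.leaf 6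
  0x800000b01200b20a00c02100b029009008) (.cons (.leaf 8
  0x800000c01200b20a00c02100823300c03100b23a009008) .nil))) (.cons (.leaf 3 0xc60c00c02200b029)
  .nil))) .nil))) (.cons (.leaf 3 0x800000901b00c021) .nil))) .nil))) (.cons (.leaf 3
  0x800000902300b029) .nil))) (.cons (.leaf 6 0x800000b22900823300c03100b23a00b02a) .nil))) (.cons
  (.splT 3 (.cons (.leaf 3 0xb81c00b231009043) (.cons (.splT 6 (.cons (.splS 5 (.cons (.splS 4
  (.cons (.splS 3 (.cons (.splS 2 (.cons (.splT 1 (.cons (.splT 2 (.cons (.leaf 6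
  0x800000b01200b20a00c02100b029009008) (.cons (.splT 0 (.cons (.leaf 11
  0x800001320201401201320a01401901402100b02900c23100b23a00b22a011000) (.cons (.leaf 5
  0x800000c20200b00a014021009000) .nil))) .nil))) (.cons (.leaf 3 0xc00a00b029009008) .nil)))
  (.cons (.leaf 3 0x901300c019009033) .nil))) (.cons (.leaf 4 0x800000c21900c02100c01a) .nil)))
  (.cons (.leaf 3 0x800000902300b029) .nil))) (.cons (.splS 4 (.cons (.splS 3 (.cons (.splS 2
  (.cons (.splT 2 (.cons (.leaf 4 0x800000b01200c01100b229) (.cons (.splS 1 (.cons (.splT 0 (.cons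
  (.splT 1 (.cons (.leaf 10 0x800001300a01320201401901402100b22900c23100b23a00b02a011000) (.cons
  (.leaf 7 0xc00a00b20200c01900b22900b231009043009000) .nil))) (.cons (.leaf 3 0xc60400b02100c01a)
  .nil))) (.cons (.leaf 3 0x900b00c01100902b) .nil))) .nil))) (.cons (.leaf 7
  0x800001101301401900b22900c23100b23a00b02a) .nil))) (.cons (.leaf 8
  0x800001421901302100b22901401a00c23100b23a00b02a) .nil))) (.cons (.leaf 4
  0x902300b22900c61c009038) .nil))) .nil))) (.cons (.splT 4 (.cons (.leaf 4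
  0xb82400c63400904300b239) (.cons (.splS 5 (.cons (.splS 4 (.cons (.splS 3 (.cons (.splS 2 (.cons
  (.splT 2 (.cons (.leaf 5 0xb81400b02900c03200903300b239) (.cons (.splT 1 (.cons (.splT 0 (.cons
  (.leaf 11 0x800001320201320a01401201401901402100b02900c23100b23a00b22a011000) (.cons (.leaf 8
  0x800001460401402100b02900c23201401a00b22a00b239) .nil))) (.cons (.leaf 3 0xc60c00b02900c022)
  .nil))) .nil))) (.cons (.leaf 3 0x901300c019009033) .nil))) (.cons (.leaf 4
  0x800000c21900c02100c01a) .nil))) (.cons (.leaf 4 0x800000c22100b02900c022) .nil))) (.cons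
  (.splS 4 (.cons (.splS 3 (.cons (.splS 2 (.cons (.splT 2 (.cons (.leaf 4
  0x800000b01200c01100b229) (.cons (.splS 1 (.cons (.splT 0 (.cons (.splT 1 (.cons (.leaf 10
  0x800001300a01320201401901402100b22900c23100b23a00b02a011000) (.cons (.leaf 7
  0xc00a00b20200c01900b22900b231009043009000) .nil))) (.cons (.leaf 3 0xc60400b02100c01a) .nil)))
  (.cons (.leaf 3 0x900b00c01100902b) .nil))) .nil))) (.cons (.leaf 7
  0x800001101301401900b22900c23100b23a00b02a) .nil))) (.cons (.leaf 8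
  0x800001321901402100b22900c23201401a00b02a00b239) .nil))) (.cons (.leaf 4
  0x902300b22900c62400c61c) .nil))) .nil))) .nil))) .nil))) .nil))) .nil))) (.cons (.splS 6 (.cons
  (.splS 5 (.cons (.splS 4 (.cons (.splT 4 (.cons (.leaf 4 0x800000b02200c021008233) (.cons (.splS
  3 (.cons (.splT 3 (.cons (.leaf 5 0x800000b01a00c01900c03100b23a) (.cons (.splT 1 (.cons (.splT
  2 (.cons (.leaf 6 0x800000b01200b20a00c02100b029009008) (.cons (.leaf 8
  0x800000c01200b20a00c02100823300c03100b23a009008) .nil))) (.cons (.leaf 3 0xc60c00c02200b029)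
  .nil))) .nil))) (.cons (.leaf 3 0x800000901b00c021) .nil))) .nil))) (.cons (.leaf 3
  0x800000902300b029) .nil))) (.cons (.leaf 6 0x800000b22900823300c03100b23a00b02a) .nil))) (.cons
  (.splT 3 (.cons (.leaf 3 0xb81c00b231009043) (.cons (.splT 6 (.cons (.splS 5 (.cons (.splS 4
  (.cons (.splS 3 (.cons (.splS 2 (.cons (.splT 1 (.cons (.splT 2 (.cons (.leaf 6
  0x800000b01200b20a00c02100b029009008) (.cons (.splT 0 (.cons (.leaf 11
  0x800001320201401201320a01401901402100b02900c23100b23a00b22a011000) (.cons (.leaf 5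
  0x800000c20200b00a014021009000) .nil))) .nil))) (.cons (.leaf 3 0xc00a00b029009008) .nil)))
  (.cons (.leaf 3 0x901300c019009033) .nil))) (.cons (.leaf 4 0x800000c21900c02100c01a) .nil)))
  (.cons (.leaf 3 0x800000902300b029) .nil))) (.cons (.splS 4 (.cons (.splS 3 (.cons (.splS 2
  (.cons (.splT 2 (.cons (.leaf 4 0x800000b01200c01100b229) (.cons (.splS 1 (.cons (.splT 0 (.cons
  (.splT 1 (.cons (.leaf 10 0x800001300a01320201401901402100b22900c23100b23a00b02a011000) (.cons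
  (.leaf 7 0xc00a00b20200c01900b22900b231009043009000) .nil))) (.cons (.leaf 3 0xc60400b02100c01a)
  .nil))) (.cons (.leaf 3 0x900b00c01100902b) .nil))) .nil))) (.cons (.leaf 7
  0x800001101301401900b22900c23100b23a00b02a) .nil))) (.cons (.leaf 8
  0x800001421901302100b22901401a00c23100b23a00b02a) .nil))) (.cons (.leaf 4
  0x902300b22900c61c009038) .nil))) .nil))) (.cons (.splT 4 (.cons (.leaf 4
  0xb82400c63400904300b239) (.cons (.splS 5 (.cons (.splS 4 (.cons (.splS 3 (.cons (.splS 2 (.cons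
  (.splT 2 (.cons (.leaf 5 0xb81400b02900c03200903300b239) (.cons (.splT 1 (.cons (.splT 0 (.cons
  (.leaf 11 0x800001320201320a01401201401901402100b02900c23100b23a00b22a011000) (.cons (.leaf 8
  0x800001460401402100b02900c23201401a00b22a00b239) .nil))) (.cons (.leaf 3 0xc60c00b02900c022)
  .nil))) .nil))) (.cons (.leaf 3 0x901300c019009033) .nil))) (.cons (.leaf 4
  0x800000c21900c02100c01a) .nil))) (.cons (.leaf 4 0x800000c22100b02900c022) .nil))) (.cons
  (.splS 4 (.cons (.splS 3 (.cons (.splS 2 (.cons (.splT 2 (.cons (.leaf 4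
  0x800000b01200c01100b229) (.cons (.splS 1 (.cons (.splT 0 (.cons (.splT 1 (.cons (.leaf 10
  0x800001300a01320201401901402100b22900c23100b23a00b02a011000) (.cons (.leaf 7
  0xc00a00b20200c01900b22900b231009043009000) .nil))) (.cons (.leaf 3 0xc60400b02100c01a) .nil)))
  (.cons (.leaf 3 0x900b00c01100902b) .nil))) .nil))) (.cons (.leaf 7
  0x800001101301401900b22900c23100b23a00b02a) .nil))) (.cons (.leaf 8
  0x800001321901402100b22900c23201401a00b02a00b239) .nil))) (.cons (.leaf 4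
  0x902300b22900c62400c61c) .nil))) .nil))) .nil))) .nil))) .nil))) .nil))) .nil))) (.cons (.leaf
  4 0xc23a00b241009048009038) .nil))) .nil))) (.cons (.leaf 2 0xc62c009048) .nil))) .nil)))⟩

theorem kc_3_24_ok1 : kc_3_24.ok1 = true := by decide +kernel

theorem kc_3_24_ok2 : kc_3_24.ok2 = true := by decide +kernel

/-- A certificate. -/
def kc_4_9 : KCert :=
  ⟨4, 9, [2], [0, 3], [0, 0, 2, 0, 0], [-2, 0, 0, -2, 0], 2, 0x20002000400020002,
  0x20000000200020000, 0, 1, 6, 2, 11, [1, 0, 9, 0], 6, [1], (.splS 4 (.cons (.splS 3 (.cons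
  (.splS 2 (.cons (.splT 0 (.cons (.leaf 2 0x8402009000) (.cons (.leaf 6
  0x800000842100b41900b41100b402009000) .nil))) .nil)) .nil)) .nil))⟩

theorem kc_4_9_ok1 : kc_4_9.ok1 = true := by decide +kernel

theorem kc_4_9_ok2 : kc_4_9.ok2 = true := by decide +kernel

/-- A certificate. -/
def kc_6_11 : KCert :=
  ⟨6, 11, [1, 2], [0, 1, 3], [0, -3, 6, 0, 0], [3, 0, 0, 0, 0], 3, 0x30003000900000003,
  0x30003000300030006, 1, 1, 6, 2, 18, [0, 0, 41, 0], 6, [1], (.splS 2 (.cons (.leaf 2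
  0x8000009211) (.cons (.splS 1 (.cons (.splT 0 (.cons (.leaf 2 0x8402009000) (.cons (.leaf 2
  0x9004009209) (.cons (.splS 3 (.cons (.leaf 2 0x921900b004) (.cons (.leaf 5
  0x800000941900b40200b411009000) .nil))) .nil)))) (.cons (.leaf 4 0x800000a20b009411009020)
  .nil))) .nil)))⟩

theorem kc_6_11_ok1 : kc_6_11.ok1 = true := by decide +kernel

theorem kc_6_11_ok2 : kc_6_11.ok2 = true := by decide +kernel

/-- A certificate. -/
def kc_8_7 : KCert :=
  ⟨8, 7, [3], [0, 1, 2], [0, 0, 0, 2, 0], [-2, -2, -2, 0, 0], 2, 0x20004000200020002,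
  0x20002000000000000, 0, 1, 4, 3, 8, [9, 0, 9, 0], 5, [1], (.splS 3 (.cons (.splS 2 (.cons (.splS
  1 (.cons (.splT 0 (.cons (.leaf 2 0x8602009000) (.cons (.leaf 6
  0x800000961900a609009602009030009000) (.cons (.leaf 6 0x800000a61900961100a602009030009000)
  .nil)))) .nil)) .nil)) .nil))⟩

theorem kc_8_7_ok1 : kc_8_7.ok1 = true := by decide +kernel

theorem kc_8_7_ok2 : kc_8_7.ok2 = true := by decide +kernel

/-- A certificate. -/
def kc_8_16 : KCert :=
  ⟨8, 16, [3], [4], [0, 0, 0, 1, 0], [0, 0, 0, 0, 0], 0, 0x1000000000000, 0x0, 0, 0, 20, 5, 18,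
  [0, 0, 0, 92], 20, [1], (.splT 15 (.cons (.splT 14 (.cons (.splT 13 (.cons (.splT 12 (.cons
  (.splT 11 (.cons (.splT 10 (.cons (.splT 3 (.cons (.splT 2 (.cons (.splT 0 (.cons (.splS 9
  (.cons (.splS 8 (.cons (.splS 7 (.cons (.splS 6 (.cons (.splS 5 (.cons (.splS 4 (.cons (.leaf 20
  0x2000001467a01467205c66a05c66204c65a03c65202464907c6410c46390fc6310dc62906462106461a15c612064602011098049088159010061000)
  .nil)) .nil)) .nil)) .nil)) .nil)) .nil)) .nil)) .nil)) .nil)) .nil)) .nil)) .nil)) .nil))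
  .nil)) .nil))⟩

theorem kc_8_16_ok1 : kc_8_16.ok1 = true := by decide +kernel

theorem kc_8_16_ok2 : kc_8_16.ok2 = true := by decide +kernel

/-- A certificate. -/
def kc_9_23 : KCert :=
  ⟨9, 23, [0, 3], [0, 1, 2, 4], [6, 0, 0, 4, 0], [0, 4, 2, 0, 6], 0, 0x4000000000006,
  0x60000000200040000, 1, 1, 6, 3, 15, [0, 2, -5, 14], 6, [1], (.splS 3 (.cons (.leaf 2
  0x8000008019) (.cons (.splS 4 (.cons (.splS 1 (.cons (.splT 0 (.cons (.leaf 2 0x8602009000)
  (.cons (.leaf 4 0x800000960200a009009000) (.cons (.splS 2 (.cons (.leaf 4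
  0x800000901100a602009000) (.cons (.leaf 5 0x800000961100a00400a619009030) .nil))) (.cons (.leaf
  5 0x800000c60200a021008619009000) .nil))))) (.cons (.leaf 4 0x800000b00b00a021008619) .nil)))
  (.cons (.leaf 3 0xb02300c619009030) .nil))) .nil)))⟩

theorem kc_9_23_ok1 : kc_9_23.ok1 = true := by decide +kernel

theorem kc_9_23_ok2 : kc_9_23.ok2 = true := by decide +kernel

/-- A certificate. -/
def kc_12_17 : KCert :=
  ⟨12, 17, [2, 3], [0, 4], [0, 0, -10, 20, 0], [-20, 0, 0, 0, -20], 20, 0x140028000a00140014,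
  0x14001400140000, 1, 1, 8, 5, 129, [0, 263, 0, 0], 9, [1], (.splT 3 (.cons (.leaf 2
  0x841a009018) (.cons (.splS 2 (.cons (.leaf 2 0xa613009020) (.cons (.splT 2 (.cons (.leaf 2
  0x8612009010) (.cons (.splT 1 (.cons (.leaf 2 0x800000880c) (.cons (.splS 5 (.cons (.splS 4
  (.cons (.leaf 3 0xa623008429009030) (.cons (.splT 4 (.cons (.leaf 3 0x8622008429009020) (.cons
  (.splS 7 (.cons (.leaf 3 0x800000843900c429) (.cons (.splS 6 (.cons (.leaf 5
  0xc43100863900a62b00c612009010) (.cons (.leaf 6 0x800000c63100863900c42900c612009010) .nil)))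
  .nil))) .nil))) .nil))) (.cons (.splT 4 (.cons (.leaf 3 0x8000008824008629) (.cons (.splS 6
  (.cons (.splS 8 (.cons (.leaf 4 0x844100c43100c612009010) (.cons (.splS 7 (.cons (.leaf 6
  0x800000c43900864100c62900c41a009018) (.cons (.splT 6 (.cons (.leaf 8
  0x800000843200c63900864100c43100862900c41a009018) (.cons (.splS 3 (.cons (.splT 7 (.cons (.leaf
  5 0x800000863a00c639008641008629) (.cons (.splS 9 (.cons (.splT 9 (.cons (.leaf 4
  0x800000844a00864100c629) (.cons (.splT 0 (.cons (.leaf 8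
  0x860200840200c63900864100c43100c61200c41a011000) (.cons (.splS 4 (.cons (.leaf 9
  0x800000c42100c60200c63900864100c43100862900c41a009000) (.cons (.leaf 9
  0x800000c62100c40200c63900864100c43100862900c612009000) .nil))) .nil))) .nil))) (.cons (.leaf 4
  0x800000b44b00c641008629) .nil))) .nil))) (.cons (.leaf 7
  0x800000c61900c63900864100c43101441a009018) .nil))) .nil))) .nil))) .nil))) (.cons (.leaf 3
  0x800000b43300c629) .nil))) .nil))) .nil))) .nil))) .nil))) .nil))) .nil)))⟩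

theorem kc_12_17_ok1 : kc_12_17.ok1 = true := by decide +kernel

theorem kc_12_17_ok2 : kc_12_17.ok2 = true := by decide +kernel

/-- A certificate. -/
def kc_14_8 : KCert :=
  ⟨14, 8, [1, 2, 3], [3], [0, -18, 18, 9, 0], [0, 0, 0, -18, 0], 18, 0x12001b002400000012,
  0x120000001200120012, 1, 0, 10, 2, 74, [39, 95, 8, 127], 11, [1], (.splT 7 (.cons (.splT 5
  (.cons (.splT 0 (.cons (.splS 2 (.cons (.leaf 3 0xb62a00b211009018) (.cons (.splS 3 (.cons
  (.splS 4 (.cons (.leaf 4 0x800000b63a00b22100b411) (.cons (.leaf 3 0xb63a00b42100961b) (.cons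
  (.leaf 4 0x800000b62a00b62100b411) .nil)))) (.cons (.leaf 3 0x800000a21b00b411) (.cons (.leaf 3
  0xb40200b619009000) .nil)))) (.cons (.leaf 2 0x800000b611) .nil)))) .nil)) .nil)) .nil))⟩

theorem kc_14_8_ok1 : kc_14_8.ok1 = true := by decide +kernel

theorem kc_14_8_ok2 : kc_14_8.ok2 = true := by decide +kernel

/-- A certificate. -/
def kc_15_20 : KCert :=
  ⟨15, 20, [0, 1, 2, 3], [2, 4], [16, -16, -16, 8, 0], [0, 0, 0, 0, -16], 16,
  0x100018000000000020, 0x10001000100010, 1, 1, 8, 6, 121, [-13, 120, -1, 55], 10, [1], (.splS 3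
  (.cons (.leaf 2 0x800000861b) (.cons (.leaf 2 0x961b009020) (.cons (.leaf 2 0xa61b009028) (.cons
  (.splT 4 (.cons (.splS 6 (.cons (.splT 8 (.cons (.leaf 4 0x1000000a04200c03100a031) (.cons
  (.leaf 3 0xc04200a031009060) .nil))) (.cons (.splS 7 (.cons (.splS 8 (.cons (.splT 5 (.cons
  (.splT 8 (.cons (.leaf 4 0xa04200c23100a231011038) (.cons (.splT 9 (.cons (.leaf 5
  0x800000a64a00c64200a03900a231) (.cons (.leaf 5 0xc64a00c04200a03900a231009068) .nil))) .nil)))
  (.cons (.leaf 2 0xc42c009633) .nil))) (.cons (.leaf 3 0x1104300a039009633) (.cons (.leaf 2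
  0xa04300863b) (.cons (.leaf 3 0xb04300c039009033) .nil))))) (.cons (.leaf 3 0x903b00a231009038)
  (.cons (.leaf 3 0xa03b00a439009633) (.cons (.leaf 3 0xb03b00c231009038) .nil))))) (.cons (.leaf
  2 0x800000a431) (.cons (.splT 8 (.cons (.leaf 5 0x800000a24200c63100a631009048) (.cons (.splS 9
  (.cons (.leaf 4 0x800000864b00c24200a631) (.cons (.leaf 6 0x800000964b00c24200c63100a631009048)
  (.cons (.leaf 5 0x800000a64b00a44900c64200a631) (.cons (.splT 7 (.cons (.splT 10 (.cons (.splS 7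
  (.cons (.leaf 5 0x800000a03900a45200a43a00c631) (.cons (.leaf 4 0x800000a23900a43a00a631) (.cons
  (.splS 5 (.cons (.leaf 2 0x800000822b) (.cons (.splS 4 (.cons (.leaf 3 0x800000a02100a422)
  (.cons (.leaf 6 0x800000a22100c22900a45200c63100a422) (.cons (.splS 8 (.cons (.leaf 5
  0x800000c04100a45200c24200c631) (.cons (.splS 10 (.cons (.leaf 5 0x800000a05100a45200c24200a631)
  (.cons (.leaf 5 0x800000a25101245200a64900c631) (.cons (.splT 5 (.cons (.leaf 6
  0x800000a22a00c22900a43900a45200c631) (.cons (.splT 3 (.cons (.splS 2 (.cons (.leaf 4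
  0x800000861300821300a61a) (.cons (.splT 0 (.cons (.leaf 3 0xa60200c211009000) (.cons (.leaf 7
  0xc60200a61a00a42100c22900a45200c631009000) .nil))) (.cons (.leaf 5
  0x800000a61300a21300a61a012421) (.cons (.leaf 6 0x800000b21300a61a014229012452014631) .nil)))))
  (.cons (.leaf 3 0xc61a00a439009018) .nil))) .nil))) (.cons (.leaf 5
  0x800000a65101245200c64900c631) .nil))))) (.cons (.leaf 4 0x800000c44100c24200c631) (.cons
  (.leaf 7 0x800000c64101245200a64900c242014631009060) .nil))))) (.cons (.leaf 4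
  0x800000a62100a43900a422) .nil))))) (.cons (.leaf 3 0x800000a22b00a439) (.cons (.leaf 4
  0x800000b22b00a631009048) .nil))))) (.cons (.leaf 4 0x800000a63900a43a00c631) .nil))))) (.cons
  (.leaf 4 0xc45400c24200a631009070) .nil))) (.cons (.leaf 4 0xc43c00c64200a631009060) .nil)))
  .nil))))) .nil))) .nil))))) (.cons (.leaf 2 0xc424009040) .nil))) .nil)))))⟩

theorem kc_15_20_ok1 : kc_15_20.ok1 = true := by decide +kernel

theorem kc_15_20_ok2 : kc_15_20.ok2 = true := by decide +kernel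

/-- A certificate. -/
def kc_15_23 : KCert :=
  ⟨15, 23, [0, 1, 2, 3], [0, 1, 2, 4], [4, -2, -6, 8, 0], [4, 0, -2, 0, 2], 6,
  0x6000e00000004000a, 0x8000600040006000a, 1, 1, 6, 3, 25, [0, 26, 0, 0], 7, [1], (.splS 3 (.cons
  (.leaf 2 0x8000008019) (.cons (.leaf 2 0x8000009219) (.cons (.leaf 2 0x800000a419) (.cons (.splS
  2 (.cons (.leaf 2 0x8000008213) (.cons (.splS 4 (.cons (.leaf 3 0x8000008423008619) (.cons
  (.leaf 3 0x800000942300a619) (.cons (.splS 1 (.cons (.leaf 2 0x800000840b) (.cons (.leaf 3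
  0x800000940b009211) (.cons (.splT 0 (.cons (.leaf 2 0x8602009000) (.cons (.leaf 2 0x900400a409)
  (.cons (.leaf 2 0xa004009211) (.cons (.leaf 3 0xc60200a421009000) .nil))))) (.cons (.leaf 4
  0x800000b40b009619009030) .nil))))) (.cons (.leaf 3 0x800000b42300c619) .nil))))) (.cons (.leaf
  4 0x800000a213009619009030) (.cons (.leaf 4 0x800000b21300a619009030) .nil))))) .nil)))))⟩

theorem kc_15_23_ok1 : kc_15_23.ok1 = true := by decide +kernel

theorem kc_15_23_ok2 : kc_15_23.ok2 = true := by decide +kernel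

/-- A certificate. -/
def kc_16_8 : KCert :=
  ⟨16, 8, [4], [3], [0, 0, 0, 0, 1], [0, 0, 0, -1, 0], 1, 0x20001000100010001,
  0x10000000100010001, 0, 0, 6, 10, 15, [0, 0, 35, 0], 6, [1], (.splT 6 (.cons (.splT 5 (.cons
  (.splT 4 (.cons (.splT 2 (.cons (.splT 1 (.cons (.splT 0 (.cons (.splS 11 (.cons (.splS 10
  (.cons (.splS 9 (.cons (.splS 8 (.cons (.splS 7 (.cons (.splS 3 (.cons (.leaf 17
  0x1000002b85902b85102b84902b84105383905b83203382a00b82204b81901381204380a04b802029078011010041008049000)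
  .nil)) .nil)) .nil)) .nil)) .nil)) .nil)) .nil)) .nil)) .nil)) .nil)) .nil)) .nil))⟩

theorem kc_16_8_ok1 : kc_16_8.ok1 = true := by decide +kernel

theorem kc_16_8_ok2 : kc_16_8.ok2 = true := by decide +kernel

/-- A certificate. -/
def kc_16_10 : KCert :=
  ⟨16, 10, [4], [1, 3], [0, 0, 0, 0, 1], [0, -1, 0, -1, 0], 1, 0x20001000100010001,
  0x10000000100000001, 0, 1, 4, 4, 6, [7, 0, 7, 0], 4, [1], (.splS 4 (.cons (.splS 3 (.cons (.splS
  1 (.cons (.splT 0 (.cons (.leaf 6 0x800000982100b809009802009040009000) (.cons (.leaf 6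
  0x800000b82100981900b802009040009000) .nil))) .nil)) .nil)) .nil))⟩

theorem kc_16_10_ok1 : kc_16_10.ok1 = true := by decide +kernel

theorem kc_16_10_ok2 : kc_16_10.ok2 = true := by decide +kernel

/-- A certificate. -/
def kc_17_1 : KCert :=
  ⟨17, 1, [0, 4], [0], [-2, 0, 0, 0, 2], [0, 0, 0, 0, 0], 2, 0x40002000200020000,
  0x20002000200020002, 1, 0, 4, 4, 1, [2, 0, 0, 2], 4, [1], (.splT 0 (.cons (.leaf 2 0x8802009000)
  .nil))⟩

theorem kc_17_1_ok1 : kc_17_1.ok1 = true := by decide +kernel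

theorem kc_17_1_ok2 : kc_17_1.ok2 = true := by decide +kernel

/-- A certificate. -/
def kc_18_6 : KCert :=
  ⟨18, 6, [1, 4], [1, 2], [0, 0, 0, 0, 6], [0, -6, 12, 0, 0], 6, 0xc0006000600060006,
  0x60006001200000006, 1, 1, 4, 4, 33, [71, 0, -71, 0], 4, [1], (.splS 4 (.cons (.leaf 2
  0x8000009221) (.cons (.splT 3 (.cons (.splS 2 (.cons (.splT 2 (.cons (.leaf 2 0x9414009018)
  (.cons (.splT 1 (.cons (.leaf 3 0x800000940c00a211) (.cons (.splS 0 (.cons (.leaf 2
  0x9803009008) (.cons (.splT 0 (.cons (.splS 1 (.cons (.leaf 5 0x800000a20900980200a211009000)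
  (.cons (.leaf 6 0xa80900980200921a009821009040009000) .nil))) (.cons (.leaf 4
  0xa80200a211009018009000) .nil))) .nil))) .nil))) .nil))) (.cons (.leaf 4
  0xc21300921a00a821009040) .nil))) (.cons (.leaf 4 0x800000a21c009821009040) .nil))) .nil)))⟩

theorem kc_18_6_ok1 : kc_18_6.ok1 = true := by decide +kernel

theorem kc_18_6_ok2 : kc_18_6.ok2 = true := by decide +kernel

/-- A certificate. -/
def kc_19_11 : KCert :=
  ⟨19, 11, [0, 1, 4], [0, 1, 3], [-6, -6, 0, 0, 3], [0, 3, 0, 3, 0], 6, 0x90006000600000000,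
  0x60009000600090006, 1, 1, 4, 4, 12, [0, 29, -29, 0], 5, [1], (.splS 4 (.cons (.leaf 2
  0x8000008021) (.cons (.leaf 2 0x8000009221) (.cons (.splS 3 (.cons (.leaf 2 0x800000821b) (.cons
  (.splS 0 (.cons (.leaf 2 0x8000008803) (.cons (.leaf 2 0x9803009008) (.cons (.splT 0 (.cons
  (.leaf 2 0x8802009000) (.cons (.splS 1 (.cons (.leaf 4 0x800000b009009802009000) (.cons (.leaf 2
  0x9209009004) (.cons (.leaf 5 0x800000b809009004009821009040) .nil)))) (.cons (.leaf 2
  0xb004009219) .nil)))) .nil)))) (.cons (.leaf 4 0x800000c21b00b821009040) .nil)))) .nil))))⟩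

theorem kc_19_11_ok1 : kc_19_11.ok1 = true := by decide +kernel

theorem kc_19_11_ok2 : kc_19_11.ok2 = true := by decide +kernel

/-- A certificate. -/
def kc_20_6 : KCert :=
  ⟨20, 6, [2, 4], [1, 2], [0, 0, -7, 0, 0], [0, 7, -7, 0, 0], 7, 0x70007000000070007,
  0x700070000000e0007, 1, 1, 4, 4, 17, [18, 0, 0, -18], 4, [1], (.splS 4 (.cons (.leaf 2
  0x800000a421) (.cons (.splT 3 (.cons (.splS 2 (.cons (.splS 0 (.cons (.leaf 3
  0x800000a80300a411) (.cons (.splT 0 (.cons (.splT 4 (.cons (.splS 3 (.cons (.splT 2 (.cons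
  (.leaf 5 0x10000009414009419009821009040) (.cons (.splS 1 (.cons (.leaf 3 0x800000a80b009419)
  (.cons (.leaf 6 0x980900a412009802009821009040009000) .nil))) .nil))) (.cons (.splT 2 (.cons
  (.leaf 5 0x800000941200981900a411009038) (.cons (.splS 1 (.cons (.leaf 6
  0x940900a412009819009802009038009000) (.cons (.leaf 6 0x980900a412009802009821009040009000)
  .nil))) .nil))) .nil))) (.cons (.splS 3 (.cons (.splT 2 (.cons (.leaf 5
  0x10000009414009419009821009040) (.cons (.splS 1 (.cons (.leaf 3 0x800000a80b009419) (.cons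
  (.leaf 6 0x980900a412009802009821009040009000) .nil))) .nil))) (.cons (.splT 2 (.cons (.leaf 5
  0x800000941200981900a411009038) (.cons (.splS 1 (.cons (.leaf 6
  0x940900a412009819009802009038009000) (.cons (.leaf 6 0x980900a412009802009821009040009000)
  .nil))) .nil))) .nil))) .nil))) (.cons (.leaf 3 0xa80200a411009000) .nil))) .nil))) (.cons
  (.leaf 4 0x800000c41300a821009040) .nil))) (.cons (.leaf 4 0x800000a21c009821009040) .nil)))
  .nil)))⟩

theorem kc_20_6_ok1 : kc_20_6.ok1 = true := by decide +kernel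

theorem kc_20_6_ok2 : kc_20_6.ok2 = true := by decide +kernel

/-- A certificate. -/
def kc_20_11 : KCert :=
  ⟨20, 11, [2, 4], [0, 1, 3], [0, 0, 3, 0, -6], [0, 6, 0, -6, 0], 6, 0x6000900060006,
  0x600000006000c0006, 1, 1, 4, 2, 14, [0, 0, 0, 15], 5, [1], (.splT 1 (.cons (.leaf 2
  0x800000820c) (.cons (.splS 2 (.cons (.splT 0 (.cons (.leaf 2 0x8402009000) (.cons (.splS 1
  (.cons (.leaf 3 0x8000009409009604) (.cons (.leaf 5 0x800000980900980200b411009000) .nil)))
  (.cons (.leaf 3 0xb004009411009020) .nil)))) (.cons (.leaf 2 0x8811009030) .nil))) (.cons (.leaf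
  2 0xb20c009020) .nil))))⟩

theorem kc_20_11_ok1 : kc_20_11.ok1 = true := by decide +kernel

theorem kc_20_11_ok2 : kc_20_11.ok2 = true := by decide +kernel

/-- A certificate. -/
def kc_20_15 : KCert :=
  ⟨20, 15, [2, 4], [0, 1, 2, 3], [0, 0, 8, 0, 12], [-8, -12, 0, 16, 0], 12, 0x18000c0014000c000c,
  0xc001c000c00000004, 1, 1, 4, 4, 57, [248, -248, 0, 0], 4, [1], (.splT 1 (.cons (.leaf 2
  0x800000860c) (.cons (.leaf 2 0x960c009010) (.cons (.leaf 2 0xa60c009018) (.cons (.splS 4 (.cons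
  (.leaf 2 0x800000a421) (.cons (.splT 3 (.cons (.leaf 2 0x800000821c) (.cons (.splT 2 (.cons
  (.leaf 2 0x8000008414) (.cons (.leaf 2 0x9414009018) (.cons (.splS 2 (.cons (.splS 0 (.cons
  (.leaf 3 0x800000a80300a411) (.cons (.splT 0 (.cons (.leaf 2 0x8802009000) (.cons (.splS 1
  (.cons (.leaf 4 0x800000b40900980200b801) (.cons (.leaf 6 0x800000b809009802009821009040009000)
  .nil))) (.cons (.leaf 3 0xa80200a411009000) (.cons (.splS 3 (.cons (.leaf 6
  0x800000941900b40400a412009821009040) (.cons (.leaf 6 0x800000981900b40400a41200b821009040)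
  .nil))) .nil))))) .nil))) (.cons (.leaf 5 0x800000a81100a41200a821009040) .nil))) (.cons (.leaf
  4 0x800000b414009821009040) .nil))))) (.cons (.leaf 4 0x800000a21c009821009040) (.cons (.leaf 4
  0x800000b21c00a821009040) .nil))))) .nil))) .nil)))))⟩

theorem kc_20_15_ok1 : kc_20_15.ok1 = true := by decide +kernel

theorem kc_20_15_ok2 : kc_20_15.ok2 = true := by decide +kernel

/-- A certificate. -/
def kc_21_1 : KCert :=
  ⟨21, 1, [0, 2, 4], [0], [-2, 0, 0, 0, 2], [-2, 0, 0, 0, 0], 2, 0x40002000200020000,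
  0x20002000200020000, 1, 0, 4, 2, 1, [7, 0, 7, 7], 4, [1], (.splT 0 (.cons (.leaf 2 0x8402009000)
  .nil))⟩

theorem kc_21_1_ok1 : kc_21_1.ok1 = true := by decide +kernel

theorem kc_21_1_ok2 : kc_21_1.ok2 = true := by decide +kernel

/-- A certificate. -/
def kc_21_2 : KCert :=
  ⟨21, 2, [0, 2, 4], [1], [0, 0, 4, 0, 0], [0, 4, 0, 0, 0], 0, 0x400000000, 0x40000, 1, 0, 4, 2,
  8, [9, 9, 0, 9], 5, [1], (.splT 0 (.cons (.splS 1 (.cons (.leaf 4 0x8000009402009009009000)
  (.cons (.splS 2 (.cons (.leaf 5 0x10000009402009011009409009000) (.cons (.leaf 5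
  0x8000009802009411009409009000) (.cons (.leaf 6 0x8000009402009811009409009030009000) .nil))))
  (.cons (.leaf 4 0x9402009809009028009000) .nil)))) .nil))⟩

theorem kc_21_2_ok1 : kc_21_2.ok1 = true := by decide +kernel

theorem kc_21_2_ok2 : kc_21_2.ok2 = true := by decide +kernel

/-- A certificate. -/
def kc_22_4 : KCert :=
  ⟨22, 4, [1, 2, 4], [2], [0, -3, 0, 0, 3], [0, 0, 3, 0, 0], 3, 0x60003000300000003,
  0x30003000600030003, 1, 0, 4, 4, 6, [7, 0, 0, 0], 4, [1], (.splT 0 (.cons (.splS 2 (.cons (.leaf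
  2 0x9413009018) (.cons (.leaf 3 0xa80200a411009000) (.cons (.splS 4 (.cons (.leaf 4
  0x800000a22100c413009028) (.cons (.leaf 2 0x800000a421) (.cons (.leaf 4
  0x800000a82100c413009040) .nil)))) .nil)))) .nil))⟩

theorem kc_22_4_ok1 : kc_22_4.ok1 = true := by decide +kernel

theorem kc_22_4_ok2 : kc_22_4.ok2 = true := by decide +kernel

/-- A certificate. -/
def kc_22_14 : KCert :=
  ⟨22, 14, [1, 2, 4], [1, 2, 3], [0, 0, -4, 0, 0], [0, 4, -4, -4, 0], 4, 0x40004000000040004,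
  0x40000000000080004, 1, 1, 4, 4, 13, [0, 72, 0, 0], 5, [1], (.splS 4 (.cons (.leaf 2
  0x8000009221) (.cons (.leaf 2 0x800000a421) (.cons (.splS 3 (.cons (.splT 3 (.cons (.splS 2
  (.cons (.leaf 3 0x8000009413009219) (.cons (.splT 2 (.cons (.leaf 4 0x800000941200a411009219)
  (.cons (.splS 1 (.cons (.splT 0 (.cons (.leaf 5 0x800000980200b20900a411009000) (.cons (.leaf 3
  0xa80200a411009000) (.cons (.leaf 3 0xb802009219009000) .nil)))) (.cons (.leaf 3
  0xa20b00a412009219) (.cons (.leaf 4 0xc20b00a412009821009040) .nil)))) (.cons (.leaf 5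
  0x800000b41200a411009821009040) .nil)))) (.cons (.leaf 4 0x800000c41300a821009040) .nil))))
  (.cons (.leaf 5 0x800000a21a009219009821009040) (.cons (.leaf 5 0x800000b21a00921900a821009040)
  .nil)))) (.cons (.leaf 4 0x800000a21b009821009040) (.cons (.leaf 4 0x800000c21b00b821009040)
  .nil)))) .nil))))⟩

theorem kc_22_14_ok1 : kc_22_14.ok1 = true := by decide +kernel

theorem kc_22_14_ok2 : kc_22_14.ok2 = true := by decide +kernel

/-- A certificate. -/
def kc_23_8 : KCert :=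
  ⟨23, 8, [0, 1, 2, 4], [3], [-5, 0, 5, 0, -5], [0, 0, 0, 0, 0], 5, 0x5000a00050000,
  0x50005000500050005, 1, 0, 10, 8, 26, [0, 0, 0, 57], 11, [1], (.splT 13 (.cons (.splT 12 (.cons
  (.splT 11 (.cons (.splT 10 (.cons (.splT 9 (.cons (.splT 6 (.cons (.splT 4 (.cons (.splT 2
  (.cons (.splT 0 (.cons (.splS 6 (.cons (.leaf 2 0x8000008433) (.cons (.leaf 2 0x9433009038)
  (.cons (.splS 8 (.cons (.leaf 8 0x800000b05a00b85200b84a00884300844300824300b041) (.cons (.splS
  9 (.cons (.leaf 9 0x800000b46a00b86200b05a00b85201084b00824b00b04900b241) (.cons (.leaf 6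
  0xb46200b85a00b24900944300b241009048) (.cons (.leaf 6 0x800000b46200b85a00b449013241009048)
  (.cons (.leaf 5 0xb46200b45a00b84900b241009078) .nil))))) (.cons (.splS 9 (.cons (.leaf 6
  0x800000b05a00b85200884b01024b00b441) (.cons (.splS 7 (.cons (.leaf 2 0x800000823b) (.cons
  (.splS 5 (.cons (.leaf 6 0x800000b82200b41200842b00b029009010) (.cons (.splS 3 (.cons (.leaf 4
  0x800000b82200881b00821b) (.cons (.leaf 5 0xb41200b40200b21900b229009000) (.cons (.leaf 6
  0x800000b81200b40200b419013229009000) (.cons (.leaf 14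
  0x800001346201385a01343200b82201381201340200c21b013819013229023239013249013441011000) .nil)))))
  (.cons (.leaf 12 0x800001346201385a01343200b82200b41201222b00b429023239013249013441009010)
  (.cons (.leaf 10 0xb46200b85a01382201341201382900943b01323900b24900b441011010) .nil))))) (.cons
  (.splS 10 (.cons (.leaf 6 0x800000b46a00b86200b05100a23b00b249) (.cons (.leaf 8
  0x800000b46a00b86200b25100a23b00b24900b441009050) (.cons (.leaf 7
  0x800000b46a00b86200b45101223b013249009050) (.cons (.leaf 6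
  0xb46a00b46200b85100a23b00b249009080) .nil))))) (.cons (.leaf 4 0x800000c23b00b441009050)
  .nil))))) (.cons (.leaf 3 0x800000a24b00b441) (.cons (.leaf 4 0xb45a00c24b00b441009070)
  .nil))))) (.cons (.leaf 3 0xb25a00b841009070) .nil))))) (.cons (.leaf 2 0xc433009050) .nil)))))
  .nil)) .nil)) .nil)) .nil)) .nil)) .nil)) .nil)) .nil)) .nil))⟩

theorem kc_23_8_ok1 : kc_23_8.ok1 = true := by decide +kernel

theorem kc_23_8_ok2 : kc_23_8.ok2 = true := by decide +kernel

/-- A certificate. -/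
def kc_24_23 : KCert :=
  ⟨24, 23, [3, 4], [0, 1, 2, 4], [0, 0, 0, 0, -6], [-3, 3, -6, 0, -3], 6, 0x6000600060006,
  0x30006000000090003, 1, 1, 4, 3, 28, [0, 0, 61, 0], 5, [1], (.splT 2 (.cons (.leaf 2
  0x8000008214) (.cons (.splS 3 (.cons (.splS 2 (.cons (.leaf 4 0x800000961100a619009812) (.cons
  (.splT 1 (.cons (.leaf 2 0x800000840c) (.cons (.leaf 4 0x800000940c009811009030) (.cons (.splT 0
  (.cons (.leaf 2 0x8602009000) (.cons (.splS 1 (.cons (.leaf 5 0x800000a609009404009619009812)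
  (.cons (.leaf 5 0x800000a80900940400a619009812) .nil))) (.cons (.leaf 3 0xa004009811009030)
  (.cons (.leaf 4 0xc602009619009030009000) .nil))))) (.cons (.leaf 4 0x800000c40c00a619009030)
  .nil))))) .nil))) (.cons (.leaf 2 0x800000c819) .nil))) (.cons (.leaf 2 0xa214009020) (.cons
  (.leaf 2 0xc214009030) .nil)))))⟩

theorem kc_24_23_ok1 : kc_24_23.ok1 = true := by decide +kernel

theorem kc_24_23_ok2 : kc_24_23.ok2 = true := by decide +kernel

/-- A certificate. -/
def kc_25_12 : KCert :=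
  ⟨25, 12, [0, 3, 4], [2, 3], [-5, 0, 0, 0, 5], [0, 0, 10, -15, 0], 15, 0x14000f000f000f000a,
  0xf00000019000f000f, 1, 1, 6, 4, 47, [0, 0, 48, 0], 6, [1], (.splS 0 (.cons (.leaf 2
  0x8000008803) (.cons (.leaf 2 0xb803009018) (.cons (.splT 2 (.cons (.splS 4 (.cons (.splT 6
  (.cons (.leaf 4 0x800000a03200882300a021) (.cons (.leaf 3 0x800000b63200a021) .nil))) (.cons
  (.leaf 2 0x800000b621) (.cons (.splT 5 (.cons (.leaf 3 0x800000a62c00b821) (.cons (.splS 2
  (.cons (.leaf 2 0x861300b62a) (.cons (.splT 3 (.cons (.splT 6 (.cons (.splT 0 (.cons (.leaf 4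
  0xa80200a611009028009000) (.cons (.splS 3 (.cons (.leaf 4 0xa01900b80200b62a009000) (.cons
  (.leaf 4 0xa61900b80200b813009000) (.cons (.leaf 6 0xa81900b80200b62a00b821009040009000)
  .nil)))) .nil))) (.cons (.leaf 4 0xb43400b63200a821009048) .nil))) (.cons (.leaf 2 0xb41c00b813)
  .nil))) (.cons (.leaf 4 0xc61300b62a00a821009040) .nil)))) .nil))) .nil)))) (.cons (.leaf 2
  0xb414009028) .nil))) .nil))))⟩

theorem kc_25_12_ok1 : kc_25_12.ok1 = true := by decide +kernel

theorem kc_25_12_ok2 : kc_25_12.ok2 = true := by decide +kernel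

/-- A certificate. -/
def kc_26_4 : KCert :=
  ⟨26, 4, [1, 3, 4], [2], [0, -16, 0, 8, 12], [0, 0, 8, 0, 0], 16, 0x1c0018001000000010,
  0x100010001800100010, 1, 0, 4, 4, 32, [33, 0, 0, 0], 4, [1], (.splT 3 (.cons (.splT 0 (.cons
  (.splS 2 (.cons (.leaf 3 0xa60200a211009000) (.cons (.leaf 4 0xa80200a611009028009000) (.cons
  (.splS 4 (.cons (.leaf 3 0x800000a22100c613) (.cons (.leaf 6
  0x800000a81a01262100c61300c213009038) (.cons (.leaf 6 0x800000a80200a82100a811009040009000)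
  .nil)))) .nil)))) .nil)) .nil))⟩

theorem kc_26_4_ok1 : kc_26_4.ok1 = true := by decide +kernel

theorem kc_26_4_ok2 : kc_26_4.ok2 = true := by decide +kernel

/-- A certificate. -/
def kc_26_8 : KCert :=
  ⟨26, 8, [1, 3, 4], [3], [0, -10, 0, 5, 10], [0, 0, 0, 10, 0], 10, 0x14000f000a0000000a,
  0xa0014000a000a000a, 1, 0, 12, 4, 71, [-5, -121, 110, -2], 12, [1], (.splT 12 (.cons (.splT 11
  (.cons (.splT 10 (.cons (.splT 7 (.cons (.splT 6 (.cons (.splT 5 (.cons (.splT 0 (.cons (.splS 4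
  (.cons (.leaf 3 0xb63a00b221009028) (.cons (.leaf 2 0x800000b621) (.cons (.splS 3 (.cons (.splS
  0 (.cons (.leaf 2 0x9803009008) (.cons (.leaf 3 0xb63200b80300b219) (.cons (.splS 8 (.cons
  (.leaf 5 0xb65a00b63a00b24100b821009048) (.cons (.leaf 12
  0x1000000b26200b85a00b85201383a01b83201b82a01b22a00b843073641034223013821) (.cons (.splS 9
  (.cons (.leaf 7 0xb65a00b63a00b83200b24900b84100961b00b821) (.cons (.leaf 7
  0xb23a00b83200b80200b64900b21900b821009000) (.cons (.splS 10 (.cons (.leaf 8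
  0x1800000b83a01b23a01325101424b00b841023821009060) (.cons (.leaf 4 0x800000b23a00b65100b821)
  (.cons (.leaf 6 0x800001323a00b85100c24b013821009070) .nil)))) .nil)))) .nil)))) .nil)))) (.cons
  (.leaf 3 0xb80200b619009000) (.cons (.leaf 4 0x800000c21b00b821009040) .nil)))) .nil)))) .nil))
  .nil)) .nil)) .nil)) .nil)) .nil)) .nil))⟩

theorem kc_26_8_ok1 : kc_26_8.ok1 = true := by decide +kernel

theorem kc_26_8_ok2 : kc_26_8.ok2 = true := by decide +kernel

/-- A certificate. -/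
def kc_26_21 : KCert :=
  ⟨26, 21, [1, 3, 4], [0, 2, 4], [0, -6, 0, 9, -12], [6, 0, 12, 0, 12], 12, 0x15000c0006000c,
  0x18000c0018000c0012, 1, 1, 6, 3, 17, [88, 0, -88, 88], 6, [1], (.splS 3 (.cons (.leaf 2
  0x8219009020) (.cons (.splS 2 (.cons (.splT 1 (.cons (.leaf 2 0x800000840c) (.cons (.splT 5
  (.cons (.leaf 3 0x800000822a00a619) (.cons (.leaf 5 0x800000a22a00c61900a619009030) (.cons
  (.splS 0 (.cons (.leaf 2 0x9603009008) (.cons (.splT 0 (.cons (.leaf 2 0x8602009000) (.cons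
  (.leaf 3 0xa00400c211008619) (.cons (.splS 4 (.cons (.leaf 5 0x800000a22100c60200a619009000)
  (.cons (.leaf 5 0x800000a62100c60200c619009000) (.cons (.leaf 2 0xc82100c004) .nil)))) .nil))))
  (.cons (.leaf 2 0xc603009020) .nil)))) .nil)))) (.cons (.leaf 4 0x800000c40c00a619009030)
  .nil)))) (.cons (.leaf 4 0x800000b21300a619009030) (.cons (.leaf 2 0xc213009030) .nil)))) (.cons
  (.leaf 2 0x800000c819) .nil))))⟩

theorem kc_26_21_ok1 : kc_26_21.ok1 = true := by decide +kernel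

theorem kc_26_21_ok2 : kc_26_21.ok2 = true := by decide +kernel

/-- A certificate. -/
def kc_27_5 : KCert :=
  ⟨27, 5, [0, 1, 3, 4], [0, 2], [0, -6, 0, -6, 6], [3, 0, 6, 0, 0], 6, 0xc0000000600000006,
  0x60006000c00060009, 1, 1, 4, 4, 7, [7, 2, -5, 6], 4, [1], (.splS 4 (.cons (.leaf 2
  0x8000008021) (.cons (.leaf 2 0x8221009028) (.cons (.leaf 2 0x8621009038) (.cons (.splS 0 (.cons
  (.leaf 2 0x8000008803) (.cons (.leaf 2 0x9803009008) (.cons (.leaf 2 0xb803009018) (.cons (.splT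
  2 (.cons (.leaf 2 0x8000008414) (.cons (.splT 0 (.cons (.leaf 2 0x8802009000) (.cons (.splS 2
  (.cons (.leaf 4 0x800000a01100a802009000) (.cons (.leaf 3 0xa21100a004009018) (.cons (.leaf 3
  0xa61100a004009028) (.cons (.leaf 5 0x800000a81100a00400a821009040) .nil))))) .nil))) .nil)))
  .nil))))) .nil)))))⟩

theorem kc_27_5_ok1 : kc_27_5.ok1 = true := by decide +kernel

theorem kc_27_5_ok2 : kc_27_5.ok2 = true := by decide +kernel

/-- A certificate. -/
def kc_29_6 : KCert :=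
  ⟨29, 6, [0, 2, 3, 4], [1, 2], [-8, 0, -4, 8, -8], [0, 8, 0, 0, 0], 8, 0x10000400080000,
  0x80008000800100008, 1, 1, 4, 3, 15, [0, 0, 80, 0], 5, [1], (.splS 0 (.cons (.leaf 2
  0x8000008603) (.cons (.leaf 2 0xa603009010) (.cons (.splT 2 (.cons (.splS 1 (.cons (.leaf 2
  0x800000840b) (.cons (.splT 0 (.cons (.leaf 3 0x960200a409009000) (.cons (.splS 2 (.cons (.leaf
  4 0x800000901100a602009000) (.cons (.leaf 4 0x941100a60200a60b009000) (.cons (.leaf 4
  0x961100a602009028009000) (.cons (.leaf 4 0x981100a602009030009000) .nil))))) .nil))) (.cons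
  (.splS 3 (.cons (.leaf 3 0x1000000901900b40b) (.cons (.leaf 4 0x800000941900b40b009028) (.cons
  (.leaf 4 0x800000961900b40b009030) (.cons (.leaf 4 0x800000981900b40b009038) .nil))))) (.cons
  (.leaf 2 0xc40b009028) .nil))))) (.cons (.leaf 2 0xa214009020) .nil))) (.cons (.leaf 2
  0xc603009020) .nil)))))⟩

theorem kc_29_6_ok1 : kc_29_6.ok1 = true := by decide +kernel

theorem kc_29_6_ok2 : kc_29_6.ok2 = true := by decide +kernel

/-- A certificate. -/
def kc_29_9 : KCert :=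
  ⟨29, 9, [0, 2, 3, 4], [0, 3], [6, 0, 6, -6, -6], [3, 0, 0, 3, 0], 6, 0xc0006000c,
  0x60009000600060009, 1, 1, 6, 2, 21, [0, 0, 47, -47], 6, [1], (.splS 2 (.cons (.leaf 2
  0x8000008011) (.cons (.splS 0 (.cons (.leaf 2 0x8000008403) (.cons (.splS 4 (.cons (.leaf 3
  0x8000008021008411) (.cons (.splS 3 (.cons (.leaf 4 0x800000861b008421008411) (.cons (.leaf 4
  0x800000a61b00842100b411) (.cons (.splT 0 (.cons (.leaf 2 0x8402009000) (.cons (.leaf 2
  0xb00400b619) .nil))) (.cons (.leaf 4 0x800000c61b00b421008411) .nil))))) (.cons (.leaf 3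
  0x800000b621008411) (.cons (.leaf 3 0x8821008411009040) .nil))))) (.cons (.leaf 2 0xb403009018)
  (.cons (.leaf 2 0xc403009020) .nil))))) (.cons (.leaf 2 0x800000b611) (.cons (.leaf 2
  0x8811009030) .nil)))))⟩

theorem kc_29_9_ok1 : kc_29_9.ok1 = true := by decide +kernel

theorem kc_29_9_ok2 : kc_29_9.ok2 = true := by decide +kernel

/-- A certificate. -/
def kc_29_14 : KCert :=
  ⟨29, 14, [0, 2, 3, 4], [1, 2, 3], [0, 0, -4, -4, 0], [0, 4, 4, 4, 0], 4, 0x40000000000040004,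
  0x40008000800080004, 1, 1, 4, 4, 5, [0, 0, 0, 6], 7, [1], (.splS 0 (.cons (.leaf 2 0x8000008803)
  (.cons (.leaf 2 0xa803009010) (.cons (.leaf 2 0xb803009018) (.cons (.splS 4 (.cons (.splS 3
  (.cons (.splS 2 (.cons (.leaf 2 0x8000008413) (.cons (.splS 1 (.cons (.leaf 2 0x800000860b)
  (.cons (.leaf 3 0x1000000a60b009019) (.cons (.splT 0 (.cons (.leaf 3 0x980200b609009000) (.cons
  (.leaf 3 0xa80200a411009000) (.cons (.leaf 4 0x800000b802009019009000) .nil)))) (.cons (.leaf 3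
  0x1000000c60b009021) .nil))))) (.cons (.leaf 3 0x1000000b413009021) (.cons (.leaf 3
  0x1000000c41300a021) .nil))))) (.cons (.leaf 3 0x800000a01b009021) (.cons (.leaf 3
  0x800000b01b00a021) (.cons (.leaf 3 0x800000c01b00b021) .nil))))) (.cons (.leaf 2 0x800000a421)
  (.cons (.leaf 2 0x800000b621) (.cons (.splS 3 (.cons (.splS 2 (.cons (.leaf 2 0x8000008413)
  (.cons (.splS 1 (.cons (.leaf 2 0x800000860b) (.cons (.leaf 3 0x1000000a60b009019) (.cons (.splT
  0 (.cons (.leaf 3 0x980200b609009000) (.cons (.leaf 3 0xa80200a411009000) (.cons (.leaf 4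
  0x800000b802009019009000) .nil)))) (.cons (.leaf 4 0x800000c60b009821009040) .nil))))) (.cons
  (.leaf 4 0x800000b413009821009040) (.cons (.leaf 4 0x800000c41300a821009040) .nil))))) (.cons
  (.leaf 3 0xa01b009821009040) (.cons (.leaf 3 0xb01b00a821009040) (.cons (.leaf 3
  0xc01b00b821009040) .nil))))) .nil))))) .nil)))))⟩

theorem kc_29_14_ok1 : kc_29_14.ok1 = true := by decide +kernel

theorem kc_29_14_ok2 : kc_29_14.ok2 = true := by decide +kernel

/-- A certificate. -/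
def kc_29_20 : KCert :=
  ⟨29, 20, [0, 2, 3, 4], [2, 4], [16, 0, -12, 4, 0], [0, 0, 4, 0, 8], 12, 0xc00100000000c001c,
  0x14000c0010000c000c, 1, 1, 6, 3, 30, [0, -65, 65, 0], 8, [1], (.splS 0 (.cons (.leaf 2
  0x8000008603) (.cons (.leaf 2 0xa603009010) (.cons (.splS 3 (.cons (.splT 5 (.cons (.leaf 4
  0x1000000a02a00c01900a019) (.cons (.leaf 3 0x800000c82a00a019) .nil))) (.cons (.leaf 2
  0x800000a419) (.cons (.splT 1 (.cons (.splT 5 (.cons (.leaf 4 0xa02a00c61900a619011030) (.cons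
  (.splS 2 (.cons (.leaf 4 0x800000881300c82a00a619) (.cons (.leaf 4 0xa81300c82a00a619009020)
  (.cons (.leaf 3 0x800000b81300a619) (.cons (.splT 0 (.cons (.leaf 3 0xa60200c811009000) (.cons
  (.splS 4 (.cons (.leaf 6 0x800000a02100c60200c82a00a619009000) (.cons (.leaf 3
  0xa42100c602009000) (.cons (.leaf 5 0x800000a62100c60200c619009000) (.cons (.leaf 3
  0xc82100c602009000) .nil))))) .nil))) .nil))))) .nil))) (.cons (.leaf 4
  0x800000c40c00a619009030) .nil))) (.cons (.leaf 2 0x800000c819) .nil))))) (.cons (.leaf 2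
  0xc603009020) .nil)))))⟩

theorem kc_29_20_ok1 : kc_29_20.ok1 = true := by decide +kernel

theorem kc_29_20_ok2 : kc_29_20.ok2 = true := by decide +kernel

/-- A certificate. -/
def kc_29_21 : KCert :=
  ⟨29, 21, [0, 2, 3, 4], [0, 2, 4], [8, 0, 0, 4, -8], [0, 0, -4, 0, -4], 8, 0xc000800080010,
  0x40008000400080008, 1, 1, 6, 3, 22, [49, 0, 0, 49], 6, [1], (.splS 3 (.cons (.leaf 2
  0x8000008019) (.cons (.leaf 2 0x800000a419) (.cons (.splS 4 (.cons (.leaf 3 0x8000008423008619)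
  (.cons (.splS 2 (.cons (.leaf 3 0x8000008813008619) (.cons (.leaf 4 0x800000a81300a421008619)
  (.cons (.leaf 3 0x800000b81300a619) (.cons (.splT 0 (.cons (.leaf 2 0x8602009000) (.cons (.leaf
  2 0xa00400c811) (.cons (.leaf 3 0xc60200a421009000) .nil)))) .nil))))) (.cons (.leaf 3
  0x800000b42300c619) (.cons (.leaf 3 0xc423008619009040) .nil))))) (.cons (.leaf 2 0x800000c819)
  .nil)))))⟩

theorem kc_29_21_ok1 : kc_29_21.ok1 = true := by decide +kernel

theorem kc_29_21_ok2 : kc_29_21.ok2 = true := by decide +kernel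

/-- A certificate. -/
def kc_29_22 : KCert :=
  ⟨29, 22, [0, 2, 3, 4], [1, 2, 4], [-16, 0, 16, 12, -8], [0, 4, 12, 0, -8], 16,
  0x8001c002000100000, 0x80010001c00140010, 1, 1, 4, 3, 29, [0, 63, -63, 0], 4, [1], (.splS 1
  (.cons (.leaf 2 0x800000840b) (.cons (.splT 1 (.cons (.leaf 2 0x940c009010) (.cons (.splS 3
  (.cons (.splS 2 (.cons (.splT 0 (.cons (.leaf 3 0x960200a409009000) (.cons (.leaf 4
  0x800000a20400901100a40a) (.cons (.leaf 4 0x800000c20400901900a40a) .nil)))) (.cons (.leaf 3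
  0x800000a013009019) (.cons (.leaf 3 0x800000b01300a019) (.cons (.leaf 2 0xc01300861b) .nil)))))
  (.cons (.leaf 2 0x800000a419) (.cons (.splT 2 (.cons (.splT 0 (.cons (.leaf 3
  0x960200a409009000) (.cons (.splS 2 (.cons (.leaf 4 0x800000901100a20400a40a) (.cons (.leaf 6
  0x800000941100a20400961900a40a009030) (.cons (.leaf 6 0x800000961100a20400a61900a40a009030)
  (.cons (.leaf 4 0x981100a602009030009000) .nil))))) (.cons (.leaf 4 0xc602009619009030009000)
  .nil)))) (.cons (.leaf 4 0x800000a214009619009030) (.cons (.leaf 2 0xc214009030) .nil)))) (.cons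
  (.leaf 2 0x800000c819) .nil))))) (.cons (.leaf 2 0xc40c009028) .nil)))) (.cons (.leaf 2
  0xb40b009020) (.cons (.leaf 2 0xc40b009028) .nil)))))⟩

theorem kc_29_22_ok1 : kc_29_22.ok1 = true := by decide +kernel

theorem kc_29_22_ok2 : kc_29_22.ok2 = true := by decide +kernel

/-- A certificate. -/
def kc_30_3 : KCert :=
  ⟨30, 3, [1, 2, 3, 4], [0, 1], [0, 0, 4, -4, -4], [0, 4, 0, 0, 0], 4, 0x800040004,
  0x40004000400080004, 1, 1, 4, 2, 7, [10, 6, 14, -2], 4, [1], (.splS 2 (.cons (.leaf 2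
  0x8000009211) (.cons (.splS 1 (.cons (.splT 0 (.cons (.leaf 2 0x8402009000) (.cons (.leaf 3
  0x9402009209009000) .nil))) (.cons (.leaf 4 0x800000a20b009411009020) (.cons (.leaf 2
  0xb20b009020) (.cons (.leaf 2 0xc20b009028) .nil))))) (.cons (.leaf 2 0x8611009028) (.cons
  (.leaf 2 0x8811009030) .nil)))))⟩

theorem kc_30_3_ok1 : kc_30_3.ok1 = true := by decide +kernel

theorem kc_30_3_ok2 : kc_30_3.ok2 = true := by decide +kernel

/-- A certificate. -/
def kc_30_8 : KCert :=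
  ⟨30, 8, [1, 2, 3, 4], [3], [0, -9, 36, 27, -36], [0, 0, 0, 36, 0], 36, 0x3f0048001b0024,
  0x240048002400240024, 1, 0, 10, 2, 147, [0, 0, 608, 0], 10, [1], (.splT 7 (.cons (.splT 6 (.cons
  (.splT 5 (.cons (.splT 0 (.cons (.splS 2 (.cons (.leaf 3 0xb62a00b211009018) (.cons (.splS 3
  (.cons (.splS 4 (.cons (.leaf 4 0x800000b63a00b22100b411) (.cons (.leaf 3 0xb63a00b42100961b)
  (.cons (.leaf 8 0x1000000b23200b82a00b22a01382301b62100981b013411) (.cons (.leaf 5
  0xb63a00b62a00b82100b411009040) .nil))))) (.cons (.leaf 3 0x800000a21b00b411) (.cons (.leaf 3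
  0xb40200b619009000) (.cons (.leaf 4 0xb42a00c21b00b411009040) .nil))))) (.cons (.leaf 2
  0x800000b611) (.cons (.leaf 3 0xb62a00b811009030) .nil))))) .nil)) .nil)) .nil)) .nil))⟩

theorem kc_30_8_ok1 : kc_30_8.ok1 = true := by decide +kernel

theorem kc_30_8_ok2 : kc_30_8.ok2 = true := by decide +kernel

/-- A certificate. -/
def kc_30_11 : KCert :=
  ⟨30, 11, [1, 2, 3, 4], [0, 1, 3], [0, 0, 12, -12, -9], [9, -3, 0, -9, 0], 12,
  0x300000018000c000c, 0xc0003000c00090015, 1, 1, 4, 2, 30, [0, 0, 400, 0], 4, [1], (.splS 2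
  (.cons (.leaf 2 0x8000009211) (.cons (.splS 1 (.cons (.splT 0 (.cons (.leaf 2 0x8402009000)
  (.cons (.leaf 2 0x9004009209) (.cons (.leaf 4 0xb402009411009020009000) .nil)))) (.cons (.leaf 4
  0x800000a20b009411009020) (.cons (.leaf 2 0xb20b009020) (.cons (.leaf 4
  0x800000c20b00b411009020) .nil))))) (.cons (.leaf 2 0x800000b611) (.cons (.leaf 2 0x8811009030)
  .nil)))))⟩

theorem kc_30_11_ok1 : kc_30_11.ok1 = true := by decide +kernel

theorem kc_30_11_ok2 : kc_30_11.ok2 = true := by decide +kernel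

/-- A certificate. -/
def kc_30_23 : KCert :=
  ⟨30, 23, [1, 2, 3, 4], [0, 1, 2, 4], [0, 5, -5, 10, -5], [5, -5, -5, 0, -10], 10,
  0x500140005000f000a, 0xa00050005000f, 1, 1, 4, 3, 33, [0, 34, 0, 0], 4, [1], (.splS 3 (.cons
  (.leaf 2 0x8000009219) (.cons (.leaf 2 0x800000a419) (.cons (.splS 2 (.cons (.splT 2 (.cons
  (.leaf 3 0x8000008212009211) (.cons (.splS 1 (.cons (.leaf 3 0x800000940b009211) (.cons (.splT 0
  (.cons (.leaf 2 0x8602009000) (.cons (.leaf 2 0x900400a409) (.cons (.leaf 3 0xa602009211009000)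
  (.cons (.leaf 4 0xc602009619009030009000) .nil))))) (.cons (.leaf 4 0x800000b40b009619009030)
  (.cons (.leaf 4 0x800000c40b00a619009030) .nil))))) (.cons (.leaf 5
  0x800000a212009211009619009030) (.cons (.leaf 2 0xc214009030) .nil))))) (.cons (.leaf 4
  0x800000a213009619009030) (.cons (.leaf 4 0x800000b21300a619009030) (.cons (.leaf 2
  0xc213009030) .nil))))) (.cons (.leaf 2 0x800000c819) .nil)))))⟩

theorem kc_30_23_ok1 : kc_30_23.ok1 = true := by decide +kernel

theorem kc_30_23_ok2 : kc_30_23.ok2 = true := by decide +kernel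

/-- Certificates. -/
def kd2 : List KCert :=
  [kc_2_1, kc_3_16, kc_3_24, kc_4_9, kc_6_11, kc_8_7, kc_8_16, kc_9_23, kc_12_17, kc_14_8,
  kc_15_20, kc_15_23, kc_16_8, kc_16_10, kc_17_1, kc_18_6, kc_19_11, kc_20_6, kc_20_11, kc_20_15,
  kc_21_1, kc_21_2, kc_22_4, kc_22_14, kc_23_8, kc_24_23, kc_25_12, kc_26_4, kc_26_8, kc_26_21,
  kc_27_5, kc_29_6, kc_29_9, kc_29_14, kc_29_20, kc_29_21, kc_29_22, kc_30_3, kc_30_8, kc_30_11,
  kc_30_23]

theorem kd2_ok : AllK kd2 :=
  allK_cons kc_2_1_ok1 kc_2_1_ok2 (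
  allK_cons kc_3_16_ok1 kc_3_16_ok2 (
  allK_cons kc_3_24_ok1 kc_3_24_ok2 (
  allK_cons kc_4_9_ok1 kc_4_9_ok2 (
  allK_cons kc_6_11_ok1 kc_6_11_ok2 (
  allK_cons kc_8_7_ok1 kc_8_7_ok2 (
  allK_cons kc_8_16_ok1 kc_8_16_ok2 (
  allK_cons kc_9_23_ok1 kc_9_23_ok2 (
  allK_cons kc_12_17_ok1 kc_12_17_ok2 (
  allK_cons kc_14_8_ok1 kc_14_8_ok2 (
  allK_cons kc_15_20_ok1 kc_15_20_ok2 (
  allK_cons kc_15_23_ok1 kc_15_23_ok2 (
  allK_cons kc_16_8_ok1 kc_16_8_ok2 (
  allK_cons kc_16_10_ok1 kc_16_10_ok2 (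
  allK_cons kc_17_1_ok1 kc_17_1_ok2 (
  allK_cons kc_18_6_ok1 kc_18_6_ok2 (
  allK_cons kc_19_11_ok1 kc_19_11_ok2 (
  allK_cons kc_20_6_ok1 kc_20_6_ok2 (
  allK_cons kc_20_11_ok1 kc_20_11_ok2 (
  allK_cons kc_20_15_ok1 kc_20_15_ok2 (
  allK_cons kc_21_1_ok1 kc_21_1_ok2 (
  allK_cons kc_21_2_ok1 kc_21_2_ok2 (
  allK_cons kc_22_4_ok1 kc_22_4_ok2 (
  allK_cons kc_22_14_ok1 kc_22_14_ok2 (
  allK_cons kc_23_8_ok1 kc_23_8_ok2 (
  allK_cons kc_24_23_ok1 kc_24_23_ok2 (
  allK_cons kc_25_12_ok1 kc_25_12_ok2 (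
  allK_cons kc_26_4_ok1 kc_26_4_ok2 (
  allK_cons kc_26_8_ok1 kc_26_8_ok2 (
  allK_cons kc_26_21_ok1 kc_26_21_ok2 (
  allK_cons kc_27_5_ok1 kc_27_5_ok2 (
  allK_cons kc_29_6_ok1 kc_29_6_ok2 (
  allK_cons kc_29_9_ok1 kc_29_9_ok2 (
  allK_cons kc_29_14_ok1 kc_29_14_ok2 (
  allK_cons kc_29_20_ok1 kc_29_20_ok2 (
  allK_cons kc_29_21_ok1 kc_29_21_ok2 (
  allK_cons kc_29_22_ok1 kc_29_22_ok2 (
  allK_cons kc_30_3_ok1 kc_30_3_ok2 (
  allK_cons kc_30_8_ok1 kc_30_8_ok2 (
  allK_cons kc_30_11_ok1 kc_30_11_ok2 (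
  allK_cons kc_30_23_ok1 kc_30_23_ok2 (
  allK_nil)))))))))))))))))))))))))))))))))))))))))

end Pool.Agent.RatRec
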