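import Pool.Agent.Lib_helper86.RatV.KCert

/-!
Packed certificates of unbounded special cases (data).
-/

set_option autoImplicit false
set_option maxRecDepth 100000

namespace Pool.Agent.RatRec

/-- A certificate. -/
def kc_2_8 : KCert :=
  ⟨2, 8, [1], [3], [0, 1, 0, 0, 0], [0, 0, 0, -1, 0], 1, 0x10001000100020001, 0x10000000100010001,
  0, 0, 10, 8, 9, [4, 1, 9, 2], 10, [1], (.splT 13 (.cons (.splT 11 (.cons (.splT 9 (.cons (.splT
  7 (.cons (.splT 2 (.cons (.splT 1 (.cons (.splT 0 (.cons (.splS 10 (.cons (.splS 8 (.cons (.splS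
  6 (.cons (.splS 5 (.cons (.splS 4 (.cons (.leaf 16
  0x1000001326a01325a01325101324a02324102323a03323103322901b22101b21201b20a01b202011080039038019000)
  .nil)) .nil)) .nil)) .nil)) .nil)) .nil)) .nil)) .nil)) .nil)) .nil)) .nil)) .nil))⟩

theorem kc_2_8_ok1 : kc_2_8.ok1 = true := by decide +kernel

theorem kc_2_8_ok2 : kc_2_8.ok2 = true := by decide +kernel

/-- A certificate. -/
def kc_3_1 : KCert :=
  ⟨3, 1, [0, 1], [0], [0, 0, 0, 0, 0], [-2, 0, 0, 0, 0], 2, 0x20002000200020002,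
  0x20002000200020000, 1, 0, 4, 1, 1, [0, 0, 0, 0], 4, [1], (.splT 0 (.cons (.leaf 2 0x8202009000)
  .nil))⟩

theorem kc_3_1_ok1 : kc_3_1.ok1 = true := by decide +kernel

theorem kc_3_1_ok2 : kc_3_1.ok2 = true := by decide +kernel

/-- A certificate. -/
def kc_4_10 : KCert :=
  ⟨4, 10, [2], [1, 3], [0, 0, 1, 0, 0], [0, -1, 0, -1, 0], 1, 0x10001000200010001,
  0x10000000100000001, 0, 1, 6, 2, 5, [6, 0, 6, 0], 6, [1], (.splS 3 (.cons (.splS 2 (.cons (.splS
  1 (.cons (.splT 0 (.cons (.leaf 3 0x8000009409009604) (.cons (.leaf 5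
  0x800000941900b41100b402009000) .nil))) .nil)) .nil)) .nil))⟩

theorem kc_4_10_ok1 : kc_4_10.ok1 = true := by decide +kernel

theorem kc_4_10_ok2 : kc_4_10.ok2 = true := by decide +kernel

/-- A certificate. -/
def kc_5_3 : KCert :=
  ⟨5, 3, [0, 2], [0, 1], [0, 0, 0, 0, 0], [-3, 3, 0, 0, 0], 3, 0x30003000300030003,
  0x30003000300060000, 1, 1, 4, 2, 5, [0, 6, 0, 6], 5, [1], (.splS 2 (.cons (.leaf 2 0x8000008011)
  (.cons (.splS 1 (.cons (.splT 0 (.cons (.leaf 2 0x8402009000) (.cons (.leaf 4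
  0x8000009402009009009000) .nil))) (.cons (.leaf 3 0xa00b009411009020) .nil))) .nil)))⟩

theorem kc_5_3_ok1 : kc_5_3.ok1 = true := by decide +kernel

theorem kc_5_3_ok2 : kc_5_3.ok2 = true := by decide +kernel

/-- A certificate. -/
def kc_7_24 : KCert :=
  ⟨7, 24, [0, 1, 2], [3, 4], [0, 7, -7, 0, 0], [0, 0, 0, 0, 7], 7, 0x700070000000e0007,
  0xe0007000700070007, 1, 1, 4, 9, 78, [-46, -78, 69, 1], 4, [1], (.splS 8 (.cons (.leaf 2
  0x8000008243) (.cons (.splT 5 (.cons (.leaf 2 0xb82c009040) (.cons (.splS 7 (.cons (.leaf 2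
  0x800000843b) (.cons (.splS 6 (.cons (.leaf 3 0x800000843300943b) (.cons (.splS 5 (.cons (.leaf
  5 0x800000b02900943301143b00c42a) (.cons (.leaf 4 0x800000c22900b23100c42a) (.cons (.splT 6
  (.cons (.splT 3 (.cons (.leaf 3 0x800000b81c00b231) (.cons (.splT 2 (.cons (.leaf 3
  0xb81400b23200c429) (.cons (.splS 4 (.cons (.splS 3 (.cons (.splS 2 (.cons (.splT 1 (.cons
  (.leaf 6 0x800000b80c00b02101143301143b00c42a) (.cons (.splT 0 (.cons (.leaf 5
  0xb20200c00a00c01900c429009000) (.cons (.leaf 5 0xc20200c00a00b02100c429009000) .nil))) .nil)))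
  (.cons (.leaf 8 0x800000b21100c01900c01200943300b23100943b00c42a) (.cons (.leaf 8
  0x800000b41100b02100c01200943300b23100943b00c42a) .nil)))) (.cons (.leaf 5
  0x800000901b00b02100943300943b) (.cons (.leaf 2 0xa01b008223) .nil)))) (.cons (.leaf 3
  0x902300c429009038) (.cons (.splS 3 (.cons (.splS 2 (.cons (.splS 1 (.cons (.splT 8 (.cons
  (.leaf 5 0xb24200a02300b23100c239011040) (.cons (.splS 9 (.cons (.leaf 5
  0x800000b04900c242009433009038) (.cons (.leaf 7 0x800000b24900c24200a02300b23100b239011040)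
  (.cons (.leaf 4 0x800000b44900c24200b241) .nil)))) .nil))) (.cons (.leaf 3 0x900b00c01100a023)
  (.cons (.leaf 5 0x800000a20b00c01900c01200b231) .nil)))) (.cons (.leaf 7
  0x800000b21100c01900a02300c01201323100c42a) (.cons (.leaf 8
  0x800000b41100c42100c01201323100943b00c42a009038) .nil)))) (.cons (.leaf 7
  0x800000c21900c42100c01a00b23100943b009038) (.cons (.leaf 3 0xa01b00c429009038) .nil))))
  .nil)))) .nil))) .nil))) (.cons (.leaf 4 0x800000c43200b23100b239) .nil))) .nil)))) (.cons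
  (.splT 4 (.cons (.leaf 2 0xb82400a233) (.cons (.splS 4 (.cons (.splS 3 (.cons (.splS 2 (.cons
  (.splT 3 (.cons (.leaf 4 0xb01a00821300b431009040) (.cons (.splT 0 (.cons (.splT 1 (.cons (.leaf
  6 0xb00a00b20200821300c02100943b009000) (.cons (.splS 5 (.cons (.leaf 5
  0xc02900c00a00b202008213009000) (.cons (.leaf 7 0xc22900c00a00b20200821300b431009040009000)
  (.cons (.leaf 5 0xc42900c00a00b20200c019009000) .nil)))) .nil))) (.cons (.leaf 4
  0xc60400c01a00c02100a233) .nil))) .nil))) (.cons (.splT 7 (.cons (.splS 9 (.cons (.leaf 6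
  0x800000824b00b23a00901300c01900943b) (.cons (.splS 5 (.cons (.splT 3 (.cons (.leaf 3
  0xb81c00b23a00c431) (.cons (.splT 2 (.cons (.leaf 3 0xb01200c029009010) (.cons (.splT 1 (.cons
  (.leaf 5 0xb20a00c01200c02100b431009008) (.cons (.leaf 8
  0xc20a00c01200c02900b23a00901300c01900c431009008) .nil))) .nil))) .nil))) (.cons (.leaf 5
  0x902b00b23a00901300c01900c431) (.cons (.leaf 3 0xa02b00901300c019) .nil)))) (.cons (.leaf 7
  0x800000a24b00b23a00901300c01901143b00b241) .nil)))) (.cons (.leaf 6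
  0x800000c23a00901300c01901143b00b241) .nil))) (.cons (.leaf 4 0x800000a01300c02100943b) .nil))))
  (.cons (.leaf 4 0x800000901b00c02100943b) (.cons (.leaf 2 0xa01b008223) .nil)))) (.cons (.splS 5
  (.cons (.leaf 5 0x800000b02900c22100c02200943b) (.cons (.leaf 6
  0x800000c22900c22100c02200b431009040) (.cons (.leaf 4 0xc42900902300a233009040) .nil)))) (.cons
  (.leaf 3 0xa02300b431009040) .nil)))) .nil))) .nil)))) (.cons (.splT 9 (.cons (.splT 8 (.cons
  (.splT 4 (.cons (.leaf 3 0xb82400b24200c439) (.cons (.splS 9 (.cons (.leaf 3 0x844b00b24200a23b)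
  (.cons (.splS 6 (.cons (.splS 5 (.cons (.splS 4 (.cons (.splS 3 (.cons (.splT 7 (.cons (.leaf 4
  0xb83c00843300b242009050) (.cons (.splT 3 (.cons (.leaf 6 0x800000b01a00c43a00c01900b031009058)
  (.cons (.splT 2 (.cons (.leaf 7 0xb21200c01a00c02900843300b24200c439009010) (.cons (.leaf 7
  0xc21200c01a00843300b03100b24200c439009010) .nil))) .nil))) .nil))) (.cons (.leaf 4
  0x901b00c02100b242009058) (.cons (.leaf 3 0x800000a01b00c029) .nil)))) (.cons (.leaf 4
  0x800000c22100c02900c022) (.cons (.leaf 4 0x800000c42100b03100c022) .nil)))) (.cons (.leaf 4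
  0x800000c22900b03100c02a) (.cons (.leaf 2 0xa02b008233) .nil)))) (.cons (.leaf 3
  0x943300b24200c439) (.cons (.splS 5 (.cons (.splS 4 (.cons (.splS 3 (.cons (.splT 2 (.cons
  (.leaf 3 0xb01200c029009010) (.cons (.splT 1 (.cons (.leaf 5 0xb20a00c01200c02100b431009008)
  (.cons (.leaf 6 0xc20a00c01200c02900b43100a23b009008) .nil))) .nil))) (.cons (.leaf 3
  0x901b00c02100a033) (.cons (.leaf 3 0x800000a01b00c029) .nil)))) (.cons (.leaf 4
  0x800000c22100c02900c022) (.cons (.leaf 3 0xa02300b43100a23b) .nil)))) (.cons (.leaf 3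
  0x902b00b43100a23b) (.cons (.splS 4 (.cons (.splS 3 (.cons (.splS 2 (.cons (.splT 6 (.cons
  (.splT 3 (.cons (.leaf 2 0xb81c00a22b) (.cons (.splT 2 (.cons (.leaf 3 0xb81400b23200c429)
  (.cons (.splS 1 (.cons (.leaf 4 0x820b00c01200b43100a23b) (.cons (.splT 1 (.cons (.leaf 5
  0xb20a00c01200c02100b431009008) (.cons (.splT 0 (.cons (.leaf 8
  0xb20200c20a00c01200c01900c42900b43100a23b009000) (.cons (.leaf 10
  0xc20200c20a00c01200c02100c42900b43100b24200a23b00c439009000) .nil))) .nil))) (.cons (.leaf 4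
  0xa20b00c21200b43100a23b) .nil)))) .nil))) .nil))) (.cons (.leaf 3 0xc63400a02b00b439) .nil)))
  (.cons (.leaf 3 0x901300c01900a02b) (.cons (.leaf 4 0xa01300c02100a02b00a233) .nil)))) (.cons
  (.leaf 5 0x901b00c02100a02b00b24200c439) (.cons (.leaf 4 0xa01b00c42900a23300a23b) .nil))))
  (.cons (.leaf 4 0x902300c42900a23300a23b) (.cons (.leaf 3 0xa02300b43100a23b) .nil)))) .nil))))
  .nil)))) (.cons (.splT 7 (.cons (.leaf 2 0xb83c00a24b) (.cons (.splT 6 (.cons (.splS 6 (.cons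
  (.splS 5 (.cons (.splS 4 (.cons (.splS 3 (.cons (.splT 3 (.cons (.leaf 6
  0x800000b01a00c01900b03100c43a009058) (.cons (.splT 2 (.cons (.leaf 3 0xb81400c02900b032) (.cons
  (.leaf 7 0xc21200c01a00843300b03100b24200c439009010) .nil))) .nil))) (.cons (.leaf 4
  0x901b00c02100b242009058) (.cons (.leaf 3 0x800000a01b00c029) .nil)))) (.cons (.leaf 6
  0x800000b22100c02900c43a00c02200b241) (.cons (.leaf 6 0x800000b42100b03100c43a00c02200b241)
  .nil)))) (.cons (.leaf 4 0x800000c22900b03100c02a) (.cons (.leaf 2 0xa02b008233) .nil)))) (.cons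
  (.leaf 3 0x943300b24200c439) (.cons (.splT 3 (.cons (.leaf 5 0x800000b81c00b43100c43a00b241)
  (.cons (.splS 5 (.cons (.splS 4 (.cons (.splS 3 (.cons (.splT 2 (.cons (.leaf 3
  0xb81400c02900b032) (.cons (.splT 1 (.cons (.leaf 5 0xb20a00c01200c02100b431009008) (.cons
  (.leaf 7 0x800001460c01c02900c23a01402200c42a00b241) .nil))) .nil))) (.cons (.leaf 3
  0x901b00c02100a033) (.cons (.leaf 4 0x800000c41900c02900c01a) .nil)))) (.cons (.leaf 6
  0x800000b22100c02900c43a00c02200b241) (.cons (.leaf 8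
  0x800001342100b02901343101c43a01402200c42a01b241) .nil)))) (.cons (.leaf 7
  0x800001422901343100c23a00c42a00c02a00b241) (.cons (.splS 4 (.cons (.splS 3 (.cons (.splS 2
  (.cons (.splT 2 (.cons (.leaf 3 0xb81400c42900b232) (.cons (.splS 1 (.cons (.leaf 4
  0x820b00c01200b43100a23b) (.cons (.splT 1 (.cons (.leaf 5 0xb20a00c01200c02100b431009008) (.cons
  (.splT 0 (.cons (.leaf 8 0xb20200c20a00c01200c01900c42900b43100a23b009000) (.cons (.leaf 10
  0xc20200c20a00c01200c02100c42900b43100b24200a23b00c439009000) .nil))) .nil))) (.cons (.leaf 9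
  0x800001220b01401201401900c42901343100c23a00c02a00b241) .nil)))) .nil))) (.cons (.leaf 3
  0x901300c01900a02b) (.cons (.leaf 4 0xa01300c02100a02b00a233) .nil)))) (.cons (.leaf 5
  0x901b00c02100a02b00b24200c439) (.cons (.leaf 4 0xa01b00c42900a23300a23b) .nil)))) (.cons (.leaf
  4 0x902300c42900a23300a23b) (.cons (.leaf 3 0xa02300b43100a23b) .nil)))) .nil)))) .nil)))
  .nil)))) (.cons (.leaf 3 0xc63400a24b009058) .nil))) .nil))) .nil)))) .nil))) (.cons (.splS 9
  (.cons (.leaf 4 0x800000b04900c242009040) (.cons (.leaf 4 0xb24900c24200a23b009050) (.cons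
  (.leaf 4 0x800000b44900c24200b241) .nil)))) .nil))) (.cons (.splT 8 (.cons (.splT 4 (.cons
  (.leaf 3 0xb82400b24200c439) (.cons (.splS 9 (.cons (.leaf 3 0x844b00b24200a23b) (.cons (.splS 6
  (.cons (.splS 5 (.cons (.splS 4 (.cons (.splS 3 (.cons (.splT 7 (.cons (.leaf 4
  0xb83c00843300b242009050) (.cons (.splT 3 (.cons (.leaf 6 0x800000b01a00c43a00c01900b031009058)
  (.cons (.splT 2 (.cons (.leaf 7 0xb21200c01a00c02900843300b24200c439009010) (.cons (.leaf 7
  0xc21200c01a00843300b03100b24200c439009010) .nil))) .nil))) .nil))) (.cons (.leaf 4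
  0x901b00c02100b242009058) (.cons (.leaf 3 0x800000a01b00c029) .nil)))) (.cons (.leaf 4
  0x800000c22100c02900c022) (.cons (.leaf 4 0x800000c42100b03100c022) .nil)))) (.cons (.leaf 4
  0x800000c22900b03100c02a) (.cons (.leaf 2 0xa02b008233) .nil)))) (.cons (.leaf 3
  0x943300b24200c439) (.cons (.splS 5 (.cons (.splS 4 (.cons (.splS 3 (.cons (.splT 2 (.cons
  (.leaf 3 0xb01200c029009010) (.cons (.splT 1 (.cons (.leaf 5 0xb20a00c01200c02100b431009008)
  (.cons (.leaf 6 0xc20a00c01200c02900b43100a23b009008) .nil))) .nil))) (.cons (.leaf 3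
  0x901b00c02100a033) (.cons (.leaf 3 0x800000a01b00c029) .nil)))) (.cons (.leaf 4
  0x800000c22100c02900c022) (.cons (.leaf 3 0xa02300b43100a23b) .nil)))) (.cons (.leaf 3
  0x902b00b43100a23b) (.cons (.splS 4 (.cons (.splS 3 (.cons (.splS 2 (.cons (.splT 6 (.cons
  (.splT 3 (.cons (.leaf 2 0xb81c00a22b) (.cons (.splT 2 (.cons (.leaf 3 0xb81400b23200c429)
  (.cons (.splS 1 (.cons (.leaf 4 0x820b00c01200b43100a23b) (.cons (.splT 1 (.cons (.leaf 5
  0xb20a00c01200c02100b431009008) (.cons (.splT 0 (.cons (.leaf 8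
  0xb20200c20a00c01200c01900c42900b43100a23b009000) (.cons (.leaf 10
  0xc20200c20a00c01200c02100c42900b43100b24200a23b00c439009000) .nil))) .nil))) (.cons (.leaf 4
  0xa20b00c21200b43100a23b) .nil)))) .nil))) .nil))) (.cons (.leaf 3 0xc63400a02b00b439) .nil)))
  (.cons (.leaf 3 0x901300c01900a02b) (.cons (.leaf 4 0xa01300c02100a02b00a233) .nil)))) (.cons
  (.leaf 5 0x901b00c02100a02b00b24200c439) (.cons (.leaf 4 0xa01b00c42900a23300a23b) .nil))))
  (.cons (.leaf 4 0x902300c42900a23300a23b) (.cons (.leaf 3 0xa02300b43100a23b) .nil)))) .nil))))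
  .nil)))) (.cons (.splT 7 (.cons (.leaf 2 0xb83c00a24b) (.cons (.splT 6 (.cons (.splS 6 (.cons
  (.splS 5 (.cons (.splS 4 (.cons (.splS 3 (.cons (.splT 3 (.cons (.leaf 6
  0x800000b01a00c01900b03100c43a009058) (.cons (.splT 2 (.cons (.leaf 3 0xb81400c02900b032) (.cons
  (.leaf 7 0xc21200c01a00843300b03100b24200c439009010) .nil))) .nil))) (.cons (.leaf 4
  0x901b00c02100b242009058) (.cons (.leaf 3 0x800000a01b00c029) .nil)))) (.cons (.leaf 6
  0x800000b22100c02900c43a00c02200b241) (.cons (.leaf 6 0x800000b42100b03100c43a00c02200b241)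
  .nil)))) (.cons (.leaf 4 0x800000c22900b03100c02a) (.cons (.leaf 2 0xa02b008233) .nil)))) (.cons
  (.leaf 3 0x943300b24200c439) (.cons (.splT 3 (.cons (.leaf 5 0x800000b81c00b43100c43a00b241)
  (.cons (.splS 5 (.cons (.splS 4 (.cons (.splS 3 (.cons (.splT 2 (.cons (.leaf 3
  0xb81400c02900b032) (.cons (.splT 1 (.cons (.leaf 5 0xb20a00c01200c02100b431009008) (.cons
  (.leaf 7 0x800001460c01c02900c23a01402200c42a00b241) .nil))) .nil))) (.cons (.leaf 3
  0x901b00c02100a033) (.cons (.leaf 4 0x800000c41900c02900c01a) .nil)))) (.cons (.leaf 6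
  0x800000b22100c02900c43a00c02200b241) (.cons (.leaf 8
  0x800001342100b02901343101c43a01402200c42a01b241) .nil)))) (.cons (.leaf 7
  0x800001422901343100c23a00c42a00c02a00b241) (.cons (.splS 4 (.cons (.splS 3 (.cons (.splS 2
  (.cons (.splT 2 (.cons (.leaf 3 0xb81400c42900b232) (.cons (.splS 1 (.cons (.leaf 4
  0x820b00c01200b43100a23b) (.cons (.splT 1 (.cons (.leaf 5 0xb20a00c01200c02100b431009008) (.cons
  (.splT 0 (.cons (.leaf 8 0xb20200c20a00c01200c01900c42900b43100a23b009000) (.cons (.leaf 10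
  0xc20200c20a00c01200c02100c42900b43100b24200a23b00c439009000) .nil))) .nil))) (.cons (.leaf 9
  0x800001220b01401201401900c42901343100c23a00c02a00b241) .nil)))) .nil))) (.cons (.leaf 3
  0x901300c01900a02b) (.cons (.leaf 4 0xa01300c02100a02b00a233) .nil)))) (.cons (.leaf 5
  0x901b00c02100a02b00b24200c439) (.cons (.leaf 4 0xa01b00c42900a23300a23b) .nil)))) (.cons (.leaf
  4 0x902300c42900a23300a23b) (.cons (.leaf 3 0xa02300b43100a23b) .nil)))) .nil)))) .nil)))
  .nil)))) (.cons (.leaf 3 0xc63400a24b009058) .nil))) .nil))) .nil)))) .nil))) (.cons (.splS 9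
  (.cons (.leaf 4 0x800000b04900c242009040) (.cons (.leaf 4 0xb24900c24200a23b009050) (.cons
  (.leaf 4 0x800000b44900c24200b241) .nil)))) .nil))) .nil))) .nil)))) .nil))) (.cons (.leaf 2
  0xa243009050) .nil))))⟩

theorem kc_7_24_ok1 : kc_7_24.ok1 = true := by decide +kernel

theorem kc_7_24_ok2 : kc_7_24.ok2 = true := by decide +kernel

/-- A certificate. -/
def kc_9_16 : KCert :=
  ⟨9, 16, [0, 3], [4], [-6, 0, 0, 0, 0], [0, 0, 0, 0, -6], 6, 0x60006000600060000,
  0x6000600060006, 1, 0, 10, 8, 45, [0, 0, 95, 0], 10, [1], (.splT 14 (.cons (.splT 13 (.cons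
  (.splT 12 (.cons (.splT 11 (.cons (.splT 10 (.cons (.splT 6 (.cons (.splT 5 (.cons (.splT 3
  (.cons (.splT 2 (.cons (.splT 0 (.cons (.splS 8 (.cons (.leaf 5 0xc66200c05a00864300c041009080)
  (.cons (.splS 6 (.cons (.leaf 3 0xc62a008633009028) (.cons (.splS 5 (.cons (.leaf 2
  0x800000862b) (.cons (.splS 4 (.cons (.leaf 5 0xc01a00c60200862300c021009000) (.cons (.splS 7
  (.cons (.leaf 15
  0xc66a00c66200c65a00c65200c63200c62a00c61a00c60201063b01403900c62100c641009088009028009000)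
  (.cons (.splS 10 (.cons (.leaf 12
  0x1467201466a01406200c01a00c60201065301405101463900c621014641011090009000) (.cons (.splS 9
  (.cons (.leaf 16
  0x1467201466a01406202462a00c61a00c61200c60202404901465101463900c621014641011090019028009010009000)
  (.cons (.leaf 18
  0x800000c67200c66a00c06200c62a00c01a00c61200c60201464900c65101463900c62100c63101c641009090009058009010009000)
  .nil))) .nil))) .nil))) .nil))) .nil))) .nil))) .nil))) .nil)) .nil)) .nil)) .nil)) .nil))
  .nil)) .nil)) .nil)) .nil)) .nil))⟩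

theorem kc_9_16_ok1 : kc_9_16.ok1 = true := by decide +kernel

theorem kc_9_16_ok2 : kc_9_16.ok2 = true := by decide +kernel

/-- A certificate. -/
def kc_9_18 : KCert :=
  ⟨9, 18, [0, 3], [1, 4], [0, 0, 0, 9, 0], [0, 9, 0, 0, -9], 9, 0x90012000900090009,
  0x9000900120009, 1, 1, 6, 5, 88, [0, 89, 89, 0], 7, [1], (.splT 4 (.cons (.splS 2 (.cons (.leaf
  2 0x8000008613) (.cons (.splS 5 (.cons (.splS 6 (.cons (.splT 6 (.cons (.splS 4 (.cons (.leaf 5
  0x8000009021009032009029009622) (.cons (.splS 3 (.cons (.splT 2 (.cons (.leaf 6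
  0x800000961200c019009032009029009010) (.cons (.leaf 4 0x800000c612009029009010) .nil))) (.cons
  (.leaf 3 0x800000b01b009029) .nil))) .nil))) (.cons (.leaf 3 0xc032009029009050) .nil))) (.cons
  (.leaf 3 0x800000b03300c029) .nil))) (.cons (.splT 2 (.cons (.splS 0 (.cons (.leaf 3
  0x8603009612009010) (.cons (.splT 5 (.cons (.splS 4 (.cons (.splS 1 (.cons (.splT 0 (.cons
  (.leaf 4 0x9602009009009612009000) (.cons (.leaf 3 0xc002009021009000) .nil))) (.cons (.leaf 3
  0x800000b00b009021) .nil))) (.cons (.splT 3 (.cons (.leaf 3 0x800000981c009621) (.cons (.splS 6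
  (.cons (.splT 6 (.cons (.splS 7 (.cons (.leaf 4 0x8000009039009032009629) (.cons (.splS 3 (.cons
  (.leaf 8 0x800000c01900963901103200c031009612009629009010) (.cons (.leaf 8
  0x1000000c619011639019032014031009612011629009010) .nil))) .nil))) (.cons (.splS 7 (.cons (.leaf
  7 0x800000863b00903900c032009621009629009022) (.cons (.splS 3 (.cons (.splS 1 (.cons (.splT 0
  (.cons (.leaf 4 0x9602009009009612009000) (.cons (.leaf 6 0xc60200c019009621011612011010009000)
  .nil))) (.cons (.leaf 6 0x800000b00b00c019009621009612009010) .nil))) (.cons (.leaf 9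
  0x800001461900963900c031019621011612009629019022011010) .nil))) .nil))) .nil))) (.cons (.splS 7
  (.cons (.leaf 6 0x800000903900b03300962100c629009022) (.cons (.leaf 8
  0x800000963900b03300c63100962100962a014629009022) .nil))) .nil))) .nil))) .nil))) (.cons (.splS
  4 (.cons (.splT 6 (.cons (.leaf 3 0x963200862300c22c) (.cons (.splS 7 (.cons (.leaf 3
  0x863b00c63200c22c) (.cons (.splS 1 (.cons (.splT 0 (.cons (.leaf 4 0x9602009009009612009000)
  (.cons (.leaf 3 0xc002009021009000) .nil))) (.cons (.leaf 3 0x800000b00b009021) .nil))) .nil)))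
  .nil))) (.cons (.splT 3 (.cons (.leaf 3 0x800000981c009621) (.cons (.splS 6 (.cons (.splS 3
  (.cons (.splT 6 (.cons (.leaf 5 0x963200c01900c22c009612009010) (.cons (.splS 7 (.cons (.leaf 7
  0x800000863b00903900c032009621009629009022) (.cons (.splS 1 (.cons (.splT 0 (.cons (.leaf 4
  0x9602009009009612009000) (.cons (.leaf 6 0xc60200c019009621011612011010009000) .nil))) (.cons
  (.leaf 6 0x800000b00b00c019009621009612009010) .nil))) .nil))) .nil))) (.cons (.leaf 3
  0xb01b00863300c22c) .nil))) (.cons (.splS 7 (.cons (.leaf 6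
  0x800000903900b03300962100c629009022) (.cons (.splT 6 (.cons (.leaf 5
  0x800000903200963900c63100c629) (.cons (.splS 3 (.cons (.splS 1 (.cons (.splT 0 (.cons (.leaf 4
  0x9602009009009612009000) (.cons (.leaf 6 0xc60200c019009621011612011010009000) .nil))) (.cons
  (.leaf 6 0x800000b00b00c019009621009612009010) .nil))) (.cons (.leaf 9
  0x800000c61900963900c63101162100961200c629011022009010) .nil))) .nil))) .nil))) .nil))) .nil)))
  .nil))) .nil))) .nil))) (.cons (.leaf 4 0xc612009629009040009010) .nil))) .nil))) .nil))) (.cons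
  (.leaf 2 0xc224009040) .nil)))⟩

theorem kc_9_18_ok1 : kc_9_18.ok1 = true := by decide +kernel

theorem kc_9_18_ok2 : kc_9_18.ok2 = true := by decide +kernel

/-- A certificate. -/
def kc_10_6 : KCert :=
  ⟨10, 6, [1, 3], [1, 2], [0, 0, 0, -4, 0], [0, 4, -4, 0, 0], 4, 0x40000000400040004,
  0x40004000000080004, 1, 1, 4, 3, 13, [0, 0, 0, 14], 6, [1], (.splS 3 (.cons (.leaf 2
  0x8000009219) (.cons (.splS 2 (.cons (.splT 2 (.cons (.splS 1 (.cons (.splT 0 (.cons (.leaf 5
  0x800000960200a209009211009000) (.cons (.leaf 3 0xa602009211009000) .nil))) (.cons (.leaf 4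
  0xb20b009212009619009030) .nil))) (.cons (.leaf 5 0x800000a212009211009619009030) .nil))) (.cons
  (.leaf 4 0x800000b21300a619009030) .nil))) .nil)))⟩

theorem kc_10_6_ok1 : kc_10_6.ok1 = true := by decide +kernel

theorem kc_10_6_ok2 : kc_10_6.ok2 = true := by decide +kernel

/-- A certificate. -/
def kc_10_23 : KCert :=
  ⟨10, 23, [1, 3], [0, 1, 2, 4], [0, -6, 0, -3, 0], [-6, 12, -9, 0, -6], 9, 0x90006000900030009,
  0x30009000000150003, 1, 1, 4, 3, 35, [0, 0, 75, 0], 5, [1], (.splT 2 (.cons (.leaf 2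
  0x8000008214) (.cons (.splS 3 (.cons (.leaf 2 0x8000009219) (.cons (.splS 2 (.cons (.splT 1
  (.cons (.leaf 2 0x800000840c) (.cons (.leaf 3 0x800000940c009211) (.cons (.splT 0 (.cons (.leaf
  2 0x8602009000) (.cons (.splS 1 (.cons (.leaf 5 0x800000a209009602009211009000) (.cons (.leaf 6
  0x800000a609009404009619009212009030) .nil))) (.cons (.leaf 2 0xa004009211) (.cons (.leaf 3
  0xc004009619009030) .nil))))) (.cons (.leaf 4 0x800000c40c00a619009030) .nil))))) (.cons (.leaf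
  5 0x800000961100a619009212009030) .nil))) .nil))) (.cons (.leaf 2 0xa214009020) (.cons (.leaf 2
  0xc214009030) .nil)))))⟩

theorem kc_10_23_ok1 : kc_10_23.ok1 = true := by decide +kernel

theorem kc_10_23_ok2 : kc_10_23.ok2 = true := by decide +kernel

/-- A certificate. -/
def kc_11_7 : KCert :=
  ⟨11, 7, [0, 1, 3], [0, 1, 2], [0, -3, 0, 0, 0], [-3, 3, -3, 0, 0], 3, 0x30003000300000003,
  0x30003000000060000, 1, 1, 4, 3, 18, [0, 0, 41, 0], 5, [1], (.splS 3 (.cons (.leaf 2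
  0x8000008019) (.cons (.leaf 2 0x8000009219) (.cons (.splS 2 (.cons (.leaf 2 0x8000008213) (.cons
  (.splT 2 (.cons (.leaf 3 0x8000008212009211) (.cons (.splS 1 (.cons (.splT 0 (.cons (.leaf 2
  0x8602009000) (.cons (.leaf 4 0x800000940400a009009212) (.cons (.leaf 2 0xa004009211) .nil))))
  (.cons (.leaf 2 0x900b009211) (.cons (.leaf 3 0xb00b009619009030) .nil)))) (.cons (.leaf 5
  0x800000a212009211009619009030) .nil)))) (.cons (.leaf 4 0x800000b21300a619009030) .nil))))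
  .nil))))⟩

theorem kc_11_7_ok1 : kc_11_7.ok1 = true := by decide +kernel

theorem kc_11_7_ok2 : kc_11_7.ok2 = true := by decide +kernel

/-- A certificate. -/
def kc_12_7 : KCert :=
  ⟨12, 7, [2, 3], [0, 1, 2], [0, 0, -6, 8, 0], [4, 4, 2, 0, 0], 6, 0x6000e000000060006,
  0x600060008000a000a, 1, 1, 4, 3, 21, [0, 47, 0, 0], 4, [1], (.splT 2 (.cons (.leaf 2
  0x8000008214) (.cons (.splS 3 (.cons (.leaf 2 0x800000a419) (.cons (.splS 1 (.cons (.splT 0
  (.cons (.leaf 2 0x8602009000) (.cons (.leaf 2 0x900400a409) (.cons (.splS 2 (.cons (.leaf 5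
  0x800000941100a004009619009030) (.cons (.leaf 5 0x800000961100a00400a619009030) .nil))) .nil))))
  (.cons (.leaf 4 0x800000b40b009619009030) .nil))) .nil))) (.cons (.leaf 2 0xa214009020)
  .nil))))⟩

theorem kc_12_7_ok1 : kc_12_7.ok1 = true := by decide +kernel

theorem kc_12_7_ok2 : kc_12_7.ok2 = true := by decide +kernel

/-- A certificate. -/
def kc_12_10 : KCert :=
  ⟨12, 10, [2, 3], [1, 3], [0, 0, 15, -10, 0], [0, 20, 0, 15, 0], 10, 0xa00000019000a000a,
  0xa0019000a001e000a, 1, 1, 4, 2, 22, [0, 0, -49, 0], 5, [1], (.splS 2 (.cons (.splS 1 (.cons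
  (.leaf 3 0x800000a60b009411) (.cons (.splT 0 (.cons (.leaf 3 0x940200b609009000) (.cons (.leaf 4
  0xb402009411009020009000) .nil))) .nil))) (.cons (.leaf 2 0x800000b611) .nil)))⟩

theorem kc_12_10_ok1 : kc_12_10.ok1 = true := by decide +kernel

theorem kc_12_10_ok2 : kc_12_10.ok2 = true := by decide +kernel

/-- A certificate. -/
def kc_12_11 : KCert :=
  ⟨12, 11, [2, 3], [0, 1, 3], [0, 0, 6, -6, 0], [3, -3, 0, -3, 0], 6, 0x60000000c00060006,
  0x60003000600030009, 1, 1, 6, 2, 23, [0, 0, 330, 0], 6, [1], (.splS 2 (.cons (.splS 1 (.cons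
  (.leaf 3 0x800000a60b009411) (.cons (.splT 0 (.cons (.leaf 2 0x8402009000) (.cons (.leaf 2
  0x900400b609) (.cons (.splS 3 (.cons (.leaf 5 0x800000941900b40200b411009000) (.cons (.leaf 2
  0xb61900b004) .nil))) .nil)))) .nil))) (.cons (.leaf 2 0x800000b611) .nil)))⟩

theorem kc_12_11_ok1 : kc_12_11.ok1 = true := by decide +kernel

theorem kc_12_11_ok2 : kc_12_11.ok2 = true := by decide +kernel

/-- A certificate. -/
def kc_14_23 : KCert :=
  ⟨14, 23, [1, 2, 3], [0, 1, 2, 4], [0, -8, -4, 12, 0], [4, 0, 16, 0, 8], 8, 0x80014000400000008,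
  0x10000800180008000c, 1, 1, 6, 3, 33, [0, 0, 0, 34], 6, [1], (.splT 1 (.cons (.leaf 2
  0x800000840c) (.cons (.leaf 2 0x940c009010) (.cons (.splS 3 (.cons (.leaf 2 0x8000009219) (.cons
  (.leaf 2 0x800000a419) (.cons (.splS 2 (.cons (.splS 4 (.cons (.leaf 3 0x800000942300a619)
  (.cons (.splT 0 (.cons (.leaf 2 0x8602009000) (.cons (.splS 1 (.cons (.leaf 4
  0x800000a20900921100a40a) (.cons (.leaf 2 0xa409009004) (.cons (.leaf 5
  0x800000a60900961900a40a009030) .nil)))) (.cons (.leaf 3 0xa602009211009000) (.cons (.leaf 2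
  0xc00400a421) .nil))))) (.cons (.leaf 3 0x800000b42300c619) .nil)))) (.cons (.leaf 4
  0x800000a213009619009030) (.cons (.leaf 4 0x800000b21300a619009030) .nil)))) .nil)))) (.cons
  (.leaf 2 0xc40c009028) .nil)))))⟩

theorem kc_14_23_ok1 : kc_14_23.ok1 = true := by decide +kernel

theorem kc_14_23_ok2 : kc_14_23.ok2 = true := by decide +kernel

/-- A certificate. -/
def kc_17_15 : KCert :=
  ⟨17, 15, [0, 4], [0, 1, 2, 3], [8, 0, 0, 0, 4], [-8, 8, 4, -6, 0], 8, 0xc0008000800080010,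
  0x80002000c00100000, 1, 1, 4, 4, 22, [7, 29, 7, -2], 5, [1], (.splT 3 (.cons (.leaf 2
  0x800000821c) (.cons (.splS 4 (.cons (.leaf 2 0x8000008021) (.cons (.splS 2 (.cons (.splS 1
  (.cons (.splT 0 (.cons (.leaf 2 0x8802009000) (.cons (.leaf 4 0x800000980200b009009000) (.cons
  (.leaf 4 0x800000a80200a011009000) (.cons (.splS 3 (.cons (.leaf 4 0x800000901900b802009000)
  (.cons (.leaf 5 0x800000981900b00400b821009040) .nil))) .nil))))) (.cons (.leaf 3
  0xc00b009821009040) .nil))) (.cons (.leaf 3 0xc01300a821009040) .nil))) .nil))) (.cons (.leaf 2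
  0xa21c009028) (.cons (.leaf 2 0xb21c009030) .nil)))))⟩

theorem kc_17_15_ok1 : kc_17_15.ok1 = true := by decide +kernel

theorem kc_17_15_ok2 : kc_17_15.ok2 = true := by decide +kernel

/-- A certificate. -/
def kc_18_3 : KCert :=
  ⟨18, 3, [1, 4], [0, 1], [0, 0, 0, 0, 110], [-110, -110, 0, 0, 0], 110, 0xdc006e006e006e006e,
  0x6e006e006e00000000, 1, 1, 12, 4, 1225, [2455, 0, 0, 0], 12, [1], (.splS 4 (.cons (.leaf 2
  0x8000009221) (.cons (.splT 3 (.cons (.leaf 2 0x800000821c) (.cons (.splT 2 (.cons (.leaf 2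
  0x821400921a) (.cons (.splT 1 (.cons (.leaf 2 0x820c009212) (.cons (.splT 7 (.cons (.leaf 3
  0x800000823c008821) (.cons (.splT 6 (.cons (.leaf 2 0x823400923a) (.cons (.splT 5 (.cons (.leaf
  2 0x822c009232) (.cons (.splT 4 (.cons (.leaf 2 0x822400922a) (.cons (.splS 0 (.cons (.leaf 2
  0x9803009008) (.cons (.splT 0 (.cons (.leaf 2 0x8802009000) (.cons (.splS 1 (.cons (.leaf 3
  0x9209009802009000) (.cons (.splS 8 (.cons (.leaf 3 0x8000009241008821) (.cons (.splT 11 (.cons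
  (.leaf 4 0x800000825c008841008821) (.cons (.splT 10 (.cons (.leaf 2 0x825400925a) (.cons (.splT
  9 (.cons (.leaf 2 0x824c009252) (.cons (.splT 8 (.cons (.leaf 2 0x824400924a) (.cons (.splS 12
  (.cons (.leaf 4 0x8000009261008841008821) (.cons (.splS 3 (.cons (.splS 5 (.cons (.leaf 8
  0x982b00922900921900924a009809009802009812009000) (.cons (.splS 2 (.cons (.leaf 3
  0x9813009219009232) (.cons (.splS 7 (.cons (.leaf 10
  0x9239009219009252009809009802009832009812009821009040009000) (.cons (.splS 11 (.cons (.leaf 5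
  0x800000925900983900923a008821) (.cons (.leaf 13
  0x800000985900983900981100982900984100980900923a00920a01121200921a010821009078) .nil))) .nil)))
  .nil))) .nil))) (.cons (.splS 7 (.cons (.leaf 4 0x800000923900981900921a) (.cons (.leaf 11
  0x1000001183901181900924a00980900982a00920a00981200921a011821011058) .nil))) .nil))) .nil)))
  .nil))) .nil))) .nil))) .nil))) .nil))) .nil))) .nil))) .nil))) .nil))) .nil))) .nil))) .nil)))
  .nil))) .nil))) .nil))) .nil)))⟩

theorem kc_18_3_ok1 : kc_18_3.ok1 = true := by decide +kernel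

theorem kc_18_3_ok2 : kc_18_3.ok2 = true := by decide +kernel

/-- A certificate. -/
def kc_19_7 : KCert :=
  ⟨19, 7, [0, 1, 4], [0, 1, 2], [9, -6, 0, 0, -9], [-12, -12, 12, 0, 0], 12, 0x3000c000c00060015,
  0xc000c001800000000, 1, 1, 4, 4, 32, [69, 0, -69, 0], 4, [1], (.splS 4 (.cons (.leaf 2
  0x8000008021) (.cons (.leaf 2 0x8000009221) (.cons (.splS 3 (.cons (.leaf 2 0x800000821b) (.cons
  (.splT 3 (.cons (.leaf 3 0x800000821a009219) (.cons (.splS 2 (.cons (.splT 2 (.cons (.leaf 4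
  0x800000821200a01100921a) (.cons (.leaf 4 0x800000901200a011009219) (.cons (.splS 1 (.cons
  (.splT 0 (.cons (.leaf 2 0x8802009000) (.cons (.leaf 3 0x900400a00900921a) (.cons (.leaf 4
  0x800000a80200a011009000) .nil)))) (.cons (.leaf 3 0x800000900b00a011) (.cons (.leaf 3
  0xc00b009821009040) .nil)))) .nil)))) (.cons (.leaf 2 0x9013009219) (.cons (.leaf 3
  0xc01300a821009040) .nil)))) (.cons (.leaf 5 0x800000a21a009219009821009040) .nil)))) (.cons
  (.leaf 2 0xc21b009038) .nil)))) .nil))))⟩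

theorem kc_19_7_ok1 : kc_19_7.ok1 = true := by decide +kernel

theorem kc_19_7_ok2 : kc_19_7.ok2 = true := by decide +kernel

/-- A certificate. -/
def kc_20_3 : KCert :=
  ⟨20, 3, [2, 4], [0, 1], [0, 0, 6, 0, -6], [3, 0, 0, 0, 0], 6, 0x6000c00060006,
  0x60006000600060009, 1, 1, 4, 2, 23, [0, 0, 51, 0], 4, [1], (.splS 2 (.cons (.splT 1 (.cons
  (.leaf 2 0x800000820c) (.cons (.splS 0 (.cons (.splT 0 (.cons (.leaf 2 0x8402009000) (.cons
  (.splS 1 (.cons (.leaf 5 0x8000009409009802009411009000) (.cons (.leaf 3 0x9809009004009028)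
  .nil))) .nil))) (.cons (.leaf 2 0xc403009020) .nil))) .nil))) (.cons (.leaf 2 0x8811009030)
  .nil)))⟩

theorem kc_20_3_ok1 : kc_20_3.ok1 = true := by decide +kernel

theorem kc_20_3_ok2 : kc_20_3.ok2 = true := by decide +kernel

/-- A certificate. -/
def kc_21_7 : KCert :=
  ⟨21, 7, [0, 2, 4], [0, 1, 2], [-14, 0, 0, 0, 7], [-14, 14, 0, 0, 0], 14, 0x15000e000e000e0000,
  0xe000e000e001c0000, 1, 1, 4, 4, 17, [0, 0, -39, -39], 4, [1], (.splS 4 (.cons (.leaf 2
  0x8000008021) (.cons (.leaf 2 0x800000a421) (.cons (.splT 3 (.cons (.leaf 2 0x800000821c) (.cons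
  (.splS 2 (.cons (.leaf 2 0x8000008413) (.cons (.splS 0 (.cons (.leaf 2 0x8000008803) (.cons
  (.leaf 3 0x800000a80300a411) (.cons (.splT 0 (.cons (.leaf 2 0x8802009000) (.cons (.splT 2
  (.cons (.leaf 3 0x800000841200a411) (.cons (.splS 3 (.cons (.leaf 3 0x10000009019009414) (.cons
  (.leaf 5 0x10000009419009414009821009040) (.cons (.leaf 5 0x800000981900941200a411009038)
  .nil)))) (.cons (.splS 1 (.cons (.leaf 4 0x900900a412009802009000) (.cons (.splS 3 (.cons (.leaf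
  3 0x800000901900a00b) (.cons (.leaf 5 0x800000941900a00b009821009040) (.cons (.leaf 6
  0x981900940900a412009802009038009000) .nil)))) (.cons (.leaf 6
  0x980900a412009802009821009040009000) .nil)))) .nil)))) (.cons (.leaf 3 0xa80200a411009000)
  .nil)))) .nil)))) (.cons (.leaf 4 0x800000c41300a821009040) .nil)))) (.cons (.leaf 4
  0x800000a21c009821009040) .nil)))) .nil))))⟩

theorem kc_21_7_ok1 : kc_21_7.ok1 = true := by decide +kernel

theorem kc_21_7_ok2 : kc_21_7.ok2 = true := by decide +kernel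

/-- A certificate. -/
def kc_22_5 : KCert :=
  ⟨22, 5, [1, 2, 4], [0, 2], [0, -4, 0, 0, 4], [0, 0, 0, 0, 0], 4, 0x80004000400000004,
  0x40004000400040004, 1, 1, 4, 4, 11, [9, 2, 0, 8], 4, [1], (.splS 4 (.cons (.leaf 2
  0x8221009028) (.cons (.leaf 2 0x800000a421) (.cons (.splS 2 (.cons (.leaf 2 0x9413009018) (.cons
  (.splT 0 (.cons (.leaf 2 0x8802009000) (.cons (.leaf 3 0xa80200a411009000) .nil))) (.cons (.leaf
  4 0x800000c41300a821009040) .nil)))) .nil))))⟩

theorem kc_22_5_ok1 : kc_22_5.ok1 = true := by decide +kernel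

theorem kc_22_5_ok2 : kc_22_5.ok2 = true := by decide +kernel

/-- A certificate. -/
def kc_22_8 : KCert :=
  ⟨22, 8, [1, 2, 4], [3], [0, 0, 5, 0, -5], [0, 0, 0, 5, 0], 5, 0x5000a00050005,
  0x5000a000500050005, 1, 0, 10, 8, 21, [47, 0, 0, 0], 12, [1], (.splT 13 (.cons (.splT 12 (.cons
  (.splT 11 (.cons (.splT 6 (.cons (.splT 4 (.cons (.splT 2 (.cons (.splT 0 (.cons (.splS 6 (.cons
  (.leaf 2 0x9433009038) (.cons (.splS 8 (.cons (.splS 9 (.cons (.leaf 6
  0xb46200b85a00b24900944300b241009048) (.cons (.leaf 7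
  0x800000b46a00b86200b262013449013241009078) (.cons (.leaf 5 0xb46200b45a00b84900b241009078)
  .nil)))) (.cons (.splS 9 (.cons (.splS 7 (.cons (.splS 5 (.cons (.splS 3 (.cons (.leaf 5
  0xb41200b40200b21900b229009000) (.cons (.leaf 6 0x800000b81200b40200b419013229009000) (.cons
  (.leaf 14 0x800001346201385a01343200b82201381201340200c21b013819013229023239013249013441011000)
  .nil)))) (.cons (.leaf 12
  0x800001346201385a01343200b82200b41201222b00b429023239013249013441009010) (.cons (.leaf 10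
  0xb46200b85a01382201341201382900943b01323900b24900b441011010) .nil)))) (.cons (.splS 10 (.cons
  (.leaf 8 0x800000b46a00b86200b25100a23b00b24900b441009050) (.cons (.leaf 7
  0x800000b46a00b86200b45101223b013249009050) (.cons (.leaf 6
  0xb46a00b46200b85100a23b00b249009080) .nil)))) (.cons (.leaf 4 0x800000c23b00b441009050)
  .nil)))) (.cons (.leaf 3 0x800000a24b00b441) (.cons (.leaf 4 0xb45a00c24b00b441009070) .nil))))
  (.cons (.leaf 3 0xb25a00b841009070) .nil)))) (.cons (.leaf 2 0xc433009050) .nil)))) .nil))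
  .nil)) .nil)) .nil)) .nil)) .nil)) .nil))⟩

theorem kc_22_8_ok1 : kc_22_8.ok1 = true := by decide +kernel

theorem kc_22_8_ok2 : kc_22_8.ok2 = true := by decide +kernel

/-- A certificate. -/
def kc_23_1 : KCert :=
  ⟨23, 1, [0, 1, 2, 4], [0], [-1, 1, 1, 0, -1], [-1, 0, 0, 0, 0], 1, 0x1000200020000,
  0x10001000100010000, 1, 0, 4, 1, 1, [2, 0, 2, 2], 4, [1], (.splT 0 (.cons (.leaf 2 0x8202009000)
  .nil))⟩

theorem kc_23_1_ok1 : kc_23_1.ok1 = true := by decide +kernel

theorem kc_23_1_ok2 : kc_23_1.ok2 = true := by decide +kernel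

/-- A certificate. -/
def kc_24_2 : KCert :=
  ⟨24, 2, [3, 4], [1], [0, 0, 0, -200, 200], [0, 0, 0, 0, 0], 200, 0x190000000c800c800c8,
  0xc800c800c800c800c8, 1, 0, 20, 4, 1405, [0, 0, 0, 0], 20, [1], (.splT 19 (.cons (.splT 17
  (.cons (.splT 16 (.cons (.splT 14 (.cons (.splT 13 (.cons (.splT 12 (.cons (.splT 11 (.cons
  (.splT 9 (.cons (.splT 8 (.cons (.splT 7 (.cons (.splT 5 (.cons (.splT 3 (.cons (.splT 2 (.cons
  (.splT 1 (.cons (.splS 3 (.cons (.leaf 3 0x9812009619009010) (.cons (.splS 0 (.cons (.leaf 4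
  0x800000b803009819009038) (.cons (.splS 4 (.cons (.splS 2 (.cons (.leaf 5
  0x981a00960a009611009621009008) (.cons (.splS 6 (.cons (.leaf 4 0x800000982a009631009621) (.cons
  (.splS 1 (.cons (.splS 7 (.cons (.splS 9 (.cons (.leaf 6 0x800000984200962a009649009831009621)
  (.cons (.splS 10 (.cons (.splS 12 (.cons (.leaf 9
  0x800000985a01163a01162a00966100965101983100c613009621) (.cons (.splS 8 (.cons (.leaf 11
  0x966a00965a01184a00963a00982a009641009861011651009831009621009038) (.cons (.splS 13 (.cons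
  (.splS 15 (.cons (.leaf 13
  0x1000001187200966a01965a00984200982a00962a01167900c643019861011651011831011621) (.cons (.splS
  18 (.cons (.leaf 15
  0x1800001988a01168202967201165a01184200982a01162a019691029879019669011651009849019831019621)
  (.cons (.leaf 15
  0x969a00968a00967200986200985a00984a01184201982a01162a009891009669009651029831029621029050)
  .nil))) .nil))) (.cons (.leaf 13
  0x2000002167202185a01984201182a01962a021869009861021651009849029831029621009080) .nil))) .nil)))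
  .nil))) (.cons (.leaf 10 0x1000001165a01184200982a01162a011851009849019831019621009068) .nil)))
  .nil))) (.cons (.leaf 8 0x800000964200982a00962a00c63b011831011621009050) .nil))) (.cons (.leaf
  4 0x800000c60b009621009038) .nil))) .nil))) .nil))) (.cons (.splS 6 (.cons (.leaf 6
  0x800001162a00963101182100c61b009048) (.cons (.leaf 6 0x800001162a00983101182100c61b009050)
  .nil))) .nil))) .nil))) .nil))) .nil)) .nil)) .nil)) .nil)) .nil)) .nil)) .nil)) .nil)) .nil))
  .nil)) .nil)) .nil)) .nil)) .nil))⟩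

theorem kc_24_2_ok1 : kc_24_2.ok1 = true := by decide +kernel

theorem kc_24_2_ok2 : kc_24_2.ok2 = true := by decide +kernel

/-- A certificate. -/
def kc_24_12 : KCert :=
  ⟨24, 12, [3, 4], [2, 3], [0, 0, 0, 0, 5], [0, 0, 5, -10, 0], 10, 0xf000a000a000a000a,
  0xa0000000f000a000a, 1, 1, 6, 4, 32, [0, 0, 0, 69], 7, [1], (.splS 4 (.cons (.leaf 2
  0x800000b621) (.cons (.splT 5 (.cons (.leaf 3 0x800000a62c00b821) (.cons (.splT 3 (.cons (.splS
  2 (.cons (.splT 2 (.cons (.splT 6 (.cons (.splS 0 (.cons (.leaf 2 0xb803009018) (.cons (.splT 0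
  (.cons (.leaf 4 0xa80200a611009028009000) (.cons (.splS 3 (.cons (.leaf 4
  0xa61900b80200b813009000) (.cons (.leaf 6 0xa81900b80200b62a00b821009040009000) .nil))) .nil)))
  .nil))) (.cons (.leaf 4 0xb43400b63200a821009048) .nil))) (.cons (.leaf 2 0xb414009028) .nil)))
  (.cons (.leaf 4 0xc61300b62a00a821009040) .nil))) (.cons (.leaf 4 0xb41c00b62a00a821009040)
  .nil))) .nil))) .nil)))⟩

theorem kc_24_12_ok1 : kc_24_12.ok1 = true := by decide +kernel

theorem kc_24_12_ok2 : kc_24_12.ok2 = true := by decide +kernel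

/-- A certificate. -/
def kc_25_22 : KCert :=
  ⟨25, 22, [0, 3, 4], [1, 2, 4], [10, 0, 0, 0, -5], [0, 5, -5, 0, 0], 5, 0x500050005000f,
  0x500050000000a0005, 1, 1, 4, 3, 24, [0, -53, 53, 0], 5, [1], (.splT 2 (.cons (.splS 0 (.cons
  (.leaf 2 0x8000008603) (.cons (.splS 3 (.cons (.splS 2 (.cons (.splS 1 (.cons (.splT 0 (.cons
  (.leaf 4 0x800000960200a009009000) (.cons (.leaf 4 0x800000a602009011009000) (.cons (.leaf 4
  0x800000c602009019009000) .nil)))) (.cons (.leaf 3 0x800000b00b009019) (.cons (.leaf 3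
  0x800000c00b00a019) .nil)))) (.cons (.leaf 4 0x800000961100a019009012) (.cons (.leaf 2
  0xc01300861b) .nil)))) (.cons (.splS 1 (.cons (.splT 0 (.cons (.leaf 4 0x800000960200a009009000)
  (.cons (.splS 2 (.cons (.leaf 4 0x800000901100a602009000) (.cons (.leaf 4
  0x800000961100a619009812) (.cons (.leaf 4 0x981100a602009030009000) .nil)))) (.cons (.leaf 4
  0xc602009619009030009000) .nil)))) (.cons (.leaf 3 0xb00b009619009030) (.cons (.leaf 3
  0xc00b00a619009030) .nil)))) (.cons (.leaf 2 0x800000c819) .nil)))) (.cons (.leaf 2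
  0xc603009020) .nil)))) (.cons (.leaf 2 0xa214009020) (.cons (.leaf 2 0xc214009030) .nil))))⟩

theorem kc_25_22_ok1 : kc_25_22.ok1 = true := by decide +kernel

theorem kc_25_22_ok2 : kc_25_22.ok2 = true := by decide +kernel

/-- A certificate. -/
def kc_25_23 : KCert :=
  ⟨25, 23, [0, 3, 4], [0, 1, 2, 4], [3, 0, 0, 0, -9], [-3, 6, 0, 0, -6], 9, 0x900090009000c,
  0x300090009000f0006, 1, 1, 4, 3, 31, [0, 0, 0, 32], 6, [1], (.splT 2 (.cons (.leaf 2
  0x8000008214) (.cons (.splS 3 (.cons (.leaf 2 0x8000008019) (.cons (.splS 2 (.cons (.leaf 4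
  0x8000009011008619009812) (.cons (.leaf 4 0x800000961100a619009812) (.cons (.splT 1 (.cons
  (.leaf 2 0x800000840c) (.cons (.leaf 4 0x800000940c009811009030) (.cons (.splT 0 (.cons (.leaf 2
  0x8602009000) (.cons (.splS 1 (.cons (.leaf 5 0x800000a009009404008619009812) (.cons (.leaf 5
  0x800000a609009404009619009812) (.cons (.leaf 5 0x800000a80900940400a619009812) .nil)))) (.cons
  (.leaf 3 0xa004009811009030) (.cons (.leaf 3 0xc004009619009030) .nil))))) (.cons (.leaf 4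
  0x800000c40c00a619009030) .nil))))) .nil)))) (.cons (.leaf 2 0x800000c819) .nil)))) (.cons
  (.leaf 2 0xa214009020) (.cons (.leaf 2 0xc214009030) .nil)))))⟩

theorem kc_25_23_ok1 : kc_25_23.ok1 = true := by decide +kernel

theorem kc_25_23_ok2 : kc_25_23.ok2 = true := by decide +kernel

/-- A certificate. -/
def kc_26_3 : KCert :=
  ⟨26, 3, [1, 3, 4], [0, 1], [0, -14, 0, -14, 7], [0, 14, 0, 0, 0], 14, 0x150000000e0000000e,
  0xe000e000e001c000e, 1, 1, 6, 4, 42, [188, 0, 188, 0], 6, [1], (.splS 4 (.cons (.leaf 2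
  0x8000009221) (.cons (.leaf 2 0x8621009038) (.cons (.splS 0 (.cons (.leaf 2 0x9803009008) (.cons
  (.leaf 2 0xb803009018) (.cons (.splT 3 (.cons (.leaf 2 0x800000821c) (.cons (.splT 5 (.cons
  (.leaf 3 0x800000862a009821) (.cons (.splS 6 (.cons (.leaf 4 0x800000923100962a009821) (.cons
  (.leaf 4 0x863100982a009821009040) (.cons (.splT 0 (.cons (.leaf 2 0x8802009000) (.cons (.splS 1
  (.cons (.leaf 2 0x9209009004) (.cons (.splT 2 (.cons (.leaf 6
  0x881200960900980200962a009821009000) (.cons (.splS 3 (.cons (.leaf 2 0x9219009014) (.cons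
  (.leaf 4 0x9619009812009609009004) (.cons (.leaf 7 0x800000981900983100962a00921a009821009050)
  .nil)))) .nil))) (.cons (.leaf 4 0x800000c60b009821009040) .nil)))) .nil))) .nil)))) .nil)))
  .nil))) .nil)))) .nil))))⟩

theorem kc_26_3_ok1 : kc_26_3.ok1 = true := by decide +kernel

theorem kc_26_3_ok2 : kc_26_3.ok2 = true := by decide +kernel

/-- A certificate. -/
def kc_26_11 : KCert :=
  ⟨26, 11, [1, 3, 4], [0, 1, 3], [0, 8, 0, 12, 16], [-4, -12, 0, -12, 0], 12,
  0x1c0018000c0014000c, 0xc0000000c00000008, 1, 1, 4, 4, 52, [53, 0, 0, 0], 4, [1], (.splS 4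
  (.cons (.leaf 2 0x8000009221) (.cons (.leaf 2 0x800000b621) (.cons (.splS 1 (.cons (.leaf 2
  0x960b009010) (.cons (.splS 0 (.cons (.leaf 3 0x800000980300b609) (.cons (.leaf 2 0xb803009018)
  (.cons (.splT 0 (.cons (.leaf 2 0x8802009000) (.cons (.leaf 3 0x980200b609009000) (.cons (.splS
  3 (.cons (.leaf 3 0x921900b802009000) (.cons (.leaf 3 0xb61900b802009000) (.cons (.leaf 5
  0x800000981900b00400b821009040) .nil)))) .nil)))) .nil)))) (.cons (.leaf 4
  0x800000c60b009821009040) .nil)))) .nil))))⟩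

theorem kc_26_11_ok1 : kc_26_11.ok1 = true := by decide +kernel

theorem kc_26_11_ok2 : kc_26_11.ok2 = true := by decide +kernel

/-- A certificate. -/
def kc_27_9 : KCert :=
  ⟨27, 9, [0, 1, 3, 4], [0, 3], [21, 0, 0, 0, 42], [21, 0, 0, -21, 0], 21, 0x3f001500150015002a,
  0x15000000150015002a, 1, 1, 10, 4, 196, [804, 0, 804, 0], 12, [1], (.splS 4 (.cons (.leaf 2
  0x8000008021) (.cons (.leaf 2 0x8221009028) (.cons (.leaf 2 0x800000b621) (.cons (.splS 0 (.cons
  (.leaf 2 0x8000008803) (.cons (.leaf 2 0x9803009008) (.cons (.leaf 2 0xb803009018) (.cons (.splT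
  5 (.cons (.leaf 3 0x800000862c008821) (.cons (.splT 1 (.cons (.leaf 2 0x800000860c) (.cons
  (.splT 7 (.cons (.leaf 3 0x800000823a00b821) (.cons (.splS 10 (.cons (.leaf 4
  0x800000805100b23a00b821) (.cons (.leaf 4 0x825100b83a00b821009040) (.cons (.leaf 4
  0x800000b65100b23a00b821) (.cons (.splT 0 (.cons (.leaf 2 0x8802009000) (.cons (.splS 3 (.cons
  (.leaf 2 0x800000821b) (.cons (.splT 6 (.cons (.leaf 6 0x883200b21900b80200b23a00b821009000)
  (.cons (.splS 9 (.cons (.leaf 4 0x800000824b00b23a00b821) (.cons (.splS 8 (.cons (.leaf 3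
  0x8000008041008821) (.cons (.leaf 4 0x8241008249008821009050) (.cons (.leaf 3
  0x800000b641008821) (.cons (.leaf 7 0x884100b24900b83200b21900b802008821009000) .nil))))) (.cons
  (.leaf 2 0xb64900b034) (.cons (.leaf 6 0x800000c24b00b85101323a013821009070) .nil))))) .nil)))
  (.cons (.leaf 3 0xb61900b802009000) (.cons (.leaf 4 0x800000c21b00b821009040) .nil))))) .nil)))
  .nil))))) .nil))) .nil))) .nil))) .nil))))) .nil)))))⟩

theorem kc_27_9_ok1 : kc_27_9.ok1 = true := by decide +kernel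

theorem kc_27_9_ok2 : kc_27_9.ok2 = true := by decide +kernel

/-- A certificate. -/
def kc_28_3 : KCert :=
  ⟨28, 3, [2, 3, 4], [0, 1], [0, 0, 6, -6, 0], [3, -3, 0, 0, 0], 6, 0x60000000c00060006,
  0x60006000600030009, 1, 1, 4, 2, 25, [0, 0, 350, 0], 4, [1], (.splS 2 (.cons (.splS 0 (.cons
  (.splT 1 (.cons (.leaf 2 0x800000820c) (.cons (.splT 0 (.cons (.leaf 2 0x8402009000) (.cons
  (.splS 1 (.cons (.leaf 4 0x800000940900960a009411) (.cons (.leaf 3 0x9609009004009020) (.cons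
  (.leaf 4 0x9809009402009028009000) .nil)))) .nil))) .nil))) (.cons (.leaf 4
  0x800000b403009411009020) (.cons (.leaf 2 0xc403009020) .nil)))) (.cons (.leaf 2 0x8611009028)
  (.cons (.leaf 2 0x8811009030) .nil))))⟩

theorem kc_28_3_ok1 : kc_28_3.ok1 = true := by decide +kernel

theorem kc_28_3_ok2 : kc_28_3.ok2 = true := by decide +kernel

/-- A certificate. -/
def kc_28_4 : KCert :=
  ⟨28, 4, [2, 3, 4], [2], [0, 0, 0, -3, 3], [0, 0, -3, 0, 0], 3, 0x60000000300030003,
  0x30003000000030003, 1, 0, 4, 4, 12, [13, 0, 0, 0], 4, [1], (.splT 0 (.cons (.splS 2 (.cons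
  (.leaf 3 0xa80200a411009000) (.cons (.leaf 2 0xb413009028) (.cons (.splS 4 (.cons (.leaf 2
  0x800000a421) (.cons (.leaf 4 0x800000a62100c413009038) (.cons (.leaf 4
  0x800000a82100c413009040) .nil)))) .nil)))) .nil))⟩

theorem kc_28_4_ok1 : kc_28_4.ok1 = true := by decide +kernel

theorem kc_28_4_ok2 : kc_28_4.ok2 = true := by decide +kernel

/-- A certificate. -/
def kc_28_8 : KCert :=
  ⟨28, 8, [2, 3, 4], [3], [0, 0, 12, 0, -24], [0, 0, 0, 12, 0], 24, 0x18002400180018,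
  0x180024001800180018, 1, 0, 10, 2, 65, [0, 0, 280, 0], 10, [1], (.splT 7 (.cons (.splT 6 (.cons
  (.splT 5 (.cons (.splT 0 (.cons (.splS 2 (.cons (.splS 0 (.cons (.splS 4 (.cons (.splS 3 (.cons
  (.leaf 7 0x800000b43a00b83201261b00b421013411009020) (.cons (.leaf 3 0xb40200b619009000) (.cons
  (.leaf 6 0x800000b42a01461b00a82300b42100b411) .nil)))) (.cons (.leaf 5
  0x800000b42a00b82300b62100b411) (.cons (.leaf 5 0xb63a00b62a00b82100b411009040) .nil)))) (.cons
  (.leaf 2 0xb403009018) (.cons (.leaf 2 0xc403009020) .nil)))) (.cons (.leaf 2 0x800000b611)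
  (.cons (.leaf 3 0xb62a00b811009030) .nil)))) .nil)) .nil)) .nil)) .nil))⟩

theorem kc_28_8_ok1 : kc_28_8.ok1 = true := by decide +kernel

theorem kc_28_8_ok2 : kc_28_8.ok2 = true := by decide +kernel

/-- A certificate. -/
def kc_28_9 : KCert :=
  ⟨28, 9, [2, 3, 4], [0, 3], [0, 0, 6, -3, -6], [3, 0, 0, -3, 0], 6, 0x3000c00060006,
  0x60003000600060009, 1, 1, 6, 2, 24, [0, 0, 25, 0], 6, [1], (.splS 2 (.cons (.splS 0 (.cons
  (.splS 4 (.cons (.splS 3 (.cons (.leaf 4 0x800000a61b00842100b411) (.cons (.splT 0 (.cons (.leaf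
  2 0x8402009000) (.cons (.leaf 2 0xb00400b619) .nil))) (.cons (.leaf 4 0x800000c61b00b421008411)
  .nil)))) (.cons (.leaf 3 0x800000b621008411) (.cons (.leaf 3 0x8821008411009040) .nil)))) (.cons
  (.leaf 2 0xb403009018) (.cons (.leaf 2 0xc403009020) .nil)))) (.cons (.leaf 2 0x800000b611)
  (.cons (.leaf 2 0x8811009030) .nil))))⟩

theorem kc_28_9_ok1 : kc_28_9.ok1 = true := by decide +kernel

theorem kc_28_9_ok2 : kc_28_9.ok2 = true := by decide +kernel

/-- A certificate. -/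
def kc_28_10 : KCert :=
  ⟨28, 10, [2, 3, 4], [1, 3], [0, 0, 4, 0, 4], [0, 4, 0, -4, 0], 4, 0x80004000800040004,
  0x40000000400080004, 1, 1, 4, 2, 16, [0, 0, 0, 17], 5, [1], (.splT 1 (.cons (.splS 2 (.cons
  (.splS 1 (.cons (.leaf 4 0x800000940900941100960a) (.cons (.splT 0 (.cons (.leaf 3
  0x9802009609009000) (.cons (.leaf 3 0xb802009411009000) .nil))) (.cons (.leaf 4
  0x800000980900b41100960a) .nil)))) (.cons (.leaf 2 0x800000b611) (.cons (.splT 0 (.cons (.splS 1
  (.cons (.leaf 3 0x8000009409009604) (.cons (.leaf 3 0x9609009802009000) (.cons (.leaf 6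
  0x800000980900940200b811009030009000) .nil)))) (.cons (.leaf 4 0xb402009811009030009000) .nil)))
  .nil)))) (.cons (.leaf 2 0xb20c009020) .nil)))⟩

theorem kc_28_10_ok1 : kc_28_10.ok1 = true := by decide +kernel

theorem kc_28_10_ok2 : kc_28_10.ok2 = true := by decide +kernel

/-- A certificate. -/
def kc_29_8 : KCert :=
  ⟨29, 8, [0, 2, 3, 4], [3], [0, 0, 18, 9, -18], [0, 0, 0, 9, 0], 18, 0x1b002400120012,
  0x12001b001200120012, 1, 0, 10, 2, 180, [0, 0, 740, 0], 10, [1], (.splT 7 (.cons (.splT 6 (.cons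
  (.splT 5 (.cons (.splT 4 (.cons (.splT 0 (.cons (.splS 2 (.cons (.leaf 5
  0x800000b42a00b82200841300b011) (.cons (.splS 0 (.cons (.leaf 2 0x8000008403) (.cons (.splS 4
  (.cons (.leaf 8 0x800000b43a00b83200b02a00882300842300b02100b411) (.cons (.splS 3 (.cons (.leaf
  8 0x800000b43a00b83200b02a01861b00a82300b42100b411) (.cons (.leaf 9
  0x800000b03a00b83200b82a01a61b00a82300b421023411019020) (.cons (.leaf 3 0xb40200b619009000)
  (.cons (.leaf 7 0x800000b02a01461b00a82301342100a81300b411) .nil))))) (.cons (.leaf 5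
  0x800000b42a00b82300b62100b411) (.cons (.leaf 5 0xb63a00b62a00b82100b411009040) .nil))))) (.cons
  (.leaf 2 0xb403009018) (.cons (.leaf 2 0xc403009020) .nil))))) (.cons (.leaf 2 0x800000b611)
  (.cons (.leaf 3 0xb62a00b811009030) .nil))))) .nil)) .nil)) .nil)) .nil)) .nil))⟩

theorem kc_29_8_ok1 : kc_29_8.ok1 = true := by decide +kernel

theorem kc_29_8_ok2 : kc_29_8.ok2 = true := by decide +kernel

/-- A certificate. -/
def kc_29_23 : KCert :=
  ⟨29, 23, [0, 2, 3, 4], [0, 1, 2, 4], [-8, 0, 16, 16, -4], [4, -16, -4, 0, -8], 16,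
  0xc0020002000100008, 0x80010000c00000014, 1, 1, 6, 3, 54, [0, 0, 0, 55], 6, [1], (.splS 3 (.cons
  (.leaf 2 0x8000008019) (.cons (.leaf 2 0x800000a419) (.cons (.splS 2 (.cons (.leaf 3
  0x8000008813008619) (.cons (.leaf 3 0x800000a813009619) (.cons (.leaf 3 0x800000b81300a619)
  (.cons (.splS 4 (.cons (.leaf 3 0x8000008423008619) (.cons (.splS 1 (.cons (.leaf 2
  0x800000840b) (.cons (.splT 0 (.cons (.leaf 2 0x8602009000) (.cons (.leaf 3 0x960200a409009000)
  (.cons (.leaf 3 0xa60200c811009000) (.cons (.leaf 3 0xc60200a421009000) .nil))))) (.cons (.leaf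
  4 0x800000b40b009619009030) (.cons (.leaf 4 0x800000c40b00a619009030) .nil))))) (.cons (.leaf 3
  0x800000b42300c619) (.cons (.leaf 3 0xc423008619009040) .nil))))) .nil))))) (.cons (.leaf 2
  0x800000c819) .nil)))))⟩

theorem kc_29_23_ok1 : kc_29_23.ok1 = true := by decide +kernel

theorem kc_29_23_ok2 : kc_29_23.ok2 = true := by decide +kernel

/-- A certificate. -/
def kc_30_1 : KCert :=
  ⟨30, 1, [1, 2, 3, 4], [0], [0, 1, -1, -1, -1], [-1, 0, 0, 0, 0], 1, 0x20001,
  0x10001000100010000, 1, 0, 4, 1, 1, [0, 0, 0, 0], 4, [1], (.splT 0 (.cons (.leaf 2 0x8202009000)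
  .nil))⟩

theorem kc_30_1_ok1 : kc_30_1.ok1 = true := by decide +kernel

theorem kc_30_1_ok2 : kc_30_1.ok2 = true := by decide +kernel

/-- A certificate. -/
def kc_30_4 : KCert :=
  ⟨30, 4, [1, 2, 3, 4], [2], [0, -3, 0, -3, 3], [0, 0, 0, 0, 0], 3, 0x60000000300000003,
  0x30003000300030003, 1, 0, 4, 4, 9, [10, 0, 0, 0], 4, [1], (.splT 0 (.cons (.splS 2 (.cons
  (.leaf 2 0x9413009018) (.cons (.leaf 3 0xa80200a411009000) (.cons (.leaf 2 0xb413009028) (.cons
  (.splS 4 (.cons (.leaf 4 0x800000a22100c413009028) (.cons (.leaf 2 0x800000a421) (.cons (.leaf 4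
  0x800000a62100c413009038) (.cons (.leaf 4 0x800000a82100c413009040) .nil))))) .nil))))) .nil))⟩

theorem kc_30_4_ok1 : kc_30_4.ok1 = true := by decide +kernel

theorem kc_30_4_ok2 : kc_30_4.ok2 = true := by decide +kernel

/-- A certificate. -/
def kc_30_20 : KCert :=
  ⟨30, 20, [1, 2, 3, 4], [2, 4], [0, -4, 0, 8, 8], [0, 0, 0, 0, 4], 4, 0xc000c000400000004,
  0x80004000400040004, 1, 1, 8, 3, 31, [0, 0, 32, 0], 8, [1], (.splS 3 (.cons (.splT 5 (.cons
  (.leaf 3 0xa42a00a219009020) (.cons (.leaf 3 0xc82a00a219009020) .nil))) (.cons (.leaf 2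
  0x800000a419) (.cons (.splT 1 (.cons (.splT 5 (.cons (.leaf 5 0x800000a22a00c61900a619009030)
  (.cons (.splS 2 (.cons (.leaf 3 0x981300c82a00a619) (.cons (.leaf 4 0xa81300c82a00a619009020)
  (.cons (.leaf 4 0x800000b21300a619009030) (.cons (.splS 6 (.cons (.leaf 6
  0x800000963300c22a00c61900a619009030) (.cons (.leaf 4 0x800000a43100c82a00a619) (.cons (.splS 4
  (.cons (.leaf 3 0x800000942300a619) (.cons (.splT 0 (.cons (.leaf 3 0xa60200c811009000) (.cons
  (.leaf 3 0xc60200a421009000) .nil))) (.cons (.leaf 3 0x800000b42300c619) (.cons (.leaf 6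
  0x800000c42300a63101482a012619009048) .nil))))) (.cons (.leaf 4 0x800000c83100c82a00a619)
  .nil))))) .nil))))) .nil))) (.cons (.leaf 4 0x800000c40c00a619009030) .nil))) (.cons (.leaf 2
  0x800000c819) .nil)))))⟩

theorem kc_30_20_ok1 : kc_30_20.ok1 = true := by decide +kernel

theorem kc_30_20_ok2 : kc_30_20.ok2 = true := by decide +kernel

/-- A certificate. -/
def kc_31_4 : KCert :=
  ⟨31, 4, [0, 1, 2, 3, 4], [2], [-3, -3, 0, -3, 3], [0, 0, 3, 0, 0], 3, 0x60000000300000000,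
  0x30003000600030003, 1, 0, 4, 4, 6, [7, 0, 0, 7], 4, [1], (.splT 0 (.cons (.splS 2 (.cons (.leaf
  2 0x8000008413) (.cons (.leaf 2 0x9413009018) (.cons (.leaf 3 0xa80200a411009000) (.cons (.leaf
  2 0xb413009028) (.cons (.splS 4 (.cons (.leaf 3 0x1000000a02100c413) (.cons (.leaf 4
  0x800000a22100c413009028) (.cons (.leaf 2 0x800000a421) (.cons (.leaf 4
  0x800000a62100c413009038) (.cons (.leaf 4 0x800000a82100c413009040) .nil)))))) .nil))))))
  .nil))⟩

theorem kc_31_4_ok1 : kc_31_4.ok1 = true := by decide +kernel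

theorem kc_31_4_ok2 : kc_31_4.ok2 = true := by decide +kernel

/-- A certificate. -/
def kc_31_20 : KCert :=
  ⟨31, 20, [0, 1, 2, 3, 4], [2, 4], [-8, 0, 0, 16, 12], [0, 0, 16, 0, 16], 8,
  0x140018000800080000, 0x180008001800080008, 1, 1, 6, 3, 21, [0, 0, 47, 0], 8, [1], (.splS 0
  (.cons (.leaf 2 0x8000008603) (.cons (.leaf 2 0x9603009008) (.cons (.leaf 2 0xa603009010) (.cons
  (.splS 3 (.cons (.splT 4 (.cons (.leaf 3 0xa02200861b00821b) (.cons (.leaf 2 0xc82200821b)
  .nil))) (.cons (.splT 5 (.cons (.leaf 4 0xa02a00c21900a219011020) (.cons (.leaf 3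
  0xc82a00a219009020) .nil))) (.cons (.leaf 2 0x800000a419) (.cons (.splT 1 (.cons (.splT 5 (.cons
  (.leaf 5 0x800000a22a00c61900a619009030) (.cons (.splS 2 (.cons (.leaf 2 0x8000008213) (.cons
  (.leaf 3 0x981300c82a00a619) (.cons (.leaf 4 0xa81300c82a00a619009020) (.cons (.leaf 4
  0x800000b21300a619009030) (.cons (.splT 0 (.cons (.leaf 3 0xa60200c811009000) (.cons (.splS 4
  (.cons (.leaf 6 0x800000a02100c60200c82a00a619009000) (.cons (.leaf 5
  0x800000a22100c60200a619009000) (.cons (.leaf 3 0xa42100c602009000) (.cons (.leaf 5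
  0x800000a62100c60200c619009000) (.cons (.leaf 3 0xc82100c602009000) .nil)))))) .nil)))
  .nil)))))) .nil))) (.cons (.leaf 4 0x800000c40c00a619009030) .nil))) (.cons (.leaf 2
  0x800000c819) .nil)))))) (.cons (.leaf 2 0xc603009020) .nil))))))⟩

theorem kc_31_20_ok1 : kc_31_20.ok1 = true := by decide +kernel

theorem kc_31_20_ok2 : kc_31_20.ok2 = true := by decide +kernel

/-- Certificates. -/
def kd3 : List KCert :=
  [kc_2_8, kc_3_1, kc_4_10, kc_5_3, kc_7_24, kc_9_16, kc_9_18, kc_10_6, kc_10_23, kc_11_7,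
  kc_12_7, kc_12_10, kc_12_11, kc_14_23, kc_17_15, kc_18_3, kc_19_7, kc_20_3, kc_21_7, kc_22_5,
  kc_22_8, kc_23_1, kc_24_2, kc_24_12, kc_25_22, kc_25_23, kc_26_3, kc_26_11, kc_27_9, kc_28_3,
  kc_28_4, kc_28_8, kc_28_9, kc_28_10, kc_29_8, kc_29_23, kc_30_1, kc_30_4, kc_30_20, kc_31_4,
  kc_31_20]

theorem kd3_ok : AllK kd3 :=
  allK_cons kc_2_8_ok1 kc_2_8_ok2 (
  allK_cons kc_3_1_ok1 kc_3_1_ok2 (
  allK_cons kc_4_10_ok1 kc_4_10_ok2 (
  allK_cons kc_5_3_ok1 kc_5_3_ok2 (
  allK_cons kc_7_24_ok1 kc_7_24_ok2 (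
  allK_cons kc_9_16_ok1 kc_9_16_ok2 (
  allK_cons kc_9_18_ok1 kc_9_18_ok2 (
  allK_cons kc_10_6_ok1 kc_10_6_ok2 (
  allK_cons kc_10_23_ok1 kc_10_23_ok2 (
  allK_cons kc_11_7_ok1 kc_11_7_ok2 (
  allK_cons kc_12_7_ok1 kc_12_7_ok2 (
  allK_cons kc_12_10_ok1 kc_12_10_ok2 (
  allK_cons kc_12_11_ok1 kc_12_11_ok2 (
  allK_cons kc_14_23_ok1 kc_14_23_ok2 (
  allK_cons kc_17_15_ok1 kc_17_15_ok2 (
  allK_cons kc_18_3_ok1 kc_18_3_ok2 (
  allK_cons kc_19_7_ok1 kc_19_7_ok2 (
  allK_cons kc_20_3_ok1 kc_20_3_ok2 (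
  allK_cons kc_21_7_ok1 kc_21_7_ok2 (
  allK_cons kc_22_5_ok1 kc_22_5_ok2 (
  allK_cons kc_22_8_ok1 kc_22_8_ok2 (
  allK_cons kc_23_1_ok1 kc_23_1_ok2 (
  allK_cons kc_24_2_ok1 kc_24_2_ok2 (
  allK_cons kc_24_12_ok1 kc_24_12_ok2 (
  allK_cons kc_25_22_ok1 kc_25_22_ok2 (
  allK_cons kc_25_23_ok1 kc_25_23_ok2 (
  allK_cons kc_26_3_ok1 kc_26_3_ok2 (
  allK_cons kc_26_11_ok1 kc_26_11_ok2 (
  allK_cons kc_27_9_ok1 kc_27_9_ok2 (
  allK_cons kc_28_3_ok1 kc_28_3_ok2 (
  allK_cons kc_28_4_ok1 kc_28_4_ok2 (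
  allK_cons kc_28_8_ok1 kc_28_8_ok2 (
  allK_cons kc_28_9_ok1 kc_28_9_ok2 (
  allK_cons kc_28_10_ok1 kc_28_10_ok2 (
  allK_cons kc_29_8_ok1 kc_29_8_ok2 (
  allK_cons kc_29_23_ok1 kc_29_23_ok2 (
  allK_cons kc_30_1_ok1 kc_30_1_ok2 (
  allK_cons kc_30_4_ok1 kc_30_4_ok2 (
  allK_cons kc_30_20_ok1 kc_30_20_ok2 (
  allK_cons kc_31_4_ok1 kc_31_4_ok2 (
  allK_cons kc_31_20_ok1 kc_31_20_ok2 (
  allK_nil)))))))))))))))))))))))))))))))))))))))))

end Pool.Agent.RatRec
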