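import Pool.Agent.Lib_helper86.RatV.KCert

/-!
Packed certificates of unbounded special cases (data).
-/

set_option autoImplicit false
set_option maxRecDepth 100000

namespace Pool.Agent.RatRec

/-- A certificate. -/
def kc_4_11 : KCert :=
  ⟨4, 11, [2], [0, 1, 3], [0, 0, 0, 0, 0], [-3, 3, 0, -12, 0], 12, 0xc000c000c000c000c,
  0xc0000000c000f0009, 0, 1, 4, 2, 13, [-1, 8, 13, -7], 4, [1], (.splS 2 (.cons (.splS 1 (.cons
  (.splT 0 (.cons (.leaf 2 0x8402009000) (.cons (.leaf 3 0x8000009409009604) (.cons (.leaf 3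
  0x941100b004009020) .nil)))) .nil)) .nil))⟩

theorem kc_4_11_ok1 : kc_4_11.ok1 = true := by decide +kernel

theorem kc_4_11_ok2 : kc_4_11.ok2 = true := by decide +kernel

/-- A certificate. -/
def kc_5_10 : KCert :=
  ⟨5, 10, [0, 2], [1, 3], [2, 0, -2, 0, 0], [0, -2, 0, -2, 0], 2, 0x20002000000020004,
  0x20000000200000002, 1, 1, 6, 2, 11, [0, -4, 9, -5], 6, [1], (.splS 0 (.cons (.leaf 2
  0x8000008403) (.cons (.splS 2 (.cons (.splS 1 (.cons (.splT 0 (.cons (.leaf 4
  0x8000009402009009009000) (.cons (.leaf 4 0x800000b402009011009000) .nil))) (.cons (.leaf 3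
  0x800000a00b009011) .nil))) (.cons (.splS 1 (.cons (.splS 3 (.cons (.splT 0 (.cons (.leaf 4
  0x8000009402009009009000) (.cons (.leaf 5 0x8000013402009019009411011000) .nil))) (.cons (.leaf
  3 0xa01b00b411009020) .nil))) (.cons (.leaf 3 0xa00b009411009020) .nil))) .nil))) .nil)))⟩

theorem kc_5_10_ok1 : kc_5_10.ok1 = true := by decide +kernel

theorem kc_5_10_ok2 : kc_5_10.ok2 = true := by decide +kernel

/-- A certificate. -/
def kc_5_11 : KCert :=
  ⟨5, 11, [0, 2], [0, 1, 3], [-6, 0, 0, 0, 0], [-3, 12, 0, 0, 0], 6, 0x60006000600060000,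
  0x60006000600120003, 1, 1, 4, 2, 2, [0, 0, -3, 3], 5, [1], (.splT 1 (.cons (.leaf 2
  0x800000820c) (.cons (.splS 2 (.cons (.leaf 2 0x8000008011) (.cons (.splT 0 (.cons (.leaf 2
  0x8402009000) (.cons (.splS 1 (.cons (.leaf 4 0x8000009009009402009000) (.cons (.leaf 3
  0x8000009409009604) .nil))) (.cons (.leaf 3 0xb004009411009020) .nil)))) .nil))) (.cons (.leaf 2
  0xb20c009020) .nil))))⟩

theorem kc_5_11_ok1 : kc_5_11.ok1 = true := by decide +kernel

theorem kc_5_11_ok2 : kc_5_11.ok2 = true := by decide +kernel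

/-- A certificate. -/
def kc_6_16 : KCert :=
  ⟨6, 16, [1, 2], [4], [0, 8, -8, 0, 0], [0, 0, 0, 0, -8], 8, 0x80008000000100008,
  0x8000800080008, 1, 0, 8, 11, 157, [648, 0, 0, 0], 8, [1], (.splT 15 (.cons (.splT 14 (.cons
  (.splT 13 (.cons (.splT 12 (.cons (.splT 11 (.cons (.splT 10 (.cons (.splT 9 (.cons (.splT 8
  (.cons (.splT 6 (.cons (.splT 5 (.cons (.splT 4 (.cons (.splT 3 (.cons (.splT 2 (.cons (.splT 1
  (.cons (.splT 0 (.cons (.splS 10 (.cons (.splS 11 (.cons (.splS 13 (.cons (.splS 12 (.cons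
  (.splS 9 (.cons (.splS 8 (.cons (.splS 14 (.cons (.splS 7 (.cons (.leaf 10
  0x1000001426200c25200c24a02943b011473024241009463014259009040) (.cons (.splS 15 (.cons (.leaf 11
  0x800001426a01425202c44201147b00947302c24101c24900c26100c259011048) (.cons (.splS 6 (.cons
  (.leaf 14 0xc25200c22201421a01421200c20a00c20200943301423102c43900c249009463021048009010009000)
  (.cons (.splS 5 (.cons (.leaf 17
  0x1000001c46201c25201421a01421201420a01420201422902443101443901147302424100c24900c261014259019048011000)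
  (.cons (.leaf 16
  0x1000001426201c25202441202420a02420202442902443102443901147302424100c249019463014259019048021000)
  .nil))) .nil))) .nil))) .nil))) (.cons (.splS 7 (.cons (.splS 6 (.cons (.leaf 3
  0x800000943300c239) (.cons (.splS 5 (.cons (.leaf 18
  0x3c47a01427a03c26a01426203c25203421a03421203420a03420203422906443103423905c24102c24904c259049098039040031000)
  (.cons (.leaf 16
  0xc27a00c26200c24a00c43201c21a01c21201c20a01c20202222b01c42905423901424100c259009098039040019000)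
  .nil))) .nil))) (.cons (.splS 6 (.cons (.leaf 17
  0x1800001c27202c25a04424200c22200c21a00c21200c20a04943300c23105c43901c47101c24901c26101146b014251009008)
  (.cons (.splS 5 (.cons (.leaf 13
  0xc25200c21a00c21200c20a00c20200c22901443101223b00c43900c249009463009048009000) (.cons (.leaf 9
  0xc21a00c21200c20a00c20200a22b00c42901c439011048009000) .nil))) .nil))) .nil))) .nil))) (.cons
  (.splS 14 (.cons (.splS 7 (.cons (.splS 6 (.cons (.leaf 3 0x800000943300c239) (.cons (.leaf 18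
  0x1000003426203424a00c41a00c21a01421200c20a00c20201443103143b01423903147305444101146b024259014251009010009000)
  .nil))) (.cons (.splS 6 (.cons (.leaf 12
  0xc22201421a01421200c20a00c20200943301423102c43902a243019050009010009000) (.cons (.splS 4 (.cons
  (.leaf 8 0xc41a00c21200c40200c22100c43100c43900a243009000) (.cons (.leaf 17
  0x1000001426201c25202441a02421202420a02420202442104443102443901147302444100c249019463014259019048021000)
  .nil))) .nil))) .nil))) (.cons (.splS 7 (.cons (.splS 15 (.cons (.splS 6 (.cons (.leaf 3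
  0x800000943300c239) (.cons (.splS 4 (.cons (.leaf 14
  0xc27a00c26200c24a01441a01421201440201422101443101423900a24301444100c259009098011000) (.cons
  (.leaf 15
  0xc27a00c26200c24a00c41a00c21200c20a00c20200c42101443100c23900a24301444100c259009098009000)
  .nil))) .nil))) (.cons (.leaf 9 0xc26200c44a00c24a00a27b00943b00a24300c44100c26900c251) .nil)))
  (.cons (.splS 6 (.cons (.leaf 17
  0x1800001c27202c25a04424200c22200c21a00c21200c20a04943300c23105c43901c47101c24901c26101146b014251009008)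
  (.cons (.splS 4 (.cons (.leaf 8 0xc41a00c21200c40200c22100c43100c43900a243009000) (.cons (.leaf
  10 0xc41a00c21200c20a00c20200c42101443100a23b00c439012243009000) .nil))) .nil))) .nil))) .nil)))
  .nil))) (.cons (.splS 8 (.cons (.splS 14 (.cons (.splS 7 (.cons (.leaf 10
  0x1000001426200c25200c24a02943b011473024241009463014259009040) (.cons (.splS 15 (.cons (.leaf 19
  0x1000007426a07425200c22a01422201c21a00c21200c20a00c20207147b01c4390414730714430142410a4449034261044259011018009000)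
  (.cons (.splS 6 (.cons (.leaf 14
  0x2c25200c22201421a01421200c20a00c20200943301423102c43901a24b02c449029463009010009000) (.cons
  (.splS 5 (.cons (.leaf 17
  0x2000002426204c25201c21a01c21201c20a01c20201942b01c22904c43102147304424102c449049463024259009040019000)
  (.cons (.leaf 16
  0x800000c26201c25201c41201c20a01c20201c42901c43101c43900947301424101444901946300c259009040019000)
  .nil))) .nil))) .nil))) .nil))) (.cons (.splS 7 (.cons (.splS 6 (.cons (.leaf 3
  0x800000943300c239) (.cons (.splS 5 (.cons (.leaf 17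
  0x1c27a01c46203c25201421a01421201420a01420201422902443101423903424101a24b02444902146301c259019098011000)
  (.cons (.leaf 4 0xc43200a22b00c23900a24b) .nil))) .nil))) (.cons (.splS 6 (.cons (.leaf 15
  0x800001c25a03424200c42200c41a00c21a00c21200c20a03943304c43901a27301c44901c261009018009008)
  (.cons (.splS 5 (.cons (.leaf 12
  0x1425200c21a00c21200c20a00c20200c22901443101223b00c439014449011463009000) (.cons (.leaf 9
  0xc21a00c21200c20a00c20200a22b00c42901c439011048009000) .nil))) .nil))) .nil))) .nil))) (.cons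
  (.splS 14 (.cons (.splS 7 (.cons (.leaf 16
  0x3426203424a00c22a01422201c21a00c21200c20a00c20203943b01c23903147306444103224b034259011018009000)
  (.cons (.splS 6 (.cons (.leaf 12
  0xc22201421a01421200c20a00c20200943301423102c43902a24301a24b009010009000) (.cons (.splS 4 (.cons
  (.leaf 8 0xc41a00c21200c40200c22100c43100c43900a243009000) (.cons (.leaf 17
  0x800000c26202425201c41a01c21201c20a01c20201c42103443101c43900947301444101c44902146300c259009040019000)
  .nil))) .nil))) .nil))) (.cons (.splS 7 (.cons (.splS 15 (.cons (.splS 6 (.cons (.leaf 3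
  0x800000943300c239) (.cons (.splS 4 (.cons (.leaf 14
  0xc27a00c26200c24a01441a01421201440201422101443101423900a24301444100c259009098011000) (.cons
  (.leaf 15
  0xc27a00c26200c24a00c41a00c21200c20a00c20200c42101443100c23900a24301444100c259009098009000)
  .nil))) .nil))) (.cons (.leaf 9 0xc26200c44a00c24a00a27b00943b00a24300c44100c26900c251) .nil)))
  (.cons (.splS 6 (.cons (.leaf 14
  0x800000c25a01444200c41a00c21200c20a01143300c23102443900a27301a24300c44900c261009008) (.cons
  (.splS 4 (.cons (.leaf 8 0xc41a00c21200c40200c22100c43100c43900a243009000) (.cons (.leaf 10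
  0xc41a00c21200c20a00c20200c42101443100a23b00c439012243009000) .nil))) .nil))) .nil))) .nil)))
  .nil))) .nil))) (.cons (.splS 8 (.cons (.splS 9 (.cons (.splS 14 (.cons (.splS 7 (.cons (.leaf
  10 0x1000001446200c25200c24a02943b01147302424100a263014259009040) (.cons (.splS 15 (.cons (.leaf
  15 0x1800004c26a00c42200c21a00c21204947b00c43902947301424900c24103a26302446102c259014251009010)
  (.cons (.splS 6 (.cons (.leaf 12
  0xc22201421a01421200c20a00c20200943301423102c43901144b029048009010009000) (.cons (.splS 5 (.cons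
  (.leaf 18
  0x800000c26a01446201c25201421a01421201420a01420201422902443101443901147300c249024241014259009088019048011000)
  (.cons (.leaf 16
  0x800000c26200c24a01421a01421201420a01420201442901443102443900947301944b01424100c259029048011000)
  .nil))) .nil))) .nil))) .nil))) (.cons (.splS 7 (.cons (.splS 6 (.cons (.leaf 3
  0x800000943300c239) (.cons (.splS 5 (.cons (.leaf 17
  0x1447a01426a00c25200c21a00c21200c20a00c20200c22901443100c23900c24901424100a263014259011098009040009000)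
  (.cons (.leaf 13 0xc24a01443200c21a00c21200c20a00c20201a22b00c42902c23900a26300c251019040009000)
  .nil))) .nil))) (.cons (.splS 15 (.cons (.leaf 8
  0xc26a00c24200947b00a23b00944b00a26300c46100c251) (.cons (.splS 6 (.cons (.leaf 9
  0x800000c25a01424201143301443900a27300944b00c46100c251) (.cons (.splS 5 (.cons (.leaf 11
  0xc21a00c21200c20a00c20200c22901443101223b00c43901144b011048009000) (.cons (.leaf 9
  0xc21a00c21200c20a00c20200a22b00c42901c439011048009000) .nil))) .nil))) .nil))) .nil))) .nil)))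
  (.cons (.splS 14 (.cons (.splS 7 (.cons (.leaf 10
  0x1000000c46200c26200c25200c24a02943b011473024241014259009040) (.cons (.splS 15 (.cons (.leaf 15
  0x800003c26a02426200c22a00c22200c21a00c21203947b00c43902147301c44900c24103c461024259009010)
  (.cons (.splS 5 (.cons (.splS 6 (.cons (.leaf 12
  0x1426a01425200c21a00c21200c20a00c20201423100c22901c439014449011088009000) (.cons (.leaf 15
  0x1447a01426a01425200c21a00c21200c20a00c20201443100c22900c439014449014241014259011098009000)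
  .nil))) (.cons (.leaf 9 0xc21a00c21200c20a00c20200a22b00c42901c439011048009000) .nil))) .nil)))
  .nil))) (.cons (.splS 7 (.cons (.splS 6 (.cons (.leaf 3 0x800000943300c239) (.cons (.splS 5
  (.cons (.leaf 18
  0x2447a00c27a02426a00c46202c25201421a01421201420a01420201422902443101423900a24b02444903424102c259029098011000)
  (.cons (.leaf 4 0xc43200a22b00c23900a24b) .nil))) .nil))) (.cons (.splS 6 (.cons (.leaf 7
  0xc25a01424201143301443900a27300c461009070) (.cons (.splS 5 (.cons (.leaf 15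
  0x1447a01426a01425200c21a00c21200c20a00c20200c22901443100c439014449014241014259011098009000)
  (.cons (.leaf 9 0xc21a00c21200c20a00c20200a22b00c42901c439011048009000) .nil))) .nil))) .nil)))
  .nil))) .nil))) (.cons (.leaf 4 0xc44a00a24300a26300c251) .nil))) .nil))) (.cons (.leaf 5
  0xc25200a26b00c259009060009050) .nil))) (.cons (.splS 13 (.cons (.splS 14 (.cons (.leaf 5
  0xc26200947300a25b00c459009068) (.cons (.splS 15 (.cons (.splS 12 (.cons (.splS 9 (.cons (.splS
  8 (.cons (.leaf 7 0xc27a00c26200944300c24900a25b00c459009098) (.cons (.splS 7 (.cons (.splS 6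
  (.cons (.leaf 3 0x800000943300c239) (.cons (.splS 4 (.cons (.leaf 12
  0xc27a00c26200c41a00c21200c40200c22100c43100c23900c44100c459009098009000) (.cons (.leaf 13
  0x1427a01426200c41a00c21200c20a00c20200c42101443100c239014441014459011098009000) .nil))) .nil)))
  (.cons (.leaf 4 0xc44200a23b00c24900a25b) .nil))) .nil))) (.cons (.splS 8 (.cons (.splS 7 (.cons
  (.splS 6 (.cons (.leaf 3 0x800000943300c239) (.cons (.splS 5 (.cons (.leaf 16
  0x1c27a01446200c26201425200c21a00c21200c20a00c20200c22901443100c23901c24101444901c459019098009000)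
  (.cons (.leaf 15
  0x2c27a02c26200c21a00c21200c20a00c20200a22b00c42901c23901c24101444901225b02c459029098009000)
  .nil))) .nil))) (.cons (.splS 6 (.cons (.leaf 14
  0x1000000c25201c24200c22200c21a00c21200c20a02143300c23103443901c44901a25b009070009008) (.cons
  (.splS 5 (.cons (.leaf 12
  0x1425200c21a00c21200c20a00c20200c22901443101223b00c439014449011463009000) (.cons (.leaf 12
  0x1424200c21a00c21200c20a00c20200a22b00c42901223b01c43901444901225b009000) .nil))) .nil)))
  .nil))) (.cons (.splS 7 (.cons (.splS 6 (.cons (.leaf 3 0x800000943300c239) (.cons (.splS 4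
  (.cons (.leaf 12 0xc27a00c26200c41a00c21200c40200c22100c43100c23900c44100c459009098009000)
  (.cons (.leaf 13
  0x1427a01426200c41a00c21200c20a00c20200c42101443100c239014441014459011098009000) .nil))) .nil)))
  (.cons (.splS 6 (.cons (.leaf 16
  0x1800001425202c24200c22201421a01421200c20a00c20203143301423105443902c44902a25b011070009010009000)
  (.cons (.splS 4 (.cons (.leaf 8 0xc41a00c21200c40200c22100c43100c43900a243009000) (.cons (.leaf
  10 0xc41a00c21200c20a00c20200c42101443100a23b00c439012243009000) .nil))) .nil))) .nil))) .nil)))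
  .nil))) (.cons (.splS 9 (.cons (.leaf 8 0xc27a00c26200944b00a26300a25b00c45900c251009098) (.cons
  (.splS 8 (.cons (.splS 7 (.cons (.splS 6 (.cons (.leaf 3 0x800000943300c239) (.cons (.splS 5
  (.cons (.leaf 16
  0x1c27a01446200c26201425200c21a00c21200c20a00c20200c22901443100c23901c24101444901c459019098009000)
  (.cons (.leaf 10 0xc27a00c26200c43200a22b00c23900a26300a25b00c45900c251009098) .nil))) .nil)))
  (.cons (.splS 6 (.cons (.leaf 15
  0x1000001c25a00c25201c24200c22200c21a00c21200c20a02143300c23103443901c44901c459009070009008)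
  (.cons (.splS 5 (.cons (.leaf 15
  0x1427a01446201425200c21a00c21200c20a00c20200c22901443100c439014241014449014459011098009000)
  (.cons (.leaf 12 0x1424200c21a00c21200c20a00c20200a22b00c42901223b01c43901444901225b009000)
  .nil))) .nil))) .nil))) (.cons (.leaf 4 0xc44a00a24300a26300c251) .nil))) .nil))) .nil))) (.cons
  (.leaf 4 0xc46200a27b00c26900a25b) .nil))) .nil))) (.cons (.leaf 5
  0xc25200a26b00c459009068009050) .nil))) .nil))) (.cons (.leaf 2 0xa253009060) .nil))) .nil))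
  .nil)) .nil)) .nil)) .nil)) .nil)) .nil)) .nil)) .nil)) .nil)) .nil)) .nil)) .nil)) .nil))
  .nil))⟩

theorem kc_6_16_ok1 : kc_6_16.ok1 = true := by decide +kernel

theorem kc_6_16_ok2 : kc_6_16.ok2 = true := by decide +kernel

/-- A certificate. -/
def kc_7_10 : KCert :=
  ⟨7, 10, [0, 1, 2], [1, 3], [5, -5, 5, 0, 0], [0, 0, 0, -5, 0], 5, 0x50005000a0000000a,
  0x50000000500050005, 1, 1, 4, 2, 20, [0, 0, 21, 0], 4, [1], (.splS 0 (.cons (.leaf 2
  0x8000008403) (.cons (.leaf 2 0x9403009008) (.cons (.splT 1 (.cons (.splS 2 (.cons (.splS 1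
  (.cons (.leaf 3 0x800000900900920a) (.cons (.splT 0 (.cons (.leaf 3 0x9402009209009000) (.cons
  (.leaf 4 0x800000b20400901100920a) .nil))) (.cons (.leaf 4 0x1000000940900901100920a) .nil))))
  (.cons (.leaf 2 0x8000009211) (.cons (.splS 1 (.cons (.leaf 3 0x800000900900920a) (.cons (.splT
  0 (.cons (.leaf 3 0x9402009209009000) (.cons (.leaf 4 0xb402009411009020009000) .nil))) (.cons
  (.leaf 5 0x800000940900941100920a009020) .nil)))) .nil)))) (.cons (.leaf 2 0xb20c009020) .nil)))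
  .nil))))⟩

theorem kc_7_10_ok1 : kc_7_10.ok1 = true := by decide +kernel

theorem kc_7_10_ok2 : kc_7_10.ok2 = true := by decide +kernel

/-- A certificate. -/
def kc_8_22 : KCert :=
  ⟨8, 22, [3], [1, 2, 4], [0, 0, 0, 1, 0], [0, -1, -1, 0, -1], 1, 0x10002000100010001,
  0x1000000000001, 0, 1, 6, 3, 6, [7, 0, 0, 7], 6, [1], (.splS 4 (.cons (.splS 3 (.cons (.splS 2
  (.cons (.splS 1 (.cons (.splT 0 (.cons (.leaf 6 0x800000961900a609009602009030009000) (.cons
  (.leaf 6 0x800000a61900961100a602009030009000) (.cons (.leaf 5 0x800000a62100c61900c602009000)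
  .nil)))) .nil)) .nil)) .nil)) .nil))⟩

theorem kc_8_22_ok1 : kc_8_22.ok1 = true := by decide +kernel

theorem kc_8_22_ok2 : kc_8_22.ok2 = true := by decide +kernel

/-- A certificate. -/
def kc_12_18 : KCert :=
  ⟨12, 18, [2, 3], [1, 4], [0, 0, -4, 12, 0], [0, 4, 0, 0, -4], 4, 0x40010000000040004,
  0x4000400080004, 1, 1, 4, 5, 139, [0, 283, 0, 0], 6, [1, 0, 1], (.splS 5 (.cons (.splT 5 (.cons
  (.splS 4 (.cons (.splT 4 (.cons (.leaf 5 0x800000942202a623019429009020) (.cons (.leaf 6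
  0x800000c422032623019429009030009020) .nil))) (.cons (.splT 3 (.cons (.leaf 5
  0x800002181c01962100942a009020) (.cons (.splS 6 (.cons (.splT 4 (.cons (.splS 3 (.cons (.splS 7
  (.cons (.leaf 7 0x1000001943901943101441a01942a01c429011018) (.cons (.splS 2 (.cons (.leaf 7
  0x2800003a61301963903143103962103142a019040) (.cons (.splT 2 (.cons (.splS 1 (.cons (.splT 0
  (.cons (.leaf 5 0x960200c40900961200c419009000) (.cons (.leaf 5 0xc402011612014419009621009000)
  .nil))) (.cons (.leaf 7 0x1000001b40b02163902443101c41a01962102142a) .nil))) (.cons (.leaf 7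
  0x1000003c21402163904143103c41a00942a021040) .nil))) .nil))) .nil))) (.cons (.leaf 7
  0x1000002461901962201943102441a01c621009429) .nil))) (.cons (.leaf 4 0xc22400943100962a00a62b)
  .nil))) (.cons (.leaf 6 0x800001963100c41a01942a01c429009018) .nil))) .nil))) .nil))) (.cons
  (.splS 4 (.cons (.leaf 5 0x800001a62300c42a019429009038) (.cons (.splT 3 (.cons (.leaf 5
  0x800001981c01962100c42a009038) (.cons (.splS 2 (.cons (.leaf 4 0xa61300962100c42a009038) (.cons
  (.splT 4 (.cons (.splS 6 (.cons (.splS 3 (.cons (.splS 7 (.cons (.leaf 5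
  0x800001943901a63300c41a009018) (.cons (.splT 2 (.cons (.splT 0 (.cons (.splS 1 (.cons (.leaf 5
  0xc40900960200961200c419009000) (.cons (.leaf 8
  0x1000000b40b02160902140206161205c419029621021000) .nil))) (.cons (.leaf 5
  0xc402011612014419009621009000) .nil))) (.cons (.leaf 9
  0x800003461201963903143103161103441a00c42a019040009038) .nil))) .nil))) (.cons (.leaf 7
  0x1000002461901943101962202441a01c621009429) .nil))) (.cons (.splS 3 (.cons (.splT 2 (.cons
  (.splT 0 (.cons (.splS 1 (.cons (.leaf 5 0xc40900960200961200c419009000) (.cons (.leaf 8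
  0x1000000b40b02160902140206161205c419029621021000) .nil))) (.cons (.leaf 5
  0xc402011612014419009621009000) .nil))) (.cons (.leaf 5 0xc61200963100962200c429009010) .nil)))
  (.cons (.leaf 5 0x1000001b41b01963100c429011038) .nil))) .nil))) (.cons (.splS 7 (.cons (.leaf 5
  0x1000001943901c22400c429011038) (.cons (.leaf 6 0x800001963903462200b413029621019040) .nil)))
  .nil))) .nil))) .nil))) .nil))) .nil))) (.cons (.splS 6 (.cons (.splS 7 (.cons (.leaf 3
  0x800000943900c629) (.cons (.splT 4 (.cons (.splT 6 (.cons (.leaf 6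
  0x800001943201163902342b019629011040) (.cons (.splS 4 (.cons (.leaf 7
  0x1000001942100c432019622009639021629011040) (.cons (.splS 3 (.cons (.splT 3 (.cons (.leaf 6
  0x1000001981c01962100963901342b009040) (.cons (.splS 2 (.cons (.leaf 6
  0x800000a61300962100963901342b009040) (.cons (.splT 2 (.cons (.splS 1 (.cons (.splT 0 (.cons
  (.leaf 5 0x960200c40900961200c419009000) (.cons (.leaf 5 0xc402011612014419009621009000) .nil)))
  (.cons (.leaf 7 0x1000001b40b01c41a01962102163904342b021040) .nil))) (.cons (.leaf 7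
  0x1000001c21401c41a02163902b42b019629021040) .nil))) .nil))) .nil))) (.cons (.leaf 6
  0x800000b41b00963900b42b009629009040) .nil))) .nil))) .nil))) (.cons (.leaf 5
  0x800001c22401163900b42b011040) .nil))) .nil))) (.cons (.leaf 5 0x800001b43300b42b014629009038)
  .nil))) .nil)))⟩

theorem kc_12_18_ok1 : kc_12_18.ok1 = true := by decide +kernel

theorem kc_12_18_ok2 : kc_12_18.ok2 = true := by decide +kernel

/-- A certificate. -/
def kc_13_2 : KCert :=
  ⟨13, 2, [0, 2, 3], [1], [4, 0, 0, -4, 0], [0, 0, 0, 0, 0], 4, 0x40000000400040008,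
  0x40004000400040004, 1, 0, 4, 2, 7, [9, 1, 8, -5], 4, [1], (.splT 0 (.cons (.splS 1 (.cons
  (.leaf 4 0x8000009402009009009000) (.cons (.splS 2 (.cons (.leaf 5
  0x10000009402009011009409009000) (.cons (.leaf 3 0x800000941100a60b) (.cons (.leaf 6
  0x8000009402009611009409009028009000) .nil)))) (.cons (.leaf 4 0x9402009609009020009000)
  .nil)))) .nil))⟩

theorem kc_13_2_ok1 : kc_13_2.ok1 = true := by decide +kernel

theorem kc_13_2_ok2 : kc_13_2.ok2 = true := by decide +kernel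

/-- A certificate. -/
def kc_14_11 : KCert :=
  ⟨14, 11, [1, 2, 3], [0, 1, 3], [0, 0, 5, -5, 0], [-5, 10, 0, 5, 0], 5, 0x50000000a00050005,
  0x5000a0005000f0000, 1, 1, 4, 2, 3, [1, 4, -8, 8], 5, [1], (.splS 2 (.cons (.leaf 2
  0x8000009211) (.cons (.splS 1 (.cons (.splT 0 (.cons (.leaf 2 0x8402009000) (.cons (.leaf 3
  0x9402009209009000) (.cons (.leaf 4 0xb402009411009020009000) .nil)))) (.cons (.leaf 4
  0x800000a20b009411009020) (.cons (.leaf 2 0xb20b009020) .nil)))) (.cons (.leaf 2 0x800000b611)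
  .nil))))⟩

theorem kc_14_11_ok1 : kc_14_11.ok1 = true := by decide +kernel

theorem kc_14_11_ok2 : kc_14_11.ok2 = true := by decide +kernel

/-- A certificate. -/
def kc_15_7 : KCert :=
  ⟨15, 7, [0, 1, 2, 3], [0, 1, 2], [12, -6, -9, 6, 0], [3, -6, -6, 0, 0], 9, 0x9000f000000030015,
  0x9000900030003000c, 1, 1, 4, 3, 30, [0, 0, 65, 0], 5, [1], (.splS 3 (.cons (.leaf 2
  0x8000008019) (.cons (.leaf 2 0x8000009219) (.cons (.leaf 2 0x800000a419) (.cons (.splS 2 (.cons
  (.leaf 2 0x8000008213) (.cons (.splS 1 (.cons (.leaf 2 0x800000840b) (.cons (.leaf 3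
  0x800000940b009211) (.cons (.splT 0 (.cons (.leaf 2 0x8602009000) (.cons (.leaf 2 0x900400a409)
  (.cons (.leaf 2 0xa004009211) .nil)))) (.cons (.leaf 4 0x800000b40b009619009030) .nil)))))
  (.cons (.leaf 4 0x800000a213009619009030) (.cons (.leaf 4 0x800000b21300a619009030) .nil)))))
  .nil)))))⟩

theorem kc_15_7_ok1 : kc_15_7.ok1 = true := by decide +kernel

theorem kc_15_7_ok2 : kc_15_7.ok2 = true := by decide +kernel

/-- A certificate. -/
def kc_15_9 : KCert :=
  ⟨15, 9, [0, 1, 2, 3], [0, 3], [12, -9, 12, 3, 0], [9, 0, 0, 12, 0], 9, 0x9000c001500000015,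
  0x90015000900090012, 1, 1, 6, 2, 26, [0, 27, 0, 27], 7, [1], (.splS 2 (.cons (.leaf 2
  0x8000008011) (.cons (.leaf 2 0x8211009018) (.cons (.splS 0 (.cons (.leaf 2 0x8000008403) (.cons
  (.leaf 2 0x9403009008) (.cons (.splS 4 (.cons (.leaf 3 0x8000008021008411) (.cons (.leaf 3
  0x800000822100b411) (.cons (.splS 3 (.cons (.leaf 3 0x800000821b008411) (.cons (.leaf 2
  0x961b008421) (.cons (.leaf 4 0x800000a61b00842100b411) (.cons (.splT 0 (.cons (.leaf 2
  0x8402009000) (.cons (.leaf 2 0xb00400b619) .nil))) .nil))))) (.cons (.leaf 3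
  0x800000b621008411) .nil))))) (.cons (.leaf 2 0xb403009018) .nil))))) (.cons (.leaf 2
  0x800000b611) .nil)))))⟩

theorem kc_15_9_ok1 : kc_15_9.ok1 = true := by decide +kernel

theorem kc_15_9_ok2 : kc_15_9.ok2 = true := by decide +kernel

/-- A certificate. -/
def kc_15_22 : KCert :=
  ⟨15, 22, [0, 1, 2, 3], [1, 2, 4], [-6, 6, -12, 3, 0], [0, -3, -12, 0, -9], 12,
  0xc000f000000120006, 0x3000c00000009000c, 1, 1, 4, 3, 29, [0, 63, 0, 0], 4, [1], (.splS 2 (.cons
  (.leaf 2 0x8000008213) (.cons (.splT 2 (.cons (.splS 3 (.cons (.splS 1 (.cons (.leaf 2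
  0x800000840b) (.cons (.leaf 3 0x800000940b009211) (.cons (.splT 0 (.cons (.leaf 3
  0x960200a409009000) (.cons (.leaf 3 0xa602009211009000) (.cons (.leaf 4
  0x800000c404009019009212) .nil)))) (.cons (.leaf 3 0x1000000b40b009019) .nil))))) (.cons (.leaf
  2 0x8000009219) (.cons (.leaf 2 0x800000a419) (.cons (.splS 1 (.cons (.leaf 2 0x800000840b)
  (.cons (.leaf 3 0x800000940b009211) (.cons (.splT 0 (.cons (.leaf 3 0x960200a409009000) (.cons
  (.leaf 3 0xa602009211009000) (.cons (.leaf 4 0xc602009619009030009000) .nil)))) (.cons (.leaf 4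
  0x800000b40b009619009030) .nil))))) .nil))))) (.cons (.leaf 2 0xa214009020) (.cons (.leaf 2
  0xc214009030) .nil)))) (.cons (.leaf 2 0xa213009020) (.cons (.leaf 2 0xb213009028) .nil)))))⟩

theorem kc_15_22_ok1 : kc_15_22.ok1 = true := by decide +kernel

theorem kc_15_22_ok2 : kc_15_22.ok2 = true := by decide +kernel

/-- A certificate. -/
def kc_16_11 : KCert :=
  ⟨16, 11, [4], [0, 1, 3], [0, 0, 0, 0, 2], [-2, -2, 0, -2, 0], 2, 0x40002000200020002,
  0x20000000200000000, 0, 1, 4, 4, 8, [9, 0, 9, 0], 4, [1], (.splS 4 (.cons (.splS 3 (.cons (.splS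
  1 (.cons (.splT 0 (.cons (.leaf 2 0x8802009000) (.cons (.leaf 6
  0x800000982100b809009802009040009000) (.cons (.leaf 6 0x800000b82100981900b802009040009000)
  .nil)))) .nil)) .nil)) .nil))⟩

theorem kc_16_11_ok1 : kc_16_11.ok1 = true := by decide +kernel

theorem kc_16_11_ok2 : kc_16_11.ok2 = true := by decide +kernel

/-- A certificate. -/
def kc_16_15 : KCert :=
  ⟨16, 15, [4], [0, 1, 2, 3], [0, 0, 0, 0, 2], [-2, -2, -2, -2, 0], 2, 0x40002000200020002,
  0x20000000000000000, 0, 1, 4, 4, 8, [0, 9, 0, 0], 5, [1], (.splS 4 (.cons (.splS 3 (.cons (.splS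
  2 (.cons (.splS 1 (.cons (.splT 0 (.cons (.leaf 2 0x8802009000) (.cons (.leaf 6
  0x800000982100b809009802009040009000) (.cons (.leaf 6 0x800000a82100a81100a802009040009000)
  (.cons (.leaf 6 0x800000b82100981900b802009040009000) .nil))))) .nil)) .nil)) .nil)) .nil))⟩

theorem kc_16_15_ok1 : kc_16_15.ok1 = true := by decide +kernel

theorem kc_16_15_ok2 : kc_16_15.ok2 = true := by decide +kernel

/-- A certificate. -/
def kc_17_8 : KCert :=
  ⟨17, 8, [0, 4], [3], [-4, 0, 0, 0, 0], [0, 0, 0, -4, 0], 4, 0x40004000400040000,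
  0x40000000400040004, 1, 0, 6, 10, 25, [0, 0, 350, 0], 6, [1], (.splT 12 (.cons (.splT 8 (.cons
  (.splT 6 (.cons (.splT 5 (.cons (.splT 4 (.cons (.splT 1 (.cons (.splT 0 (.cons (.splS 7 (.cons
  (.leaf 5 0xb04200b82200883b00b039009020) (.cons (.splS 6 (.cons (.leaf 2 0x8000008833) (.cons
  (.splS 5 (.cons (.leaf 3 0xb83200882b009030) (.cons (.splS 2 (.cons (.leaf 3 0xb832008813009048)
  (.cons (.splS 10 (.cons (.splS 9 (.cons (.splS 11 (.cons (.leaf 5
  0xb06200b83200885b00b049009030) (.cons (.splS 8 (.cons (.splS 3 (.cons (.leaf 9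
  0xb83200b82a00b02200b80200b01900b04100b839009028009000) (.cons (.leaf 9
  0xb83200b82a00b80a00b80200b81900b04100b839009008009000) .nil))) (.cons (.splS 3 (.cons (.leaf 11
  0x1383200b82a00b02200b80a01380201301900b84100b04900b839009008011000) (.cons (.leaf 11
  0x1383200b82a00b80a00b80200b81900b84100b04900b839009030009008009000) .nil))) .nil))) .nil)))
  (.cons (.leaf 3 0x800000c04b00b051) .nil))) (.cons (.splS 9 (.cons (.splS 11 (.cons (.leaf 5
  0xb06200b83200885b00b049009030) (.cons (.splS 8 (.cons (.splS 3 (.cons (.leaf 9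
  0xb83200b82a00b02200b80200b01900b04100b839009028009000) (.cons (.leaf 9
  0xb83200b82a00b80a00b80200b81900b04100b839009008009000) .nil))) (.cons (.splS 3 (.cons (.leaf 11
  0x1383200b82a00b02200b80a01380201301900b84100b04900b839009008011000) (.cons (.leaf 11
  0x1383200b82a00b80a00b80200b81900b84100b04900b839009030009008009000) .nil))) .nil))) .nil)))
  (.cons (.splS 11 (.cons (.leaf 8 0x1000000b04200b82201305901404b01385100b839009020) (.cons
  (.splS 3 (.cons (.splS 8 (.cons (.leaf 9 0xb83200b82a00b02200b80200b04100b01900b839009028009000)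
  (.cons (.leaf 12 0x800000b83200b02200b80200c04300b01900b85900b84900b85100b839009078009000)
  .nil))) (.cons (.leaf 7 0x800000c01b00b85900c04b00b85100b839009078) .nil))) .nil))) .nil)))
  .nil))) .nil))) .nil))) .nil))) .nil))) .nil)) .nil)) .nil)) .nil)) .nil)) .nil)) .nil))⟩

theorem kc_17_8_ok1 : kc_17_8.ok1 = true := by decide +kernel

theorem kc_17_8_ok2 : kc_17_8.ok2 = true := by decide +kernel

/-- A certificate. -/
def kc_17_10 : KCert :=
  ⟨17, 10, [0, 4], [1, 3], [2, 0, 0, 0, -2], [0, -2, 0, -2, 0], 2, 0x2000200020004,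
  0x20000000200000002, 1, 1, 4, 4, 8, [0, 9, -9, 0], 5, [1], (.splS 0 (.cons (.leaf 2
  0x8000008803) (.cons (.splS 4 (.cons (.splS 3 (.cons (.splS 1 (.cons (.splT 0 (.cons (.leaf 4
  0x800000980200b009009000) (.cons (.leaf 4 0x800000b802009019009000) .nil))) (.cons (.leaf 3
  0x800000c00b009021) .nil))) (.cons (.leaf 3 0x800000c01b00b021) .nil))) (.cons (.splS 3 (.cons
  (.splS 1 (.cons (.splT 0 (.cons (.leaf 4 0x800000980200b009009000) (.cons (.leaf 4
  0x800000b802009019009000) .nil))) (.cons (.leaf 3 0xc00b009821009040) .nil))) (.cons (.leaf 3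
  0xc01b00b821009040) .nil))) .nil))) .nil)))⟩

theorem kc_17_10_ok1 : kc_17_10.ok1 = true := by decide +kernel

theorem kc_17_10_ok2 : kc_17_10.ok2 = true := by decide +kernel

/-- A certificate. -/
def kc_18_1 : KCert :=
  ⟨18, 1, [1, 4], [0], [0, 1, 0, 0, -1], [-1, 0, 0, 0, 0], 1, 0x1000100020001,
  0x10001000100010000, 1, 0, 4, 1, 1, [2, 0, 0, 0], 4, [1], (.splT 0 (.cons (.leaf 2 0x8202009000)
  .nil))⟩

theorem kc_18_1_ok1 : kc_18_1.ok1 = true := by decide +kernel

theorem kc_18_1_ok2 : kc_18_1.ok2 = true := by decide +kernel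

/-- A certificate. -/
def kc_19_9 : KCert :=
  ⟨19, 9, [0, 1, 4], [0, 3], [-7, -14, 0, 0, 7], [0, 0, 0, 0, 0], 14, 0x15000e000e00000007,
  0xe000e000e000e000e, 1, 1, 10, 4, 77, [0, 78, 0, 78], 13, [1], (.splS 4 (.cons (.leaf 2
  0x8000008021) (.cons (.leaf 2 0x8221009028) (.cons (.splS 3 (.cons (.leaf 2 0x800000821b) (.cons
  (.splS 0 (.cons (.leaf 2 0x8000008803) (.cons (.leaf 2 0x9803009008) (.cons (.splS 8 (.cons
  (.leaf 3 0x8000008041008821) (.cons (.leaf 3 0x8241008821009048) (.cons (.splS 7 (.cons (.leaf 3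
  0x800000823b008821) (.cons (.splT 5 (.cons (.leaf 3 0x800000862c008821) (.cons (.splT 1 (.cons
  (.leaf 2 0x800000860c) (.cons (.splT 7 (.cons (.leaf 3 0x800000823a00b821) (.cons (.splS 6
  (.cons (.leaf 4 0x800000883300b23a00b821) (.cons (.leaf 5 0x800000983300b23a013821009040) (.cons
  (.splS 10 (.cons (.leaf 4 0x800000805100b23a00b821) (.cons (.leaf 7
  0x800000825100b23a00b84100b821008821009060) (.cons (.splS 9 (.cons (.leaf 4
  0x800000824b00b23a00b821) (.cons (.splT 6 (.cons (.splT 0 (.cons (.leaf 2 0x8802009000) (.cons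
  (.leaf 6 0xb80200883200b23a00b21900b821009000) .nil))) (.cons (.leaf 5
  0xb83200b249008841008821009030) .nil))) (.cons (.leaf 6 0x800000c24b00b85101323a013821009070)
  .nil)))) .nil)))) .nil)))) .nil))) .nil))) .nil))) (.cons (.leaf 5
  0x800000c23b00b841010821009060) .nil)))) .nil)))) .nil)))) (.cons (.leaf 4
  0x800000c21b00b821009040) .nil)))) .nil))))⟩

theorem kc_19_9_ok1 : kc_19_9.ok1 = true := by decide +kernel

theorem kc_19_9_ok2 : kc_19_9.ok2 = true := by decide +kernel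

/-- A certificate. -/
def kc_20_2 : KCert :=
  ⟨20, 2, [2, 4], [1], [0, 0, 2, 0, -2], [0, -2, 0, 0, 0], 2, 0x2000400020002,
  0x20002000200000002, 1, 0, 4, 2, 12, [13, 0, 0, 0], 4, [1], (.splT 0 (.cons (.splS 1 (.cons
  (.splS 2 (.cons (.leaf 5 0x8000009802009411009409009000) (.cons (.leaf 6
  0x8000009402009811009409009030009000) .nil))) (.cons (.leaf 4 0x9402009809009028009000) .nil)))
  .nil))⟩

theorem kc_20_2_ok1 : kc_20_2.ok1 = true := by decide +kernel

theorem kc_20_2_ok2 : kc_20_2.ok2 = true := by decide +kernel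

/-- A certificate. -/
def kc_20_10 : KCert :=
  ⟨20, 10, [2, 4], [1, 3], [0, 0, 0, 0, 5], [0, 5, 0, -5, 0], 5, 0xa0005000500050005,
  0x500000005000a0005, 1, 1, 4, 2, 21, [0, 0, 0, 47], 5, [1], (.splT 1 (.cons (.splS 2 (.cons
  (.splT 0 (.cons (.splS 1 (.cons (.leaf 3 0x8000009409009604) (.cons (.leaf 5
  0x800000980900980200b411009000) .nil))) (.cons (.leaf 3 0xb802009411009000) .nil))) (.cons
  (.splT 0 (.cons (.splS 1 (.cons (.leaf 3 0x8000009409009604) (.cons (.leaf 6
  0x800000980900940200b811009030009000) .nil))) (.cons (.leaf 4 0xb402009811009030009000) .nil)))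
  .nil))) (.cons (.leaf 2 0xb20c009020) .nil)))⟩

theorem kc_20_10_ok1 : kc_20_10.ok1 = true := by decide +kernel

theorem kc_20_10_ok2 : kc_20_10.ok2 = true := by decide +kernel

/-- A certificate. -/
def kc_21_14 : KCert :=
  ⟨21, 14, [0, 2, 4], [1, 2, 3], [4, 0, -4, 0, 0], [0, 4, -4, 0, 0], 4, 0x40004000000040008,
  0x40004000000080004, 1, 1, 4, 4, 17, [0, 0, 0, 39], 7, [1], (.splT 3 (.cons (.splS 0 (.cons
  (.leaf 2 0x8000008803) (.cons (.leaf 2 0xa803009010) (.cons (.splS 4 (.cons (.splS 3 (.cons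
  (.splS 2 (.cons (.leaf 2 0x8000008413) (.cons (.splT 2 (.cons (.leaf 3 0x10000009414009019)
  (.cons (.splS 1 (.cons (.splT 0 (.cons (.leaf 4 0x800000940400b00900a412) (.cons (.leaf 3
  0xa80200a411009000) (.cons (.leaf 4 0x800000b40400a412009019) .nil)))) (.cons (.leaf 3
  0x800000a00b009019) (.cons (.leaf 3 0x800000c00b009021) .nil)))) (.cons (.leaf 3
  0x1000000b414009021) .nil)))) (.cons (.leaf 3 0x1000000c41300a021) .nil)))) (.cons (.leaf 4
  0x800000941900902100901a) (.cons (.leaf 4 0x800000981900b02100901a) .nil)))) (.cons (.leaf 2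
  0x800000a421) (.cons (.splS 3 (.cons (.splS 2 (.cons (.leaf 2 0x8000008413) (.cons (.splT 2
  (.cons (.leaf 3 0x10000009414009019) (.cons (.splS 1 (.cons (.splT 0 (.cons (.leaf 4
  0x800000940400b00900a412) (.cons (.leaf 3 0xa80200a411009000) (.cons (.leaf 4
  0x800000b40400a412009019) .nil)))) (.cons (.leaf 3 0x800000a00b009019) (.cons (.leaf 3
  0xc00b009821009040) .nil)))) (.cons (.leaf 5 0x800000b41200a41100901900941a) .nil)))) (.cons
  (.leaf 4 0x800000c41300a821009040) .nil)))) (.cons (.leaf 3 0xa01b009821009040) (.cons (.leaf 3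
  0xc01b00b821009040) .nil)))) .nil)))) .nil)))) (.cons (.leaf 2 0xa21c009028) (.cons (.leaf 2
  0xb21c009030) .nil))))⟩

theorem kc_21_14_ok1 : kc_21_14.ok1 = true := by decide +kernel

theorem kc_21_14_ok2 : kc_21_14.ok2 = true := by decide +kernel

/-- A certificate. -/
def kc_22_6 : KCert :=
  ⟨22, 6, [1, 2, 4], [1, 2], [0, 16, -4, 0, 4], [0, 8, 16, 0, 0], 4, 0x80004000000140004,
  0x400040014000c0004, 1, 1, 4, 4, 30, [0, 0, 65, 0], 6, [1], (.splS 4 (.cons (.leaf 2
  0x8000009221) (.cons (.leaf 2 0x800000a421) (.cons (.splS 3 (.cons (.splS 2 (.cons (.leaf 3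
  0x8000009413009219) (.cons (.splT 3 (.cons (.splS 1 (.cons (.leaf 3 0x940b00921a00a411) (.cons
  (.splT 0 (.cons (.leaf 3 0x980200a409009000) (.cons (.leaf 3 0xa80200a411009000) .nil))) (.cons
  (.leaf 4 0xc40b00921a009821009040) .nil)))) (.cons (.leaf 5 0x800000a21a009219009821009040)
  .nil))) (.cons (.leaf 4 0x800000c41300a821009040) .nil)))) (.cons (.leaf 4
  0x800000a21b009821009040) (.cons (.leaf 2 0xc21b009038) .nil)))) .nil))))⟩

theorem kc_22_6_ok1 : kc_22_6.ok1 = true := by decide +kernel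

theorem kc_22_6_ok2 : kc_22_6.ok2 = true := by decide +kernel

/-- A certificate. -/
def kc_23_14 : KCert :=
  ⟨23, 14, [0, 1, 2, 4], [1, 2, 3], [8, 0, -8, 0, -4], [0, 8, -8, -8, 0], 8, 0x40008000000080010,
  0x80000000000100008, 1, 1, 4, 4, 32, [33, 0, 0, -33], 4, [1], (.splS 3 (.cons (.leaf 2
  0x800000821b) (.cons (.splT 3 (.cons (.splS 4 (.cons (.splS 2 (.cons (.leaf 2 0x8000008413)
  (.cons (.leaf 3 0x8000009413009219) (.cons (.splS 1 (.cons (.splT 0 (.cons (.leaf 4
  0x800000980200b009009000) (.cons (.leaf 3 0xa80200a411009000) (.cons (.leaf 3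
  0xb802009219009000) .nil)))) (.cons (.leaf 2 0x900b00a411) (.cons (.leaf 2 0xa00b009219) (.cons
  (.leaf 4 0x800000c40b00902100921a) .nil))))) (.cons (.leaf 3 0x1000000c41300a021) .nil)))))
  (.cons (.leaf 2 0x8000009221) (.cons (.leaf 2 0x800000a421) (.cons (.splS 2 (.cons (.leaf 2
  0x8000008413) (.cons (.leaf 3 0x8000009413009219) (.cons (.splS 1 (.cons (.splT 0 (.cons (.leaf
  4 0x800000980200b009009000) (.cons (.leaf 3 0xa80200a411009000) (.cons (.leaf 3
  0xb802009219009000) .nil)))) (.cons (.leaf 2 0x900b00a411) (.cons (.leaf 2 0xa00b009219) (.cons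
  (.leaf 3 0xc00b009821009040) .nil))))) (.cons (.leaf 4 0x800000c41300a821009040) .nil)))))
  .nil))))) (.cons (.leaf 2 0xa21c009028) (.cons (.leaf 2 0xb21c009030) .nil)))) (.cons (.leaf 2
  0xa21b009028) (.cons (.leaf 2 0xc21b009038) .nil)))))⟩

theorem kc_23_14_ok1 : kc_23_14.ok1 = true := by decide +kernel

theorem kc_23_14_ok2 : kc_23_14.ok2 = true := by decide +kernel

/-- A certificate. -/
def kc_24_13 : KCert :=
  ⟨24, 13, [3, 4], [0, 2, 3], [0, 0, 0, 10, 15], [10, 0, 15, -15, 0], 15, 0x1e0019000f000f000f,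
  0xf0000001e000f0019, 1, 1, 6, 4, 62, [0, 0, 268, 0], 6, [1], (.splT 2 (.cons (.leaf 2
  0x8000008414) (.cons (.splS 4 (.cons (.leaf 2 0x800000b621) (.cons (.splT 5 (.cons (.leaf 3
  0x800000862c008821) (.cons (.leaf 3 0x800000a62c00b821) (.cons (.splT 3 (.cons (.leaf 2
  0x841c00b62a) (.cons (.splT 6 (.cons (.leaf 3 0x8000008434008821) (.cons (.splS 2 (.cons (.splT
  0 (.cons (.leaf 2 0x8802009000) (.cons (.leaf 4 0xa80200a611009028009000) (.cons (.splS 3 (.cons
  (.leaf 3 0xa61900b00400b813) (.cons (.leaf 6 0xa81900b80200b62a00b821009040009000) .nil)))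
  .nil)))) (.cons (.leaf 4 0xc61300b62a00a821009040) .nil))) (.cons (.leaf 4
  0xb43400b63200a821009048) .nil)))) (.cons (.leaf 4 0xb41c00b62a00a821009040) .nil)))) .nil))))
  .nil))) (.cons (.leaf 2 0xb414009028) .nil))))⟩

theorem kc_24_13_ok1 : kc_24_13.ok1 = true := by decide +kernel

theorem kc_24_13_ok2 : kc_24_13.ok2 = true := by decide +kernel

/-- A certificate. -/
def kc_24_14 : KCert :=
  ⟨24, 14, [3, 4], [1, 2, 3], [0, 0, 0, -2, 2], [0, -2, 0, -2, 0], 2, 0x40000000200020002,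
  0x20000000200000002, 1, 1, 4, 4, 11, [27, 0, 0, 0], 4, [1], (.splT 2 (.cons (.leaf 2
  0x9414009018) (.cons (.splS 4 (.cons (.leaf 2 0x800000b621) (.cons (.splT 3 (.cons (.splS 1
  (.cons (.splS 0 (.cons (.leaf 2 0xb803009018) (.cons (.splT 0 (.cons (.leaf 3
  0x980200b609009000) (.cons (.splS 2 (.cons (.leaf 6 0x800000a61100a802009821009040009000) (.cons
  (.leaf 6 0x800000a81100a80200a821009040009000) .nil))) (.cons (.splS 3 (.cons (.leaf 6
  0x800000961900b80200a821009040009000) (.cons (.leaf 6 0x800000981900b80200b821009040009000)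
  .nil))) .nil)))) .nil))) (.cons (.leaf 4 0x800000c60b009821009040) .nil))) (.cons (.leaf 4
  0x800000a21c009821009040) (.cons (.leaf 4 0x800000b21c00a821009040) .nil)))) .nil))) (.cons
  (.leaf 2 0xb414009028) .nil))))⟩

theorem kc_24_14_ok1 : kc_24_14.ok1 = true := by decide +kernel

theorem kc_24_14_ok2 : kc_24_14.ok2 = true := by decide +kernel

/-- A certificate. -/
def kc_25_9 : KCert :=
  ⟨25, 9, [0, 3, 4], [0, 3], [6, 0, 0, -12, -6], [-12, 0, 0, 6, 0], 12, 0x60000000c000c0012,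
  0xc0012000c000c0000, 1, 1, 10, 4, 27, [59, 0, 59, -59], 10, [1], (.splS 4 (.cons (.leaf 2
  0x8000008021) (.cons (.leaf 2 0x800000b621) (.cons (.splS 0 (.cons (.leaf 2 0x8000008803) (.cons
  (.leaf 2 0xb803009018) (.cons (.splS 8 (.cons (.leaf 3 0x8000008041008821) (.cons (.leaf 3
  0x800000b641008821) (.cons (.splT 5 (.cons (.leaf 3 0x800000862c008821) (.cons (.splT 1 (.cons
  (.leaf 2 0x800000860c) (.cons (.splT 7 (.cons (.leaf 3 0x803a00b821009040) (.cons (.splT 0
  (.cons (.leaf 2 0x8802009000) (.cons (.splS 3 (.cons (.splT 6 (.cons (.leaf 4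
  0x803200b01900b802009000) (.cons (.splS 9 (.cons (.leaf 9
  0x800000b04900b83200b01900b80200b03a00884100b821009000) (.cons (.leaf 5
  0xb64900b03200b01900b802009000) (.cons (.splS 10 (.cons (.leaf 10
  0x800000b05100b84900b03200b01900b80200b03a00884100b821009000) (.cons (.leaf 4
  0xb65100b03a00b821009040) (.cons (.leaf 6 0xb85100c64b00b03a00884100b821009070) .nil))))
  .nil)))) .nil))) (.cons (.leaf 3 0xb61900b802009000) (.cons (.leaf 3 0xc01b00b821009040)
  .nil)))) .nil))) .nil))) .nil))) .nil))) .nil)))) .nil)))) .nil))))⟩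

theorem kc_25_9_ok1 : kc_25_9.ok1 = true := by decide +kernel

theorem kc_25_9_ok2 : kc_25_9.ok2 = true := by decide +kernel

/-- A certificate. -/
def kc_26_7 : KCert :=
  ⟨26, 7, [1, 3, 4], [0, 1, 2], [0, 6, 0, 3, -6], [0, 3, -6, 0, 0], 6, 0x90006000c0006,
  0x60006000000090006, 1, 1, 4, 3, 20, [0, 0, 45, 0], 5, [1], (.splS 3 (.cons (.leaf 2
  0x8000009219) (.cons (.splS 2 (.cons (.splT 2 (.cons (.leaf 3 0x8000008212009211) (.cons (.splS
  1 (.cons (.splT 0 (.cons (.leaf 2 0x8602009000) (.cons (.leaf 5 0x800000960200a209009211009000)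
  (.cons (.leaf 3 0xa602009211009000) .nil)))) (.cons (.leaf 4 0xb20b009212009619009030) (.cons
  (.leaf 4 0xc20b00921200a619009030) .nil)))) (.cons (.leaf 5 0x800000a212009211009619009030)
  .nil)))) (.cons (.leaf 4 0x800000b21300a619009030) (.cons (.leaf 2 0xc213009030) .nil)))) (.cons
  (.leaf 2 0x8819009038) .nil))))⟩

theorem kc_26_7_ok1 : kc_26_7.ok1 = true := by decide +kernel

theorem kc_26_7_ok2 : kc_26_7.ok2 = true := by decide +kernel

/-- A certificate. -/
def kc_26_14 : KCert :=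
  ⟨26, 14, [1, 3, 4], [1, 2, 3], [0, 8, 0, 0, 8], [0, 4, 8, 0, 0], 0, 0x80000000000080000,
  0x800040000, 1, 1, 4, 4, 15, [0, 0, 80, 0], 6, [1], (.splS 4 (.cons (.leaf 2 0x8000009221)
  (.cons (.leaf 2 0x800000b621) (.cons (.splS 3 (.cons (.splT 3 (.cons (.splS 2 (.cons (.splT 2
  (.cons (.leaf 4 0x800000921200a211009219) (.cons (.splS 1 (.cons (.leaf 4
  0x1000000960b00a211009219) (.cons (.splT 0 (.cons (.leaf 3 0x980200b609009000) (.cons (.leaf 5
  0x800000a80200a211009219009000) (.cons (.leaf 3 0xb802009219009000) .nil)))) (.cons (.leaf 4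
  0x800000c60b009821009040) .nil)))) (.cons (.leaf 5 0x800000b21200a211009821009040) .nil))))
  (.cons (.leaf 4 0xb21300921a009821009040) (.cons (.leaf 4 0xc21300921a00a821009040) .nil))))
  (.cons (.leaf 5 0x800000a21a009219009821009040) (.cons (.leaf 5 0x800000b21a00921900a821009040)
  .nil)))) (.cons (.leaf 4 0x800000b21b00a821009040) (.cons (.leaf 4 0x800000c21b00b821009040)
  .nil)))) .nil))))⟩

theorem kc_26_14_ok1 : kc_26_14.ok1 = true := by decide +kernel

theorem kc_26_14_ok2 : kc_26_14.ok2 = true := by decide +kernel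

/-- A certificate. -/
def kc_26_15 : KCert :=
  ⟨26, 15, [1, 3, 4], [0, 1, 2, 3], [0, -16, 0, -4, 0], [-12, 0, 4, 0, 0], 16,
  0x10000c001000000010, 0x100010001400100004, 1, 1, 4, 4, 21, [0, 0, 0, 47], 7, [1], (.splT 2
  (.cons (.leaf 2 0x8000008414) (.cons (.leaf 2 0x9414009018) (.cons (.splS 4 (.cons (.leaf 2
  0x8000009221) (.cons (.leaf 2 0x800000b621) (.cons (.splT 3 (.cons (.leaf 2 0x800000821c) (.cons
  (.splS 3 (.cons (.splS 1 (.cons (.leaf 2 0x960b009010) (.cons (.splT 0 (.cons (.leaf 2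
  0x8802009000) (.cons (.leaf 3 0x980200b609009000) (.cons (.splS 2 (.cons (.leaf 5
  0x800000a21100a802009219009000) (.cons (.leaf 6 0x800000a61100a60400921a009821009040) (.cons
  (.leaf 6 0x800000a81100a60400921a00a821009040) .nil)))) (.cons (.leaf 3 0xb802009219009000)
  .nil))))) (.cons (.leaf 4 0x800000c60b009821009040) .nil)))) (.cons (.leaf 5
  0x800000961900921a00a821009040) (.cons (.leaf 5 0x800000981900921a00b821009040) .nil)))) (.cons
  (.leaf 4 0x800000a21c009821009040) (.cons (.leaf 4 0x800000b21c00a821009040) .nil))))) .nil))))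
  (.cons (.leaf 2 0xb414009028) .nil)))))⟩

theorem kc_26_15_ok1 : kc_26_15.ok1 = true := by decide +kernel

theorem kc_26_15_ok2 : kc_26_15.ok2 = true := by decide +kernel

/-- A certificate. -/
def kc_26_23 : KCert :=
  ⟨26, 23, [1, 3, 4], [0, 1, 2, 4], [0, -20, 0, 20, -10], [15, 5, 0, 0, 0], 20,
  0xa0028001400000014, 0x140014001400190023, 1, 1, 4, 3, 70, [0, 0, 71, 0], 5, [1], (.splT 2
  (.cons (.leaf 2 0x8000008214) (.cons (.splS 3 (.cons (.leaf 2 0x8000009219) (.cons (.splS 2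
  (.cons (.leaf 2 0x9813008619) (.cons (.leaf 5 0x800000961100a619009212009030) (.cons (.splT 1
  (.cons (.leaf 2 0x800000840c) (.cons (.leaf 4 0x800000940c009811009030) (.cons (.splT 0 (.cons
  (.leaf 2 0x8602009000) (.cons (.splS 1 (.cons (.leaf 3 0x800000a209009404) (.cons (.leaf 6
  0x800000a609009404009619009212009030) (.cons (.leaf 6 0x800000a80900940400a619009212009030)
  .nil)))) (.cons (.leaf 2 0xa00400c811) (.cons (.leaf 4 0xc602009619009030009000) .nil)))))
  (.cons (.leaf 4 0x800000c40c00a619009030) .nil))))) .nil)))) (.cons (.leaf 2 0x800000c819)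
  .nil)))) (.cons (.leaf 2 0xa214009020) (.cons (.leaf 2 0xc214009030) .nil)))))⟩

theorem kc_26_23_ok1 : kc_26_23.ok1 = true := by decide +kernel

theorem kc_26_23_ok2 : kc_26_23.ok2 = true := by decide +kernel

/-- A certificate. -/
def kc_27_6 : KCert :=
  ⟨27, 6, [0, 1, 3, 4], [1, 2], [8, 16, 0, 8, -16], [0, 16, 4, 0, 0], 16, 0x18001000200018,
  0x100010001400200010, 1, 1, 4, 3, 44, [0, 0, 45, 0], 5, [1], (.splS 2 (.cons (.leaf 2
  0x8000008213) (.cons (.splT 2 (.cons (.splT 1 (.cons (.leaf 3 0x800000940c009211) (.cons (.splT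
  0 (.cons (.splS 1 (.cons (.leaf 4 0x800000a009009404009212) (.cons (.leaf 5
  0x800000a209009602009211009000) (.cons (.splS 3 (.cons (.leaf 5 0x1000000901900a609009404009212)
  (.cons (.leaf 2 0x8000009219) (.cons (.leaf 5 0x800000961900a609009404009812) (.cons (.leaf 6
  0x800000981900a609009404009212009038) .nil))))) (.cons (.leaf 4 0xa809009602009028009000)
  .nil))))) (.cons (.leaf 3 0xa602009211009000) .nil))) .nil))) (.cons (.leaf 2 0xa214009020)
  .nil))) (.cons (.leaf 2 0xb213009028) (.cons (.leaf 2 0xc213009030) .nil)))))⟩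

theorem kc_27_6_ok1 : kc_27_6.ok1 = true := by decide +kernel

theorem kc_27_6_ok2 : kc_27_6.ok2 = true := by decide +kernel

/-- A certificate. -/
def kc_28_16 : KCert :=
  ⟨28, 16, [2, 3, 4], [4], [0, 0, -10, 15, 5], [0, 0, 0, 0, -15], 15, 0x14001e0005000f000f,
  0xf000f000f000f, 1, 0, 12, 8, 57, [58, 0, 58, 0], 13, [1], (.splT 15 (.cons (.splT 13 (.cons
  (.splT 12 (.cons (.splT 6 (.cons (.splT 5 (.cons (.splT 3 (.cons (.splT 0 (.cons (.splS 8 (.cons
  (.leaf 3 0xc86200c441009050) (.cons (.splS 9 (.cons (.splS 5 (.cons (.leaf 2 0xa62b009038)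
  (.cons (.splS 11 (.cons (.leaf 3 0xc87a00c45900a84b) (.cons (.splS 10 (.cons (.leaf 5
  0x800000c87a00a85300c65900c641) (.cons (.leaf 6 0xc87a00c62a00b85300c65900c449009028) (.cons
  (.splS 7 (.cons (.leaf 3 0xc86a00a83b00c449) (.cons (.leaf 5 0x800000c86200b83b00c85100c641)
  (.cons (.splS 4 (.cons (.leaf 2 0xa823009030) (.cons (.leaf 3 0x800000b82300c839) (.cons (.leaf
  7 0xc43200c61a00c60200c82100c83900c851009000) .nil)))) .nil)))) .nil)))) (.cons (.leaf 4
  0x800000c86200c85900c641) .nil)))) (.cons (.leaf 4 0xc86a00c62b00c449009058) .nil)))) (.cons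
  (.leaf 3 0x800000b44b00c641) (.cons (.leaf 3 0xc62a00c849009028) .nil)))) (.cons (.leaf 2
  0x800000c841) .nil)))) .nil)) .nil)) .nil)) .nil)) .nil)) .nil)) .nil))⟩

theorem kc_28_16_ok1 : kc_28_16.ok1 = true := by decide +kernel

theorem kc_28_16_ok2 : kc_28_16.ok2 = true := by decide +kernel

/-- A certificate. -/
def kc_28_21 : KCert :=
  ⟨28, 21, [2, 3, 4], [0, 2, 4], [0, 0, 4, 8, -4], [4, 0, 8, 0, 8], 4, 0xc000800040004,
  0xc0004000c00040008, 1, 1, 6, 3, 14, [9, 4, -4, 11], 9, [1], (.splS 3 (.cons (.leaf 2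
  0x800000a419) (.cons (.splS 4 (.cons (.splS 2 (.cons (.leaf 4 0x800000a81300a421008619) (.cons
  (.leaf 3 0x800000b81300a619) (.cons (.splT 0 (.cons (.leaf 2 0x8602009000) (.cons (.leaf 2
  0xa00400c811) (.cons (.leaf 3 0xc60200a421009000) .nil)))) .nil)))) (.cons (.leaf 3
  0x800000b42300c619) (.cons (.leaf 3 0xc423008619009040) .nil)))) (.cons (.leaf 2 0x800000c819)
  .nil))))⟩

theorem kc_28_21_ok1 : kc_28_21.ok1 = true := by decide +kernel

theorem kc_28_21_ok2 : kc_28_21.ok2 = true := by decide +kernel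

/-- A certificate. -/
def kc_29_1 : KCert :=
  ⟨29, 1, [0, 2, 3, 4], [0], [-1, 0, 1, 1, -1], [-1, 0, 0, 0, 0], 1, 0x2000200010000,
  0x10001000100010000, 1, 0, 4, 2, 1, [7, 0, 7, 0], 4, [1], (.splT 0 (.cons (.leaf 2 0x8402009000)
  .nil))⟩

theorem kc_29_1_ok1 : kc_29_1.ok1 = true := by decide +kernel

theorem kc_29_1_ok2 : kc_29_1.ok2 = true := by decide +kernel

/-- A certificate. -/
def kc_29_2 : KCert :=
  ⟨29, 2, [0, 2, 3, 4], [1], [8, 0, 8, -16, 4], [0, 16, 0, 0, 0], 16, 0x140000001800100018,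
  0x100010001000200010, 1, 0, 4, 2, 18, [0, 0, 0, -41], 4, [1], (.splT 0 (.cons (.splS 1 (.cons
  (.leaf 4 0x8000009402009009009000) (.cons (.splS 2 (.cons (.leaf 5
  0x10000009402009011009409009000) (.cons (.leaf 3 0x800000941100a60b) (.cons (.leaf 3
  0x800000961100a80b) (.cons (.leaf 6 0x8000009402009811009409009030009000) .nil))))) (.cons
  (.leaf 3 0x9802009609009000) (.cons (.leaf 4 0x9402009809009028009000) .nil))))) .nil))⟩

theorem kc_29_2_ok1 : kc_29_2.ok1 = true := by decide +kernel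

theorem kc_29_2_ok2 : kc_29_2.ok2 = true := by decide +kernel

/-- A certificate. -/
def kc_29_10 : KCert :=
  ⟨29, 10, [0, 2, 3, 4], [1, 3], [-15, 0, -20, -15, 20], [0, 20, 0, 15, 0], 20,
  0x280005000000140005, 0x140023001400280014, 1, 1, 4, 4, 38, [0, 0, 39, 0], 6, [1], (.splS 0
  (.cons (.leaf 2 0x8000008803) (.cons (.leaf 2 0xa803009010) (.cons (.leaf 2 0xb803009018) (.cons
  (.splT 3 (.cons (.splS 1 (.cons (.leaf 2 0x800000860b) (.cons (.leaf 2 0xa60b009018) (.cons
  (.splT 0 (.cons (.leaf 3 0x980200b609009000) (.cons (.splS 3 (.cons (.leaf 4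
  0x800000901900b802009000) (.cons (.leaf 4 0x941900b80200b80b009000) (.cons (.leaf 3
  0xb61900b802009000) (.cons (.leaf 4 0x981900b802009038009000) .nil))))) .nil))) (.cons (.splS 4
  (.cons (.leaf 3 0x1000000902100c60b) (.cons (.leaf 4 0x800000942100c60b009030) (.cons (.leaf 4
  0x800000962100c60b009038) (.cons (.leaf 4 0x800000982100c60b009040) .nil))))) .nil))))) (.cons
  (.leaf 2 0xb21c009030) .nil))) .nil)))))⟩

theorem kc_29_10_ok1 : kc_29_10.ok1 = true := by decide +kernel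

theorem kc_29_10_ok2 : kc_29_10.ok2 = true := by decide +kernel

/-- A certificate. -/
def kc_29_11 : KCert :=
  ⟨29, 11, [0, 2, 3, 4], [0, 1, 3], [-3, 0, 6, 0, 0], [3, 6, 0, -6, 0], 6, 0x60006000c00060003,
  0x600000006000c0009, 1, 1, 4, 2, 14, [0, 0, 0, 15], 5, [1], (.splS 2 (.cons (.leaf 2
  0x8000008011) (.cons (.splS 1 (.cons (.leaf 3 0x800000860b008411) (.cons (.leaf 3
  0x800000a60b009411) (.cons (.splT 0 (.cons (.leaf 2 0x8402009000) (.cons (.leaf 4
  0x9402009609009020009000) (.cons (.leaf 3 0xb004009411009020) .nil)))) (.cons (.leaf 3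
  0x800000c60b00b411) .nil))))) (.cons (.leaf 2 0x800000b611) (.cons (.leaf 2 0x8811009030)
  .nil)))))⟩

theorem kc_29_11_ok1 : kc_29_11.ok1 = true := by decide +kernel

theorem kc_29_11_ok2 : kc_29_11.ok2 = true := by decide +kernel

/-- A certificate. -/
def kc_30_6 : KCert :=
  ⟨30, 6, [1, 2, 3, 4], [1, 2], [0, -8, -4, 0, -12], [0, -12, -12, 0, 0], 12, 0xc00080004000c,
  0xc000c00000000000c, 1, 1, 4, 3, 23, [0, 51, 0, 0], 4, [1], (.splS 0 (.cons (.leaf 2
  0x9603009008) (.cons (.leaf 2 0xa603009010) (.cons (.splS 3 (.cons (.leaf 2 0x8000009219) (.cons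
  (.leaf 2 0x800000a419) (.cons (.splS 2 (.cons (.splS 1 (.cons (.leaf 3 0x800000940b009211)
  (.cons (.splT 0 (.cons (.leaf 3 0x960200a409009000) (.cons (.leaf 3 0xa602009211009000) .nil)))
  (.cons (.leaf 4 0x800000b40b009619009030) (.cons (.leaf 4 0x800000c40b00a619009030) .nil)))))
  (.cons (.leaf 4 0x800000a213009619009030) (.cons (.leaf 4 0x800000b21300a619009030) (.cons
  (.leaf 2 0xc213009030) .nil))))) (.cons (.splS 2 (.cons (.splS 1 (.cons (.leaf 3
  0x800000940b009211) (.cons (.splT 0 (.cons (.leaf 3 0x960200a409009000) (.cons (.leaf 3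
  0xa602009211009000) .nil))) (.cons (.leaf 4 0x800000b40b009819009038) (.cons (.leaf 4
  0x800000c40b00a819009038) .nil))))) (.cons (.leaf 4 0x800000a213009819009038) (.cons (.leaf 4
  0x800000b21300a819009038) (.cons (.leaf 3 0xc21300c61b009038) .nil))))) .nil))))) (.cons (.leaf
  2 0xc603009020) .nil)))))⟩

theorem kc_30_6_ok1 : kc_30_6.ok1 = true := by decide +kernel

theorem kc_30_6_ok2 : kc_30_6.ok2 = true := by decide +kernel

/-- A certificate. -/
def kc_30_16 : KCert :=
  ⟨30, 16, [1, 2, 3, 4], [4], [0, -32, 0, 16, 8], [0, 0, 0, 0, 16], 32, 0x280030002000000020,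
  0x300020002000200020, 1, 0, 12, 8, 66, [0, 137, 0, 137], 12, [1], (.splT 15 (.cons (.splT 13
  (.cons (.splT 12 (.cons (.splT 6 (.cons (.splT 5 (.cons (.splT 3 (.cons (.splT 0 (.cons (.splS 8
  (.cons (.leaf 3 0xc86200c241009048) (.cons (.leaf 3 0xc86200c441009050) (.cons (.splS 9 (.cons
  (.leaf 2 0x944b00b443) (.cons (.splS 5 (.cons (.leaf 2 0x962b009030) (.cons (.leaf 2
  0xa62b009038) (.cons (.splS 11 (.cons (.leaf 4 0x800000c87a00c25900c641) (.cons (.leaf 3
  0xc87a00c45900a84b) (.cons (.splS 16 (.cons (.leaf 6 0xc47a00c86200968300c65900c641009070)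
  (.cons (.leaf 6 0xc67a00c86200a68300c65900c641009070) (.cons (.splS 7 (.cons (.leaf 3
  0xc86200983b00c641) (.cons (.leaf 3 0xc86a00a83b00c449) (.cons (.splS 10 (.cons (.leaf 5
  0x800000c87a00c25100b23b00c659) (.cons (.leaf 6 0x1000000c87a00c45100b23b00c65900c641) (.cons
  (.leaf 4 0x800000c65100b23b00b45b) (.cons (.leaf 3 0x800000c85100b23b) .nil))))) (.cons (.splS 4
  (.cons (.leaf 2 0x9823009028) (.cons (.leaf 5 0xc61a00c60200c42100c839009000) (.cons (.leaf 3
  0x800000b82300c839) (.cons (.splS 10 (.cons (.leaf 3 0xc87a00985300c659) (.cons (.leaf 3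
  0x800000a25300c641) (.cons (.leaf 12
  0xc87a00c43200c62a00c61a00c60200c65100c82100c83900c65900c449009028009000) (.cons (.leaf 7
  0xc43200c61a00c60200c85100c82100c839009000) .nil))))) .nil))))) .nil))))) (.cons (.leaf 6
  0x800000c87a00c46200c88100c65900c641) .nil))))) (.cons (.leaf 4 0x800000c86200c85900c641)
  .nil))))) (.cons (.leaf 2 0xc62b009048) .nil))))) (.cons (.leaf 3 0x800000b44b00c641) (.cons
  (.leaf 3 0xc62a00c849009028) .nil))))) (.cons (.leaf 2 0x800000c841) .nil))))) .nil)) .nil))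
  .nil)) .nil)) .nil)) .nil)) .nil))⟩

theorem kc_30_16_ok1 : kc_30_16.ok1 = true := by decide +kernel

theorem kc_30_16_ok2 : kc_30_16.ok2 = true := by decide +kernel

/-- A certificate. -/
def kc_31_1 : KCert :=
  ⟨31, 1, [0, 1, 2, 3, 4], [0], [1, 1, 1, 1, 1], [-1, 0, 0, 0, 0], 1, 0x20002000200020002,
  0x10001000100010000, 1, 0, 4, 1, 1, [7, 7, 0, 0], 4, [1], (.splT 0 (.cons (.leaf 2 0x8202009000)
  .nil))⟩

theorem kc_31_1_ok1 : kc_31_1.ok1 = true := by decide +kernel

theorem kc_31_1_ok2 : kc_31_1.ok2 = true := by decide +kernel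

/-- A certificate. -/
def kc_31_11 : KCert :=
  ⟨31, 11, [0, 1, 2, 3, 4], [0, 1, 3], [-5, 0, 5, -5, -5], [0, 0, 0, -5, 0], 5, 0xa00050000,
  0x50000000500050005, 1, 1, 4, 2, 13, [0, 0, 14, 0], 4, [1], (.splS 2 (.cons (.leaf 2
  0x8000008011) (.cons (.leaf 2 0x8000009211) (.cons (.splS 1 (.cons (.leaf 2 0x800000820b) (.cons
  (.splT 0 (.cons (.leaf 2 0x8402009000) (.cons (.leaf 3 0x9402009209009000) (.cons (.leaf 4
  0xb402009411009020009000) .nil)))) (.cons (.leaf 4 0x800000a20b009411009020) (.cons (.leaf 2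
  0xb20b009020) (.cons (.leaf 4 0x800000c20b00b411009020) .nil)))))) (.cons (.leaf 2 0x800000b611)
  (.cons (.leaf 2 0x8811009030) .nil))))))⟩

theorem kc_31_11_ok1 : kc_31_11.ok1 = true := by decide +kernel

theorem kc_31_11_ok2 : kc_31_11.ok2 = true := by decide +kernel

/-- Certificates. -/
def kd4 : List KCert :=
  [kc_4_11, kc_5_10, kc_5_11, kc_6_16, kc_7_10, kc_8_22, kc_12_18, kc_13_2, kc_14_11, kc_15_7,
  kc_15_9, kc_15_22, kc_16_11, kc_16_15, kc_17_8, kc_17_10, kc_18_1, kc_19_9, kc_20_2, kc_20_10,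
  kc_21_14, kc_22_6, kc_23_14, kc_24_13, kc_24_14, kc_25_9, kc_26_7, kc_26_14, kc_26_15, kc_26_23,
  kc_27_6, kc_28_16, kc_28_21, kc_29_1, kc_29_2, kc_29_10, kc_29_11, kc_30_6, kc_30_16, kc_31_1,
  kc_31_11]

theorem kd4_ok : AllK kd4 :=
  allK_cons kc_4_11_ok1 kc_4_11_ok2 (
  allK_cons kc_5_10_ok1 kc_5_10_ok2 (
  allK_cons kc_5_11_ok1 kc_5_11_ok2 (
  allK_cons kc_6_16_ok1 kc_6_16_ok2 (
  allK_cons kc_7_10_ok1 kc_7_10_ok2 (
  allK_cons kc_8_22_ok1 kc_8_22_ok2 (
  allK_cons kc_12_18_ok1 kc_12_18_ok2 (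
  allK_cons kc_13_2_ok1 kc_13_2_ok2 (
  allK_cons kc_14_11_ok1 kc_14_11_ok2 (
  allK_cons kc_15_7_ok1 kc_15_7_ok2 (
  allK_cons kc_15_9_ok1 kc_15_9_ok2 (
  allK_cons kc_15_22_ok1 kc_15_22_ok2 (
  allK_cons kc_16_11_ok1 kc_16_11_ok2 (
  allK_cons kc_16_15_ok1 kc_16_15_ok2 (
  allK_cons kc_17_8_ok1 kc_17_8_ok2 (
  allK_cons kc_17_10_ok1 kc_17_10_ok2 (
  allK_cons kc_18_1_ok1 kc_18_1_ok2 (
  allK_cons kc_19_9_ok1 kc_19_9_ok2 (
  allK_cons kc_20_2_ok1 kc_20_2_ok2 (
  allK_cons kc_20_10_ok1 kc_20_10_ok2 (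
  allK_cons kc_21_14_ok1 kc_21_14_ok2 (
  allK_cons kc_22_6_ok1 kc_22_6_ok2 (
  allK_cons kc_23_14_ok1 kc_23_14_ok2 (
  allK_cons kc_24_13_ok1 kc_24_13_ok2 (
  allK_cons kc_24_14_ok1 kc_24_14_ok2 (
  allK_cons kc_25_9_ok1 kc_25_9_ok2 (
  allK_cons kc_26_7_ok1 kc_26_7_ok2 (
  allK_cons kc_26_14_ok1 kc_26_14_ok2 (
  allK_cons kc_26_15_ok1 kc_26_15_ok2 (
  allK_cons kc_26_23_ok1 kc_26_23_ok2 (
  allK_cons kc_27_6_ok1 kc_27_6_ok2 (
  allK_cons kc_28_16_ok1 kc_28_16_ok2 (
  allK_cons kc_28_21_ok1 kc_28_21_ok2 (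
  allK_cons kc_29_1_ok1 kc_29_1_ok2 (
  allK_cons kc_29_2_ok1 kc_29_2_ok2 (
  allK_cons kc_29_10_ok1 kc_29_10_ok2 (
  allK_cons kc_29_11_ok1 kc_29_11_ok2 (
  allK_cons kc_30_6_ok1 kc_30_6_ok2 (
  allK_cons kc_30_16_ok1 kc_30_16_ok2 (
  allK_cons kc_31_1_ok1 kc_31_1_ok2 (
  allK_cons kc_31_11_ok1 kc_31_11_ok2 (
  allK_nil)))))))))))))))))))))))))))))))))))))))))

end Pool.Agent.RatRec
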