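import Pool.Agent.Lib_helper86.RatV.KCert

/-!
Packed certificates of unbounded special cases (data).
-/

set_option autoImplicit false
set_option maxRecDepth 100000

namespace Pool.Agent.RatRec

/-- A certificate. -/
def kc_2_24 : KCert :=
  ⟨2, 24, [1], [3, 4], [0, -4, 0, 0, 0], [0, 0, 0, 0, -4], 4, 0x40004000400000004,
  0x4000400040004, 0, 1, 6, 9, 16, [84, 0, 0, 0], 9, [1], (.splS 11 (.cons (.splS 9 (.cons (.splS
  7 (.cons (.splS 6 (.cons (.splS 5 (.cons (.splS 4 (.cons (.splS 3 (.cons (.splT 8 (.cons (.splT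
  6 (.cons (.splT 3 (.cons (.leaf 3 0x800000b23100b81c) (.cons (.splT 2 (.cons (.leaf 3
  0x800000c22900b814) (.cons (.splT 1 (.cons (.leaf 10
  0x1000001423900b23102422102380c00b20a00c21200c21a013242009008) (.cons (.splT 0 (.cons (.leaf 9
  0x1000001323100c22901421901380400b20200c20a00c212009000) (.cons (.splT 10 (.cons (.leaf 13
  0x800001c24903323902323101322901b25201420201420a01421201421a01b242039040011000) (.cons (.leaf 14
  0x800001b25901b24903323902323101322901c25201420201420a01421201421a033242051040011000) .nil)))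
  .nil))) .nil))) .nil))) .nil))) (.cons (.leaf 2 0xc634009050) .nil))) (.cons (.leaf 4
  0xb24900c242009050009040) .nil))) .nil)) .nil)) .nil)) .nil)) .nil)) .nil)) .nil))⟩

theorem kc_2_24_ok1 : kc_2_24.ok1 = true := by decide +kernel

theorem kc_2_24_ok2 : kc_2_24.ok2 = true := by decide +kernel

/-- A certificate. -/
def kc_5_8 : KCert :=
  ⟨5, 8, [0, 2], [3], [-7, 0, 0, 0, 0], [0, 0, 0, -7, 0], 7, 0x70007000700070000,
  0x70000000700070007, 1, 0, 12, 2, 39, [0, 0, 83, 0], 12, [1], (.splT 9 (.cons (.splT 8 (.cons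
  (.splT 7 (.cons (.splT 6 (.cons (.splT 5 (.cons (.splT 4 (.cons (.splT 0 (.cons (.splS 2 (.cons
  (.leaf 6 0xb43200b42a00b42200841300b011009048) (.cons (.splS 1 (.cons (.leaf 3
  0xb40200840b009000) (.cons (.splS 0 (.cons (.leaf 2 0x8000008403) (.cons (.splS 4 (.cons (.leaf
  7 0xb43a00b43200b02a00842300b02100b411009050) (.cons (.splS 3 (.cons (.leaf 9
  0xb43a00b43200b02a01340201301900b42100b411009050011000) (.cons (.splS 5 (.cons (.leaf 12
  0xb44a01344201343a00b43201b40200b02901b419013421013411009060009058019000) (.cons (.leaf 6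
  0x800000a02b00b41900b42100a00b00b411) .nil))) .nil))) .nil))) .nil))) .nil))) .nil))) .nil))
  .nil)) .nil)) .nil)) .nil)) .nil)) .nil))⟩

theorem kc_5_8_ok1 : kc_5_8.ok1 = true := by decide +kernel

theorem kc_5_8_ok2 : kc_5_8.ok2 = true := by decide +kernel

/-- A certificate. -/
def kc_6_1 : KCert :=
  ⟨6, 1, [1, 2], [0], [0, 1, -1, 0, 0], [-1, 0, 0, 0, 0], 1, 0x10001000000020001,
  0x10001000100010000, 1, 0, 4, 1, 1, [0, 2, 1, 0], 4, [1], (.splT 0 (.cons (.leaf 2 0x8202009000)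
  .nil))⟩

theorem kc_6_1_ok1 : kc_6_1.ok1 = true := by decide +kernel

theorem kc_6_1_ok2 : kc_6_1.ok2 = true := by decide +kernel

/-- A certificate. -/
def kc_6_3 : KCert :=
  ⟨6, 3, [1, 2], [0, 1], [0, -6, 6, 0, 0], [3, -3, 0, 0, 0], 6, 0x60006000c00000006,
  0x60006000600030009, 1, 1, 4, 2, 24, [0, 0, 53, 0], 4, [1], (.splS 2 (.cons (.leaf 2
  0x8000009211) (.cons (.splS 1 (.cons (.splT 0 (.cons (.leaf 2 0x8402009000) (.cons (.leaf 2
  0x9004009209) .nil))) (.cons (.leaf 4 0x800000a20b009411009020) .nil))) .nil)))⟩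

theorem kc_6_3_ok1 : kc_6_3.ok1 = true := by decide +kernel

theorem kc_6_3_ok2 : kc_6_3.ok2 = true := by decide +kernel

/-- A certificate. -/
def kc_6_28 : KCert :=
  ⟨6, 28, [1, 2], [2, 3, 4], [0, 16, -16, 0, 0], [0, 0, 4, 12, -12], 16, 0x100010000000200010,
  0x4001c001400100010, 1, 1, 4, 9, 74, [0, 0, 0, 75], 4, [1], (.splT 6 (.cons (.leaf 2
  0xa634009040) (.cons (.splS 9 (.cons (.splT 8 (.cons (.splS 8 (.cons (.splT 7 (.cons (.splS 7
  (.cons (.splS 6 (.cons (.leaf 4 0x800000b23100a23900b432) (.cons (.splT 4 (.cons (.leaf 3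
  0x800000a82400b431) (.cons (.leaf 3 0x800000b82400a239) (.cons (.splS 5 (.cons (.leaf 3
  0x942b00b43100a23a) (.cons (.splT 3 (.cons (.leaf 5 0x800000a61c00c42900a23900b432) (.cons
  (.leaf 3 0xb81c00b43100a23a) (.cons (.splT 1 (.cons (.splS 4 (.cons (.leaf 6
  0x800000c22100c42900c42200a23900b432) (.cons (.splT 2 (.cons (.leaf 5
  0x800000a81400c42100a23900a43a) (.cons (.leaf 5 0x800000b81400c42900a23900b432) (.cons (.splT 0
  (.cons (.splS 3 (.cons (.leaf 7 0xc21900a20200c42100a20a00b43100a43a009000) (.cons (.leaf 5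
  0xc41900a20200a20a00c429009000) .nil))) (.cons (.leaf 3 0xb40400c21200a431) (.cons (.leaf 4
  0xc40400c21200a60c00a431) .nil)))) .nil)))) .nil))) (.cons (.leaf 4 0xb40c00c21a00a239009040)
  (.cons (.leaf 7 0xc40c00c21a00b42900c42201223900b432009040) .nil)))) .nil)))) .nil))) .nil))))
  .nil))) (.cons (.splT 5 (.cons (.leaf 3 0x800000a82c00a439) (.cons (.leaf 2 0xb82c00a23b) (.cons
  (.splS 6 (.cons (.leaf 3 0x943300b43900a242) (.cons (.splT 4 (.cons (.leaf 3 0x800000a82400b431)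
  (.cons (.leaf 3 0xb82400b43900a242) (.cons (.splS 5 (.cons (.leaf 3 0x942b00b43100a23a) (.cons
  (.splT 3 (.cons (.leaf 3 0x800000a81c00c429) (.cons (.leaf 3 0xb81c00b43100a23a) (.cons (.splT 1
  (.cons (.splS 3 (.cons (.splS 2 (.cons (.splT 2 (.cons (.splS 4 (.cons (.leaf 7
  0xc22100a21200a20a00c42900b43900a242009008) (.cons (.leaf 5 0xc42100a21200a20a00b431009008)
  .nil))) (.cons (.leaf 5 0xb21200a20a00c42900a439009008) (.cons (.splT 0 (.cons (.splS 4 (.cons
  (.leaf 6 0x942300c21200a20a00c42900a439009008) (.cons (.leaf 7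
  0xc42100a20200c21900a20a00b43100a43a009000) .nil))) (.cons (.leaf 4 0xb40400c21200b43100a23b)
  (.cons (.leaf 6 0xc40400c21200c21a00b43100a23b00a439) .nil)))) .nil)))) (.cons (.leaf 3
  0xa21300c21a00a439) .nil))) (.cons (.leaf 5 0xa21b00c42900c42200a43900b432) .nil))) (.cons
  (.leaf 3 0xb40c00c21a00a439) (.cons (.leaf 3 0xc40c00c41a00a439) .nil)))) .nil)))) .nil)))
  .nil)))) .nil))) .nil)))) .nil))) (.cons (.splS 7 (.cons (.leaf 4 0x800000a23900b43a00a241)
  (.cons (.splT 5 (.cons (.leaf 3 0x800000a82c00a439) (.cons (.leaf 5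
  0x800001382c00a43900b23a00a241) (.cons (.splS 6 (.cons (.leaf 3 0x943300b43900a242) (.cons
  (.splT 4 (.cons (.leaf 5 0x800000a62400b43100b43a00a241) (.cons (.leaf 3 0xb82400b43900a242)
  (.cons (.splS 5 (.cons (.leaf 6 0x800000c22900b43100c42a00b43a00a241) (.cons (.splT 3 (.cons
  (.leaf 3 0x800000a81c00c429) (.cons (.leaf 5 0x800000b81c00b43100b43a00a241) (.cons (.splT 1
  (.cons (.splT 2 (.cons (.splS 4 (.cons (.leaf 7 0xc22100a21200a20a00c42900b43900a242009008)
  (.cons (.leaf 5 0xc42100a21200a20a00b431009008) .nil))) (.cons (.leaf 5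
  0xb21200a20a00c42900a439009008) (.cons (.leaf 6 0xc21200a20a00b43100b43c00a241009008) .nil))))
  (.cons (.leaf 3 0xb40c00c21a00a439) (.cons (.leaf 6 0xc40c00c21a00c22200a43900b43c00a241)
  .nil)))) .nil)))) .nil))) .nil)))) .nil))) .nil)))) .nil))) (.cons (.leaf 4
  0x800000c43c00a249009050) .nil)))) (.cons (.leaf 2 0xa243009050) .nil))) (.cons (.leaf 3
  0x800000b44400a249) (.cons (.leaf 3 0x800000c44400b249) .nil)))) (.cons (.leaf 2 0x800000a449)
  .nil))) (.cons (.leaf 2 0xc634009050) .nil))))⟩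

theorem kc_6_28_ok1 : kc_6_28.ok1 = true := by decide +kernel

theorem kc_6_28_ok2 : kc_6_28.ok2 = true := by decide +kernel

/-- A certificate. -/
def kc_7_11 : KCert :=
  ⟨7, 11, [0, 1, 2], [0, 1, 3], [6, -6, 3, 0, 0], [0, 9, 0, -9, 0], 9, 0x90009000c0003000f,
  0x90000000900120009, 1, 1, 4, 2, 13, [0, 0, 0, 31], 5, [1], (.splS 2 (.cons (.leaf 2
  0x8000008011) (.cons (.leaf 2 0x8000009211) (.cons (.splS 1 (.cons (.leaf 2 0x800000820b) (.cons
  (.splT 0 (.cons (.leaf 2 0x8402009000) (.cons (.leaf 2 0x9004009209) (.cons (.leaf 3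
  0xb004009411009020) .nil)))) (.cons (.leaf 4 0x800000a20b009411009020) .nil)))) .nil))))⟩

theorem kc_7_11_ok1 : kc_7_11.ok1 = true := by decide +kernel

theorem kc_7_11_ok2 : kc_7_11.ok2 = true := by decide +kernel

/-- A certificate. -/
def kc_7_16 : KCert :=
  ⟨7, 16, [0, 1, 2], [4], [0, 10, 0, 0, 0], [0, 0, 0, 0, 10], 0, 0xa0000, 0xa0000000000000000, 1,
  0, 12, 10, 58, [0, 0, 59, 59], 12, [1], (.splT 17 (.cons (.splT 16 (.cons (.splT 15 (.cons
  (.splT 14 (.cons (.splT 13 (.cons (.splT 12 (.cons (.splT 11 (.cons (.splT 10 (.cons (.splT 9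
  (.cons (.splT 8 (.cons (.splT 7 (.cons (.splT 5 (.cons (.splT 4 (.cons (.splT 3 (.cons (.splT 2
  (.cons (.splT 1 (.cons (.splT 0 (.cons (.splS 9 (.cons (.leaf 2 0x800000824b) (.cons (.splS 10
  (.cons (.leaf 10 0x1427200c45a00c25a00c24a00c24200c23a018253014051011090009038) (.cons (.splS 12
  (.cons (.leaf 3 0xc24a008263009048) (.cons (.splS 11 (.cons (.leaf 5
  0xc24a00c24200845b00825b009040) (.cons (.splS 8 (.cons (.leaf 2 0x8000008443) (.cons (.splS 7
  (.cons (.leaf 3 0x800000843b009443) (.cons (.splS 6 (.cons (.leaf 15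
  0x800000c28200c46a00c25a01444200c01a00c21201843300c03100c23901144300c2610142490090a0009010)
  (.cons (.splS 5 (.cons (.leaf 5 0x800000842b00943300943b009443) (.cons (.leaf 3
  0x800000942b00c231) (.cons (.splS 4 (.cons (.leaf 14
  0xc27200c25a00c24200c42a01c01201c20a01c20202022301c02101c23101423900c251009090019000) (.cons
  (.splS 13 (.cons (.leaf 16
  0x2428a01447201427201426201425a03424a01c00a01c20202406901c2210344290342390242510210a8019040019000)
  (.cons (.leaf 12 0x800000c05a00c24a01402200946b01422101442901423900c24100945b00c251009040)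
  (.cons (.leaf 13
  0x1428a01427201424a00c00a00c20201446900c2210144290142390142510110a8009040009000) .nil)))) (.cons
  (.leaf 14 0xc27200c25a00c24200c42a01c00a01c20202222301c42103c23101423900c251009090021038019000)
  .nil)))) .nil)))) (.cons (.splS 5 (.cons (.leaf 15
  0xc27a00c26200c24a00c23a01c21a01c21201c20a01c20202042b01c02901c43101424100c259009098019000)
  (.cons (.leaf 16
  0xc27a00c26200c24a00c23a01c21a01c21201c20a01c20202142b01c22905443101424100c259009098039040019000)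
  (.cons (.splS 4 (.cons (.leaf 7 0xc01200c20a00c20200822300c02100c431009000) (.cons (.leaf 12
  0xc24a00c01200c20a00c20200c22101442901223300c43100c24100945b009040009000) (.cons (.leaf 7
  0xc00a00c20200a22300c421014431009040009000) .nil)))) .nil)))) .nil)))) (.cons (.splS 6 (.cons
  (.leaf 10 0xc22201421a01421200c20a00c202008433010233014031009010009000) (.cons (.splS 14 (.cons
  (.leaf 5 0xc25a00c24200827300943300c439) (.cons (.splS 5 (.cons (.leaf 8
  0x800000c01200c20a00842b00c02900c231009443009008) (.cons (.leaf 3 0x800000942b00c231) (.cons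
  (.splS 4 (.cons (.leaf 13
  0xc27200c25a00c24200c01200c20a00c20200c02100c42900c23101443900c251009090009000) (.cons (.leaf 9
  0xc27200c25a00c24201102301442900a23b01443900c251009090) (.cons (.leaf 12
  0xc27200c25a00c24200c00a00c20200c42100c42900c23101443900c251009090009000) .nil)))) .nil))))
  (.cons (.leaf 9 0xc25a00c44200c24200a27300943300a23b00c43900c26100c249) .nil)))) (.cons (.splS 5
  (.cons (.leaf 9 0xc21a00c21200c20a00c20200842b00c02900c43100a23b009000) (.cons (.leaf 10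
  0xc21a00c21200c20a00c20200942b00c22901c43101a23b011048009000) (.cons (.splS 4 (.cons (.leaf 9
  0xc01200c20a00c20200c02100c42900a23300c43100a23b009000) (.cons (.leaf 4
  0x902300c42900a23300a23b) (.cons (.leaf 4 0xa02300c43100a23b009048) .nil)))) .nil)))) .nil))))
  .nil)))) (.cons (.splS 7 (.cons (.leaf 12
  0x1444200c22a01422201421a00c21200c20a00843b02023b014039011453009018009008) (.cons (.splS 13
  (.cons (.splS 6 (.cons (.leaf 17
  0x1000000c28a00c27200c25a00c24a00c44201441a01421201420a02043301403100c06900943b01423900c2510090a8011008)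
  (.cons (.leaf 12 0x1428a00c47200c27200c26200c25a01c24a01943301406901c23901a2430142510110a8)
  (.cons (.splS 5 (.cons (.leaf 11
  0xc24a00c21a00c21200c20a00c20200842b00c02900c43100c44100945b009000) (.cons (.leaf 18
  0x1c48a01c27a01c26203424a01c23a01421a01421201420a01420202942b01422904c43101c06902224303444101c2590190a8011000)
  (.cons (.splS 4 (.cons (.leaf 7 0xc01200c20a00c20200822300c02100c431009000) (.cons (.leaf 11
  0x1424a00c01200c20a00c20200c22101442901223300c43101444101145b009000) (.cons (.leaf 7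
  0xc00a00c20200a22300c421014431009040009000) .nil)))) .nil)))) .nil)))) (.cons (.splS 6 (.cons
  (.leaf 17
  0x1000000c25a00c24a00c41a00c21a01421200c20a00c20201843301403100946b00943b01423900945b00c251009010009000)
  (.cons (.leaf 12 0x1000000c27a00c26201425a00c24a00c24203143301946b02c23901c251009098009038)
  (.cons (.splS 5 (.cons (.leaf 17
  0xc48a00c27a00c26201424a01421a01421201420a01420201042b01402901443100c26901444100c25900c2510090a8011000)
  (.cons (.leaf 16
  0x1c27a01c26201c24a01c23a01421a01421201420a01420202942b01422904c43100a24303444101c259019098011000)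
  (.cons (.leaf 19
  0x1c48a01c27a01c26203424a01421a01421201420a01420201442901443102106b01c26902423902224303444101c25903c2510190a8011000)
  .nil)))) .nil)))) (.cons (.leaf 10 0xc28a00c27200c24a00a06b00c46900943b00c44100c25900c2510090a8)
  .nil)))) (.cons (.splS 6 (.cons (.leaf 10
  0xc22201421a01421200c20a00c202008433010233014031009010009000) (.cons (.splS 14 (.cons (.leaf 5
  0xc25a00c24200827300943300c439) (.cons (.splS 5 (.cons (.leaf 11
  0x800000c44200c01200c20a00842b00c02900943300c23100c439009453009008) (.cons (.leaf 3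
  0x800000942b00c231) (.cons (.splS 4 (.cons (.leaf 13
  0xc27200c25a00c24200c01200c20a00c20200c02100c42900c23101443900c251009090009000) (.cons (.leaf 9
  0xc27200c25a00c24201102301442900a23b01443900c251009090) (.cons (.leaf 10
  0xc27200c25a00c24201202301423100a23b01443901224300c251009090) .nil)))) .nil)))) (.cons (.leaf 9
  0xc25a00c44200c24200a27300943300a23b00c43900c26100c249) .nil)))) (.cons (.splS 5 (.cons (.leaf 9
  0xc21a00c21200c20a00c20200842b00c02900c43100a23b009000) (.cons (.leaf 4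
  0x902b00c43100a23b00a243) (.cons (.splS 4 (.cons (.leaf 9
  0xc01200c20a00c20200c02100c42900a23300c43100a23b009000) (.cons (.leaf 4
  0x902300c42900a23300a23b) (.cons (.leaf 4 0xa02300c43100a23b00a243) .nil)))) .nil)))) .nil))))
  .nil)))) .nil)))) (.cons (.splS 7 (.cons (.leaf 4 0xc44200823b00a25b009068) (.cons (.splS 13
  (.cons (.splS 6 (.cons (.leaf 17
  0x1000000c28a00c27200c25a00c24a00c44201441a01421201420a02043301403100c06900943b01423900c2510090a8011008)
  (.cons (.leaf 12 0x1428a01447201426200c24a00c24201143301406901423901a25b0142510110a8009040)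
  (.cons (.splS 14 (.cons (.leaf 3 0xc26200847300a25b) (.cons (.leaf 9
  0xc28a00c47201426200947300c06901225b00c45900c2510090a8) (.cons (.splS 15 (.cons (.leaf 3
  0xc26200827b00a25b) (.cons (.splS 4 (.cons (.leaf 7 0xc01200c20a00c20200822300c02100c431009000)
  (.cons (.splS 5 (.cons (.leaf 15
  0x1428a01447201426201424a00c01200c20a00c20201402900c22100c43101026b01406901225b0110a8009000)
  (.cons (.leaf 16
  0x1428a01447201426201424a00c01200c20a00c20201422900c22101c43101026b01406901225b0110a8011040009000)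
  (.cons (.leaf 17
  0x1428a01447201426201424a00c01200c20a00c20201442900c22100c43101406901423901225b0142510110a8011040009000)
  .nil)))) (.cons (.leaf 7 0xc00a00c20200a22300c421014431009040009000) .nil)))) (.cons (.leaf 5
  0xc26200a27b00c06900a25b00a05b) .nil)))) .nil)))) .nil)))) (.cons (.leaf 8
  0xc48a00c27a00c26200c26900a25b00c45900c2510090a8) (.cons (.leaf 7
  0xc28a00c27200a06b00c46900c45900c2510090a8) .nil)))) (.cons (.leaf 4 0xc44200a23b00a25b00c249)
  .nil)))) .nil)))) (.cons (.leaf 5 0xc24a00a26300c251009058009048) .nil)))) (.cons (.splS 12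
  (.cons (.leaf 3 0xc24a008263009048) (.cons (.splS 13 (.cons (.leaf 3 0xc25a00846b00a253) (.cons
  (.leaf 5 0xc25a00946b00a25300c451009060) (.cons (.splS 11 (.cons (.leaf 2 0x825b00a053) (.cons
  (.splS 14 (.cons (.leaf 3 0xc25a00827300a253) (.cons (.splS 15 (.cons (.splS 16 (.cons (.leaf 3
  0xc27200848300a26b) (.cons (.leaf 10
  0xc48201427200c25a00948300c46900c26100a2530144510090a0009060) (.cons (.splS 17 (.cons (.leaf 3
  0xc27200828b00a26b) (.cons (.splS 18 (.cons (.leaf 8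
  0xc48200c27200c25a00849300827b00a25300c451009060) (.cons (.leaf 9
  0xc48200c27201425a00949300827b00c07901225300c451009060) (.cons (.splS 8 (.cons (.leaf 2
  0x8000008443) (.cons (.splS 7 (.cons (.leaf 3 0x800000843b009443) (.cons (.leaf 7
  0xc27200c25a00943b00c24100a25300c451009090) (.cons (.splS 6 (.cons (.leaf 12
  0xc43a00c22201421a01421200c20a00c20201823301403100c24100a253009010009000) (.cons (.splS 5 (.cons
  (.leaf 9 0x800000c41200c20a00c20200842b00c02900c231009443009000) (.cons (.leaf 3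
  0x800000942b00c231) (.cons (.splS 4 (.cons (.leaf 19
  0xc28a01448201c27201425a00c44200c01200c20a00c20200c02100c42900c23101443900c46901426101c45100c2490090a80110a0009000)
  (.cons (.leaf 7 0xc27200c25a00902300c42900c43900c451009090) (.cons (.leaf 8
  0xc27200c25a00a02300c23100c43900c451009090009048) .nil)))) .nil)))) (.cons (.leaf 4
  0xc43a00a23300c24100a253) .nil)))) .nil)))) (.cons (.splS 7 (.cons (.leaf 8
  0xc28a00c27200c24a00843b00c46900c4510090a8009060) (.cons (.leaf 8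
  0xc28a00c27200c24a00943b00c44100c46900c4510090a8) (.cons (.splS 6 (.cons (.leaf 10
  0xc22201421a01421200c20a00c202008433010233014031009010009000) (.cons (.splS 5 (.cons (.leaf 13
  0xc27200c25a00c21a00c21200c20a00c20200842b00c02900c23100c43900c451009090009000) (.cons (.leaf 3
  0x800000942b00c231) (.cons (.splS 4 (.cons (.leaf 17
  0xc48201427201425a00c44200c01200c20a00c20200c02100c42900c23101443900c26101445100c2490090a0009090009000)
  (.cons (.leaf 7 0xc27200c25a00902300c42900c43900c451009090) (.cons (.leaf 8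
  0xc27200c25a00a02300c23100c43900a24300c451009090) .nil)))) .nil)))) (.cons (.splS 5 (.cons
  (.leaf 9 0xc21a00c21200c20a00c20200842b00c02900c43100a23b009000) (.cons (.leaf 14
  0x1000000c27a00c26201445a00c25201c24a01c43a01942b01102b02c43102c44100948b00c271024259) (.cons
  (.splS 4 (.cons (.leaf 9 0xc01200c20a00c20200c02100c42900a23300c43100a23b009000) (.cons (.leaf 4
  0x902300c42900a23300a23b) (.cons (.leaf 4 0xa02300c43100a23b00a243) .nil)))) .nil)))) .nil))))
  .nil)))) .nil)))) .nil)))) (.cons (.leaf 6 0xc27200c25a00a28b00c07900a26b00a253) .nil))))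
  .nil)))) (.cons (.leaf 7 0xc28a00c27200907b00c46900c26100c4510090a8) (.cons (.leaf 7
  0xc48200c27200a07b00c46900c26100c4510090a0) .nil)))) (.cons (.leaf 9
  0xc28a00c27200c25a00a27300c46900c26100a25300c4510090a8) .nil)))) (.cons (.leaf 6
  0xc28a00c27200a25b00c46900c4510090a8) .nil)))) .nil)))) (.cons (.leaf 6
  0xc28200c26a00a26300c46100c4510090a0) .nil)))) .nil)))) (.cons (.leaf 2 0xa24b009058) .nil))))
  .nil)) .nil)) .nil)) .nil)) .nil)) .nil)) .nil)) .nil)) .nil)) .nil)) .nil)) .nil)) .nil))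
  .nil)) .nil)) .nil)) .nil))⟩

theorem kc_7_16_ok1 : kc_7_16.ok1 = true := by decide +kernel

theorem kc_7_16_ok2 : kc_7_16.ok2 = true := by decide +kernel

/-- A certificate. -/
def kc_8_18 : KCert :=
  ⟨8, 18, [3], [1, 4], [0, 0, 0, 1, 0], [0, -1, 0, 0, -1], 1, 0x10002000100010001,
  0x1000100000001, 0, 1, 6, 5, 13, [3, 8, -5, 12], 6, [1], (.splS 7 (.cons (.splS 6 (.cons (.splS
  5 (.cons (.splS 4 (.cons (.splS 3 (.cons (.splS 1 (.cons (.splT 3 (.cons (.leaf 3
  0x800000962100981c) (.cons (.splT 2 (.cons (.splT 0 (.cons (.leaf 3 0x800000c609009804) (.cons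
  (.leaf 10 0x800000963900c63100c62901162100c619014602019612019010011000) .nil))) (.cons (.leaf 8
  0x800000963900c63100c62900c21400c61200c61a009010) .nil))) .nil))) .nil)) .nil)) .nil)) .nil))
  .nil)) .nil))⟩

theorem kc_8_18_ok1 : kc_8_18.ok1 = true := by decide +kernel

theorem kc_8_18_ok2 : kc_8_18.ok2 = true := by decide +kernel

/-- A certificate. -/
def kc_8_21 : KCert :=
  ⟨8, 21, [3], [0, 2, 4], [0, 0, 0, 2, 0], [-2, 0, -2, 0, -2], 2, 0x20004000200020002,
  0x2000000020000, 0, 1, 6, 3, 7, [8, 0, 0, 8], 6, [1], (.splS 4 (.cons (.splS 3 (.cons (.splS 2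
  (.cons (.splT 0 (.cons (.leaf 2 0x8602009000) (.cons (.leaf 5 0x800000a61900c61100a602009000)
  (.cons (.leaf 5 0x800000a62100c61900c602009000) .nil)))) .nil)) .nil)) .nil))⟩

theorem kc_8_21_ok1 : kc_8_21.ok1 = true := by decide +kernel

theorem kc_8_21_ok2 : kc_8_21.ok2 = true := by decide +kernel

/-- A certificate. -/
def kc_9_6 : KCert :=
  ⟨9, 6, [0, 3], [1, 2], [3, 0, 0, 0, 0], [0, 3, 0, 0, 0], 0, 0x3, 0x30000, 1, 1, 4, 3, 10, [0, 0,
  0, 25], 6, [1], (.splT 2 (.cons (.splS 0 (.cons (.leaf 2 0x8000008603) (.cons (.splS 3 (.cons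
  (.splS 2 (.cons (.splS 1 (.cons (.splT 0 (.cons (.leaf 4 0x800000960200a009009000) (.cons (.leaf
  4 0x800000a602009011009000) .nil))) (.cons (.leaf 3 0x800000b00b009019) .nil))) (.cons (.leaf 4
  0x800000961100a019009012) .nil))) (.cons (.splS 2 (.cons (.splS 1 (.cons (.splT 0 (.cons (.leaf
  4 0x800000960200a009009000) (.cons (.leaf 4 0x800000a602009011009000) .nil))) (.cons (.leaf 3
  0xb00b009619009030) .nil))) (.cons (.leaf 3 0xb01300a619009030) .nil))) .nil))) .nil))) (.cons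
  (.leaf 2 0xa214009020) .nil)))⟩

theorem kc_9_6_ok1 : kc_9_6.ok1 = true := by decide +kernel

theorem kc_9_6_ok2 : kc_9_6.ok2 = true := by decide +kernel

/-- A certificate. -/
def kc_9_20 : KCert :=
  ⟨9, 20, [0, 3], [2, 4], [6, 0, 0, 0, 0], [0, 0, 6, 0, 0], 0, 0x6, 0x600000000, 1, 1, 8, 3, 40,
  [0, 0, 85, 0], 8, [1], (.splT 1 (.cons (.splS 0 (.cons (.leaf 2 0x8000008603) (.cons (.splS 3
  (.cons (.splT 5 (.cons (.leaf 4 0x1000000a02a00c01900a019) (.cons (.leaf 3 0xc02a00a019009048)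
  .nil))) (.cons (.splS 2 (.cons (.splS 4 (.cons (.splT 2 (.cons (.leaf 3 0xa81400a02101301b)
  (.cons (.splS 1 (.cons (.splT 5 (.cons (.leaf 4 0xa02a00c61900a619011030) (.cons (.splT 4 (.cons
  (.splT 0 (.cons (.splS 6 (.cons (.leaf 7 0x800000863300a60200c02a00c01100a619009000) (.cons
  (.splT 6 (.cons (.leaf 7 0x800000a63201260200c62a01401100a619011000) (.cons (.splT 7 (.cons
  (.leaf 7 0x800000a63a00c63201260201401100c619011000) (.cons (.leaf 10
  0x800000c63a00c63201a60200c02a01c01100c61900a619009058019000) .nil))) .nil))) .nil))) (.cons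
  (.leaf 3 0xc40400c01200a021) .nil))) (.cons (.leaf 4 0xc42400c62a00a619009048) .nil))) .nil)))
  (.cons (.leaf 3 0x1300b00c41400a021) .nil))) .nil))) (.cons (.leaf 3 0xb02300c619009030) .nil)))
  (.cons (.leaf 3 0xb01300a619009030) .nil))) .nil))) .nil))) (.cons (.leaf 2 0xc40c009028)
  .nil)))⟩

theorem kc_9_20_ok1 : kc_9_20.ok1 = true := by decide +kernel

theorem kc_9_20_ok2 : kc_9_20.ok2 = true := by decide +kernel

/-- A certificate. -/
def kc_11_4 : KCert :=
  ⟨11, 4, [0, 1, 3], [2], [9, -9, 0, 9, 0], [0, 0, -9, 0, 0], 9, 0x90012000900000012,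
  0x90009000000090009, 1, 0, 8, 4, 76, [0, 0, -77, 0], 9, [1, 1], (.splT 4 (.cons (.splT 2 (.cons
  (.splT 1 (.cons (.splT 0 (.cons (.splS 2 (.cons (.leaf 7
  0x1000001260a00a20201861301021300a011009000) (.cons (.leaf 2 0x9613009018) (.cons (.splS 3
  (.cons (.leaf 4 0x800000a22201821b009028) (.cons (.leaf 5 0x1260a00a20201221900a611009000)
  (.cons (.splS 4 (.cons (.leaf 4 0x1000001022300a02100b21b) (.cons (.leaf 5
  0xa61200a60a00a22100a619009008) (.cons (.splS 5 (.cons (.leaf 5 0x2000001a02900b22301262101321b)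
  (.cons (.leaf 3 0x800000a22900a621) (.cons (.leaf 6 0x800000a62900b22300a62100b21b009038)
  .nil)))) .nil)))) .nil)))) .nil)))) .nil)) .nil)) .nil)) .nil))⟩

theorem kc_11_4_ok1 : kc_11_4.ok1 = true := by decide +kernel

theorem kc_11_4_ok2 : kc_11_4.ok2 = true := by decide +kernel

/-- A certificate. -/
def kc_13_3 : KCert :=
  ⟨13, 3, [0, 2, 3], [0, 1], [6, 0, 6, -12, 0], [3, -6, 0, 0, 0], 12, 0xc00000012000c0012,
  0xc000c000c0006000f, 1, 1, 4, 2, 32, [0, 0, 33, 0], 4, [1], (.splS 2 (.cons (.leaf 2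
  0x8000008011) (.cons (.splS 1 (.cons (.leaf 3 0x800000860b008411) (.cons (.leaf 3
  0x800000a60b009411) (.cons (.splT 0 (.cons (.leaf 2 0x8402009000) (.cons (.leaf 3
  0x9004009609009020) .nil))) .nil)))) (.cons (.leaf 2 0x8611009028) .nil))))⟩

theorem kc_13_3_ok1 : kc_13_3.ok1 = true := by decide +kernel

theorem kc_13_3_ok2 : kc_13_3.ok2 = true := by decide +kernel

/-- A certificate. -/
def kc_13_7 : KCert :=
  ⟨13, 7, [0, 2, 3], [0, 1, 2], [6, 0, -3, -3, 0], [-6, -6, 3, 0, 0], 6, 0x6000300030006000c,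
  0x60006000900000000, 1, 1, 4, 3, 22, [0, 23, -23, 0], 4, [1], (.splS 3 (.cons (.leaf 2
  0x8000008019) (.cons (.leaf 2 0x800000a419) (.cons (.splS 2 (.cons (.splT 2 (.cons (.leaf 3
  0x8000008012009011) (.cons (.splS 1 (.cons (.leaf 2 0x800000840b) (.cons (.splT 0 (.cons (.leaf
  2 0x8602009000) (.cons (.leaf 2 0x900400a409) (.cons (.leaf 4 0x800000a602009011009000) .nil))))
  (.cons (.leaf 4 0x800000b40b009619009030) .nil)))) (.cons (.leaf 5
  0x800000a012009011009619009030) .nil)))) (.cons (.leaf 3 0xa013009619009030) (.cons (.leaf 3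
  0xb01300a619009030) .nil)))) .nil))))⟩

theorem kc_13_7_ok1 : kc_13_7.ok1 = true := by decide +kernel

theorem kc_13_7_ok2 : kc_13_7.ok2 = true := by decide +kernel

/-- A certificate. -/
def kc_13_9 : KCert :=
  ⟨13, 9, [0, 2, 3], [0, 3], [-6, 0, 3, -6, 0], [0, 0, 0, -6, 0], 6, 0x60000000900060000,
  0x60000000600060006, 1, 1, 6, 2, 24, [0, 0, 0, 25], 7, [1], (.splS 2 (.cons (.leaf 2
  0x8000008011) (.cons (.splS 0 (.cons (.leaf 2 0x8000008403) (.cons (.splS 4 (.cons (.leaf 3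
  0x8000008021008411) (.cons (.splS 3 (.cons (.leaf 4 0x800000861b008421008411) (.cons (.leaf 4
  0x800000a61b00842100b411) (.cons (.splT 0 (.cons (.leaf 2 0x8402009000) (.cons (.leaf 2
  0xb00400b619) .nil))) .nil)))) (.cons (.leaf 3 0x800000b621008411) .nil)))) (.cons (.leaf 2
  0xb403009018) .nil)))) (.cons (.leaf 2 0x800000b611) .nil))))⟩

theorem kc_13_9_ok1 : kc_13_9.ok1 = true := by decide +kernel

theorem kc_13_9_ok2 : kc_13_9.ok2 = true := by decide +kernel

/-- A certificate. -/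
def kc_15_10 : KCert :=
  ⟨15, 10, [0, 1, 2, 3], [1, 3], [-4, 0, 4, -4, 0], [0, -4, 0, -4, 0], 4, 0x40000000800040000,
  0x40000000400000004, 1, 1, 6, 2, 15, [-3, 11, 23, 2], 6, [1], (.splS 0 (.cons (.leaf 2
  0x8000008403) (.cons (.leaf 2 0x9403009008) (.cons (.splS 2 (.cons (.splT 3 (.cons (.leaf 4
  0x800000901a008413009011) (.cons (.leaf 3 0x800000b61a009011) .nil))) (.cons (.leaf 2
  0x8000009211) (.cons (.splS 1 (.cons (.leaf 2 0x800000820b) (.cons (.splT 0 (.cons (.leaf 3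
  0x9402009209009000) (.cons (.splS 3 (.cons (.leaf 5 0x8000009019013402009411011000) (.cons
  (.leaf 3 0x921900b402009000) (.cons (.leaf 5 0x800000941900b40200b411009000) (.cons (.leaf 3
  0xb61900b402009000) .nil))))) .nil))) (.cons (.leaf 4 0x800000a20b009411009020) (.cons (.leaf 2
  0xb20b009020) .nil))))) (.cons (.leaf 2 0x800000b611) .nil))))) (.cons (.leaf 2 0xb403009018)
  .nil)))))⟩

theorem kc_15_10_ok1 : kc_15_10.ok1 = true := by decide +kernel

theorem kc_15_10_ok2 : kc_15_10.ok2 = true := by decide +kernel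

/-- A certificate. -/
def kc_15_11 : KCert :=
  ⟨15, 11, [0, 1, 2, 3], [0, 1, 3], [0, 0, 5, -5, 0], [0, 0, 0, -5, 0], 5, 0x50000000a00050005,
  0x50000000500050005, 1, 1, 4, 2, 13, [0, 0, 72, 0], 4, [1], (.splS 2 (.cons (.leaf 2
  0x8000008011) (.cons (.leaf 2 0x8000009211) (.cons (.splS 1 (.cons (.leaf 2 0x800000820b) (.cons
  (.splT 0 (.cons (.leaf 2 0x8402009000) (.cons (.leaf 3 0x9402009209009000) (.cons (.leaf 4
  0xb402009411009020009000) .nil)))) (.cons (.leaf 4 0x800000a20b009411009020) (.cons (.leaf 2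
  0xb20b009020) .nil))))) (.cons (.leaf 2 0x800000b611) .nil)))))⟩

theorem kc_15_11_ok1 : kc_15_11.ok1 = true := by decide +kernel

theorem kc_15_11_ok2 : kc_15_11.ok2 = true := by decide +kernel

/-- A certificate. -/
def kc_16_5 : KCert :=
  ⟨16, 5, [4], [0, 2], [0, 0, 0, 0, 2], [-2, 0, -2, 0, 0], 2, 0x40002000200020002,
  0x20002000000020000, 0, 1, 4, 4, 8, [9, 9, 0, 9], 4, [1], (.splS 4 (.cons (.splS 2 (.cons (.splT
  0 (.cons (.leaf 2 0x8802009000) (.cons (.leaf 6 0x800000a82100a81100a802009040009000) .nil)))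
  .nil)) .nil))⟩

theorem kc_16_5_ok1 : kc_16_5.ok1 = true := by decide +kernel

theorem kc_16_5_ok2 : kc_16_5.ok2 = true := by decide +kernel

/-- A certificate. -/
def kc_17_14 : KCert :=
  ⟨17, 14, [0, 4], [1, 2, 3], [-3, 0, 0, 0, -3], [0, 0, 3, -3, 0], 3, 0x3000300030000,
  0x30000000600030003, 1, 1, 4, 4, 7, [0, 0, 0, 19], 7, [1], (.splT 2 (.cons (.leaf 2
  0x9414009018) (.cons (.splS 0 (.cons (.leaf 2 0x8000008803) (.cons (.splT 3 (.cons (.splS 4
  (.cons (.splS 3 (.cons (.splS 2 (.cons (.splT 1 (.cons (.leaf 3 0x1000000960c00a011) (.cons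
  (.leaf 3 0x1000000a60c009019) (.cons (.splT 0 (.cons (.splS 1 (.cons (.leaf 4
  0x800000b009009802009000) (.cons (.leaf 5 0x1000000b809009802009021009000) .nil))) (.cons (.leaf
  4 0x800000a80200a011009000) (.cons (.leaf 4 0x800000b802009019009000) .nil)))) .nil)))) (.cons
  (.leaf 4 0x800000a81100a02100a012) .nil))) (.cons (.leaf 4 0x800000981900b02100901a) .nil)))
  (.cons (.splS 2 (.cons (.splS 1 (.cons (.splT 0 (.cons (.leaf 4 0x800000980200b009009000) (.cons
  (.leaf 4 0x800000a80200a011009000) (.cons (.splS 3 (.cons (.leaf 4 0x800000901900b802009000)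
  (.cons (.leaf 6 0x800000981900b80200b821009040009000) .nil))) .nil)))) (.cons (.leaf 3
  0xc00b009821009040) .nil))) (.cons (.leaf 3 0xc01300a821009040) .nil))) .nil))) (.cons (.splS 4
  (.cons (.leaf 3 0x1000000902100a21c) (.cons (.leaf 4 0x800000982100a21c009040) .nil))) (.cons
  (.leaf 2 0xb21c009030) .nil)))) .nil))) (.cons (.leaf 2 0xb414009028) .nil))))⟩

theorem kc_17_14_ok1 : kc_17_14.ok1 = true := by decide +kernel

theorem kc_17_14_ok2 : kc_17_14.ok2 = true := by decide +kernel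

/-- A certificate. -/
def kc_19_1 : KCert :=
  ⟨19, 1, [0, 1, 4], [0], [-2, 0, 0, 0, 2], [-2, 0, 0, 0, 0], 2, 0x40002000200020000,
  0x20002000200020000, 1, 0, 4, 1, 1, [4, 1, 4, 7], 4, [1], (.splT 0 (.cons (.leaf 2 0x8202009000)
  .nil))⟩

theorem kc_19_1_ok1 : kc_19_1.ok1 = true := by decide +kernel

theorem kc_19_1_ok2 : kc_19_1.ok2 = true := by decide +kernel

/-- A certificate. -/
def kc_19_3 : KCert :=
  ⟨19, 3, [0, 1, 4], [0, 1], [20, -10, 0, 0, 5], [0, 20, 0, 0, 0], 10, 0xf000a000a0000001e,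
  0xa000a000a001e000a, 1, 1, 6, 4, 33, [0, 0, 0, 34], 7, [1], (.splS 4 (.cons (.leaf 2
  0x8000008021) (.cons (.leaf 2 0x8000009221) (.cons (.splS 0 (.cons (.leaf 2 0x8000008803) (.cons
  (.leaf 2 0x9803009008) (.cons (.splT 3 (.cons (.leaf 2 0x800000821c) (.cons (.splT 5 (.cons
  (.leaf 3 0x802a009821009040) (.cons (.splT 0 (.cons (.leaf 2 0x8802009000) (.cons (.splS 1
  (.cons (.splT 2 (.cons (.leaf 4 0x8012009009009802009000) (.cons (.splS 3 (.cons (.leaf 3
  0x800000901900921a) (.cons (.leaf 2 0x9219009014) (.cons (.splS 6 (.cons (.leaf 7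
  0x800000903100981900902a00921a009821009040) (.cons (.leaf 4 0x923100902a009821009040) (.cons
  (.leaf 7 0x983100981900901400902a009821009050009040) .nil)))) .nil)))) .nil))) (.cons (.leaf 2
  0x9209009004) (.cons (.leaf 3 0xc00b009821009040) .nil)))) .nil))) .nil))) .nil))) .nil))))
  .nil))))⟩

theorem kc_19_3_ok1 : kc_19_3.ok1 = true := by decide +kernel

theorem kc_19_3_ok2 : kc_19_3.ok2 = true := by decide +kernel

/-- A certificate. -/
def kc_19_5 : KCert :=
  ⟨19, 5, [0, 1, 4], [0, 2], [-3, -6, 0, 0, 12], [9, 0, 6, 0, 0], 6, 0x120006000600000003,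
  0x60006000c0006000f, 1, 1, 4, 4, 13, [72, 0, 0, 0], 4, [1], (.splS 4 (.cons (.leaf 2
  0x8000008021) (.cons (.leaf 2 0x8221009028) (.cons (.splS 0 (.cons (.leaf 2 0x8000008803) (.cons
  (.leaf 2 0x9803009008) (.cons (.splT 2 (.cons (.leaf 2 0x8000008414) (.cons (.splT 0 (.cons
  (.leaf 2 0x8802009000) (.cons (.splS 2 (.cons (.leaf 4 0x800000a01100a802009000) (.cons (.leaf 3
  0xa21100a004009018) (.cons (.leaf 5 0x800000a81100a00400a821009040) .nil)))) .nil))) .nil)))
  .nil)))) .nil))))⟩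

theorem kc_19_5_ok1 : kc_19_5.ok1 = true := by decide +kernel

theorem kc_19_5_ok2 : kc_19_5.ok2 = true := by decide +kernel

/-- A certificate. -/
def kc_20_7 : KCert :=
  ⟨20, 7, [2, 4], [0, 1, 2], [0, 0, 0, 0, 7], [0, 7, -7, 0, 0], 7, 0xe0007000700070007,
  0x700070000000e0007, 1, 1, 4, 4, 24, [0, 23, 0, 9], 5, [1], (.splT 3 (.cons (.leaf 2
  0x800000821c) (.cons (.splS 4 (.cons (.leaf 2 0x800000a421) (.cons (.splS 2 (.cons (.splT 0
  (.cons (.leaf 2 0x8802009000) (.cons (.splS 0 (.cons (.leaf 4 0x800000940100980200a411) (.cons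
  (.splT 2 (.cons (.leaf 3 0x800000841200a411) (.cons (.splS 3 (.cons (.leaf 5
  0x10000009419009414009821009040) (.cons (.leaf 5 0x800000981900941200a411009038) .nil))) (.cons
  (.splS 1 (.cons (.splS 3 (.cons (.leaf 3 0x800000941900a80b) (.cons (.leaf 6
  0x981900940900a412009802009038009000) .nil))) (.cons (.leaf 6
  0x980900a412009802009821009040009000) .nil))) .nil)))) .nil))) (.cons (.leaf 3
  0xa80200a411009000) .nil)))) (.cons (.leaf 4 0x800000c41300a821009040) .nil))) .nil))) (.cons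
  (.leaf 2 0xa21c009028) .nil))))⟩

theorem kc_20_7_ok1 : kc_20_7.ok1 = true := by decide +kernel

theorem kc_20_7_ok2 : kc_20_7.ok2 = true := by decide +kernel

/-- A certificate. -/
def kc_21_12 : KCert :=
  ⟨21, 12, [0, 2, 4], [2, 3], [0, 0, -15, 0, 0], [0, 0, -30, 30, 0], 30, 0x1e001e000f001e001e,
  0x1e003c0000001e001e, 1, 1, 8, 4, 138, [0, 0, 0, 281], 11, [1], (.splS 0 (.cons (.leaf 2
  0x8000008803) (.cons (.leaf 2 0xa803009010) (.cons (.splT 1 (.cons (.leaf 2 0xa60c009018) (.cons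
  (.splS 4 (.cons (.splS 2 (.cons (.leaf 2 0x8000008413) (.cons (.splT 5 (.cons (.leaf 3
  0xa02a00b021009028) (.cons (.splT 3 (.cons (.splT 6 (.cons (.leaf 4 0x800000a03200882300a021)
  (.cons (.splT 7 (.cons (.leaf 3 0x800000a43a00b021) (.cons (.leaf 5
  0x1000000b43a00b83200b02100a021) .nil))) .nil))) (.cons (.leaf 5 0x800000b41c00b02a00882300a021)
  .nil))) .nil))) (.cons (.leaf 3 0x1000000c41300a021) .nil)))) (.cons (.leaf 2 0x800000a421)
  (.cons (.splS 2 (.cons (.leaf 2 0x8000008413) (.cons (.splT 5 (.cons (.leaf 3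
  0x800000a62c00b821) (.cons (.splT 7 (.cons (.leaf 3 0xa43a00b821009040) (.cons (.splT 0 (.cons
  (.leaf 3 0xa80200a411009000) (.cons (.splS 3 (.cons (.splT 2 (.cons (.splT 6 (.cons (.leaf 4
  0xa43200b01900b802009000) (.cons (.splS 8 (.cons (.leaf 6 0x1000000a04100b43200b43a00b82100a821)
  (.cons (.leaf 6 0x1000001244100b83200b43a00b82100a821) (.cons (.leaf 7
  0x800000a84100b43200b43a00b82100a821009060) .nil)))) .nil))) (.cons (.leaf 4
  0x800000b41200a01900b404) .nil))) (.cons (.splS 5 (.cons (.leaf 3 0xb02900a01b00c023) (.cons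
  (.leaf 4 0x800000b42900a01b00b821) (.cons (.leaf 5 0xb82900a01b00b43a00b821009050) .nil))))
  (.cons (.leaf 3 0xc01b00b821009040) .nil)))) .nil))) .nil))) .nil))) (.cons (.leaf 4
  0x800000c41300a821009040) .nil)))) .nil)))) .nil))) .nil))))⟩

theorem kc_21_12_ok1 : kc_21_12.ok1 = true := by decide +kernel

theorem kc_21_12_ok2 : kc_21_12.ok2 = true := by decide +kernel

/-- A certificate. -/
def kc_22_3 : KCert :=
  ⟨22, 3, [1, 2, 4], [0, 1], [0, -3, 6, 0, -6], [3, -3, 0, 0, 0], 6, 0x6000c00030006,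
  0x60006000600030009, 1, 1, 4, 2, 21, [0, 0, 22, 0], 4, [1], (.splS 2 (.cons (.leaf 2
  0x8000009211) (.cons (.splS 1 (.cons (.splT 0 (.cons (.leaf 2 0x8402009000) (.cons (.leaf 2
  0x9004009209) .nil))) (.cons (.leaf 4 0x800000a20b009411009020) (.cons (.leaf 2 0xc20b009028)
  .nil)))) (.cons (.leaf 2 0x8811009030) .nil))))⟩

theorem kc_22_3_ok1 : kc_22_3.ok1 = true := by decide +kernel

theorem kc_22_3_ok2 : kc_22_3.ok2 = true := by decide +kernel

/-- A certificate. -/
def kc_22_10 : KCert :=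
  ⟨22, 10, [1, 2, 4], [1, 3], [0, -5, 0, 0, 0], [0, 0, 0, -5, 0], 5, 0x50005000500000005,
  0x50000000500050005, 1, 1, 4, 2, 15, [0, 0, 0, 35], 5, [1], (.splT 1 (.cons (.splS 2 (.cons
  (.leaf 2 0x8000009211) (.cons (.splS 1 (.cons (.splT 0 (.cons (.leaf 3 0x9402009209009000)
  (.cons (.leaf 3 0xb802009411009000) .nil))) (.cons (.leaf 5 0x800000940900941100920a009020)
  (.cons (.leaf 5 0x800000980900b41100920a009020) .nil)))) (.cons (.splS 1 (.cons (.splT 0 (.cons
  (.leaf 3 0x9402009209009000) (.cons (.leaf 4 0xb402009811009030009000) .nil))) (.cons (.leaf 5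
  0x800000940900981100920a009030) (.cons (.leaf 5 0x800000980900b81100920a009030) .nil))))
  .nil)))) (.cons (.leaf 2 0xb20c009020) .nil)))⟩

theorem kc_22_10_ok1 : kc_22_10.ok1 = true := by decide +kernel

theorem kc_22_10_ok2 : kc_22_10.ok2 = true := by decide +kernel

/-- A certificate. -/
def kc_23_15 : KCert :=
  ⟨23, 15, [0, 1, 2, 4], [0, 1, 2, 3], [0, 2, -8, 0, 0], [-4, 6, 2, -8, 0], 8,
  0x800080000000a0008, 0x80000000a000e0004, 1, 1, 4, 4, 25, [0, 0, 0, 26], 7, [1], (.splS 4 (.cons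
  (.leaf 2 0x8000008021) (.cons (.leaf 2 0x8000009221) (.cons (.leaf 2 0x800000a421) (.cons (.splS
  3 (.cons (.leaf 2 0x800000821b) (.cons (.splT 3 (.cons (.leaf 3 0x800000821a009219) (.cons
  (.splS 2 (.cons (.leaf 2 0x8000008413) (.cons (.leaf 3 0x8000009413009219) (.cons (.splT 2
  (.cons (.leaf 3 0x800000841200a411) (.cons (.leaf 4 0x800000941200a411009219) (.cons (.splS 1
  (.cons (.splT 0 (.cons (.leaf 2 0x8802009000) (.cons (.leaf 4 0x800000940400b00900a412) (.cons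
  (.leaf 3 0xa80200a411009000) (.cons (.leaf 2 0xb004009219) .nil))))) (.cons (.leaf 2
  0x900b00a411) (.cons (.leaf 2 0xa00b009219) (.cons (.leaf 3 0xc00b009821009040) .nil))))) (.cons
  (.leaf 5 0x800000b41200a411009821009040) .nil))))) (.cons (.leaf 4 0x800000c41300a821009040)
  .nil))))) (.cons (.leaf 5 0x800000a21a009219009821009040) (.cons (.leaf 5
  0x800000b21a00921900a821009040) .nil))))) (.cons (.leaf 4 0x800000a21b009821009040) (.cons
  (.leaf 4 0x800000c21b00b821009040) .nil))))) .nil)))))⟩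

theorem kc_23_15_ok1 : kc_23_15.ok1 = true := by decide +kernel

theorem kc_23_15_ok2 : kc_23_15.ok2 = true := by decide +kernel

/-- A certificate. -/
def kc_24_6 : KCert :=
  ⟨24, 6, [3, 4], [1, 2], [0, 0, 0, 5, -5], [0, 0, 5, 0, 0], 5, 0xa000500050005,
  0x50005000a00050005, 1, 1, 4, 3, 15, [11, 14, -2, 1], 7, [1], (.splT 1 (.cons (.leaf 2
  0x940c009010) (.cons (.splS 0 (.cons (.splS 3 (.cons (.splS 2 (.cons (.leaf 3
  0x800000b81300a619) (.cons (.splT 2 (.cons (.splT 0 (.cons (.splS 1 (.cons (.leaf 6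
  0x800000a609009602009619009030009000) (.cons (.leaf 6 0x800000a80900960200a619009030009000)
  .nil))) (.cons (.leaf 4 0xa602009811009030009000) .nil))) (.cons (.leaf 5
  0x800000a812009811009619009030) .nil))) .nil))) (.cons (.splT 2 (.cons (.splT 3 (.cons (.splS 1
  (.cons (.splT 0 (.cons (.leaf 6 0x800000960200a609009819009038009000) (.cons (.splS 2 (.cons
  (.leaf 6 0x800000961100a60200a819009038009000) (.cons (.leaf 5 0x981100a60200c61b009038009000)
  .nil))) .nil))) (.cons (.leaf 2 0xc60b00941c) .nil))) (.cons (.splS 2 (.cons (.splT 0 (.cons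
  (.splS 1 (.cons (.leaf 6 0x800000a609009602009819009038009000) (.cons (.leaf 6
  0x800000a80900960200a819009038009000) .nil))) (.cons (.leaf 6
  0x800000a60200961100a819009038009000) .nil))) (.cons (.splT 0 (.cons (.splS 1 (.cons (.leaf 6
  0x800000a609009602009819009038009000) (.cons (.leaf 6 0x800000a80900960200a819009038009000)
  .nil))) (.cons (.leaf 5 0xa60200981100c61b009038009000) .nil))) .nil))) .nil))) (.cons (.leaf 4
  0x800000a214009819009038) .nil))) .nil))) (.cons (.leaf 2 0xc603009020) .nil))) .nil)))⟩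

theorem kc_24_6_ok1 : kc_24_6.ok1 = true := by decide +kernel

theorem kc_24_6_ok2 : kc_24_6.ok2 = true := by decide +kernel

/-- A certificate. -/
def kc_24_7 : KCert :=
  ⟨24, 7, [3, 4], [0, 1, 2], [0, 0, 0, 6, -3], [3, 6, -3, 0, 0], 3, 0x9000300030003,
  0x30003000000090006, 1, 1, 4, 3, 31, [0, 0, 67, 0], 5, [1], (.splT 2 (.cons (.leaf 2
  0x8000008214) (.cons (.splS 3 (.cons (.splS 2 (.cons (.leaf 4 0x800000961100a619009812) (.cons
  (.splT 1 (.cons (.leaf 2 0x800000840c) (.cons (.leaf 4 0x800000940c009811009030) (.cons (.splT 0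
  (.cons (.leaf 2 0x8602009000) (.cons (.splS 1 (.cons (.leaf 5 0x800000a609009404009619009812)
  (.cons (.leaf 5 0x800000a80900940400a619009812) .nil))) (.cons (.leaf 3 0xa004009811009030)
  .nil)))) .nil)))) .nil))) (.cons (.leaf 2 0x8819009038) .nil))) (.cons (.leaf 2 0xa214009020)
  .nil))))⟩

theorem kc_24_7_ok1 : kc_24_7.ok1 = true := by decide +kernel

theorem kc_24_7_ok2 : kc_24_7.ok2 = true := by decide +kernel

/-- A certificate. -/
def kc_24_8 : KCert :=
  ⟨24, 8, [3, 4], [3], [0, 0, 0, 0, 130], [0, 0, 0, 130, 0], 0, 0x820000000000000000,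
  0x82000000000000, 1, 0, 24, 8, 1247, [1248, 0, 0, 0], 24, [1], (.splT 27 (.cons (.splT 23 (.cons
  (.splT 19 (.cons (.splT 15 (.cons (.splT 14 (.cons (.splT 10 (.cons (.splT 9 (.cons (.splT 6
  (.cons (.splT 4 (.cons (.splT 0 (.cons (.splS 8 (.cons (.leaf 2 0x800000b641) (.cons (.splS 7
  (.cons (.leaf 3 0xb82200b639009020) (.cons (.splS 4 (.cons (.leaf 6
  0x800000b65200b82300b83900b841009060) (.cons (.splS 12 (.cons (.leaf 5
  0x800000b65200b66100c63b00b841) (.cons (.splS 16 (.cons (.leaf 7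
  0x800000b67a00b65200b68100b86100c63b00b841) (.cons (.splS 20 (.cons (.leaf 9
  0x800000b69a00b67a00b65200b6a100b88100b86100c63b00b841) (.cons (.splS 24 (.cons (.leaf 11
  0x800000b6ba00b69a00b67a00b65200b6c100b8a100b88100b86100c63b00b841) (.cons (.splS 28 (.cons
  (.leaf 13 0x800000b6da00b6ba00b69a00b67a00b65200b6e100b8c100b8a100b88100b86100c63b00b841) (.cons
  (.splS 9 (.cons (.splS 6 (.cons (.leaf 3 0xb65200b83300b649) (.cons (.splS 5 (.cons (.splS 3
  (.cons (.leaf 10 0xb64a01382201380200b81b01361900b83100b83900b841009060011000) (.cons (.splS 13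
  (.cons (.leaf 12 0x1b67201b85200b83200b82200b80201b66900b81900b649013839013841011060009000)
  (.cons (.splS 17 (.cons (.leaf 9 0x800000b67a00b67200b85200b68900b86900b86100c63b00b841) (.cons
  (.leaf 14 0x1000001b69a03367a02367202385200b84a01b88901b86900c63301b88103386102c63b02b8410190a8)
  .nil))) .nil))) .nil))) (.cons (.leaf 6 0x800000c62b00c63300c63b00b841009060) .nil))) .nil)))
  (.cons (.splS 13 (.cons (.leaf 6 0x800000b65200b66900c64b00c63b00b841) (.cons (.leaf 9
  0x800000b67a01365200b86900c64b00b86101463b013841009088) .nil))) .nil))) .nil))) .nil))) .nil)))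
  .nil))) .nil))) .nil))) .nil))) .nil))) .nil)) .nil)) .nil)) .nil)) .nil)) .nil)) .nil)) .nil))
  .nil)) .nil))⟩

theorem kc_24_8_ok1 : kc_24_8.ok1 = true := by decide +kernel

theorem kc_24_8_ok2 : kc_24_8.ok2 = true := by decide +kernel

/-- A certificate. -/
def kc_24_21 : KCert :=
  ⟨24, 21, [3, 4], [0, 2, 4], [0, 0, 0, 6, -6], [3, 0, -3, 0, -3], 6, 0xc000600060006,
  0x30006000300060009, 1, 1, 6, 3, 23, [0, 0, 0, 24], 6, [1], (.splS 3 (.cons (.splT 1 (.cons
  (.leaf 2 0x800000840c) (.cons (.splS 2 (.cons (.leaf 3 0x800000b81300a619) (.cons (.splT 0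
  (.cons (.leaf 2 0x8602009000) (.cons (.leaf 2 0xa00400c811) (.cons (.splS 4 (.cons (.leaf 5
  0x800000a62100c60200c619009000) (.cons (.leaf 2 0xc82100c004) .nil))) .nil)))) .nil))) (.cons
  (.leaf 4 0x800000c40c00a619009030) .nil)))) (.cons (.leaf 2 0x800000c819) .nil)))⟩

theorem kc_24_21_ok1 : kc_24_21.ok1 = true := by decide +kernel

theorem kc_24_21_ok2 : kc_24_21.ok2 = true := by decide +kernel

/-- A certificate. -/
def kc_25_7 : KCert :=
  ⟨25, 7, [0, 3, 4], [0, 1, 2], [-3, 0, 0, 3, -9], [-3, 12, 3, 0, 0], 9, 0xc000900090006,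
  0x90009000c00150006, 1, 1, 4, 3, 34, [0, 0, 0, 73], 6, [1], (.splS 3 (.cons (.leaf 2
  0x8000008019) (.cons (.splS 2 (.cons (.leaf 3 0x8000008813008619) (.cons (.leaf 3
  0x800000b81300a619) (.cons (.splT 2 (.cons (.leaf 3 0x8000008812009811) (.cons (.splS 1 (.cons
  (.splT 0 (.cons (.leaf 2 0x8602009000) (.cons (.leaf 5 0x800000940400a009009812008619) (.cons
  (.leaf 4 0xa602009811009030009000) .nil)))) (.cons (.leaf 3 0xb00b009619009030) (.cons (.leaf 3
  0xc00b00a619009030) .nil)))) (.cons (.leaf 5 0x800000a812009811009619009030) .nil)))) .nil))))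
  (.cons (.leaf 2 0x8819009038) .nil))))⟩

theorem kc_25_7_ok1 : kc_25_7.ok1 = true := by decide +kernel

theorem kc_25_7_ok2 : kc_25_7.ok2 = true := by decide +kernel

/-- A certificate. -/
def kc_26_1 : KCert :=
  ⟨26, 1, [1, 3, 4], [0], [0, 1, 0, -1, -1], [-1, 0, 0, 0, 0], 1, 0x100020001,
  0x10001000100010000, 1, 0, 4, 1, 1, [0, 0, 2, 0], 4, [1], (.splT 0 (.cons (.leaf 2 0x8202009000)
  .nil))⟩

theorem kc_26_1_ok1 : kc_26_1.ok1 = true := by decide +kernel

theorem kc_26_1_ok2 : kc_26_1.ok2 = true := by decide +kernel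

/-- A certificate. -/
def kc_26_20 : KCert :=
  ⟨26, 20, [1, 3, 4], [2, 4], [0, -8, 0, 4, 4], [0, 0, 4, 0, 8], 8, 0xc000c000800000008,
  0x100008000c00080008, 1, 1, 8, 3, 22, [7, -3, 37, -41], 8, [1], (.splS 3 (.cons (.splT 2 (.cons
  (.splT 1 (.cons (.splT 5 (.cons (.splT 6 (.cons (.leaf 6 0xa23200a62a00a22a00c219012219019020)
  (.cons (.leaf 5 0xc83200a22a00c21900a219011020) .nil))) (.cons (.leaf 3 0xc82a00a219009020)
  .nil))) (.cons (.leaf 4 0x800000c40c00a219009020) .nil))) (.cons (.leaf 2 0xc41400961b) .nil)))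
  (.cons (.splT 1 (.cons (.splT 5 (.cons (.leaf 5 0x800000a22a00c61900a619009030) (.cons (.splS 2
  (.cons (.leaf 3 0x981300c82a00a619) (.cons (.leaf 4 0x800000b21300a619009030) (.cons (.splS 6
  (.cons (.leaf 6 0x800000963300c22a00c61900a619009030) (.cons (.splT 4 (.cons (.splT 0 (.cons
  (.leaf 3 0xa60200c811009000) (.cons (.splS 4 (.cons (.leaf 5 0x800000a22100c60200a619009000)
  (.cons (.leaf 5 0x800000a62100c60200c619009000) (.cons (.leaf 8
  0x800000a82100c60200a63101482a012619009048009000) .nil)))) .nil))) (.cons (.leaf 6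
  0x800000c42400a63101482a012619009048) .nil))) (.cons (.leaf 4 0x800000c83100c82a00a619) .nil))))
  .nil)))) .nil))) (.cons (.leaf 4 0x800000c40c00a619009030) .nil))) (.cons (.leaf 2 0x800000c819)
  .nil))))⟩

theorem kc_26_20_ok1 : kc_26_20.ok1 = true := by decide +kernel

theorem kc_26_20_ok2 : kc_26_20.ok2 = true := by decide +kernel

/-- A certificate. -/
def kc_27_2 : KCert :=
  ⟨27, 2, [0, 1, 3, 4], [1], [5, 0, 0, -5, 5], [0, -5, 0, 0, 0], 5, 0xa000000050005000a,
  0x50005000500000005, 1, 0, 6, 4, 29, [0, 25, -12, 30], 7, [1], (.splT 5 (.cons (.splT 2 (.cons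
  (.splT 0 (.cons (.splS 4 (.cons (.leaf 3 0x800000922a009021) (.cons (.leaf 2 0x8000009221)
  (.cons (.leaf 3 0x922a009621009038) (.cons (.splS 1 (.cons (.leaf 2 0x800000860b) (.cons (.leaf
  3 0x9802009209009000) (.cons (.splS 3 (.cons (.leaf 2 0x800000821b) (.cons (.leaf 7
  0x962a009812009802009219009609009821009000) (.cons (.leaf 3 0x981200961900b20b) (.cons (.splS 6
  (.cons (.leaf 5 0x1000000962a00903100c21b009821) (.cons (.leaf 4 0x800000962a009231009821)
  (.cons (.leaf 6 0x800000962a00963100c21b009821009048) (.cons (.leaf 6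
  0x800000962a00983100c21b009821009050) .nil))))) .nil))))) (.cons (.leaf 4
  0x800000c60b009821009040) .nil))))) .nil))))) .nil)) .nil)) .nil))⟩

theorem kc_27_2_ok1 : kc_27_2.ok1 = true := by decide +kernel

theorem kc_27_2_ok2 : kc_27_2.ok2 = true := by decide +kernel

/-- A certificate. -/
def kc_27_22 : KCert :=
  ⟨27, 22, [0, 1, 3, 4], [1, 2, 4], [8, 8, 0, 4, -8], [0, 4, -4, 0, -4], 8, 0xc000800100010,
  0x400080004000c0008, 1, 1, 4, 3, 21, [47, 0, 47, 0], 5, [1], (.splS 2 (.cons (.leaf 2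
  0x8000008213) (.cons (.splT 2 (.cons (.splS 3 (.cons (.splS 1 (.cons (.leaf 2 0x820b009212)
  (.cons (.splT 0 (.cons (.leaf 5 0x800000960200a209009211009000) (.cons (.leaf 3
  0xa602009211009000) (.cons (.leaf 4 0x800000c404009019009212) .nil)))) (.cons (.leaf 4
  0x800000b20b009019009212) (.cons (.leaf 4 0x800000c20b00a019009212) .nil))))) (.cons (.leaf 2
  0x8000009219) (.cons (.splS 1 (.cons (.leaf 2 0x820b009212) (.cons (.splT 0 (.cons (.leaf 5
  0x800000960200a209009211009000) (.cons (.leaf 3 0xa602009211009000) (.cons (.leaf 4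
  0xc602009619009030009000) .nil)))) (.cons (.leaf 4 0xb20b009619009212009030) (.cons (.leaf 4
  0xc20b00a619009212009030) .nil))))) (.cons (.leaf 2 0x800000c819) .nil))))) (.cons (.leaf 2
  0xa214009020) (.cons (.leaf 2 0xc214009030) .nil)))) (.cons (.leaf 2 0xb213009028) (.cons (.leaf
  2 0xc213009030) .nil)))))⟩

theorem kc_27_22_ok1 : kc_27_22.ok1 = true := by decide +kernel

theorem kc_27_22_ok2 : kc_27_22.ok2 = true := by decide +kernel

/-- A certificate. -/
def kc_29_3 : KCert :=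
  ⟨29, 3, [0, 2, 3, 4], [0, 1], [-9, 0, 9, -3, -12], [3, -12, 0, 0, 0], 12, 0x90015000c0003,
  0xc000c000c0000000f, 1, 1, 4, 2, 35, [0, 0, 75, 0], 4, [1], (.splS 2 (.cons (.leaf 2
  0x8000008011) (.cons (.splS 1 (.cons (.leaf 3 0x800000860b008411) (.cons (.leaf 3
  0x800000a60b009411) (.cons (.splT 0 (.cons (.leaf 2 0x8402009000) (.cons (.leaf 4
  0x9402009609009020009000) .nil))) (.cons (.leaf 3 0xc60b008411009028) .nil))))) (.cons (.leaf 2
  0x8611009028) (.cons (.leaf 2 0x8811009030) .nil)))))⟩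

theorem kc_29_3_ok1 : kc_29_3.ok1 = true := by decide +kernel

theorem kc_29_3_ok2 : kc_29_3.ok2 = true := by decide +kernel

/-- A certificate. -/
def kc_29_4 : KCert :=
  ⟨29, 4, [0, 2, 3, 4], [2], [3, 0, 0, -3, 3], [0, 0, 0, 0, 0], 3, 0x60000000300030006,
  0x30003000300030003, 1, 0, 4, 4, 9, [6, 5, 0, 4], 8, [1], (.splT 0 (.cons (.splS 2 (.cons (.leaf
  2 0x8000008413) (.cons (.leaf 3 0xa80200a411009000) (.cons (.leaf 2 0xb413009028) (.cons (.splS
  4 (.cons (.leaf 3 0x1000000a02100c413) (.cons (.leaf 2 0x800000a421) (.cons (.leaf 4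
  0x800000a62100c413009038) (.cons (.leaf 4 0x800000a82100c413009040) .nil))))) .nil))))) .nil))⟩

theorem kc_29_4_ok1 : kc_29_4.ok1 = true := by decide +kernel

theorem kc_29_4_ok2 : kc_29_4.ok2 = true := by decide +kernel

/-- A certificate. -/
def kc_29_13 : KCert :=
  ⟨29, 13, [0, 2, 3, 4], [0, 2, 3], [-4, 0, -12, 16, 0], [-12, 0, 12, -12, 0], 12,
  0xc001c0000000c0008, 0xc00000018000c0000, 1, 1, 6, 4, 58, [0, 0, 59, 0], 6, [1], (.splS 4 (.cons
  (.leaf 2 0x8000008021) (.cons (.leaf 2 0x800000a421) (.cons (.leaf 2 0x800000b621) (.cons (.splS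
  5 (.cons (.leaf 3 0x800000862b008821) (.cons (.leaf 3 0x800000a62b00b821) (.cons (.splS 2 (.cons
  (.leaf 2 0x8000008413) (.cons (.splS 1 (.cons (.leaf 2 0x800000860b) (.cons (.leaf 2
  0xa60b009018) (.cons (.splT 5 (.cons (.leaf 4 0x800000862a00b629008821) (.cons (.leaf 4
  0x800000a62a00b62900b821) (.cons (.splS 3 (.cons (.leaf 2 0x841b00b62a) (.cons (.splT 0 (.cons
  (.leaf 2 0x8802009000) (.cons (.leaf 3 0xa80200a411009000) (.cons (.leaf 2 0xb00400a419)
  .nil)))) (.cons (.leaf 4 0xb41b00b62a00a821009040) (.cons (.leaf 4 0xc41b00b62a00b821009040)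
  .nil))))) .nil)))) (.cons (.leaf 3 0x800000c60b00b629) .nil))))) (.cons (.leaf 3
  0x800000b41300b629) (.cons (.leaf 4 0x800000c41300a821009040) .nil))))) (.cons (.leaf 3
  0xc62b008821009048) .nil))))) .nil)))))⟩

theorem kc_29_13_ok1 : kc_29_13.ok1 = true := by decide +kernel

theorem kc_29_13_ok2 : kc_29_13.ok2 = true := by decide +kernel

/-- A certificate. -/
def kc_30_2 : KCert :=
  ⟨30, 2, [1, 2, 3, 4], [1], [0, 3, 6, -6, -3], [0, 0, 0, 0, 0], 6, 0x30000000c00090006,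
  0x60006000600060006, 1, 0, 4, 2, 12, [3, 7, 9, 1], 4, [1], (.splT 0 (.cons (.splS 1 (.cons
  (.leaf 3 0x9402009209009000) (.cons (.splS 2 (.cons (.leaf 2 0x8000009211) (.cons (.leaf 4
  0x800000941100a20b009020) (.cons (.leaf 4 0x800000961100a20b009028) (.cons (.leaf 4
  0x800000981100a20b009030) .nil))))) (.cons (.leaf 2 0xb20b009020) (.cons (.leaf 2 0xc20b009028)
  .nil))))) .nil))⟩

theorem kc_30_2_ok1 : kc_30_2.ok1 = true := by decide +kernel

theorem kc_30_2_ok2 : kc_30_2.ok2 = true := by decide +kernel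

/-- A certificate. -/
def kc_31_17 : KCert :=
  ⟨31, 17, [0, 1, 2, 3, 4], [0, 4], [-24, -48, 24, 48, 12], [12, 0, 0, 0, 36], 48,
  0x3c0060004800000018, 0x54003000300030003c, 1, 1, 8, 5, 126, [0, 257, 0, 0], 9, [1], (.splS 2
  (.cons (.leaf 2 0x8000008613) (.cons (.leaf 2 0x9613009018) (.cons (.leaf 2 0xa613009020) (.cons
  (.splT 3 (.cons (.leaf 2 0x841a009018) (.cons (.splT 2 (.cons (.leaf 2 0x8612009010) (.cons
  (.splT 1 (.cons (.leaf 2 0x800000880c) (.cons (.splS 5 (.cons (.leaf 2 0x8000008029) (.cons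
  (.leaf 2 0x8229009030) (.cons (.splS 4 (.cons (.leaf 2 0x8000008223) (.cons (.leaf 2
  0x9623008429) (.cons (.leaf 3 0xa623008429009030) (.cons (.splS 7 (.cons (.leaf 3
  0x8000008039008429) (.cons (.leaf 2 0x823900a62b) (.cons (.leaf 3 0x800000843900c429) (.cons
  (.splS 6 (.cons (.leaf 6 0x800000c03100863900842900c612009010) (.cons (.leaf 4
  0xc23100863900c612009010) (.cons (.leaf 5 0xc43100863900a62b00c612009010) (.cons (.leaf 6
  0x800000c63100863900c42900c612009010) (.cons (.leaf 3 0xc83100c612009010) .nil)))))) (.cons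
  (.leaf 3 0x800000c839008429) .nil)))))) (.cons (.leaf 2 0xc62300a62b) .nil)))))) (.cons (.splS 6
  (.cons (.leaf 3 0x8000008433008629) (.cons (.leaf 2 0x943300b42b) (.cons (.splS 8 (.cons (.leaf
  3 0x8000008041008629) (.cons (.leaf 3 0x800000824100c629) (.cons (.leaf 4
  0x844100c43100c612009010) (.cons (.splS 7 (.cons (.leaf 6 0x800000c03900864100862900c41a009018)
  (.cons (.leaf 2 0x983b008641) (.cons (.leaf 6 0x800000c43900864100c62900c41a009018) (.cons
  (.splS 4 (.cons (.leaf 2 0x8000008223) (.cons (.leaf 2 0x9823008629) (.cons (.leaf 7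
  0x800000a22300c63900864100c43100c41a009018) (.cons (.leaf 7
  0x800000b22300c63900864100c43100c612009010) (.cons (.splT 0 (.cons (.leaf 8
  0x860200840200c63900864100c43100c61200c41a011000) (.cons (.leaf 9
  0xc60200c40201482100c63900864100c43100c61200c41a011000) .nil))) .nil)))))) (.cons (.leaf 3
  0xc83900c41a009018) .nil)))))) (.cons (.leaf 3 0x800000c841008629) .nil)))))) (.cons (.leaf 3
  0x800000b43300c629) (.cons (.leaf 3 0xc83100c612009010) .nil)))))) (.cons (.leaf 2 0x800000c829)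
  .nil)))))) .nil))) .nil))) .nil))) (.cons (.leaf 2 0xc613009030) .nil))))))⟩

theorem kc_31_17_ok1 : kc_31_17.ok1 = true := by decide +kernel

theorem kc_31_17_ok2 : kc_31_17.ok2 = true := by decide +kernel

/-- A certificate. -/
def kc_31_21 : KCert :=
  ⟨31, 21, [0, 1, 2, 3, 4], [0, 2, 4], [16, -12, 4, 16, -4], [12, 0, -12, 0, -4], 12,
  0x8001c00100000001c, 0x8000c0000000c0018, 1, 1, 6, 3, 59, [60, 0, 0, 60], 6, [1], (.splS 3
  (.cons (.leaf 2 0x8000008019) (.cons (.leaf 2 0x8219009020) (.cons (.leaf 2 0x800000a419) (.cons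
  (.splS 4 (.cons (.leaf 3 0x8000008423008619) (.cons (.leaf 3 0x800000942300a619) (.cons (.splS 2
  (.cons (.leaf 2 0x8000008213) (.cons (.leaf 2 0x9813008619) (.cons (.leaf 3 0x800000a21300a421)
  (.cons (.leaf 4 0x800000b21300a619009030) (.cons (.splT 0 (.cons (.leaf 2 0x8602009000) (.cons
  (.leaf 2 0xa00400c811) (.cons (.leaf 3 0xc60200a421009000) .nil)))) .nil)))))) (.cons (.leaf 3
  0x800000b42300c619) (.cons (.leaf 3 0xc423008619009040) .nil)))))) (.cons (.leaf 2 0x800000c819)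
  .nil))))))⟩

theorem kc_31_21_ok1 : kc_31_21.ok1 = true := by decide +kernel

theorem kc_31_21_ok2 : kc_31_21.ok2 = true := by decide +kernel

/-- Certificates. -/
def kd5 : List KCert :=
  [kc_2_24, kc_5_8, kc_6_1, kc_6_3, kc_6_28, kc_7_11, kc_7_16, kc_8_18, kc_8_21, kc_9_6, kc_9_20,
  kc_11_4, kc_13_3, kc_13_7, kc_13_9, kc_15_10, kc_15_11, kc_16_5, kc_17_14, kc_19_1, kc_19_3,
  kc_19_5, kc_20_7, kc_21_12, kc_22_3, kc_22_10, kc_23_15, kc_24_6, kc_24_7, kc_24_8, kc_24_21,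
  kc_25_7, kc_26_1, kc_26_20, kc_27_2, kc_27_22, kc_29_3, kc_29_4, kc_29_13, kc_30_2, kc_31_17,
  kc_31_21]

theorem kd5_ok : AllK kd5 :=
  allK_cons kc_2_24_ok1 kc_2_24_ok2 (
  allK_cons kc_5_8_ok1 kc_5_8_ok2 (
  allK_cons kc_6_1_ok1 kc_6_1_ok2 (
  allK_cons kc_6_3_ok1 kc_6_3_ok2 (
  allK_cons kc_6_28_ok1 kc_6_28_ok2 (
  allK_cons kc_7_11_ok1 kc_7_11_ok2 (
  allK_cons kc_7_16_ok1 kc_7_16_ok2 (
  allK_cons kc_8_18_ok1 kc_8_18_ok2 (
  allK_cons kc_8_21_ok1 kc_8_21_ok2 (
  allK_cons kc_9_6_ok1 kc_9_6_ok2 (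
  allK_cons kc_9_20_ok1 kc_9_20_ok2 (
  allK_cons kc_11_4_ok1 kc_11_4_ok2 (
  allK_cons kc_13_3_ok1 kc_13_3_ok2 (
  allK_cons kc_13_7_ok1 kc_13_7_ok2 (
  allK_cons kc_13_9_ok1 kc_13_9_ok2 (
  allK_cons kc_15_10_ok1 kc_15_10_ok2 (
  allK_cons kc_15_11_ok1 kc_15_11_ok2 (
  allK_cons kc_16_5_ok1 kc_16_5_ok2 (
  allK_cons kc_17_14_ok1 kc_17_14_ok2 (
  allK_cons kc_19_1_ok1 kc_19_1_ok2 (
  allK_cons kc_19_3_ok1 kc_19_3_ok2 (
  allK_cons kc_19_5_ok1 kc_19_5_ok2 (
  allK_cons kc_20_7_ok1 kc_20_7_ok2 (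
  allK_cons kc_21_12_ok1 kc_21_12_ok2 (
  allK_cons kc_22_3_ok1 kc_22_3_ok2 (
  allK_cons kc_22_10_ok1 kc_22_10_ok2 (
  allK_cons kc_23_15_ok1 kc_23_15_ok2 (
  allK_cons kc_24_6_ok1 kc_24_6_ok2 (
  allK_cons kc_24_7_ok1 kc_24_7_ok2 (
  allK_cons kc_24_8_ok1 kc_24_8_ok2 (
  allK_cons kc_24_21_ok1 kc_24_21_ok2 (
  allK_cons kc_25_7_ok1 kc_25_7_ok2 (
  allK_cons kc_26_1_ok1 kc_26_1_ok2 (
  allK_cons kc_26_20_ok1 kc_26_20_ok2 (
  allK_cons kc_27_2_ok1 kc_27_2_ok2 (
  allK_cons kc_27_22_ok1 kc_27_22_ok2 (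
  allK_cons kc_29_3_ok1 kc_29_3_ok2 (
  allK_cons kc_29_4_ok1 kc_29_4_ok2 (
  allK_cons kc_29_13_ok1 kc_29_13_ok2 (
  allK_cons kc_30_2_ok1 kc_30_2_ok2 (
  allK_cons kc_31_17_ok1 kc_31_17_ok2 (
  allK_cons kc_31_21_ok1 kc_31_21_ok2 (
  allK_nil))))))))))))))))))))))))))))))))))))))))))

end Pool.Agent.RatRec
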