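import Pool.Agent.Lib_helper86.RatV.KCert

/-!
Packed certificates of unbounded special cases (data).
-/

set_option autoImplicit false
set_option maxRecDepth 100000

namespace Pool.Agent.RatRec

/-- A certificate. -/
def kc_3_8 : KCert :=
  ⟨3, 8, [0, 1], [3], [-20, 0, 0, 0, 0], [0, 0, 0, -20, 0], 20, 0x140014001400140000,
  0x140000001400140014, 1, 0, 12, 7, 85, [0, 0, 0, 0], 14, [1], (.splT 14 (.cons (.splT 12 (.cons
  (.splT 10 (.cons (.splT 9 (.cons (.splT 8 (.cons (.splT 6 (.cons (.splT 5 (.cons (.splT 2 (.cons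
  (.splT 1 (.cons (.splT 0 (.cons (.splS 7 (.cons (.leaf 8
  0xb25200b24200b23200b22a01023b00b039009068009028) (.cons (.splS 6 (.cons (.leaf 2 0x8000008233)
  (.cons (.splS 8 (.cons (.leaf 3 0xb232008243009030) (.cons (.splS 5 (.cons (.leaf 3
  0xb23200822b009048) (.cons (.splS 4 (.cons (.leaf 6 0xb21200b20a00b20200822300b021009000) (.cons
  (.splS 3 (.cons (.leaf 12
  0xb25200b24200b23201b00a01b20200821b01b01901322101322900b239009068019000) (.cons (.splS 9 (.cons
  (.splS 11 (.cons (.leaf 16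
  0x1327201326201325202304a02324201b00a01b20203025b01305901b219033221033229013239011088019030019000)
  (.cons (.leaf 16
  0x1327201326201325202324204323201b00a01b20201325902304901b219033221033229013239011088059030019000)
  .nil))) (.cons (.leaf 10 0x1000000b00a00b20201104b00b219013221013229013239009030009000) .nil)))
  .nil))) .nil))) .nil))) .nil))) .nil))) .nil))) .nil)) .nil)) .nil)) .nil)) .nil)) .nil)) .nil))
  .nil)) .nil)) .nil))⟩

theorem kc_3_8_ok1 : kc_3_8.ok1 = true := by decide +kernel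

theorem kc_3_8_ok2 : kc_3_8.ok2 = true := by decide +kernel

/-- A certificate. -/
def kc_4_3 : KCert :=
  ⟨4, 3, [2], [0, 1], [0, 0, 2, 0, 0], [-2, -2, 0, 0, 0], 2, 0x20002000400020002,
  0x20002000200000000, 0, 1, 4, 2, 8, [9, 0, 9, 0], 4, [1], (.splS 2 (.cons (.splS 1 (.cons (.splT
  0 (.cons (.leaf 2 0x8402009000) (.cons (.leaf 6 0x8000009411009409009402009020009000) .nil)))
  .nil)) .nil))⟩

theorem kc_4_3_ok1 : kc_4_3.ok1 = true := by decide +kernel

theorem kc_4_3_ok2 : kc_4_3.ok2 = true := by decide +kernel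

/-- A certificate. -/
def kc_6_8 : KCert :=
  ⟨6, 8, [1, 2], [3], [0, -5, 0, 0, 0], [0, 0, 0, -5, 0], 5, 0x50005000500000005,
  0x50000000500050005, 1, 0, 10, 8, 12, [-11, 5, 12, 10], 10, [1], (.splT 14 (.cons (.splT 13
  (.cons (.splT 12 (.cons (.splT 11 (.cons (.splT 6 (.cons (.splT 4 (.cons (.splT 2 (.cons (.splT
  0 (.cons (.splS 6 (.cons (.leaf 2 0x9433009038) (.cons (.splS 8 (.cons (.splS 9 (.cons (.splS 10
  (.cons (.leaf 7 0xb47200b46a00b46200b25100b24900b241009088) (.cons (.leaf 7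
  0xb46a00b46200b25a00b45100b24900b241009080) .nil))) (.cons (.leaf 7
  0xb46a00b46200b45a00b449013241009080009048) .nil))) (.cons (.splS 9 (.cons (.splS 10 (.cons
  (.leaf 8 0xb47200b46a00b46200945300b251013441009088009050) (.cons (.splS 12 (.cons (.leaf 5
  0x800000b25a00946300b45100b441) (.cons (.splS 14 (.cons (.leaf 6
  0xb46a00b43200947300b45100b249009030) (.cons (.splS 7 (.cons (.splS 5 (.cons (.splS 3 (.cons
  (.leaf 5 0xb41200b40200b21900b229009000) (.cons (.leaf 8
  0xb42200b41200b40200b41900942b013229009030009000) .nil))) (.cons (.splS 3 (.cons (.leaf 14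
  0xb46a00b46200b25a00b43200b41200b40200b21900b42900b23900b45100b24900b441009080009000) (.cons
  (.leaf 11 0xb46a00b46200b45a00b43200b42200a21b00b42901323900b24900b441009080) .nil))) .nil)))
  (.cons (.splS 5 (.cons (.leaf 12
  0xb47200b46a00b46200b42200b41200b22900a23b00b43900b451013249009088009010) (.cons (.leaf 13
  0x1347201346a01346200b43200b42200b41200b42900a23b013439013451023249011088009010) .nil))) .nil)))
  .nil))) .nil))) .nil))) (.cons (.leaf 3 0x800000a24b00b441) .nil))) .nil))) .nil))) .nil))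
  .nil)) .nil)) .nil)) .nil)) .nil)) .nil)) .nil))⟩

theorem kc_6_8_ok1 : kc_6_8.ok1 = true := by decide +kernel

theorem kc_6_8_ok2 : kc_6_8.ok2 = true := by decide +kernel

/-- A certificate. -/
def kc_10_22 : KCert :=
  ⟨10, 22, [1, 3], [1, 2, 4], [0, -5, 0, -5, 0], [0, 5, -5, 0, 0], 5, 0x50000000500000005,
  0x500050000000a0005, 1, 1, 4, 3, 15, [0, 0, 80, 0], 8, [1], (.splT 2 (.cons (.splS 3 (.cons
  (.leaf 2 0x8000009219) (.cons (.splS 2 (.cons (.splT 1 (.cons (.leaf 3 0x800000940c009211)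
  (.cons (.splT 0 (.cons (.splS 1 (.cons (.leaf 5 0x800000a209009602009211009000) (.cons (.leaf 6
  0x800000a609009404009619009212009030) .nil))) (.cons (.leaf 3 0xa602009211009000) (.cons (.leaf
  4 0xc602009619009030009000) .nil)))) (.cons (.leaf 4 0x800000c40c00a619009030) .nil)))) (.cons
  (.leaf 5 0x800000961100a619009212009030) .nil))) .nil))) (.cons (.leaf 2 0xa214009020) (.cons
  (.leaf 2 0xc214009030) .nil))))⟩

theorem kc_10_22_ok1 : kc_10_22.ok1 = true := by decide +kernel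

theorem kc_10_22_ok2 : kc_10_22.ok2 = true := by decide +kernel

/-- A certificate. -/
def kc_11_22 : KCert :=
  ⟨11, 22, [0, 1, 3], [1, 2, 4], [8, -2, 0, -8, 0], [0, 8, -6, 0, 2], 8, 0x80000000800060010,
  0xa0008000200100008, 1, 1, 4, 3, 41, [0, 0, -87, 87], 6, [1], (.splS 2 (.cons (.leaf 2
  0x8000008213) (.cons (.splT 2 (.cons (.splS 3 (.cons (.splS 1 (.cons (.splT 0 (.cons (.leaf 4
  0x800000940400a009009212) (.cons (.leaf 3 0xa602009211009000) (.cons (.leaf 4
  0x800000c404009019009212) .nil)))) (.cons (.leaf 2 0x900b009211) (.cons (.leaf 4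
  0x800000b20b009019009212) .nil)))) (.cons (.leaf 2 0x8000009219) (.cons (.splS 1 (.cons (.splT 0
  (.cons (.leaf 4 0x800000940400a009009212) (.cons (.leaf 3 0xa602009211009000) (.cons (.leaf 4
  0xc602009619009030009000) .nil)))) (.cons (.leaf 2 0x900b009211) (.cons (.leaf 3
  0xb00b009619009030) .nil)))) .nil)))) (.cons (.leaf 2 0xa214009020) (.cons (.leaf 2
  0xc214009030) .nil)))) (.cons (.leaf 2 0xb213009028) .nil))))⟩

theorem kc_11_22_ok1 : kc_11_22.ok1 = true := by decide +kernel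

theorem kc_11_22_ok2 : kc_11_22.ok2 = true := by decide +kernel

/-- A certificate. -/
def kc_12_2 : KCert :=
  ⟨12, 2, [2, 3], [1], [0, 0, 2, -2, 0], [0, -2, 0, 0, 0], 2, 0x20000000400020002,
  0x20002000200000002, 1, 0, 4, 2, 10, [0, 11, 0, 0], 4, [1], (.splT 0 (.cons (.splS 1 (.cons
  (.splS 2 (.cons (.leaf 3 0x800000941100a60b) (.cons (.leaf 6
  0x8000009402009611009409009028009000) .nil))) (.cons (.leaf 4 0x9402009609009020009000) .nil)))
  .nil))⟩

theorem kc_12_2_ok1 : kc_12_2.ok1 = true := by decide +kernel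

theorem kc_12_2_ok2 : kc_12_2.ok2 = true := by decide +kernel

/-- A certificate. -/
def kc_12_21 : KCert :=
  ⟨12, 21, [2, 3], [0, 2, 4], [0, 0, 12, 6, 0], [3, 0, 9, 0, -12], 12, 0xc00120018000c000c,
  0xc0015000c000f, 1, 1, 6, 3, 51, [224, 0, 0, 224], 6, [1], (.splT 1 (.cons (.leaf 2
  0x800000840c) (.cons (.splS 3 (.cons (.leaf 2 0x800000a419) (.cons (.splT 4 (.cons (.leaf 3
  0x8000008424008619) (.cons (.splS 2 (.cons (.splT 0 (.cons (.leaf 2 0x8602009000) (.cons (.leaf
  4 0x800000a80400c411008619) (.cons (.splS 4 (.cons (.leaf 2 0xa42100c004) (.cons (.leaf 4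
  0x800000a62100a42200c619) .nil))) .nil)))) (.cons (.leaf 4 0xb41300a42200a619009030) .nil)))
  (.cons (.leaf 3 0xc424008619009040) .nil)))) .nil))) (.cons (.leaf 2 0xc40c009028) .nil))))⟩

theorem kc_12_21_ok1 : kc_12_21.ok1 = true := by decide +kernel

theorem kc_12_21_ok2 : kc_12_21.ok2 = true := by decide +kernel

/-- A certificate. -/
def kc_13_1 : KCert :=
  ⟨13, 1, [0, 2, 3], [0], [-1, 0, 1, 1, 0], [-1, 0, 0, 0, 0], 1, 0x10002000200010000,
  0x10001000100010000, 1, 0, 4, 2, 1, [7, 0, 7, 0], 4, [1], (.splT 0 (.cons (.leaf 2 0x8402009000)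
  .nil))⟩

theorem kc_13_1_ok1 : kc_13_1.ok1 = true := by decide +kernel

theorem kc_13_1_ok2 : kc_13_1.ok2 = true := by decide +kernel

/-- A certificate. -/
def kc_13_16 : KCert :=
  ⟨13, 16, [0, 2, 3], [4], [14, 0, 0, 14, 0], [0, 0, 0, 0, 0], 0, 0xe00000000000e, 0x0, 1, 0, 12,
  8, 30, [0, 65, 0, 0], 12, [1], (.splT 16 (.cons (.splT 15 (.cons (.splT 14 (.cons (.splT 13
  (.cons (.splT 12 (.cons (.splT 11 (.cons (.splT 10 (.cons (.splT 9 (.cons (.splT 7 (.cons (.splT
  6 (.cons (.splT 5 (.cons (.splT 3 (.cons (.splT 2 (.cons (.splT 0 (.cons (.splS 5 (.cons (.leaf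
  2 0x800000862b) (.cons (.leaf 2 0xa62b009038) (.cons (.splS 8 (.cons (.leaf 10
  0xc67200c66a01466201465a00c652010643008443014041009090009080) (.cons (.splS 10 (.cons (.leaf 8
  0xc67a00c67200c66a00c66200865300c05100c441009098) (.cons (.leaf 11
  0xc68200c67a01467201466a00c66201265301445102c4410090a0009090019050) (.cons (.splS 9 (.cons
  (.leaf 10 0xc67a00c67200c66a00c66201462a01404900c65100c441009098011028) (.cons (.splS 7 (.cons
  (.leaf 3 0x863b00a04b00a643) (.cons (.leaf 10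
  0xc67a00c67200c66a00c66201263b01444900c65101264300c441009098) (.cons (.splS 6 (.cons (.leaf 2
  0x8000008433) (.cons (.splS 4 (.cons (.leaf 3 0xc63a00862300a643) (.cons (.leaf 15
  0xc67a00c67200c66a00c66201462a01441a01460201442101443101463901444900c65100c441009098011000)
  (.cons (.leaf 15
  0xc67a00c67200c66a00c66201462a01461201440201462101443101463901444900c65100c441009098011000)
  .nil)))) (.cons (.leaf 11 0xc67a00c67200c66a00c66201343301444900c65101264300c441009098011050)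
  .nil)))) .nil)))) (.cons (.leaf 11
  0xc67a00c67200c66a00c66201462a01464900c65101c441009098011050011028) .nil)))) .nil)))) (.cons
  (.splS 9 (.cons (.leaf 12
  0xc67a00c67201466a01466200c65a01462a01844b014049014641009098009088011028) (.cons (.splS 7 (.cons
  (.leaf 11 0xc66a00c66200c65a00c65201443201461a01863b01403900c641009088011018) (.cons (.splS 3
  (.cons (.leaf 3 0xc63200861b00a63b) (.cons (.leaf 4 0xc43200a61b00a63b00c629) (.cons (.splS 6
  (.cons (.leaf 2 0x8000008433) (.cons (.splS 10 (.cons (.splS 11 (.cons (.leaf 9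
  0xc67a00c67200c66a00c06200865b00c05900865300c641009098) (.cons (.leaf 2 0xa05b008653) (.cons
  (.leaf 13 0xc67a00c67200c66a00c46200c43200c61a00c65900c05100c43900c44900c641009098009018)
  .nil)))) (.cons (.leaf 4 0xc44a00a65300a63300c641) (.cons (.splS 4 (.cons (.leaf 7
  0xc63200c61a00c60200862300c02100a63b009000) (.cons (.leaf 7
  0xc61a00c60200c42100b05300c43900c449009000) (.cons (.leaf 15
  0x1467a01467201466a01466201c63201c61a01c60201c62101465100a63b034439024449014641011098019000)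
  .nil)))) .nil)))) (.cons (.splS 11 (.cons (.leaf 9
  0xc68200c67a00c67200c66a00865b00c05900b43300c4490090a0) (.cons (.leaf 10
  0xc68200c67a00c67200c66a00a65b00c45901b43301c4490090a0011058) (.cons (.splS 4 (.cons (.leaf 7
  0xc63200c61a00c60200862300c02100a63b009000) (.cons (.leaf 12
  0xc47a00c66a00c46200c61a00c60200c42100c65900c43900c44900c641009098009000) (.cons (.leaf 14
  0x1447a01466a01446200c63200c61a00c60200c62101465900a63b014439014449014641011098009000) .nil))))
  .nil)))) .nil)))) .nil)))) (.cons (.splS 10 (.cons (.leaf 10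
  0xc67a00c67200c66a00c66200c44a01065300c05100b43b00c641009098) (.cons (.leaf 13
  0xc68200c67a01467201466a00c66201444a02265301445101343b03c6410090a0009090029058) (.cons (.splS 6
  (.cons (.leaf 2 0x8000008433) (.cons (.splS 4 (.cons (.leaf 7
  0xc62a00c41a00c60200862300c02100a633009000) (.cons (.leaf 16
  0xc67a00c67200c66a00c66201462a00c61a01441a01c60201c42101443100c65101c63901444900c641009098019000)
  (.cons (.leaf 18
  0x1467a01467201466a01466202c62a00c41a02461200c60202440202c62100a633024431014651034639024449014641011098029000)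
  .nil)))) (.cons (.splS 4 (.cons (.leaf 10
  0xc63a00c63200c62a00c61a00c41a014602018623014021009058011000) (.cons (.leaf 15
  0xc67a00c67200c66a00c66202c61a02c60201262302c42101463100c65101c63901444900c641009098029000)
  (.cons (.leaf 20
  0x1c68201c67a03467203466a01c66203c62a01461a03c61201460203c40204c62102c63103465105c63906444901c6410190a0019090021058049000)
  .nil)))) .nil)))) .nil)))) .nil)))) (.cons (.leaf 3 0x800000b44b00c641) .nil)))) .nil))))
  .nil)))) .nil)) .nil)) .nil)) .nil)) .nil)) .nil)) .nil)) .nil)) .nil)) .nil)) .nil)) .nil))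
  .nil)) .nil))⟩

theorem kc_13_16_ok1 : kc_13_16.ok1 = true := by decide +kernel

theorem kc_13_16_ok2 : kc_13_16.ok2 = true := by decide +kernel

/-- A certificate. -/
def kc_13_18 : KCert :=
  ⟨13, 18, [0, 2, 3], [1, 4], [-24, 0, -24, 24, 0], [0, -24, 0, 0, 0], 24, 0x180030000000180000,
  0x180018001800000018, 1, 1, 12, 5, 484, [0, 0, 0, 973], 15, [1, 0, 1], (.splT 5 (.cons (.splS 3
  (.cons (.leaf 4 0x800000861b01041b00942a) (.cons (.splS 2 (.cons (.leaf 4
  0x800001861300a61b00942a) (.cons (.splS 4 (.cons (.leaf 5 0x1000001902101a61301261b01142a)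
  (.cons (.leaf 5 0x800001942101a61302261b00942a) (.cons (.leaf 4 0x962100a61300a61b00942a)
  .nil)))) (.cons (.splT 4 (.cons (.splT 6 (.cons (.splS 5 (.cons (.leaf 4
  0x800001902900903201142a) (.cons (.splS 4 (.cons (.leaf 5 0x8000019021009429009032019622) (.cons
  (.leaf 5 0x8000021421019429029622009020) (.cons (.splT 3 (.cons (.leaf 6
  0x800002141a01962102441900942a009020) (.cons (.splS 6 (.cons (.splS 1 (.cons (.leaf 5
  0x800001840b01103101c41a01142a) (.cons (.splT 2 (.cons (.splT 0 (.cons (.leaf 5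
  0x960200961200c40900c419009000) (.cons (.leaf 5 0xc402011612009621014419009000) .nil))) (.cons
  (.leaf 5 0x1000001c21402103101c41a00942a) .nil))) (.cons (.leaf 6
  0x1000001b40b02103101c41a01962102142a) .nil)))) (.cons (.splS 7 (.cons (.leaf 5
  0x8000019039019431009429021032) (.cons (.leaf 6 0x1000001943901943101142901103201982c) (.cons
  (.splS 8 (.cons (.leaf 7 0x800001844301963901943102441a01942a021018) (.cons (.splS 1 (.cons
  (.leaf 7 0x800001840b01163901143101c41a01183401142a) (.cons (.splT 2 (.cons (.splT 0 (.cons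
  (.leaf 5 0x960200961200c40900c419009000) (.cons (.leaf 5 0xc402011612009621014419009000) .nil)))
  (.cons (.leaf 8 0x1000003c61202163904143103c41a03961100942a021040) .nil))) (.cons (.leaf 8
  0x1000001b40b02163902143101c41a01962102183402142a) .nil)))) (.cons (.leaf 5
  0x800001b44301c639009429009032) .nil)))) .nil)))) (.cons (.leaf 5
  0x800001963100942900903201982c) .nil)))) .nil))) .nil)))) (.cons (.splS 7 (.cons (.leaf 5
  0x1000001903901962901103200942a) (.cons (.leaf 4 0x800000943900962900982c) (.cons (.leaf 6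
  0x800001163903962901943202142a011040) .nil)))) .nil)))) (.cons (.splT 3 (.cons (.splS 4 (.cons
  (.leaf 3 0x800000902100981c) (.cons (.leaf 6 0x800001942103141a02c419019020009018) (.cons (.leaf
  6 0x800001962102141a02441900942a009020) .nil)))) (.cons (.splS 5 (.cons (.leaf 5
  0x800001902900c41a01942a009018) (.cons (.splS 4 (.cons (.leaf 5 0x800001902100c41a019622009018)
  (.cons (.leaf 5 0x8000021421019429029622009020) (.cons (.splS 7 (.cons (.leaf 5
  0x800001863b00942901423400c032) (.cons (.leaf 6 0x800001a63b01142901c23401182c009038) (.cons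
  (.splS 8 (.cons (.leaf 5 0x800001844300942901423400c032) (.cons (.splT 8 (.cons (.leaf 6
  0x800001944201963901142901182c009038) (.cons (.splS 9 (.cons (.leaf 6
  0x800001864b01c44201163900942900c432) (.cons (.leaf 4 0xa64b00c44200c63900a62b) (.cons (.splS 6
  (.cons (.splS 1 (.cons (.leaf 5 0x800001840b01103101c41a01142a) (.cons (.splT 7 (.cons (.leaf 3
  0x963a00843300c234) (.cons (.splT 2 (.cons (.splT 0 (.cons (.leaf 5
  0x960200961200c40900c419009000) (.cons (.leaf 5 0xc402011612009621014419009000) .nil))) (.cons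
  (.leaf 5 0x1000001c21402103101c41a00942a) .nil))) .nil))) (.cons (.leaf 6
  0x1000001b40b02103101962101c41a02142a) .nil)))) (.cons (.splS 1 (.cons (.leaf 6
  0x800001840b01443101163901c41a01142a) (.cons (.splT 2 (.cons (.splT 0 (.cons (.leaf 5
  0x960200961200c40900c419009000) (.cons (.leaf 5 0xc402011612009621014419009000) .nil))) (.cons
  (.leaf 8 0x1000003c61204143102163903c41a03961100942a021040) .nil))) (.cons (.leaf 7
  0x1000001b40b02443102163901962101c41a02142a) .nil)))) (.cons (.leaf 8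
  0x1000000b43303163100c44201942901403203982c009050) .nil)))) .nil)))) .nil))) (.cons (.leaf 5
  0x800001b44301c63900c41a009018) .nil)))) .nil)))) .nil)))) (.cons (.splS 4 (.cons (.leaf 5
  0x800001902100c41a019622009018) (.cons (.leaf 7 0x800001942101962900c432019622009040009030)
  (.cons (.splS 6 (.cons (.leaf 6 0x800001843301962900c41a01942a009018) (.cons (.splS 7 (.cons
  (.leaf 6 0x1000001903901962901441a01942a011018) (.cons (.leaf 4 0x800000943900962900982c) (.cons
  (.splS 8 (.cons (.leaf 5 0x800001044300963900962900c032) (.cons (.splS 1 (.cons (.leaf 7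
  0x800001840b01163902162901c41a02142a011040) (.cons (.splT 2 (.cons (.splT 0 (.cons (.leaf 5
  0x960200961200c40900c419009000) (.cons (.leaf 5 0xc402011612009621014419009000) .nil))) (.cons
  (.leaf 8 0x1000001c61202163904162901c41a01961102942a021040) .nil))) (.cons (.leaf 8
  0x1000001b40b02163901962104162901c41a04142a021040) .nil)))) (.cons (.leaf 5
  0x800001b44301c63900c41a009018) .nil)))) .nil)))) (.cons (.leaf 5
  0x800001963100c41a01982c009018) .nil)))) .nil)))) .nil)))) .nil))) .nil))) (.cons (.splS 7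
  (.cons (.leaf 3 0x800000903900c224) (.cons (.leaf 6 0x800001143901c22400982c009038009030) (.cons
  (.leaf 6 0x800001963903422400a61b00942a019040) .nil)))) .nil))) .nil)))) (.cons (.splS 6 (.cons
  (.leaf 3 0x800000903100b41b) (.cons (.leaf 5 0x800001943102341b00962a011030) (.cons (.splT 3
  (.cons (.leaf 7 0x800000941a01963100b41b01982c009020009018) (.cons (.leaf 5
  0x800000c41a01963101982c009018) .nil))) .nil)))) .nil)))) (.cons (.splS 3 (.cons (.leaf 4
  0x800001841b00c42a009038) (.cons (.splS 2 (.cons (.leaf 4 0x800001861300c42a009038) (.cons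
  (.splS 4 (.cons (.leaf 5 0x1000001902101a61301442a011038) (.cons (.leaf 6
  0x800001942101a61301c22c00c42a021038) (.cons (.splS 5 (.cons (.leaf 5
  0x1000001c02900962100a61301c42a) (.cons (.splS 6 (.cons (.leaf 5 0x800001863301162101261301c42a)
  (.cons (.leaf 4 0xa63300c62100a61300c42a) (.cons (.splT 2 (.cons (.leaf 4
  0x961200a61300c419009010) (.cons (.leaf 5 0xc61200963100a613009038009010) .nil))) .nil))))
  (.cons (.leaf 6 0x800001c62901c62101a61302442a009038) .nil)))) .nil)))) (.cons (.splT 4 (.cons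
  (.splT 6 (.cons (.splS 5 (.cons (.leaf 5 0x800001402900902900903201442a) (.cons (.splS 4 (.cons
  (.leaf 6 0x800001902100c42900903201962200c22c) (.cons (.leaf 5 0x8000021421019429029622009020)
  (.cons (.splT 3 (.cons (.leaf 6 0x800001941a01962101c41900c42a009038) (.cons (.splS 1 (.cons
  (.leaf 4 0x860b00840b00c41a009622) (.cons (.splT 2 (.cons (.splT 0 (.cons (.leaf 5
  0x960200961200c40900c419009000) (.cons (.leaf 5 0xc402011612009621014419009000) .nil))) (.cons
  (.leaf 4 0xc21400a60b009429009622) .nil))) (.cons (.splT 0 (.cons (.leaf 5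
  0x800001980401c60900c42a009038) (.cons (.splT 2 (.cons (.leaf 5 0x1161200c402009621014419009000)
  (.cons (.splS 6 (.cons (.leaf 6 0x800001903101421401441a00963200c42a) (.cons (.leaf 6
  0x1143101461200c40200c621009824009000) (.cons (.leaf 5 0x963100c61200c429009622009010) .nil))))
  .nil))) .nil))) .nil)))) .nil))) .nil)))) (.cons (.splS 7 (.cons (.leaf 6
  0x1000001903900c62901162901103200c42a) (.cons (.leaf 3 0x800000943900c629) (.cons (.leaf 7
  0x800001163902462901962901943202442a011040) .nil)))) .nil)))) (.cons (.splS 7 (.cons (.leaf 3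
  0x863b00c63200c22c) (.cons (.splS 5 (.cons (.leaf 6 0x1000001c02900902900a63b00c03201442a)
  (.cons (.leaf 5 0x800001442901a63b01c234009038) (.cons (.leaf 3 0x800000c629009439) .nil))))
  (.cons (.splT 3 (.cons (.splS 4 (.cons (.leaf 3 0x800000902100981c) (.cons (.leaf 6
  0x800001942103141a02c419019020009018) (.cons (.leaf 6 0x800001962101941a01c41900c42a009038)
  .nil)))) (.cons (.splS 8 (.cons (.leaf 5 0x800001844300c41a01c234009018) (.cons (.splS 5 (.cons
  (.leaf 5 0x800001c02900c41a01c42a009018) (.cons (.splS 4 (.cons (.leaf 5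
  0x800001902100c41a019622009018) (.cons (.leaf 5 0x8000021421019429029622009020) (.cons (.splT 8
  (.cons (.leaf 5 0x8000019442014429019639009038) (.cons (.splS 9 (.cons (.leaf 6
  0x800001864b01c44200c41a019639009018) (.cons (.leaf 4 0xa64b00c44200a62b00c639) (.cons (.splS 1
  (.cons (.leaf 4 0x860b00840b00c41a009622) (.cons (.splT 2 (.cons (.splT 0 (.cons (.leaf 5
  0x960200961200c40900c419009000) (.cons (.leaf 5 0xc402011612009621014419009000) .nil))) (.cons
  (.leaf 4 0xc21400a60b009429009622) .nil))) (.cons (.splT 0 (.cons (.leaf 5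
  0x800001980401c60900c42a009038) (.cons (.splT 2 (.cons (.leaf 5 0x1161200c402009621014419009000)
  (.cons (.splS 6 (.cons (.leaf 8 0x2000005103104421400964904441a01463201c42a009050) (.cons (.leaf
  9 0x1000002143102c21401164902c41a02163900c22c00c42a011050) (.cons (.leaf 10
  0x1000005163102461201440201964901162100c429034632019050011000) .nil)))) .nil))) .nil))) .nil))))
  .nil)))) .nil))) .nil)))) (.cons (.splS 4 (.cons (.leaf 5 0x800001902100c41a019622009018) (.cons
  (.leaf 8 0x2000003142103162900c41a019639031622019040009018) (.cons (.splS 6 (.cons (.leaf 7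
  0x800001c03101c62900c41a01c43201c42a009018) (.cons (.splS 1 (.cons (.leaf 7
  0x800001840b02462901c41a01163902442a011040) (.cons (.splT 2 (.cons (.splT 0 (.cons (.leaf 5
  0x960200961200c40900c419009000) (.cons (.leaf 5 0xc402011612009621014419009000) .nil))) (.cons
  (.leaf 8 0x1000001c21402c62901962901c41a02163902c42a021040) .nil))) (.cons (.leaf 8
  0x1000001b40b01962104462901c41a02163904442a021040) .nil)))) (.cons (.leaf 7
  0x1000001c63102c62900963901c43201442a009040) .nil)))) .nil)))) .nil)))) (.cons (.leaf 5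
  0x800001b44300c41a01c639009018) .nil)))) .nil))) .nil)))) .nil))) (.cons (.splS 7 (.cons (.leaf
  3 0x800000903900c224) (.cons (.splS 5 (.cons (.leaf 6 0x2000001c02901943901422400c62200b413)
  (.cons (.leaf 5 0x1000000c42901943901c224011038) (.cons (.leaf 3 0x800000c629009439) .nil))))
  (.cons (.leaf 6 0x800001963903422400c42a019040009038) .nil)))) .nil))) .nil)))) (.cons (.splS 6
  (.cons (.leaf 3 0x800000903100b41b) (.cons (.leaf 6 0x800001943103341b00c42a009038019030) (.cons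
  (.splT 3 (.cons (.leaf 7 0x800000941a01963102341b019038009020009018) (.cons (.leaf 6
  0x800000c41a01963101b41b019038009018) .nil))) .nil)))) .nil)))) .nil)))⟩

theorem kc_13_18_ok1 : kc_13_18.ok1 = true := by decide +kernel

theorem kc_13_18_ok2 : kc_13_18.ok2 = true := by decide +kernel

/-- A certificate. -/
def kc_14_3 : KCert :=
  ⟨14, 3, [1, 2, 3], [0, 1], [0, 4, 8, -4, 0], [0, 8, 0, 0, 0], 4, 0x40000000c00080004,
  0x400040004000c0004, 1, 1, 4, 2, 7, [1, 4, 2, -8], 4, [1], (.splS 2 (.cons (.leaf 2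
  0x8000009211) (.cons (.splS 1 (.cons (.splT 0 (.cons (.leaf 2 0x8402009000) (.cons (.leaf 3
  0x9402009209009000) .nil))) (.cons (.leaf 4 0x800000a20b009411009020) (.cons (.leaf 2
  0xb20b009020) .nil)))) (.cons (.leaf 2 0x8611009028) .nil))))⟩

theorem kc_14_3_ok1 : kc_14_3.ok1 = true := by decide +kernel

theorem kc_14_3_ok2 : kc_14_3.ok2 = true := by decide +kernel

/-- A certificate. -/
def kc_14_20 : KCert :=
  ⟨14, 20, [1, 2, 3], [2, 4], [0, 0, -32, 24, 0], [0, 0, 0, 0, -16], 32, 0x200038000000200020,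
  0x100020002000200020, 1, 1, 8, 6, 201, [231, -198, 335, 85], 8, [1], (.splS 3 (.cons (.leaf 2
  0x961b009020) (.cons (.leaf 2 0xa61b009028) (.cons (.splT 4 (.cons (.splS 6 (.cons (.splS 5
  (.cons (.splT 5 (.cons (.splS 7 (.cons (.splT 6 (.cons (.splT 9 (.cons (.leaf 4
  0x800000a44a00a23900a231) (.cons (.splT 10 (.cons (.leaf 7
  0x800000a65200c64a00a23900c23100a231009038) (.cons (.leaf 5 0xc65200c24a00a23900a231009070)
  .nil))) .nil))) (.cons (.leaf 2 0xc43400963b) .nil))) (.cons (.leaf 3 0xa43900a22a009028) (.cons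
  (.splT 9 (.cons (.leaf 7 0x800000a24a00c63900a63900a22a00c231009028) (.cons (.splT 10 (.cons
  (.leaf 6 0x800000a65200c64a00a639014231009038) (.cons (.leaf 5 0xc65200c24a00a63900c231009070)
  .nil))) .nil))) .nil)))) (.cons (.leaf 2 0xc42c009633) .nil))) (.cons (.leaf 2 0xa22b009038)
  (.cons (.leaf 4 0x800000b22b00a231009038) .nil)))) (.cons (.leaf 2 0x800000a431) (.cons (.splS 5
  (.cons (.splS 7 (.cons (.leaf 3 0x800000943b00a631) (.cons (.splT 5 (.cons (.leaf 3
  0xa22a00a439009028) (.cons (.splT 8 (.cons (.leaf 5 0x800000a24200c63100a631009048) (.cons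
  (.splS 9 (.cons (.leaf 6 0x800000964b00c24200c63100a631009048) (.cons (.leaf 5
  0x800000a64b00a44900c64200a631) (.cons (.splT 7 (.cons (.splT 3 (.cons (.splT 10 (.cons (.splS 4
  (.cons (.leaf 6 0x800000a22100a45200c22900c63100a422) (.cons (.splS 8 (.cons (.splS 2 (.cons
  (.splT 0 (.cons (.leaf 3 0xa60200c211009000) (.cons (.leaf 7
  0xc60200a42100a45200a61a00c22900c631009000) .nil))) (.cons (.leaf 7
  0x800000a21300a42100a45200a61a00c22900c631) (.cons (.leaf 6
  0x800000b21301245200a61a014229014631) .nil)))) (.cons (.leaf 4 0x800000c44100c24200c631) (.cons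
  (.leaf 7 0x800000c64101245200a64900c242014631009060) .nil)))) (.cons (.leaf 4
  0x800000a62100a43900a422) .nil)))) (.cons (.leaf 4 0xc45400c24200a631009070) .nil))) (.cons
  (.leaf 3 0xc61a00a439009018) .nil))) (.cons (.leaf 4 0xc43c00c64200a631009060) .nil))) .nil))))
  .nil))) .nil))) (.cons (.leaf 3 0x800000b43b00c631) .nil)))) (.cons (.leaf 2 0xa22b009038)
  (.cons (.leaf 4 0x800000b22b00a631009048) .nil)))) .nil)))) (.cons (.leaf 2 0xc424009040)
  .nil))) .nil))))⟩

theorem kc_14_20_ok1 : kc_14_20.ok1 = true := by decide +kernel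

theorem kc_14_20_ok2 : kc_14_20.ok2 = true := by decide +kernel

/-- A certificate. -/
def kc_15_6 : KCert :=
  ⟨15, 6, [0, 1, 2, 3], [1, 2], [4, 12, -8, 8, 0], [0, -8, -16, 0, 0], 16, 0x1000180008001c0014,
  0x100010000000080010, 1, 1, 4, 3, 44, [0, 93, 0, 0], 4, [1], (.splS 2 (.cons (.leaf 2
  0x8000008213) (.cons (.splT 2 (.cons (.splT 1 (.cons (.leaf 3 0x800000940c009211) (.cons (.splT
  0 (.cons (.splS 1 (.cons (.leaf 4 0x800000a009009404009212) (.cons (.leaf 4
  0x800000a20900a40a009211) (.cons (.leaf 3 0xa409009602009000) (.cons (.splS 3 (.cons (.leaf 3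
  0x1000000901900b40b) (.cons (.leaf 2 0x8000009219) (.cons (.leaf 5
  0x800000941900a60900a40a009028) (.cons (.leaf 5 0x800000961900a60900a40a009030) .nil)))))
  .nil))))) (.cons (.leaf 3 0xa602009211009000) .nil))) .nil))) (.cons (.leaf 2 0xa214009020)
  .nil))) (.cons (.leaf 2 0xa213009020) (.cons (.leaf 2 0xb213009028) .nil)))))⟩

theorem kc_15_6_ok1 : kc_15_6.ok1 = true := by decide +kernel

theorem kc_15_6_ok2 : kc_15_6.ok2 = true := by decide +kernel

/-- A certificate. -/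
def kc_16_6 : KCert :=
  ⟨16, 6, [4], [1, 2], [0, 0, 0, 0, -5], [0, 0, -5, 0, 0], 5, 0x5000500050005,
  0x50005000000050005, 0, 1, 4, 7, 15, [0, 0, 80, 80], 6, [1], (.splS 7 (.cons (.splS 6 (.cons
  (.splS 5 (.cons (.splS 2 (.cons (.splS 1 (.cons (.splT 6 (.cons (.splT 5 (.cons (.leaf 4
  0x800000983100942c009050) (.cons (.splT 3 (.cons (.splT 0 (.cons (.leaf 8
  0x800000a83900a82900a80900980200981a009058009000) (.cons (.leaf 6
  0x983100981100a80200981a009050009000) .nil))) (.cons (.leaf 6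
  0x800000a83900a82900a81a009058009018) .nil))) .nil))) (.cons (.leaf 5
  0x800000983900983100a832009058) .nil))) .nil)) .nil)) .nil)) .nil)) .nil))⟩

theorem kc_16_6_ok1 : kc_16_6.ok1 = true := by decide +kernel

theorem kc_16_6_ok2 : kc_16_6.ok2 = true := by decide +kernel

/-- A certificate. -/
def kc_17_3 : KCert :=
  ⟨17, 3, [0, 4], [0, 1], [10, 0, 0, 0, -10], [-15, -10, 0, 0, 0], 15, 0x5000f000f000f0019,
  0xf000f000f00050000, 1, 1, 6, 4, 27, [28, 0, 28, 0], 6, [1], (.splS 4 (.cons (.leaf 2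
  0x8000008021) (.cons (.splT 3 (.cons (.leaf 2 0x800000821c) (.cons (.splT 5 (.cons (.leaf 3
  0x802a009821009040) (.cons (.splS 1 (.cons (.splS 0 (.cons (.leaf 2 0x8000008803) (.cons (.splT
  0 (.cons (.leaf 2 0x8802009000) (.cons (.splT 2 (.cons (.leaf 4 0x8012009802009009009000) (.cons
  (.splS 3 (.cons (.leaf 3 0x8000009019009014) (.cons (.splS 6 (.cons (.leaf 7
  0x800000903100981900901400902a009821009040) (.cons (.leaf 7
  0x983100981900901400902a009821009050009040) .nil))) .nil))) .nil))) .nil))) .nil))) (.cons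
  (.leaf 3 0xc00b009821009040) .nil))) .nil))) .nil))) .nil)))⟩

theorem kc_17_3_ok1 : kc_17_3.ok1 = true := by decide +kernel

theorem kc_17_3_ok2 : kc_17_3.ok2 = true := by decide +kernel

/-- A certificate. -/
def kc_17_9 : KCert :=
  ⟨17, 9, [0, 4], [0, 3], [10, 0, 0, 0, -5], [-10, 0, 0, 10, 0], 10, 0x5000a000a000a0014,
  0xa0014000a000a0000, 1, 1, 10, 4, 29, [0, 63, 0, 63], 11, [1], (.splS 4 (.cons (.leaf 2
  0x8000008021) (.cons (.splS 3 (.cons (.splT 5 (.cons (.leaf 3 0x800000862c008821) (.cons (.splT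
  1 (.cons (.leaf 2 0x800000860c) (.cons (.splT 7 (.cons (.leaf 3 0x803a00b821009040) (.cons
  (.splS 0 (.cons (.leaf 2 0x8000008803) (.cons (.splT 0 (.cons (.leaf 2 0x8802009000) (.cons
  (.splT 6 (.cons (.leaf 4 0x803200b80200b019009000) (.cons (.splS 8 (.cons (.leaf 3
  0x8000008041008821) (.cons (.splS 7 (.cons (.splS 9 (.cons (.leaf 9
  0x800000b04900884100b83200b80200b03a00b01900b821009000) (.cons (.splS 10 (.cons (.leaf 10
  0x800000b05100b84900884100b03200b80200b03a00b01900b821009000) (.cons (.leaf 7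
  0xb85100b84900884100b03400b03a00b821009070) .nil))) .nil))) (.cons (.leaf 4
  0xc03b00b841008821009060) .nil))) .nil))) .nil))) .nil))) .nil))) .nil))) .nil))) .nil))) (.cons
  (.leaf 3 0xc01b00b821009040) .nil))) .nil)))⟩

theorem kc_17_9_ok1 : kc_17_9.ok1 = true := by decide +kernel

theorem kc_17_9_ok2 : kc_17_9.ok2 = true := by decide +kernel

/-- A certificate. -/
def kc_18_11 : KCert :=
  ⟨18, 11, [1, 4], [0, 1, 3], [0, -9, 0, 0, 9], [6, -3, 0, -3, 0], 9, 0x120009000900000009,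
  0x9000600090006000f, 1, 1, 4, 4, 33, [430, 0, 0, 0], 4, [1], (.splS 4 (.cons (.leaf 2
  0x8000009221) (.cons (.splS 3 (.cons (.splT 0 (.cons (.leaf 2 0x8802009000) (.cons (.splS 1
  (.cons (.leaf 2 0x9209009004) (.cons (.leaf 5 0x800000b809009004009821009040) .nil))) (.cons
  (.leaf 2 0xb004009219) .nil)))) (.cons (.leaf 4 0x800000c21b00b821009040) .nil))) .nil)))⟩

theorem kc_18_11_ok1 : kc_18_11.ok1 = true := by decide +kernel

theorem kc_18_11_ok2 : kc_18_11.ok2 = true := by decide +kernel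

/-- A certificate. -/
def kc_20_8 : KCert :=
  ⟨20, 8, [2, 4], [3], [0, 0, 3, 0, -3], [0, 0, 0, -3, 0], 3, 0x3000600030003,
  0x30000000300030003, 1, 0, 10, 2, 48, [49, 0, 0, 0], 10, [1], (.splT 7 (.cons (.splT 6 (.cons
  (.splT 5 (.cons (.splT 0 (.cons (.splS 0 (.cons (.splS 2 (.cons (.splS 1 (.cons (.splS 3 (.cons
  (.splS 4 (.cons (.leaf 8 0x800001343a01383200b42100a81b01b41901a80b00b411) (.cons (.leaf 8
  0xb43a00b43200b40200b82100b41900b411009050009000) .nil))) (.cons (.splS 4 (.cons (.leaf 8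
  0x800000b42a01340200a82300b42101381900b411011000) (.cons (.leaf 8
  0xb43200b82a00b40200b82100b81900b411009040009000) .nil))) .nil))) (.cons (.leaf 5
  0xb40200c40b00b411009020009000) .nil))) (.cons (.splS 3 (.cons (.leaf 5
  0x800000b40200b41900b811009000) (.cons (.leaf 6 0xb42a00b40200b81900b811009040009000) .nil)))
  .nil))) (.cons (.leaf 2 0xc403009020) .nil))) .nil)) .nil)) .nil)) .nil))⟩

theorem kc_20_8_ok1 : kc_20_8.ok1 = true := by decide +kernel

theorem kc_20_8_ok2 : kc_20_8.ok2 = true := by decide +kernel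

/-- A certificate. -/
def kc_21_5 : KCert :=
  ⟨21, 5, [0, 2, 4], [0, 2], [6, 0, -3, 0, 6], [3, 0, 0, 0, 0], 3, 0x90003000000030009,
  0x30003000300030006, 1, 1, 4, 4, 18, [92, 0, 0, 0], 4, [1], (.splS 4 (.cons (.leaf 2
  0x8000008021) (.cons (.leaf 2 0x800000a421) (.cons (.splS 2 (.cons (.leaf 2 0x8000008413) (.cons
  (.splT 0 (.cons (.leaf 2 0x8802009000) (.cons (.leaf 2 0xa00400a411) .nil))) (.cons (.leaf 4
  0x800000c41300a821009040) .nil)))) .nil))))⟩

theorem kc_21_5_ok1 : kc_21_5.ok1 = true := by decide +kernel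

theorem kc_21_5_ok2 : kc_21_5.ok2 = true := by decide +kernel

/-- A certificate. -/
def kc_21_11 : KCert :=
  ⟨21, 11, [0, 2, 4], [0, 1, 3], [12, 0, 9, 0, -6], [-3, 9, 0, -3, 0], 6, 0x6000f00060012,
  0x600030006000f0003, 1, 1, 4, 2, 17, [2, 2, 1, 36], 5, [1], (.splS 2 (.cons (.leaf 2
  0x8000008011) (.cons (.splS 1 (.cons (.splT 0 (.cons (.leaf 2 0x8402009000) (.cons (.leaf 4
  0x8000009402009009009000) (.cons (.leaf 3 0xb40200840b009000) .nil)))) (.cons (.leaf 3
  0xa00b009411009020) (.cons (.leaf 3 0xc00b00b411009020) .nil)))) (.cons (.leaf 2 0x8811009030)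
  .nil))))⟩

theorem kc_21_11_ok1 : kc_21_11.ok1 = true := by decide +kernel

theorem kc_21_11_ok2 : kc_21_11.ok2 = true := by decide +kernel

/-- A certificate. -/
def kc_22_1 : KCert :=
  ⟨22, 1, [1, 2, 4], [0], [0, 1, -1, 0, -1], [-1, 0, 0, 0, 0], 1, 0x1000000020001,
  0x10001000100010000, 1, 0, 4, 1, 1, [0, 0, 1, 1], 4, [1], (.splT 0 (.cons (.leaf 2 0x8202009000)
  .nil))⟩

theorem kc_22_1_ok1 : kc_22_1.ok1 = true := by decide +kernel

theorem kc_22_1_ok2 : kc_22_1.ok2 = true := by decide +kernel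

/-- A certificate. -/
def kc_22_15 : KCert :=
  ⟨22, 15, [1, 2, 4], [0, 1, 2, 3], [0, -6, -6, 0, 6], [3, 6, -3, 0, 0], 6, 0xc0006000000000006,
  0x600060003000c0009, 1, 1, 4, 4, 26, [0, 57, 0, 0], 5, [1], (.splT 3 (.cons (.leaf 2
  0x800000821c) (.cons (.splS 4 (.cons (.leaf 2 0x8000009221) (.cons (.leaf 2 0x800000a421) (.cons
  (.splS 3 (.cons (.splT 2 (.cons (.leaf 2 0x8000008414) (.cons (.leaf 3 0x8000009414009219)
  (.cons (.splS 2 (.cons (.leaf 4 0x800000a21100a412009219) (.cons (.splT 1 (.cons (.leaf 2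
  0x800000860c) (.cons (.leaf 3 0x800000960c00a411) (.cons (.leaf 3 0x800000a60c009219) (.cons
  (.splT 0 (.cons (.leaf 2 0x8802009000) (.cons (.splS 1 (.cons (.leaf 5
  0x800000b20900980200a411009000) (.cons (.leaf 5 0x800000b40900940400a412009219) (.cons (.leaf 6
  0x800000b80900940400a412009821009040) .nil)))) (.cons (.leaf 2 0xa00400a411) (.cons (.leaf 2
  0xb004009219) .nil))))) .nil))))) (.cons (.leaf 5 0x800000a81100a41200a821009040) .nil))))
  (.cons (.leaf 4 0x800000b414009821009040) .nil))))) (.cons (.leaf 5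
  0x800000941900982100921a009040) (.cons (.leaf 5 0x800000981900b82100921a009040) .nil))))
  .nil)))) (.cons (.leaf 2 0xa21c009028) (.cons (.leaf 2 0xb21c009030) .nil)))))⟩

theorem kc_22_15_ok1 : kc_22_15.ok1 = true := by decide +kernel

theorem kc_22_15_ok2 : kc_22_15.ok2 = true := by decide +kernel

/-- A certificate. -/
def kc_23_5 : KCert :=
  ⟨23, 5, [0, 1, 2, 4], [0, 2], [3, -6, -3, 0, 6], [3, 0, -6, 0, 0], 6, 0xc0006000300000009,
  0x60006000000060009, 1, 1, 4, 4, 24, [53, 0, 0, 0], 4, [1], (.splS 4 (.cons (.leaf 2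
  0x8000008021) (.cons (.leaf 2 0x8221009028) (.cons (.leaf 2 0x800000a421) (.cons (.splS 2 (.cons
  (.leaf 2 0x8000008413) (.cons (.leaf 2 0x9413009018) (.cons (.splT 0 (.cons (.leaf 2
  0x8802009000) (.cons (.leaf 2 0xa00400a411) .nil))) (.cons (.leaf 4 0x800000c41300a821009040)
  .nil))))) .nil)))))⟩

theorem kc_23_5_ok1 : kc_23_5.ok1 = true := by decide +kernel

theorem kc_23_5_ok2 : kc_23_5.ok2 = true := by decide +kernel

/-- A certificate. -/
def kc_24_4 : KCert :=
  ⟨24, 4, [3, 4], [2], [0, 0, 0, -4, 0], [0, 0, -4, 0, 0], 4, 0x40000000400040004,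
  0x40004000000040004, 1, 0, 4, 4, 9, [5, 2, 0, 0], 8, [1], (.splT 0 (.cons (.splS 2 (.cons (.leaf
  4 0xa80200a611009028009000) (.cons (.splS 4 (.cons (.leaf 6
  0x800000a80200a62100a811009038009000) (.cons (.leaf 6 0x800000a80200a82100a811009040009000)
  .nil))) .nil))) .nil))⟩

theorem kc_24_4_ok1 : kc_24_4.ok1 = true := by decide +kernel

theorem kc_24_4_ok2 : kc_24_4.ok2 = true := by decide +kernel

/-- A certificate. -/
def kc_24_20 : KCert :=
  ⟨24, 20, [3, 4], [2, 4], [0, 0, 0, 2, -2], [0, 0, -2, 0, -2], 2, 0x4000200020002,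
  0x2000000020002, 1, 1, 6, 3, 10, [11, 0, 0, 11], 6, [1], (.splS 3 (.cons (.splS 2 (.cons (.leaf
  3 0x800000b81300a619) (.cons (.splT 1 (.cons (.splS 0 (.cons (.splT 0 (.cons (.leaf 3
  0xa60200c811009000) (.cons (.splS 4 (.cons (.leaf 5 0x800000a62100c60200c619009000) (.cons
  (.leaf 3 0xc82100c602009000) .nil))) .nil))) (.cons (.leaf 2 0xc603009020) .nil))) (.cons (.leaf
  4 0x800000c40c00a619009030) .nil))) .nil))) (.cons (.leaf 2 0x800000c819) .nil)))⟩

theorem kc_24_20_ok1 : kc_24_20.ok1 = true := by decide +kernel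

theorem kc_24_20_ok2 : kc_24_20.ok2 = true := by decide +kernel

/-- A certificate. -/
def kc_24_22 : KCert :=
  ⟨24, 22, [3, 4], [1, 2, 4], [0, 0, 0, 5, -5], [0, 5, 10, 0, -10], 10, 0x5000f000a000a000a,
  0xa0014000f000a, 1, 1, 4, 3, 9, [0, 0, 0, 10], 6, [1], (.splT 1 (.cons (.leaf 2 0x940c009010)
  (.cons (.splS 3 (.cons (.splT 2 (.cons (.splS 2 (.cons (.leaf 4 0x800000961100981200a619) (.cons
  (.splT 0 (.cons (.splS 1 (.cons (.leaf 5 0x800000a609009404009812009619) (.cons (.leaf 5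
  0x800000a80900940400981200a619) .nil))) (.cons (.leaf 4 0xa602009811009030009000) (.cons (.leaf
  4 0xc602009619009030009000) .nil)))) .nil))) (.cons (.leaf 4 0x800000a214009619009030) (.cons
  (.leaf 2 0xc214009030) .nil)))) (.cons (.leaf 2 0x800000c819) .nil))) (.cons (.leaf 2
  0xc40c009028) .nil))))⟩

theorem kc_24_22_ok1 : kc_24_22.ok1 = true := by decide +kernel

theorem kc_24_22_ok2 : kc_24_22.ok2 = true := by decide +kernel

/-- A certificate. -/
def kc_25_2 : KCert :=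
  ⟨25, 2, [0, 3, 4], [1], [0, 0, 0, -4, 4], [0, 4, 0, 0, 0], 4, 0x80000000400040004,
  0x40004000400080004, 1, 0, 6, 2, 29, [0, 0, 0, 136], 7, [1], (.splT 4 (.cons (.splT 3 (.cons
  (.splT 0 (.cons (.splS 1 (.cons (.leaf 5 0x902200980200880b009009009000) (.cons (.leaf 3
  0x9802009609009000) (.cons (.splS 2 (.cons (.leaf 5 0x800000901a00861300901100c60b) (.cons
  (.splS 4 (.cons (.leaf 4 0x800000901a009021009611) (.cons (.leaf 4 0x800000981a009621009611)
  (.cons (.leaf 4 0x901a009821009611009040) .nil)))) (.cons (.splS 4 (.cons (.leaf 5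
  0x1000001161a00902101181100c60b) (.cons (.leaf 6 0x800001161a00962101181100c60b009038) (.cons
  (.leaf 6 0x800001161a00982101181100c60b009040) .nil)))) .nil)))) .nil)))) .nil)) .nil)) .nil))⟩

theorem kc_25_2_ok1 : kc_25_2.ok1 = true := by decide +kernel

theorem kc_25_2_ok2 : kc_25_2.ok2 = true := by decide +kernel

/-- A certificate. -/
def kc_25_3 : KCert :=
  ⟨25, 3, [0, 3, 4], [0, 1], [7, 0, 0, -7, 7], [0, -7, 0, 0, 0], 7, 0xe000000070007000e,
  0x70007000700000007, 1, 1, 6, 4, 65, [66, 0, 66, 0], 8, [1], (.splS 4 (.cons (.leaf 2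
  0x8000008021) (.cons (.leaf 2 0x8621009038) (.cons (.splS 1 (.cons (.leaf 2 0x800000860b) (.cons
  (.splS 0 (.cons (.leaf 2 0x8000008803) (.cons (.leaf 2 0xb803009018) (.cons (.splT 3 (.cons
  (.leaf 2 0x800000821c) (.cons (.splT 5 (.cons (.leaf 3 0x800000862a009821) (.cons (.splS 2
  (.cons (.leaf 4 0x800000881300962a009821) (.cons (.leaf 5 0x800000b81300962a011821009040) (.cons
  (.splS 6 (.cons (.leaf 4 0x800000803100962a009821) (.cons (.leaf 4 0x863100982a009821009040)
  (.cons (.splS 3 (.cons (.leaf 5 0x800000901900962a00961a009821) (.cons (.splT 2 (.cons (.splT 0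
  (.cons (.leaf 2 0x8802009000) (.cons (.leaf 6 0x980200881200962a009609009821009000) .nil)))
  (.cons (.leaf 3 0x9812009619009010) .nil))) (.cons (.leaf 7
  0x800000981900983101162a00961a011821009050) .nil)))) .nil)))) .nil)))) .nil))) .nil))) .nil))))
  (.cons (.leaf 4 0x800000c60b009821009040) .nil)))) .nil))))⟩

theorem kc_25_3_ok1 : kc_25_3.ok1 = true := by decide +kernel

theorem kc_25_3_ok2 : kc_25_3.ok2 = true := by decide +kernel

/-- A certificate. -/
def kc_25_5 : KCert :=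
  ⟨25, 5, [0, 3, 4], [0, 2], [-3, 0, 0, -6, 12], [9, 0, 6, 0, 0], 6, 0x120000000600060003,
  0x60006000c0006000f, 1, 1, 4, 4, 13, [14, 0, 0, 0], 4, [1], (.splS 4 (.cons (.leaf 2
  0x8000008021) (.cons (.leaf 2 0x8621009038) (.cons (.splS 0 (.cons (.leaf 2 0x8000008803) (.cons
  (.leaf 2 0xb803009018) (.cons (.splT 2 (.cons (.leaf 2 0x8000008414) (.cons (.splT 0 (.cons
  (.leaf 2 0x8802009000) (.cons (.splS 2 (.cons (.leaf 4 0x800000a01100a802009000) (.cons (.leaf 3
  0xa61100a004009028) (.cons (.leaf 5 0x800000a81100a00400a821009040) .nil)))) .nil))) .nil)))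
  .nil)))) .nil))))⟩

theorem kc_25_5_ok1 : kc_25_5.ok1 = true := by decide +kernel

theorem kc_25_5_ok2 : kc_25_5.ok2 = true := by decide +kernel

/-- A certificate. -/
def kc_25_8 : KCert :=
  ⟨25, 8, [0, 3, 4], [3], [-48, 0, 0, -48, -36], [0, 0, 0, 24, 0], 48, 0xc0000003000300000,
  0x300048003000300030, 1, 0, 12, 4, 27, [0, 0, -128, 0], 13, [1], (.splT 11 (.cons (.splT 7
  (.cons (.splT 6 (.cons (.splT 0 (.cons (.splS 4 (.cons (.leaf 3 0x800000b63a00b021) (.cons
  (.leaf 2 0x800000b621) (.cons (.splS 3 (.cons (.splS 0 (.cons (.leaf 2 0x8000008803) (.cons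
  (.leaf 4 0x800000b63200b80300b019) (.cons (.splS 8 (.cons (.leaf 5
  0x800000b65a00b63a00b04100b821) (.cons (.leaf 4 0x800000b63a00b64100b821) (.cons (.splS 9 (.cons
  (.leaf 6 0x800000b65a00b63a00864b00b84100b821) (.cons (.leaf 5 0xb03200b80200b64900b019009000)
  (.cons (.splS 10 (.cons (.leaf 8 0x800000b05a00b03a00885300b05100c64b00b84100b821) (.cons (.leaf
  4 0xb03a00b65100b821009040) (.cons (.leaf 7 0xb65a00b03a00b85100c64b00b84100b821009070) .nil))))
  .nil)))) .nil)))) .nil)))) (.cons (.leaf 3 0xb80200b619009000) (.cons (.leaf 3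
  0xc01b00b821009040) .nil)))) .nil)))) .nil)) .nil)) .nil)) .nil))⟩

theorem kc_25_8_ok1 : kc_25_8.ok1 = true := by decide +kernel

theorem kc_25_8_ok2 : kc_25_8.ok2 = true := by decide +kernel

/-- A certificate. -/
def kc_25_20 : KCert :=
  ⟨25, 20, [0, 3, 4], [2, 4], [4, 0, 0, 4, -4], [0, 0, 0, 0, -4], 4, 0x8000400040008,
  0x4000400040004, 1, 1, 6, 3, 15, [80, 0, 0, 80], 6, [1], (.splS 0 (.cons (.leaf 2 0x8000008603)
  (.cons (.splT 1 (.cons (.splS 3 (.cons (.splT 5 (.cons (.leaf 4 0x1000000a02a00c01900a019)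
  (.cons (.leaf 3 0x800000c82a00a019) .nil))) (.cons (.splS 2 (.cons (.splT 5 (.cons (.leaf 5
  0x1000000a02a01081300c61900a619) (.cons (.leaf 4 0x800000c82a00881300a619) .nil))) (.cons (.leaf
  3 0x800000b81300a619) (.cons (.splT 0 (.cons (.leaf 3 0xa60200c811009000) (.cons (.splS 4 (.cons
  (.leaf 4 0xa02100c60200c013009000) (.cons (.leaf 5 0x800000a62100c60200c619009000) (.cons (.leaf
  3 0xc82100c602009000) .nil)))) .nil))) .nil)))) (.cons (.leaf 2 0x800000c819) .nil)))) (.cons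
  (.leaf 2 0xc40c009028) .nil))) (.cons (.leaf 2 0xc603009020) .nil))))⟩

theorem kc_25_20_ok1 : kc_25_20.ok1 = true := by decide +kernel

theorem kc_25_20_ok2 : kc_25_20.ok2 = true := by decide +kernel

/-- A certificate. -/
def kc_27_3 : KCert :=
  ⟨27, 3, [0, 1, 3, 4], [0, 1], [-7, -7, 0, -7, 7], [0, -7, 0, 0, 0], 7, 0xe0000000700000000,
  0x70007000700000007, 1, 1, 6, 4, 49, [45, 37, 60, -20], 6, [1], (.splS 4 (.cons (.leaf 2
  0x8000008021) (.cons (.leaf 2 0x8000009221) (.cons (.leaf 2 0x8621009038) (.cons (.splS 0 (.cons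
  (.leaf 2 0x8000008803) (.cons (.leaf 2 0x9803009008) (.cons (.leaf 2 0xb803009018) (.cons (.splT
  3 (.cons (.leaf 2 0x800000821c) (.cons (.splT 5 (.cons (.leaf 3 0x800000862a009821) (.cons
  (.splS 6 (.cons (.leaf 4 0x800000803100962a009821) (.cons (.leaf 4 0x800000923100962a009821)
  (.cons (.leaf 4 0x863100982a009821009040) (.cons (.splT 0 (.cons (.leaf 2 0x8802009000) (.cons
  (.splS 1 (.cons (.leaf 2 0x800000860b) (.cons (.leaf 3 0x9209009802009000) (.cons (.splT 2
  (.cons (.leaf 6 0x881200960900980200962a009821009000) (.cons (.splS 3 (.cons (.leaf 3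
  0x800000901900921a) (.cons (.leaf 2 0x9219009014) (.cons (.leaf 5
  0x9619009812009609009802009000) (.cons (.leaf 7 0x800000981900983100962a00921a009821009050)
  .nil))))) .nil))) (.cons (.leaf 4 0x800000c60b009821009040) .nil))))) .nil))) .nil))))) .nil)))
  .nil))) .nil))))) .nil)))))⟩

theorem kc_27_3_ok1 : kc_27_3.ok1 = true := by decide +kernel

theorem kc_27_3_ok2 : kc_27_3.ok2 = true := by decide +kernel

/-- A certificate. -/
def kc_27_4 : KCert :=
  ⟨27, 4, [0, 1, 3, 4], [2], [-4, -4, 0, 0, 4], [0, 0, -4, 0, 0], 4, 0x80004000400000000,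
  0x40004000000040004, 1, 0, 4, 4, 16, [0, 17, 0, 0], 4, [1], (.splT 3 (.cons (.splT 0 (.cons
  (.splS 2 (.cons (.leaf 4 0x800000a80200a011009000) (.cons (.leaf 4 0xa80200a211009018009000)
  (.cons (.leaf 4 0xa80200a611009028009000) (.cons (.splS 4 (.cons (.leaf 5
  0x1800000a21a01202100c61300c213) (.cons (.leaf 3 0x800000a22100c613) (.cons (.leaf 6
  0x800000a81a01262100c61300c213009038) (.cons (.leaf 6 0x800000a80200a82100a811009040009000)
  .nil))))) .nil))))) .nil)) .nil))⟩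

theorem kc_27_4_ok1 : kc_27_4.ok1 = true := by decide +kernel

theorem kc_27_4_ok2 : kc_27_4.ok2 = true := by decide +kernel

/-- A certificate. -/
def kc_28_1 : KCert :=
  ⟨28, 1, [2, 3, 4], [0], [0, 0, 1, -1, -1], [-1, 0, 0, 0, 0], 1, 0x200010001,
  0x10001000100010000, 1, 0, 4, 2, 1, [1, 2, 1, 2], 4, [1], (.splT 0 (.cons (.leaf 2 0x8402009000)
  .nil))⟩

theorem kc_28_1_ok1 : kc_28_1.ok1 = true := by decide +kernel

theorem kc_28_1_ok2 : kc_28_1.ok2 = true := by decide +kernel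

/-- A certificate. -/
def kc_28_14 : KCert :=
  ⟨28, 14, [2, 3, 4], [1, 2, 3], [0, 0, -2, 2, 2], [0, -2, -2, 2, 0], 2, 0x40004000000020002,
  0x20004000000000002, 1, 1, 4, 4, 17, [0, 88, -88, 0], 5, [1], (.splS 4 (.cons (.leaf 2
  0x800000a421) (.cons (.leaf 2 0x800000b621) (.cons (.splT 3 (.cons (.splS 2 (.cons (.splS 1
  (.cons (.leaf 2 0xa60b009018) (.cons (.splT 1 (.cons (.leaf 3 0x800000960c00a411) (.cons (.leaf
  2 0xa60c009018) (.cons (.splT 0 (.cons (.leaf 3 0x980200b609009000) (.cons (.leaf 3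
  0xa80200a411009000) (.cons (.splS 3 (.cons (.leaf 6 0x800000941900b20400b60a009821009040) (.cons
  (.leaf 6 0x800000961900b20400b60a00a821009040) (.cons (.leaf 6
  0x800000981900b20400b60a00b821009040) .nil)))) .nil)))) .nil)))) (.cons (.leaf 4
  0x800000c60b009821009040) .nil)))) (.cons (.leaf 4 0x800000b413009821009040) (.cons (.leaf 4
  0x800000c41300a821009040) .nil)))) (.cons (.leaf 4 0x800000a21c009821009040) (.cons (.leaf 4
  0x800000b21c00a821009040) .nil)))) .nil))))⟩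

theorem kc_28_14_ok1 : kc_28_14.ok1 = true := by decide +kernel

theorem kc_28_14_ok2 : kc_28_14.ok2 = true := by decide +kernel

/-- A certificate. -/
def kc_28_15 : KCert :=
  ⟨28, 15, [2, 3, 4], [0, 1, 2, 3], [0, 0, -6, 4, 8], [0, -2, -2, -2, 0], 6, 0xe000a000000060006,
  0x60004000400040006, 1, 1, 4, 4, 27, [59, 0, 0, 0], 4, [1], (.splS 4 (.cons (.leaf 2
  0x800000a421) (.cons (.leaf 2 0x800000b621) (.cons (.splT 3 (.cons (.leaf 2 0x800000821c) (.cons
  (.splS 2 (.cons (.splS 1 (.cons (.leaf 2 0xa60b009018) (.cons (.splT 0 (.cons (.leaf 2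
  0x8802009000) (.cons (.leaf 3 0x980200b609009000) (.cons (.leaf 3 0xa80200a411009000) (.cons
  (.splS 3 (.cons (.leaf 5 0x800000941900b004009821009040) (.cons (.leaf 5
  0x800000961900b00400a821009040) (.cons (.leaf 5 0x800000981900b00400b821009040) .nil))))
  .nil))))) (.cons (.leaf 4 0x800000c60b009821009040) .nil)))) (.cons (.leaf 4
  0x800000b413009821009040) (.cons (.leaf 4 0x800000c41300a821009040) .nil)))) (.cons (.leaf 4
  0x800000a21c009821009040) (.cons (.leaf 4 0x800000b21c00a821009040) .nil))))) .nil))))⟩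

theorem kc_28_15_ok1 : kc_28_15.ok1 = true := by decide +kernel

theorem kc_28_15_ok2 : kc_28_15.ok2 = true := by decide +kernel

/-- A certificate. -/
def kc_29_5 : KCert :=
  ⟨29, 5, [0, 2, 3, 4], [0, 2], [-3, 0, -3, -6, 6], [3, 0, 6, 0, 0], 6, 0xc0000000300060003,
  0x60006000c00060009, 1, 1, 4, 4, 12, [13, -4, -9, 9], 4, [1], (.splS 4 (.cons (.leaf 2
  0x8000008021) (.cons (.leaf 2 0x800000a421) (.cons (.leaf 2 0x8621009038) (.cons (.splS 2 (.cons
  (.leaf 2 0x8000008413) (.cons (.splT 0 (.cons (.leaf 2 0x8802009000) (.cons (.leaf 2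
  0xa00400a411) .nil))) (.cons (.leaf 2 0xb413009028) (.cons (.leaf 4 0x800000c41300a821009040)
  .nil))))) .nil)))))⟩

theorem kc_29_5_ok1 : kc_29_5.ok1 = true := by decide +kernel

theorem kc_29_5_ok2 : kc_29_5.ok2 = true := by decide +kernel

/-- A certificate. -/
def kc_29_16 : KCert :=
  ⟨29, 16, [0, 2, 3, 4], [4], [-5, 0, -5, 20, 10], [0, 0, 0, 0, -20], 20, 0x1e0028000f0014000f,
  0x14001400140014, 1, 0, 12, 8, 67, [0, 68, 0, 68], 12, [1], (.splT 15 (.cons (.splT 13 (.cons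
  (.splT 12 (.cons (.splT 6 (.cons (.splT 5 (.cons (.splT 3 (.cons (.splT 0 (.cons (.splS 8 (.cons
  (.leaf 3 0x800000c86200c041) (.cons (.leaf 3 0xc86200c441009050) (.cons (.splS 9 (.cons (.leaf 4
  0x800000c86200844b00c641) (.cons (.splS 5 (.cons (.leaf 2 0x800000862b) (.cons (.leaf 2
  0xa62b009038) (.cons (.splS 11 (.cons (.leaf 5 0x800000c87a00c86200c05900c641) (.cons (.leaf 3
  0xc87a00c45900a84b) (.cons (.splS 10 (.cons (.leaf 6 0x800000c87a00c86200885300c65900c641)
  (.cons (.leaf 5 0x800000c87a00a85300c65900c641) (.cons (.leaf 6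
  0xc87a00c62a00b85300c65900c449009028) (.cons (.splS 7 (.cons (.leaf 4 0x800000c86200883b00c641)
  (.cons (.leaf 3 0xc86a00a83b00c449) (.cons (.leaf 5 0x800000c86200b83b00c85100c641) (.cons
  (.splS 4 (.cons (.leaf 2 0x8000008823) (.cons (.leaf 2 0xa823009030) (.cons (.leaf 3
  0x800000b82300c839) (.cons (.leaf 7 0xc43200c61a00c60200c82100c83900c851009000) .nil)))))
  .nil))))) .nil))))) (.cons (.leaf 4 0x800000c86200c85900c641) .nil))))) (.cons (.leaf 4
  0xc86a00c62b00c449009058) .nil))))) (.cons (.leaf 3 0x800000b44b00c641) (.cons (.leaf 3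
  0xc62a00c849009028) .nil))))) (.cons (.leaf 2 0x800000c841) .nil))))) .nil)) .nil)) .nil))
  .nil)) .nil)) .nil)) .nil))⟩

theorem kc_29_16_ok1 : kc_29_16.ok1 = true := by decide +kernel

theorem kc_29_16_ok2 : kc_29_16.ok2 = true := by decide +kernel

/-- A certificate. -/
def kc_30_21 : KCert :=
  ⟨30, 21, [1, 2, 3, 4], [0, 2, 4], [0, -3, -3, 9, -9], [6, 0, -9, 0, -3], 9, 0x12000600060009,
  0x6000900000009000f, 1, 1, 6, 3, 33, [0, 71, 0, 0], 7, [1], (.splS 3 (.cons (.leaf 2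
  0x8219009020) (.cons (.leaf 2 0x800000a419) (.cons (.splS 4 (.cons (.leaf 3 0x800000942300a619)
  (.cons (.splS 2 (.cons (.splT 0 (.cons (.leaf 2 0x8602009000) (.cons (.leaf 3
  0xa00400c211008619) (.cons (.leaf 3 0xc60200a421009000) .nil)))) (.cons (.leaf 3
  0x800000a21300a421) (.cons (.leaf 4 0x800000b21300a619009030) (.cons (.leaf 2 0xc213009030)
  .nil))))) (.cons (.leaf 3 0x800000b42300c619) (.cons (.leaf 3 0xc423008619009040) .nil)))))
  (.cons (.leaf 2 0x800000c819) .nil)))))⟩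

theorem kc_30_21_ok1 : kc_30_21.ok1 = true := by decide +kernel

theorem kc_30_21_ok2 : kc_30_21.ok2 = true := by decide +kernel

/-- A certificate. -/
def kc_31_2 : KCert :=
  ⟨31, 2, [0, 1, 2, 3, 4], [1], [0, 0, 4, -4, -4], [0, 0, 0, 0, 0], 4, 0x800040004,
  0x40004000400040004, 1, 0, 4, 2, 11, [0, 0, 27, 0], 4, [1], (.splT 0 (.cons (.splS 1 (.cons
  (.leaf 2 0x800000820b) (.cons (.leaf 3 0x9402009209009000) (.cons (.splS 2 (.cons (.leaf 3
  0x1000000901100a20b) (.cons (.leaf 2 0x8000009211) (.cons (.leaf 4 0x800000941100a20b009020)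
  (.cons (.leaf 4 0x800000961100a20b009028) (.cons (.leaf 4 0x800000981100a20b009030) .nil))))))
  (.cons (.leaf 2 0xb20b009020) (.cons (.leaf 2 0xc20b009028) .nil)))))) .nil))⟩

theorem kc_31_2_ok1 : kc_31_2.ok1 = true := by decide +kernel

theorem kc_31_2_ok2 : kc_31_2.ok2 = true := by decide +kernel

/-- A certificate. -/
def kc_31_16 : KCert :=
  ⟨31, 16, [0, 1, 2, 3, 4], [4], [-10, -15, -5, 20, 10], [0, 0, 0, 0, -15], 15,
  0x190023000a00000005, 0xf000f000f000f, 1, 0, 12, 8, 97, [0, 98, 0, 98], 12, [1], (.splT 15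
  (.cons (.splT 13 (.cons (.splT 12 (.cons (.splT 9 (.cons (.splT 6 (.cons (.splT 5 (.cons (.splT
  3 (.cons (.splT 0 (.cons (.splS 8 (.cons (.leaf 3 0x800000c86200c041) (.cons (.leaf 3
  0xc86200c241009048) (.cons (.leaf 3 0xc86200c441009050) (.cons (.splS 5 (.cons (.leaf 2
  0x800000862b) (.cons (.leaf 2 0x962b009030) (.cons (.leaf 2 0xa62b009038) (.cons (.splS 11
  (.cons (.leaf 5 0x800000c87a00c86200c05900c641) (.cons (.leaf 4 0x800000c87a00c25900c641) (.cons
  (.leaf 5 0xc87a00c86200c45900c641009068) (.cons (.splS 7 (.cons (.leaf 2 0x800000823b) (.cons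
  (.leaf 3 0xc86200983b00c641) (.cons (.leaf 4 0xc86200a83b00c641009048) (.cons (.splS 10 (.cons
  (.leaf 10 0x1800000c47a00c06a00c24a01c05102323b01345b00c65900b243009098) (.cons (.leaf 5
  0x800000c87a00c25100b23b00c659) (.cons (.leaf 6 0x1000000c87a00c45100b23b00c65900c641) (.cons
  (.leaf 4 0x800000c65100b23b00b45b) (.cons (.leaf 3 0x800000c85100b23b) .nil)))))) (.cons (.splS
  9 (.cons (.leaf 3 0x800000844b00c23b) (.cons (.leaf 2 0x944b00c63b) (.cons (.splS 10 (.cons
  (.leaf 3 0x800000825300c23b) (.cons (.leaf 3 0xc87a00985300c659) (.cons (.leaf 3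
  0x800000a25300c641) (.cons (.leaf 6 0xc87a00c62a00b85300c44900c659009028) (.cons (.splS 4 (.cons
  (.leaf 2 0x8000008823) (.cons (.leaf 2 0x9823009028) (.cons (.leaf 2 0xa823009030) (.cons (.leaf
  3 0x800000b82300c839) (.cons (.leaf 7 0xc43200c61a00c60200c82100c85100c839009000) .nil))))))
  .nil)))))) (.cons (.leaf 3 0x800000b44b00c641) (.cons (.leaf 3 0xc62a00c849009028) .nil))))))
  .nil)))))) (.cons (.leaf 4 0x800000c86200c85900c641) .nil)))))) (.cons (.leaf 2 0xc62b009048)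
  .nil)))))) (.cons (.leaf 2 0x800000c841) .nil)))))) .nil)) .nil)) .nil)) .nil)) .nil)) .nil))
  .nil)) .nil))⟩

theorem kc_31_16_ok1 : kc_31_16.ok1 = true := by decide +kernel

theorem kc_31_16_ok2 : kc_31_16.ok2 = true := by decide +kernel

/-- A certificate. -/
def kc_31_22 : KCert :=
  ⟨31, 22, [0, 1, 2, 3, 4], [1, 2, 4], [-4, 16, -8, 12, -16], [0, 8, 0, 0, -4], 16,
  0x1c00080020000c, 0xc0010001000180010, 1, 1, 4, 3, 36, [0, 0, 0, 37], 6, [1], (.splS 2 (.cons
  (.leaf 2 0x8000008213) (.cons (.splT 2 (.cons (.splT 1 (.cons (.leaf 3 0x800000940c009211)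
  (.cons (.splS 3 (.cons (.splS 1 (.cons (.leaf 3 0x800000a00900a40a) (.cons (.leaf 4
  0x800000a20900a40a009211) (.cons (.splT 0 (.cons (.leaf 3 0x960200a409009000) (.cons (.leaf 3
  0xa602009211009000) (.cons (.leaf 4 0x800000c404009019009212) .nil)))) (.cons (.leaf 3
  0x1000000b40b009019) (.cons (.leaf 3 0x1000000c40b00a019) .nil)))))) (.cons (.leaf 2
  0x8000009219) (.cons (.leaf 2 0x800000a419) (.cons (.splS 1 (.cons (.leaf 3 0x800000a00900a40a)
  (.cons (.leaf 4 0x800000a20900a40a009211) (.cons (.splT 0 (.cons (.leaf 3 0x960200a409009000)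
  (.cons (.leaf 3 0xa602009211009000) (.cons (.leaf 4 0xc602009619009030009000) .nil)))) (.cons
  (.leaf 5 0x800000a60900961900a40a009030) (.cons (.leaf 5 0x800000a80900a61900a40a009030)
  .nil)))))) (.cons (.leaf 2 0x800000c819) .nil)))))) (.cons (.leaf 2 0xc40c009028) .nil))))
  (.cons (.leaf 2 0xa214009020) (.cons (.leaf 2 0xc214009030) .nil)))) (.cons (.leaf 2
  0xa213009020) (.cons (.leaf 2 0xb213009028) (.cons (.leaf 2 0xc213009030) .nil))))))⟩

theorem kc_31_22_ok1 : kc_31_22.ok1 = true := by decide +kernel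

theorem kc_31_22_ok2 : kc_31_22.ok2 = true := by decide +kernel

/-- Certificates. -/
def kd6 : List KCert :=
  [kc_3_8, kc_4_3, kc_6_8, kc_10_22, kc_11_22, kc_12_2, kc_12_21, kc_13_1, kc_13_16, kc_13_18,
  kc_14_3, kc_14_20, kc_15_6, kc_16_6, kc_17_3, kc_17_9, kc_18_11, kc_20_8, kc_21_5, kc_21_11,
  kc_22_1, kc_22_15, kc_23_5, kc_24_4, kc_24_20, kc_24_22, kc_25_2, kc_25_3, kc_25_5, kc_25_8,
  kc_25_20, kc_27_3, kc_27_4, kc_28_1, kc_28_14, kc_28_15, kc_29_5, kc_29_16, kc_30_21, kc_31_2,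
  kc_31_16, kc_31_22]

theorem kd6_ok : AllK kd6 :=
  allK_cons kc_3_8_ok1 kc_3_8_ok2 (
  allK_cons kc_4_3_ok1 kc_4_3_ok2 (
  allK_cons kc_6_8_ok1 kc_6_8_ok2 (
  allK_cons kc_10_22_ok1 kc_10_22_ok2 (
  allK_cons kc_11_22_ok1 kc_11_22_ok2 (
  allK_cons kc_12_2_ok1 kc_12_2_ok2 (
  allK_cons kc_12_21_ok1 kc_12_21_ok2 (
  allK_cons kc_13_1_ok1 kc_13_1_ok2 (
  allK_cons kc_13_16_ok1 kc_13_16_ok2 (
  allK_cons kc_13_18_ok1 kc_13_18_ok2 (
  allK_cons kc_14_3_ok1 kc_14_3_ok2 (
  allK_cons kc_14_20_ok1 kc_14_20_ok2 (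
  allK_cons kc_15_6_ok1 kc_15_6_ok2 (
  allK_cons kc_16_6_ok1 kc_16_6_ok2 (
  allK_cons kc_17_3_ok1 kc_17_3_ok2 (
  allK_cons kc_17_9_ok1 kc_17_9_ok2 (
  allK_cons kc_18_11_ok1 kc_18_11_ok2 (
  allK_cons kc_20_8_ok1 kc_20_8_ok2 (
  allK_cons kc_21_5_ok1 kc_21_5_ok2 (
  allK_cons kc_21_11_ok1 kc_21_11_ok2 (
  allK_cons kc_22_1_ok1 kc_22_1_ok2 (
  allK_cons kc_22_15_ok1 kc_22_15_ok2 (
  allK_cons kc_23_5_ok1 kc_23_5_ok2 (
  allK_cons kc_24_4_ok1 kc_24_4_ok2 (
  allK_cons kc_24_20_ok1 kc_24_20_ok2 (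
  allK_cons kc_24_22_ok1 kc_24_22_ok2 (
  allK_cons kc_25_2_ok1 kc_25_2_ok2 (
  allK_cons kc_25_3_ok1 kc_25_3_ok2 (
  allK_cons kc_25_5_ok1 kc_25_5_ok2 (
  allK_cons kc_25_8_ok1 kc_25_8_ok2 (
  allK_cons kc_25_20_ok1 kc_25_20_ok2 (
  allK_cons kc_27_3_ok1 kc_27_3_ok2 (
  allK_cons kc_27_4_ok1 kc_27_4_ok2 (
  allK_cons kc_28_1_ok1 kc_28_1_ok2 (
  allK_cons kc_28_14_ok1 kc_28_14_ok2 (
  allK_cons kc_28_15_ok1 kc_28_15_ok2 (
  allK_cons kc_29_5_ok1 kc_29_5_ok2 (
  allK_cons kc_29_16_ok1 kc_29_16_ok2 (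
  allK_cons kc_30_21_ok1 kc_30_21_ok2 (
  allK_cons kc_31_2_ok1 kc_31_2_ok2 (
  allK_cons kc_31_16_ok1 kc_31_16_ok2 (
  allK_cons kc_31_22_ok1 kc_31_22_ok2 (
  allK_nil))))))))))))))))))))))))))))))))))))))))))

end Pool.Agent.RatRec
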