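import Pool.Agent.Lib_helper86.RatV.KCert

/-!
Packed certificates of unbounded special cases (data).
-/

set_option autoImplicit false
set_option maxRecDepth 100000

namespace Pool.Agent.RatRec

/-- A certificate. -/
def kc_7_2 : KCert :=
  ⟨7, 2, [0, 1, 2], [1], [3, 0, 3, 0, 0], [0, 3, 0, 0, 0], 0, 0x300000003, 0x30000, 1, 0, 4, 2, 6,
  [7, 0, 0, -7], 4, [1], (.splT 0 (.cons (.splS 1 (.cons (.leaf 2 0x800000820b) (.cons (.leaf 3
  0x9402009209009000) (.cons (.splS 2 (.cons (.leaf 3 0x1000000901100a20b) (.cons (.leaf 2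
  0x8000009211) (.cons (.leaf 4 0x800000941100a20b009020) .nil)))) .nil)))) .nil))⟩

theorem kc_7_2_ok1 : kc_7_2.ok1 = true := by decide +kernel

theorem kc_7_2_ok2 : kc_7_2.ok2 = true := by decide +kernel

/-- A certificate. -/
def kc_8_1 : KCert :=
  ⟨8, 1, [3], [0], [0, 0, 0, 1, 0], [-1, 0, 0, 0, 0], 1, 0x10002000100010001, 0x10001000100010000,
  0, 0, 4, 3, 1, [0, 0, 0, 0], 4, [1], (.splT 0 (.cons (.leaf 2 0x8602009000) .nil))⟩

theorem kc_8_1_ok1 : kc_8_1.ok1 = true := by decide +kernel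

theorem kc_8_1_ok2 : kc_8_1.ok2 = true := by decide +kernel

/-- A certificate. -/
def kc_9_1 : KCert :=
  ⟨9, 1, [0, 3], [0], [-2, 0, 0, 2, 0], [0, 0, 0, 0, 0], 2, 0x20004000200020000,
  0x20002000200020002, 1, 0, 4, 3, 1, [0, 0, 2, 0], 4, [1], (.splT 0 (.cons (.leaf 2 0x8602009000)
  .nil))⟩

theorem kc_9_1_ok1 : kc_9_1.ok1 = true := by decide +kernel

theorem kc_9_1_ok2 : kc_9_1.ok2 = true := by decide +kernel

/-- A certificate. -/
def kc_9_2 : KCert :=
  ⟨9, 2, [0, 3], [1], [3, 0, 0, 3, 0], [0, -3, 0, 0, 0], 3, 0x30006000300030006,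
  0x30003000300000003, 1, 0, 6, 5, 23, [0, 0, 51, 0], 7, [1], (.splT 6 (.cons (.splT 3 (.cons
  (.splT 2 (.cons (.splT 0 (.cons (.splS 4 (.cons (.leaf 5 0x903200961a008623009021009018) (.cons
  (.splS 2 (.cons (.leaf 2 0x8000008613) (.cons (.splS 1 (.cons (.leaf 4 0x9612009602009009009000)
  (.cons (.splS 3 (.cons (.leaf 6 0x11612009602009019009609009010009000) (.cons (.splS 5 (.cons
  (.leaf 6 0x800000961200902900961900b00b009010) (.cons (.splS 7 (.cons (.leaf 6
  0x1000000903900962900b01b00b00b009621) (.cons (.leaf 7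
  0x800000963900962900b01b00b00b009621009050) .nil))) .nil))) .nil))) .nil))) .nil))) .nil)))
  .nil)) .nil)) .nil)) .nil))⟩

theorem kc_9_2_ok1 : kc_9_2.ok1 = true := by decide +kernel

theorem kc_9_2_ok2 : kc_9_2.ok2 = true := by decide +kernel

/-- A certificate. -/
def kc_12_6 : KCert :=
  ⟨12, 6, [2, 3], [1, 2], [0, 0, -4, 0, 0], [0, 0, 0, 0, 0], 4, 0x40004000000040004,
  0x40004000400040004, 1, 1, 4, 3, 7, [0, 10, 0, 14], 6, [1], (.splS 3 (.cons (.leaf 2
  0x800000a419) (.cons (.splT 2 (.cons (.splS 1 (.cons (.splS 0 (.cons (.leaf 2 0xa603009010)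
  (.cons (.splT 0 (.cons (.leaf 3 0x960200a409009000) (.cons (.splS 2 (.cons (.leaf 6
  0x800000941100a602009619009030009000) (.cons (.leaf 6 0x800000961100a60200a619009030009000)
  .nil))) .nil))) .nil))) (.cons (.leaf 4 0x800000b40b009619009030) .nil))) (.cons (.leaf 4
  0x800000a214009619009030) .nil))) .nil)))⟩

theorem kc_12_6_ok1 : kc_12_6.ok1 = true := by decide +kernel

theorem kc_12_6_ok2 : kc_12_6.ok2 = true := by decide +kernel

/-- A certificate. -/
def kc_12_16 : KCert :=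
  ⟨12, 16, [2, 3], [4], [0, 0, -14, 0, 0], [0, 0, 0, 0, -14], 14, 0xe000e0000000e000e,
  0xe000e000e000e, 1, 0, 12, 8, 30, [0, 31, 0, 0], 12, [1], (.splT 16 (.cons (.splT 15 (.cons
  (.splT 14 (.cons (.splT 13 (.cons (.splT 12 (.cons (.splT 9 (.cons (.splT 6 (.cons (.splT 5
  (.cons (.splT 3 (.cons (.splT 2 (.cons (.splT 0 (.cons (.splS 5 (.cons (.leaf 2 0xa62b009038)
  (.cons (.splS 8 (.cons (.splS 10 (.cons (.leaf 11
  0xc68200c67a01467201466a00c66201265301445102c4410090a0009090019050) (.cons (.splS 9 (.cons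
  (.splS 7 (.cons (.leaf 10 0xc67a00c67200c66a00c66201263b01444900c65101264300c441009098) (.cons
  (.splS 6 (.cons (.splS 4 (.cons (.leaf 15
  0xc67a00c67200c66a00c66201462a01441a01460201442101443101463901444900c65100c441009098011000)
  (.cons (.leaf 15
  0xc67a00c67200c66a00c66201462a01461201440201462101443101463901444900c65100c441009098011000)
  .nil))) (.cons (.leaf 11 0xc67a00c67200c66a00c66201343301444900c65101264300c441009098011050)
  .nil))) .nil))) (.cons (.leaf 11
  0xc67a00c67200c66a00c66201462a01464900c65101c441009098011050011028) .nil))) .nil))) (.cons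
  (.splS 9 (.cons (.splS 13 (.cons (.leaf 4 0xc66200a66b00c641009058) (.cons (.splS 7 (.cons
  (.splS 3 (.cons (.leaf 4 0xc43200a61b00a63b00c629) (.cons (.splS 6 (.cons (.splS 10 (.cons
  (.leaf 4 0xc44a00a65300a63300c641) (.cons (.splS 4 (.cons (.splS 11 (.cons (.leaf 13
  0xc67a00c67200c66a00c46201461a01460200c45901442101443901444900c641009098011000) (.cons (.leaf 16
  0xc67a00c67200c66a00c46200c43201461a01460200c65901442100c65101443901444900c641009098009030011000)
  .nil))) (.cons (.leaf 15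
  0x1467a01467201466a01466201c63201c61a01c60201c62101465100a63b034439024449014641011098019000)
  .nil))) .nil))) (.cons (.splS 11 (.cons (.leaf 10
  0xc68200c67a00c67200c66a00a65b00c45901b43301c4490090a0011058) (.cons (.splS 4 (.cons (.leaf 12
  0xc47a00c66a00c46200c61a00c60200c42100c65900c43900c44900c641009098009000) (.cons (.leaf 14
  0x1447a01466a01446200c63200c61a00c60200c62101465900a63b014439014449014641011098009000) .nil)))
  .nil))) .nil))) .nil))) (.cons (.splS 10 (.cons (.leaf 13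
  0xc68200c67a01467201466a00c66201444a02265301445101343b03c6410090a0009090029058) (.cons (.splS 15
  (.cons (.leaf 8 0xc67200c62a00c41a00a67b00c65100c63900c449009018) (.cons (.splS 6 (.cons (.splS
  4 (.cons (.leaf 16
  0xc67a00c67200c66a00c66201462a00c61a01441a01c60201c42101443100c65101c63901444900c641009098019000)
  (.cons (.leaf 18
  0x1467a01467201466a01466202c62a00c41a02461200c60202440202c62100a633024431014651034639024449014641011098029000)
  .nil))) (.cons (.splS 4 (.cons (.leaf 15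
  0xc67a00c67200c66a00c66202c61a02c60201262302c42101463100c65101c63901444900c641009098029000)
  (.cons (.leaf 20
  0x1c68201c67a03467203466a01c66203c62a01461a03c61201460203c40204c62102c63103465105c63906444901c6410190a0019090021058049000)
  .nil))) .nil))) .nil))) .nil))) .nil))) .nil))) (.cons (.leaf 3 0x800000b44b00c641) .nil)))
  .nil))) .nil))) .nil)) .nil)) .nil)) .nil)) .nil)) .nil)) .nil)) .nil)) .nil)) .nil)) .nil))⟩

theorem kc_12_16_ok1 : kc_12_16.ok1 = true := by decide +kernel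

theorem kc_12_16_ok2 : kc_12_16.ok2 = true := by decide +kernel

/-- A certificate. -/
def kc_12_23 : KCert :=
  ⟨12, 23, [2, 3], [0, 1, 2, 4], [0, 0, -4, 4, 0], [-4, -4, -4, 0, 0], 4, 0x40008000000040004,
  0x40004000000000000, 1, 1, 6, 3, 20, [0, 0, 0, 21], 6, [1], (.splS 3 (.cons (.leaf 2
  0x800000a419) (.cons (.splS 4 (.cons (.splS 1 (.cons (.splT 0 (.cons (.leaf 2 0x8602009000)
  (.cons (.leaf 3 0x960200a409009000) (.cons (.splS 2 (.cons (.leaf 3 0x800000941100a804) (.cons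
  (.leaf 5 0x800000961100a00400a619009030) .nil))) (.cons (.leaf 3 0xc60200a421009000) .nil)))))
  (.cons (.leaf 4 0x800000b40b009619009030) .nil))) (.cons (.leaf 3 0x800000b42300c619) .nil)))
  .nil)))⟩

theorem kc_12_23_ok1 : kc_12_23.ok1 = true := by decide +kernel

theorem kc_12_23_ok2 : kc_12_23.ok2 = true := by decide +kernel

/-- A certificate. -/
def kc_13_8 : KCert :=
  ⟨13, 8, [0, 2, 3], [3], [0, 0, 9, 0, 0], [0, 0, 0, 0, 0], 0, 0x900000000, 0x0, 1, 0, 10, 2, 30,
  [0, 0, 65, 0], 10, [1], (.splT 7 (.cons (.splT 5 (.cons (.splT 0 (.cons (.splS 2 (.cons (.leaf 3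
  0x800000b62a00b011) (.cons (.splS 3 (.cons (.leaf 2 0xb62a00841b) (.cons (.splS 4 (.cons (.leaf
  5 0x800000b63a00b02100a01b00b411) (.cons (.leaf 5 0x800000b63a00b42100a61b00b411) (.cons (.leaf
  4 0x800000b62100a01b00b411) .nil)))) (.cons (.leaf 3 0xb40200b619009000) .nil)))) (.cons (.leaf
  2 0x800000b611) .nil)))) .nil)) .nil)) .nil))⟩

theorem kc_13_8_ok1 : kc_13_8.ok1 = true := by decide +kernel

theorem kc_13_8_ok2 : kc_13_8.ok2 = true := by decide +kernel

/-- A certificate. -/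
def kc_14_2 : KCert :=
  ⟨14, 2, [1, 2, 3], [1], [0, 0, 3, -3, 0], [0, 0, 0, 0, 0], 3, 0x30000000600030003,
  0x30003000300030003, 1, 0, 4, 2, 9, [0, 0, 10, 0], 4, [1], (.splT 0 (.cons (.splS 1 (.cons
  (.leaf 3 0x9402009209009000) (.cons (.splS 2 (.cons (.leaf 2 0x8000009211) (.cons (.leaf 4
  0x800000941100a20b009020) (.cons (.leaf 4 0x800000961100a20b009028) .nil)))) (.cons (.leaf 2
  0xb20b009020) .nil)))) .nil))⟩

theorem kc_14_2_ok1 : kc_14_2.ok1 = true := by decide +kernel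

theorem kc_14_2_ok2 : kc_14_2.ok2 = true := by decide +kernel

/-- A certificate. -/
def kc_14_9 : KCert :=
  ⟨14, 9, [1, 2, 3], [0, 3], [0, -16, 8, 4, 0], [-4, 0, 0, -12, 0], 16, 0x100014001800000010,
  0x10000400100010000c, 1, 1, 6, 2, 39, [0, 0, 40, 0], 6, [1], (.splS 2 (.cons (.leaf 2
  0x8211009018) (.cons (.splS 0 (.cons (.leaf 2 0x9403009008) (.cons (.splS 4 (.cons (.leaf 3
  0x800000822100b411) (.cons (.splS 3 (.cons (.leaf 2 0x961b008421) (.cons (.leaf 4
  0x800000a61b00842100b411) (.cons (.splT 0 (.cons (.leaf 2 0x8402009000) (.cons (.leaf 3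
  0xb40200b619009000) .nil))) .nil)))) (.cons (.leaf 3 0x800000b621008411) .nil)))) (.cons (.leaf
  2 0xb403009018) .nil)))) (.cons (.leaf 2 0x800000b611) .nil))))⟩

theorem kc_14_9_ok1 : kc_14_9.ok1 = true := by decide +kernel

theorem kc_14_9_ok2 : kc_14_9.ok2 = true := by decide +kernel

/-- A certificate. -/
def kc_14_22 : KCert :=
  ⟨14, 22, [1, 2, 3], [1, 2, 4], [0, 0, 0, 4, 0], [0, 0, 0, 0, 0], 0, 0x4000000000000, 0x0, 1, 1,
  6, 3, 11, [0, 0, 0, 12], 6, [1], (.splS 3 (.cons (.leaf 2 0x8000009219) (.cons (.leaf 2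
  0x800000a419) (.cons (.splS 2 (.cons (.splS 4 (.cons (.leaf 3 0x800000942300a619) (.cons (.splS
  1 (.cons (.leaf 3 0x800000940b009211) (.cons (.splT 0 (.cons (.leaf 3 0x960200a409009000) (.cons
  (.leaf 3 0xa602009211009000) (.cons (.leaf 3 0xc60200a421009000) .nil)))) (.cons (.leaf 4
  0x800000b40b009619009030) .nil)))) (.cons (.leaf 3 0x800000b42300c619) .nil)))) (.cons (.leaf 4
  0x800000a213009619009030) (.cons (.leaf 4 0x800000b21300a619009030) .nil)))) .nil))))⟩

theorem kc_14_22_ok1 : kc_14_22.ok1 = true := by decide +kernel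

theorem kc_14_22_ok2 : kc_14_22.ok2 = true := by decide +kernel

/-- A certificate. -/
def kc_15_8 : KCert :=
  ⟨15, 8, [0, 1, 2, 3], [3], [-9, -18, 36, 27, 0], [0, 0, 0, -18, 0], 18, 0x12002d003600000009,
  0x120000001200120012, 1, 0, 10, 2, 110, [-84, 18, 75, 57], 10, [1], (.splT 7 (.cons (.splT 5
  (.cons (.splT 0 (.cons (.splS 2 (.cons (.leaf 3 0x800000b62a00b011) (.cons (.leaf 3
  0xb62a00b211009018) (.cons (.splS 3 (.cons (.leaf 4 0x800000b62a00821b00b411) (.cons (.splS 4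
  (.cons (.leaf 5 0x800000b63a00b62a00b02100b411) (.cons (.leaf 4 0x800000b63a00b22100b411) (.cons
  (.leaf 3 0xb63a00b42100961b) (.cons (.leaf 4 0x800000b62a00b62100b411) .nil))))) (.cons (.leaf 3
  0x800000a21b00b411) (.cons (.leaf 3 0xb40200b619009000) .nil))))) (.cons (.leaf 2 0x800000b611)
  .nil))))) .nil)) .nil)) .nil))⟩

theorem kc_15_8_ok1 : kc_15_8.ok1 = true := by decide +kernel

theorem kc_15_8_ok2 : kc_15_8.ok2 = true := by decide +kernel

/-- A certificate. -/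
def kc_15_17 : KCert :=
  ⟨15, 17, [0, 1, 2, 3], [0, 4], [-6, -12, -6, 24, 0], [12, 0, 0, 0, -24], 24,
  0x1800300012000c0012, 0x18001800180024, 1, 1, 8, 8, 115, [0, 235, 0, 235], 9, [1], (.splS 8
  (.cons (.leaf 2 0x8000008041) (.cons (.leaf 2 0x8241009048) (.cons (.leaf 2 0x8441009050) (.cons
  (.splS 5 (.cons (.leaf 2 0x800000862b) (.cons (.leaf 2 0x962b009030) (.cons (.leaf 2
  0xa62b009038) (.cons (.splS 11 (.cons (.leaf 3 0x8000008059008641) (.cons (.leaf 3
  0x800000825900c641) (.cons (.leaf 3 0x8459008641009068) (.cons (.splT 7 (.cons (.leaf 3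
  0x800000883c008641) (.cons (.splT 10 (.cons (.leaf 4 0x8000008854008659008641) (.cons (.splT 5
  (.cons (.leaf 2 0x862a009028) (.cons (.splT 4 (.cons (.leaf 2 0x8000008824) (.cons (.splT 12
  (.cons (.leaf 4 0x800000846200865900c641) (.cons (.splT 1 (.cons (.leaf 3 0x880c00c62a009048)
  (.cons (.splS 9 (.cons (.leaf 3 0x800000844b008641) (.cons (.splS 10 (.cons (.leaf 5
  0x1000000c05100944b008659010641) (.cons (.leaf 5 0x800000c25100944b008659008641) (.cons (.leaf 6
  0x1000000c45100944b00865900c641008641) (.cons (.leaf 7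
  0x800000c65100c24900c62a008659008641009028) .nil))))) (.cons (.splS 12 (.cons (.leaf 5
  0x800000c06100c462008659008641) (.cons (.leaf 5 0x946300c44900c62a008659009028) (.cons (.splS 7
  (.cons (.leaf 3 0x800000c03900c23a) (.cons (.splT 3 (.cons (.splS 6 (.cons (.leaf 2
  0x8000008433) (.cons (.leaf 4 0x800000943300c239008641) (.cons (.splS 10 (.cons (.leaf 4
  0x800000c05100c252008641) (.cons (.splT 6 (.cons (.splS 3 (.cons (.leaf 6
  0x800000c01900843200861a00c23a009058) (.cons (.leaf 3 0x961b008432009020) (.cons (.leaf 3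
  0xa61b008432009028) (.cons (.splS 0 (.cons (.leaf 4 0x800000860300843200861a) (.cons (.leaf 4
  0x960300843200861a009008) (.cons (.leaf 4 0xa60300843200861a009010) (.cons (.splT 2 (.cons
  (.leaf 3 0x8000008814008432) (.cons (.splT 0 (.cons (.leaf 4 0x860200843200861a009000) (.cons
  (.splS 4 (.cons (.leaf 6 0x800001402100c20200860100c40a00c222) (.cons (.leaf 3
  0xc22100c004009028) (.cons (.leaf 3 0xc42100c004008431) (.cons (.leaf 6
  0x800000c62100843200c23900c422008641) .nil))))) .nil))) .nil))) .nil))))) .nil))))) (.cons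
  (.leaf 3 0xc03400c251008659) .nil))) (.cons (.leaf 4 0x800000c45100c25200c641) (.cons (.splS 4
  (.cons (.leaf 7 0x800000c02100c65100c44900c22200c62a00c252) (.cons (.splS 2 (.cons (.leaf 6
  0x800000861300c65100c44900c62a00c252) (.cons (.leaf 5 0x961300b25300c44900c62a009018) (.cons
  (.leaf 4 0x800000a21300c22100841a) (.cons (.splS 0 (.cons (.leaf 7
  0x800000860300c65100841a00c44900c62a00c252) (.cons (.leaf 6
  0x960300b25300841a00c44900c62a009008) (.cons (.leaf 6 0xa60300b25300841a00c44900c62a009010)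
  (.cons (.splT 9 (.cons (.leaf 6 0x800000844a00c65100c44900c252008641) (.cons (.splT 6 (.cons
  (.splT 0 (.cons (.leaf 4 0x860200843200861a009000) (.cons (.leaf 3 0xc00400c221009028) .nil)))
  (.cons (.leaf 6 0xc03400c65100c44900c62a008659009028) .nil))) .nil))) .nil))))) .nil))))) (.cons
  (.leaf 5 0xa22300b25300843100c44900c62a) (.cons (.leaf 9
  0x800000c62100c65100c23900c44900c22200c62a00c252008641) .nil))))) .nil))))) (.cons (.splS 10
  (.cons (.leaf 4 0x800000c05100c252008641) (.cons (.splT 6 (.cons (.splS 4 (.cons (.leaf 4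
  0x800000c02100843200c422) (.cons (.leaf 6 0x800000c22100843200b43300c42200c629) (.cons (.splT 0
  (.cons (.leaf 4 0x860200843200861a009000) (.cons (.leaf 4 0xc60200c42100861a009000) .nil)))
  (.cons (.leaf 6 0x800000c62100843200c23900c422008641) .nil))))) (.cons (.leaf 3
  0xc03400c251008659) .nil))) (.cons (.leaf 4 0x800000c45100c25200c641) (.cons (.leaf 5
  0x800000c65100b43300c44900c252) .nil))))) .nil))))) (.cons (.leaf 3 0xc01c00c239008641) .nil)))
  (.cons (.leaf 3 0xa23b008449009058) (.cons (.splS 10 (.cons (.leaf 6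
  0x1000000c05100c63900c23a008659008641) (.cons (.leaf 5 0x800000c25100c63900c23a008659) (.cons
  (.leaf 6 0x1000000c45100c63900c23a00865900c641) (.cons (.leaf 7
  0x800000c65100c63900c23a008659008641009068) .nil))))) .nil))))) (.cons (.leaf 5
  0x800000c66100c46200c659008641) .nil))))) (.cons (.leaf 3 0x800000b44b00c641) .nil))))) .nil)))
  .nil))) .nil))) .nil))) .nil))) .nil))) .nil))))) .nil))))) .nil)))))⟩

theorem kc_15_17_ok1 : kc_15_17.ok1 = true := by decide +kernel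

theorem kc_15_17_ok2 : kc_15_17.ok2 = true := by decide +kernel

/-- A certificate. -/
def kc_17_11 : KCert :=
  ⟨17, 11, [0, 4], [0, 1, 3], [6, 0, 0, 0, 3], [-3, 3, 0, 3, 0], 3, 0x60003000300030009,
  0x30006000300060000, 1, 1, 4, 4, 11, [2, 10, -9, 7], 5, [1], (.splS 4 (.cons (.leaf 2
  0x8000008021) (.cons (.splS 3 (.cons (.splT 0 (.cons (.leaf 2 0x8802009000) (.cons (.splS 1
  (.cons (.leaf 4 0x800000b009009802009000) (.cons (.leaf 6 0x800000b809009802009821009040009000)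
  .nil))) (.cons (.leaf 4 0x800000b802009019009000) .nil)))) (.cons (.leaf 3 0xc01b00b821009040)
  .nil))) .nil)))⟩

theorem kc_17_11_ok1 : kc_17_11.ok1 = true := by decide +kernel

theorem kc_17_11_ok2 : kc_17_11.ok2 = true := by decide +kernel

/-- A certificate. -/
def kc_18_14 : KCert :=
  ⟨18, 14, [1, 4], [1, 2, 3], [0, 0, 0, 0, -4], [0, 4, 0, -4, 0], 4, 0x4000400040004,
  0x40000000400080004, 1, 1, 4, 4, 8, [1, -4, 9, -1], 6, [1], (.splT 3 (.cons (.splS 4 (.cons
  (.leaf 2 0x8000009221) (.cons (.splS 3 (.cons (.splT 2 (.cons (.leaf 3 0x8000009414009219)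
  (.cons (.splS 2 (.cons (.splT 1 (.cons (.leaf 4 0x1000000960c00a211009219) (.cons (.leaf 3
  0x800000a60c009219) (.cons (.splT 0 (.cons (.splS 1 (.cons (.leaf 4 0x1000000b20900960400a211)
  (.cons (.leaf 6 0x800000b809009802009821009040009000) .nil))) (.cons (.leaf 5
  0x800000a80200a211009219009000) (.cons (.leaf 3 0xb802009219009000) .nil)))) .nil)))) (.cons
  (.leaf 4 0xc21300a82100921a009040) .nil))) (.cons (.leaf 4 0x800000b414009821009040) .nil))))
  (.cons (.leaf 5 0x800000981900b82100921a009040) .nil))) .nil))) (.cons (.leaf 2 0xa21c009028)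
  (.cons (.leaf 2 0xb21c009030) .nil))))⟩

theorem kc_18_14_ok1 : kc_18_14.ok1 = true := by decide +kernel

theorem kc_18_14_ok2 : kc_18_14.ok2 = true := by decide +kernel

/-- A certificate. -/
def kc_18_15 : KCert :=
  ⟨18, 15, [1, 4], [0, 1, 2, 3], [0, 16, 0, 0, 8], [-12, 4, -8, -12, 0], 12, 0x14000c000c001c000c,
  0xc0000000400100000, 1, 1, 4, 4, 42, [89, 0, 0, 0], 4, [1], (.splT 3 (.cons (.leaf 2
  0x800000821c) (.cons (.splS 4 (.cons (.leaf 2 0x8000009221) (.cons (.splS 3 (.cons (.splT 2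
  (.cons (.leaf 2 0x8000008414) (.cons (.leaf 3 0x8000009414009219) (.cons (.splS 2 (.cons (.splT
  1 (.cons (.leaf 2 0x800000860c) (.cons (.leaf 4 0x1000000960c00a211009219) (.cons (.leaf 3
  0x800000a60c009219) (.cons (.splT 0 (.cons (.leaf 2 0x8802009000) (.cons (.splS 1 (.cons (.leaf
  5 0x1000000b20900900400a211009219) (.cons (.leaf 6 0x800000b809009802009821009040009000) .nil)))
  (.cons (.leaf 5 0x800000a80200a211009219009000) (.cons (.leaf 3 0xb802009219009000) .nil)))))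
  .nil))))) (.cons (.leaf 4 0xc21300a82100921a009040) .nil))) (.cons (.leaf 4
  0x800000b414009821009040) .nil))))) (.cons (.leaf 5 0x800000981900b82100921a009040) .nil)))
  .nil))) (.cons (.leaf 2 0xa21c009028) (.cons (.leaf 2 0xb21c009030) .nil)))))⟩

theorem kc_18_15_ok1 : kc_18_15.ok1 = true := by decide +kernel

theorem kc_18_15_ok2 : kc_18_15.ok2 = true := by decide +kernel

/-- A certificate. -/
def kc_20_4 : KCert :=
  ⟨20, 4, [2, 4], [2], [0, 0, -2, 0, 2], [0, 0, -2, 0, 0], 2, 0x40002000000020002,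
  0x20002000000020002, 1, 0, 4, 4, 11, [8, 2, 1, 6], 8, [1], (.splT 0 (.cons (.splS 4 (.cons
  (.leaf 2 0x800000a421) (.cons (.splS 2 (.cons (.leaf 3 0xa80200a411009000) (.cons (.leaf 4
  0x800000c41300a821009040) .nil))) .nil))) .nil))⟩

theorem kc_20_4_ok1 : kc_20_4.ok1 = true := by decide +kernel

theorem kc_20_4_ok2 : kc_20_4.ok2 = true := by decide +kernel

/-- A certificate. -/
def kc_20_5 : KCert :=
  ⟨20, 5, [2, 4], [0, 2], [0, 0, -3, 0, 6], [3, 0, -3, 0, 0], 3, 0x90003000000030003,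
  0x30003000000030006, 1, 1, 4, 4, 21, [22, 0, 0, 0], 4, [1], (.splS 4 (.cons (.leaf 2
  0x800000a421) (.cons (.splS 2 (.cons (.splT 0 (.cons (.leaf 2 0x8802009000) (.cons (.leaf 2
  0xa00400a411) .nil))) (.cons (.leaf 4 0x800000c41300a821009040) .nil))) .nil)))⟩

theorem kc_20_5_ok1 : kc_20_5.ok1 = true := by decide +kernel

theorem kc_20_5_ok2 : kc_20_5.ok2 = true := by decide +kernel

/-- A certificate. -/
def kc_21_6 : KCert :=
  ⟨21, 6, [0, 2, 4], [1, 2], [-5, 0, -5, 0, 0], [0, 10, -5, 0, 0], 5, 0x50005000000050000,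
  0x500050000000f0005, 1, 1, 4, 4, 13, [-72, 72, 0, 0], 5, [1], (.splS 0 (.cons (.leaf 2
  0x8000008803) (.cons (.leaf 2 0xa803009010) (.cons (.splT 3 (.cons (.splS 4 (.cons (.splS 2
  (.cons (.leaf 2 0x8000008413) (.cons (.splT 0 (.cons (.splS 3 (.cons (.splS 1 (.cons (.splT 2
  (.cons (.leaf 5 0x20000011412009009011019009404) (.cons (.leaf 4 0xa412009009009802009000)
  .nil))) (.cons (.leaf 3 0x800000a00b009019) (.cons (.leaf 3 0x800000c00b009021) .nil)))) (.cons
  (.leaf 4 0x800000941900902100901a) (.cons (.splS 1 (.cons (.splT 2 (.cons (.leaf 6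
  0x10000011412009009011819009404011038) (.cons (.leaf 4 0xa412009009009802009000) .nil))) (.cons
  (.leaf 3 0xa00b009819009038) (.cons (.leaf 3 0x800000c00b009021) .nil)))) .nil)))) (.cons (.leaf
  3 0xa80200a411009000) .nil))) (.cons (.leaf 3 0x1000000c41300a021) .nil)))) (.cons (.leaf 2
  0x800000a421) (.cons (.splS 2 (.cons (.leaf 2 0x8000008413) (.cons (.splT 0 (.cons (.splS 3
  (.cons (.splS 1 (.cons (.splT 2 (.cons (.leaf 5 0x20000011412009009011019009404) (.cons (.leaf 4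
  0xa412009009009802009000) .nil))) (.cons (.leaf 3 0x800000a00b009019) (.cons (.leaf 3
  0xc00b009821009040) .nil)))) (.cons (.leaf 3 0xa01b009821009040) (.cons (.splS 1 (.cons (.splT 2
  (.cons (.leaf 6 0x10000011412009009011819009404011038) (.cons (.leaf 4 0xa412009009009802009000)
  .nil))) (.cons (.leaf 3 0xa00b009819009038) (.cons (.leaf 3 0xc00b009821009040) .nil))))
  .nil)))) (.cons (.leaf 3 0xa80200a411009000) .nil))) (.cons (.leaf 4 0x800000c41300a821009040)
  .nil)))) .nil)))) (.cons (.leaf 2 0xa21c009028) .nil))) .nil))))⟩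

theorem kc_21_6_ok1 : kc_21_6.ok1 = true := by decide +kernel

theorem kc_21_6_ok2 : kc_21_6.ok2 = true := by decide +kernel

/-- A certificate. -/
def kc_21_15 : KCert :=
  ⟨21, 15, [0, 2, 4], [0, 1, 2, 3], [-4, 0, -8, 0, -4], [-8, 8, -4, 0, 0], 8, 0x40008000000080004,
  0x80008000400100000, 1, 1, 4, 4, 21, [0, 0, 0, 104], 7, [1], (.splT 3 (.cons (.leaf 2
  0x800000821c) (.cons (.splS 4 (.cons (.leaf 2 0x8000008021) (.cons (.leaf 2 0x800000a421) (.cons
  (.splS 3 (.cons (.splT 2 (.cons (.leaf 2 0x8000008414) (.cons (.leaf 3 0x10000009414009019)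
  (.cons (.splS 2 (.cons (.leaf 3 0x800000a01100a412) (.cons (.splT 1 (.cons (.leaf 2
  0x800000860c) (.cons (.leaf 3 0x800000960c00a411) (.cons (.leaf 3 0x1000000a60c009019) (.cons
  (.splT 0 (.cons (.leaf 2 0x8802009000) (.cons (.splS 1 (.cons (.leaf 4 0x800000b00900940400a412)
  (.cons (.leaf 5 0x1000000b40900940400a412009019) (.cons (.leaf 6
  0x800000b80900940400a41200901900941a) .nil)))) (.cons (.leaf 3 0xa80200a411009000) (.cons (.leaf
  4 0x800000b40400a412009019) .nil))))) .nil))))) (.cons (.leaf 5 0x800000a81100a41200a821009040)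
  .nil)))) (.cons (.leaf 4 0x800000b41400901900941a) .nil))))) (.cons (.leaf 3 0xa01b009821009040)
  (.cons (.leaf 3 0xc01b00b821009040) .nil)))) .nil)))) (.cons (.leaf 2 0xa21c009028) (.cons
  (.leaf 2 0xb21c009030) .nil)))))⟩

theorem kc_21_15_ok1 : kc_21_15.ok1 = true := by decide +kernel

theorem kc_21_15_ok2 : kc_21_15.ok2 = true := by decide +kernel

/-- A certificate. -/
def kc_23_4 : KCert :=
  ⟨23, 4, [0, 1, 2, 4], [2], [0, -3, 0, 0, 3], [0, 0, -3, 0, 0], 3, 0x60003000300000003,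
  0x30003000000030003, 1, 0, 4, 4, 12, [9, 0, 3, 9], 8, [1], (.splT 0 (.cons (.splS 2 (.cons
  (.leaf 2 0x8000008413) (.cons (.leaf 2 0x9413009018) (.cons (.leaf 3 0xa80200a411009000) (.cons
  (.splS 4 (.cons (.leaf 3 0x1000000a02100c413) (.cons (.leaf 4 0x800000a22100c413009028) (.cons
  (.leaf 2 0x800000a421) (.cons (.leaf 4 0x800000a82100c413009040) .nil))))) .nil))))) .nil))⟩

theorem kc_23_4_ok1 : kc_23_4.ok1 = true := by decide +kernel

theorem kc_23_4_ok2 : kc_23_4.ok2 = true := by decide +kernel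

/-- A certificate. -/
def kc_24_9 : KCert :=
  ⟨24, 9, [3, 4], [0, 3], [0, 0, 0, -50, 20], [-30, 0, 0, -10, 0], 50, 0x460000003200320032,
  0x320028003200320014, 1, 1, 24, 4, 812, [1629, 0, 0, 0], 24, [1], (.splS 4 (.cons (.leaf 2
  0x800000b621) (.cons (.splT 5 (.cons (.leaf 3 0x800000862c008821) (.cons (.splT 1 (.cons (.leaf
  2 0x800000860c) (.cons (.splS 0 (.cons (.leaf 2 0xb803009018) (.cons (.splT 0 (.cons (.leaf 2
  0x8802009000) (.cons (.splS 3 (.cons (.leaf 3 0xb61900b802009000) (.cons (.splS 7 (.cons (.leaf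
  4 0xb63900881900b802009000) (.cons (.splS 8 (.cons (.leaf 3 0x800000b641008821) (.cons (.splT 9
  (.cons (.leaf 8 0x800000864c00b84100883900881900b802008821009000) (.cons (.splS 12 (.cons (.leaf
  8 0x800000b66100b84100883900881900b802008821009000) (.cons (.splT 13 (.cons (.leaf 9
  0x800000866c00886100b84100883900881900b802008821009000) (.cons (.splS 16 (.cons (.leaf 9
  0x800000b68100886100b84100883900881900b802008821009000) (.cons (.splT 17 (.cons (.leaf 10
  0x800000868c00888100886100b84100883900881900b802008821009000) (.cons (.splS 20 (.cons (.leaf 10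
  0x800000b6a100888100886100b84100883900881900b802008821009000) (.cons (.splT 21 (.cons (.leaf 11
  0x80000086ac0088a100888100886100b84100883900881900b802008821009000) (.cons (.splS 24 (.cons
  (.leaf 11 0x800000b6c10088a100888100886100b84100883900881900b802008821009000) (.cons (.splT 4
  (.cons (.splT 3 (.cons (.splS 5 (.cons (.splT 2 (.cons (.splS 1 (.cons (.splS 2 (.cons (.splT 6
  (.cons (.leaf 4 0x863200b81300b62900b64a) (.cons (.leaf 3 0xb63200b81300b629) .nil))) (.cons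
  (.splS 6 (.cons (.splT 6 (.cons (.splT 10 (.cons (.leaf 4 0x865200863400b83300b66a) (.cons
  (.leaf 3 0xb65200863400b833) .nil))) (.cons (.splS 9 (.cons (.leaf 2 0xb64900b034) (.cons (.splS
  13 (.cons (.leaf 9 0x800000b66900b84900b63200b64a00b84100883900c61b008821) (.cons (.leaf 12
  0x800000b86900b84900886100b64a013841010839010819013802010821009088011000) .nil))) .nil)))
  .nil))) (.cons (.splT 6 (.cons (.splT 10 (.cons (.leaf 4 0x865200883200861c00b66a) (.cons (.leaf
  3 0xb65200883200861c) .nil))) (.cons (.splS 9 (.cons (.leaf 2 0xb64900b034) (.cons (.splS 13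
  (.cons (.leaf 10 0x800000b66900b84900b83200c63300b64a00b84100883900c61b008821) (.cons (.leaf 12
  0x800000b86900b84901383201463300886100b64a01384101083901461b010821009088) .nil))) .nil)))
  .nil))) .nil))) .nil))) (.cons (.leaf 4 0x800000b80900b62900b60a) .nil))) (.cons (.leaf 2
  0xb01400b629) .nil))) (.cons (.splS 9 (.cons (.leaf 5 0x800000b64900b82900b62a008821) (.cons
  (.leaf 7 0x800000b84900b82900884100b62a010821009068) .nil))) .nil))) (.cons (.splS 6 (.cons
  (.leaf 2 0xb63100b01c) (.cons (.splS 5 (.cons (.splS 2 (.cons (.leaf 3 0xb81300b62900b01c)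
  (.cons (.splT 2 (.cons (.splS 1 (.cons (.splT 6 (.cons (.splT 10 (.cons (.leaf 7
  0x865200883200862400b66a00b81900b802009000) (.cons (.leaf 6
  0xb65200883200862400b81900b802009000) .nil))) (.cons (.splS 9 (.cons (.leaf 2 0xb64900b034)
  (.cons (.splS 13 (.cons (.leaf 6 0x800000b66900b84900b64a008841008821) (.cons (.leaf 8
  0x800000b86900b84900886100b64a010841010821009088) .nil))) .nil))) .nil))) (.cons (.leaf 14
  0x3000003380901861201b81100b83100b64a00b84100b83901381901380203360a00b821009060011000) .nil)))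
  (.cons (.leaf 2 0xb01400b629) .nil))) .nil))) (.cons (.leaf 12
  0x800000b82900b83100b81a00b84100b83901081900b80200b62a010821009060009000) .nil))) .nil)))
  .nil))) (.cons (.splT 3 (.cons (.splS 5 (.cons (.splT 2 (.cons (.splS 1 (.cons (.splS 2 (.cons
  (.splT 6 (.cons (.leaf 4 0x863200b81300b62900b64a) (.cons (.leaf 3 0xb63200b81300b629) .nil)))
  (.cons (.splS 6 (.cons (.splT 6 (.cons (.splT 10 (.cons (.leaf 4 0x865200863400b83300b66a)
  (.cons (.leaf 3 0xb65200863400b833) .nil))) (.cons (.splS 9 (.cons (.leaf 2 0xb64900b034) (.cons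
  (.splS 13 (.cons (.leaf 9 0x800000b66900b84900b63200b64a00b84100883900c61b008821) (.cons (.leaf
  12 0x800000b86900b84900886100b64a013841010839010819013802010821009088011000) .nil))) .nil)))
  .nil))) (.cons (.splT 6 (.cons (.splT 10 (.cons (.leaf 4 0x865200883200861c00b66a) (.cons (.leaf
  3 0xb65200883200861c) .nil))) (.cons (.splS 9 (.cons (.leaf 2 0xb64900b034) (.cons (.splS 13
  (.cons (.leaf 10 0x800000b66900b84900b83200c63300b64a00b84100883900c61b008821) (.cons (.leaf 12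
  0x800000b86900b84901383201463300886100b64a01384101083901461b010821009088) .nil))) .nil)))
  .nil))) .nil))) .nil))) (.cons (.leaf 4 0x800000b80900b62900b60a) .nil))) (.cons (.leaf 2
  0xb01400b629) .nil))) (.cons (.splS 9 (.cons (.leaf 5 0x800000b64900b82900b62a008821) (.cons
  (.leaf 7 0x800000b84900b82900884100b62a010821009068) .nil))) .nil))) (.cons (.splS 6 (.cons
  (.leaf 2 0xb63100b01c) (.cons (.splS 5 (.cons (.splS 2 (.cons (.leaf 3 0xb81300b62900b01c)
  (.cons (.splT 2 (.cons (.splS 1 (.cons (.splT 6 (.cons (.splT 7 (.cons (.splT 8 (.cons (.splS 9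
  (.cons (.splS 10 (.cons (.splT 10 (.cons (.splT 14 (.cons (.leaf 4 0x867200865400b85300b68a)
  (.cons (.leaf 3 0xb67200865400b853) .nil))) (.cons (.splS 13 (.cons (.leaf 2 0xb66900b054)
  (.cons (.splS 17 (.cons (.leaf 10 0x800000b68900b86901365200865100883a00886100884100c63b00b821)
  (.cons (.leaf 10 0x800000b88900b86900b6520086510088810108610108410108210090a8) .nil))) .nil)))
  .nil))) (.cons (.splT 10 (.cons (.splT 14 (.cons (.leaf 4 0x867200885200863c00b68a) (.cons
  (.leaf 3 0xb67200885200863c) .nil))) (.cons (.splS 13 (.cons (.leaf 2 0xb66900b054) (.cons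
  (.splS 17 (.cons (.leaf 7 0x800000b68900b86900b66a008861008841008821) (.cons (.leaf 9
  0x800000b88900b86900888100b66a0108610108410108210090a8) .nil))) .nil))) .nil))) .nil))) (.cons
  (.splS 13 (.cons (.leaf 5 0x800000b66900c64b008841008821) (.cons (.leaf 7
  0x800000b86900c64b008861010841010821009088) .nil))) .nil))) (.cons (.splS 11 (.cons (.leaf 2
  0xb65900b044) (.cons (.splS 9 (.cons (.splS 10 (.cons (.splT 10 (.cons (.splT 14 (.cons (.leaf 4
  0x867200865400b85300b68a) (.cons (.leaf 3 0xb67200865400b853) .nil))) (.cons (.splS 13 (.cons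
  (.leaf 2 0xb66900b054) (.cons (.splS 17 (.cons (.leaf 10
  0x800000b68900b86900885901b04400883a00b66a00b86100b84100b821) (.cons (.leaf 12
  0x800000b88900b86901085902384201083a00888100b66a0138610308410138210090a8) .nil))) .nil)))
  .nil))) (.cons (.splT 10 (.cons (.splT 14 (.cons (.leaf 4 0x867200885200863c00b68a) (.cons
  (.leaf 3 0xb67200885200863c) .nil))) (.cons (.splS 13 (.cons (.leaf 2 0xb66900b054) (.cons
  (.splS 17 (.cons (.leaf 9 0x800000b68900c66b00885901384200883a00b86101884100b821) (.cons (.leaf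
  12 0x800000b88900b86901085902384201083a00888100b66a0138610308410138210090a8) .nil))) .nil)))
  .nil))) .nil))) (.cons (.splS 13 (.cons (.leaf 7 0x800000b66900b84900b04400b64a00b841008821)
  (.cons (.leaf 11 0x800000b86900b84900885902b04401083a00b86100b64a013841013821009088) .nil)))
  .nil))) .nil))) .nil))) (.cons (.splS 10 (.cons (.leaf 2 0xb65100b03c) (.cons (.splS 11 (.cons
  (.leaf 7 0xb65900b03c00883200883900b81900b802009000) (.cons (.splS 9 (.cons (.splT 8 (.cons
  (.splT 10 (.cons (.splT 14 (.cons (.leaf 9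
  0x1067201085200864400883201368a00b83900b81900b802009000) (.cons (.leaf 8
  0x1367201085200864400883200b83900b81900b802009000) .nil))) (.cons (.splS 13 (.cons (.leaf 2
  0xb66900b054) (.cons (.splS 17 (.cons (.leaf 11
  0x800000b68900b86900c65b00885100b83a00b66a00b861008841008839008821) (.cons (.leaf 13
  0x800000b88900b86901465b01085101383a00888100b66a0138610108410108390108210090a8) .nil))) .nil)))
  .nil))) (.cons (.splT 10 (.cons (.splT 14 (.cons (.leaf 9
  0x867200885200883200b68a00b81900b80200b821009040009000) (.cons (.leaf 8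
  0xb67200885200883200b81900b80200b821009040009000) .nil))) (.cons (.splS 13 (.cons (.leaf 2
  0xb66900b054) (.cons (.splS 17 (.cons (.leaf 12
  0x800000b68900b86900b85200c65b01085100b83a00b82200b86100b841010839010821) (.cons (.leaf 13
  0x800000b88900c66b01465b01085101383a0138220088810138610138410208390208210090a8) .nil))) .nil)))
  .nil))) .nil))) (.cons (.leaf 12
  0x800000b84900c65b00b85100b83a01382200b86100b64a013841018839020821009080) .nil))) .nil)))
  .nil))) .nil))) (.cons (.splS 9 (.cons (.leaf 2 0xb64900b034) (.cons (.splS 13 (.cons (.leaf 6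
  0x800000b66900b84900b64a008841008821) (.cons (.leaf 8
  0x800000b86900b84900886100b64a010841010821009088) .nil))) .nil))) .nil))) (.cons (.leaf 14
  0x3000003380901861201b81100b83100b64a00b84100b83901381901380203360a00b821009060011000) .nil)))
  (.cons (.leaf 2 0xb01400b629) .nil))) .nil))) (.cons (.leaf 12
  0x800000b82900b83100b81a00b84100b83901081900b80200b62a010821009060009000) .nil))) .nil)))
  .nil))) .nil))) .nil))) .nil))) .nil))) .nil))) .nil))) .nil))) .nil))) .nil))) .nil))) .nil)))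
  .nil))) .nil))) .nil))) .nil))) .nil))) .nil)))⟩

theorem kc_24_9_ok1 : kc_24_9.ok1 = true := by decide +kernel

theorem kc_24_9_ok2 : kc_24_9.ok2 = true := by decide +kernel

/-- A certificate. -/
def kc_24_11 : KCert :=
  ⟨24, 11, [3, 4], [0, 1, 3], [0, 0, 0, -6, 3], [0, 3, 0, 3, 0], 6, 0x90000000600060006,
  0x60009000600090006, 1, 1, 4, 4, 12, [0, 0, 0, 13], 7, [1], (.splS 4 (.cons (.leaf 2
  0x800000b621) (.cons (.splS 1 (.cons (.splT 0 (.cons (.leaf 2 0x8802009000) (.cons (.leaf 2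
  0x900400b609) (.cons (.splS 3 (.cons (.leaf 2 0xb61900b004) (.cons (.leaf 5
  0x800000981900b00400b821009040) .nil))) .nil)))) (.cons (.leaf 4 0x800000c60b009821009040)
  .nil))) .nil)))⟩

theorem kc_24_11_ok1 : kc_24_11.ok1 = true := by decide +kernel

theorem kc_24_11_ok2 : kc_24_11.ok2 = true := by decide +kernel

/-- A certificate. -/
def kc_24_15 : KCert :=
  ⟨24, 15, [3, 4], [0, 1, 2, 3], [0, 0, 0, -3, 6], [3, -3, 6, -3, 0], 3, 0x90000000300030003,
  0x30000000900000006, 1, 1, 4, 4, 21, [0, 0, 22, 0], 6, [1], (.splT 2 (.cons (.leaf 2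
  0x8000008414) (.cons (.leaf 2 0x9414009018) (.cons (.splS 4 (.cons (.leaf 2 0x800000b621) (.cons
  (.splT 3 (.cons (.leaf 2 0x800000821c) (.cons (.splS 1 (.cons (.splS 0 (.cons (.leaf 2
  0xb803009018) (.cons (.splT 0 (.cons (.leaf 2 0x8802009000) (.cons (.leaf 2 0x900400b609) (.cons
  (.splS 2 (.cons (.leaf 5 0x800000a61100a004009821009040) (.cons (.leaf 5
  0x800000a81100a00400a821009040) .nil))) (.cons (.splS 3 (.cons (.leaf 5
  0x800000961900b00400a821009040) (.cons (.leaf 5 0x800000981900b00400b821009040) .nil)))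
  .nil))))) .nil))) (.cons (.leaf 4 0x800000c60b009821009040) .nil))) (.cons (.leaf 4
  0x800000a21c009821009040) (.cons (.leaf 4 0x800000b21c00a821009040) .nil))))) .nil))) (.cons
  (.leaf 2 0xb414009028) .nil)))))⟩

theorem kc_24_15_ok1 : kc_24_15.ok1 = true := by decide +kernel

theorem kc_24_15_ok2 : kc_24_15.ok2 = true := by decide +kernel

/-- A certificate. -/
def kc_25_14 : KCert :=
  ⟨25, 14, [0, 3, 4], [1, 2, 3], [0, 0, 0, -2, -4], [0, -2, -2, 6, 0], 4, 0x2000400040004,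
  0x4000a000200020004, 1, 1, 4, 4, 21, [47, 0, 0, 0], 8, [1], (.splS 1 (.cons (.leaf 2
  0x800000860b) (.cons (.splT 1 (.cons (.leaf 2 0x960c009010) (.cons (.leaf 2 0xa60c009018) (.cons
  (.splS 4 (.cons (.splS 3 (.cons (.splT 3 (.cons (.splS 2 (.cons (.splT 0 (.cons (.leaf 3
  0x980200b609009000) (.cons (.leaf 4 0x800000a20400a01100b60a) (.cons (.leaf 4
  0x800000b20400901900b60a) .nil)))) (.cons (.leaf 3 0x800000b013009021) (.cons (.leaf 3
  0x800000c01300a021) .nil)))) (.cons (.leaf 4 0x1000000a01a009019009021) (.cons (.leaf 4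
  0x1000000b01a00901900a021) .nil)))) (.cons (.leaf 3 0x800000b01b00a021) (.cons (.leaf 3
  0x800000c01b00b021) .nil)))) (.cons (.leaf 2 0x800000b621) (.cons (.splS 3 (.cons (.splT 3
  (.cons (.splS 2 (.cons (.splT 0 (.cons (.leaf 3 0x980200b609009000) (.cons (.leaf 4
  0x800000a20400a01100b60a) (.cons (.leaf 4 0x800000b20400901900b60a) .nil)))) (.cons (.leaf 3
  0xb013009821009040) (.cons (.leaf 3 0xc01300a821009040) .nil)))) (.cons (.leaf 5
  0x800000a01a009019009821009040) (.cons (.leaf 5 0x800000b01a00901900a821009040) .nil)))) (.cons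
  (.leaf 3 0xb01b00a821009040) (.cons (.leaf 3 0xc01b00b821009040) .nil)))) .nil)))) .nil))))
  (.cons (.leaf 2 0xc60b009028) .nil))))⟩

theorem kc_25_14_ok1 : kc_25_14.ok1 = true := by decide +kernel

theorem kc_25_14_ok2 : kc_25_14.ok2 = true := by decide +kernel

/-- A certificate. -/
def kc_27_1 : KCert :=
  ⟨27, 1, [0, 1, 3, 4], [0], [-1, 1, 0, 1, -1], [-1, 0, 0, 0, 0], 1, 0x2000100020000,
  0x10001000100010000, 1, 0, 4, 1, 1, [1, 1, 2, 1], 4, [1], (.splT 0 (.cons (.leaf 2 0x8202009000)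
  .nil))⟩

theorem kc_27_1_ok1 : kc_27_1.ok1 = true := by decide +kernel

theorem kc_27_1_ok2 : kc_27_1.ok2 = true := by decide +kernel

/-- A certificate. -/
def kc_27_11 : KCert :=
  ⟨27, 11, [0, 1, 3, 4], [0, 1, 3], [-6, -6, 0, -3, 6], [3, 3, 0, 3, 0], 6, 0xc0003000600000000,
  0x60009000600090009, 1, 1, 4, 4, 15, [80, 0, 0, 0], 4, [1], (.splS 4 (.cons (.leaf 2
  0x8000008021) (.cons (.leaf 2 0x8000009221) (.cons (.leaf 2 0x800000b621) (.cons (.splS 1 (.cons
  (.leaf 2 0x800000860b) (.cons (.leaf 2 0x960b009010) (.cons (.splS 0 (.cons (.leaf 2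
  0x8000008803) (.cons (.leaf 3 0x800000980300b609) (.cons (.leaf 2 0xb803009018) (.cons (.splT 0
  (.cons (.leaf 2 0x8802009000) (.cons (.leaf 2 0x900400b609) (.cons (.splS 3 (.cons (.leaf 4
  0x800000901900b802009000) (.cons (.leaf 2 0x921900b004) (.cons (.leaf 2 0xb61900b004) (.cons
  (.leaf 5 0x800000981900b00400b821009040) .nil))))) .nil)))) .nil))))) (.cons (.leaf 4
  0x800000c60b009821009040) .nil))))) .nil)))))⟩

theorem kc_27_11_ok1 : kc_27_11.ok1 = true := by decide +kernel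

theorem kc_27_11_ok2 : kc_27_11.ok2 = true := by decide +kernel

/-- A certificate. -/
def kc_27_14 : KCert :=
  ⟨27, 14, [0, 1, 3, 4], [1, 2, 3], [4, 0, 0, -8, 4], [0, 16, 16, 16, 0], 8, 0xc000000080008000c,
  0x80018001800180008, 1, 1, 4, 4, 13, [0, 0, 72, -72], 6, [1], (.splS 0 (.cons (.leaf 2
  0x8000008803) (.cons (.leaf 2 0x9803009008) (.cons (.leaf 2 0xb803009018) (.cons (.splS 4 (.cons
  (.splS 3 (.cons (.leaf 2 0x800000821b) (.cons (.splS 2 (.cons (.splS 1 (.cons (.leaf 2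
  0x800000860b) (.cons (.leaf 3 0x1000000960b00a011) (.cons (.splT 0 (.cons (.leaf 3
  0x980200b609009000) (.cons (.leaf 4 0x800000a80200a011009000) (.cons (.leaf 3
  0xb802009219009000) .nil)))) (.cons (.leaf 3 0x1000000c60b009021) .nil))))) (.cons (.leaf 2
  0x9013009219) (.cons (.leaf 3 0x800000b013009021) (.cons (.leaf 3 0x800000c01300a021) .nil)))))
  (.cons (.leaf 3 0x1000000b21b00a021) (.cons (.leaf 3 0x1000000c21b00b021) .nil))))) (.cons
  (.leaf 2 0x8000009221) (.cons (.leaf 2 0x800000b621) (.cons (.splS 3 (.cons (.leaf 2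
  0x800000821b) (.cons (.splS 2 (.cons (.splS 1 (.cons (.leaf 2 0x800000860b) (.cons (.leaf 3
  0x1000000960b00a011) (.cons (.splT 0 (.cons (.leaf 3 0x980200b609009000) (.cons (.leaf 4
  0x800000a80200a011009000) (.cons (.leaf 3 0xb802009219009000) .nil)))) (.cons (.leaf 4
  0x800000c60b009821009040) .nil))))) (.cons (.leaf 2 0x9013009219) (.cons (.leaf 3
  0xb013009821009040) (.cons (.leaf 3 0xc01300a821009040) .nil))))) (.cons (.leaf 4
  0x800000b21b00a821009040) (.cons (.leaf 4 0x800000c21b00b821009040) .nil))))) .nil)))))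
  .nil)))))⟩

theorem kc_27_14_ok1 : kc_27_14.ok1 = true := by decide +kernel

theorem kc_27_14_ok2 : kc_27_14.ok2 = true := by decide +kernel

/-- A certificate. -/
def kc_27_20 : KCert :=
  ⟨27, 20, [0, 1, 3, 4], [2, 4], [4, -8, 0, 4, 0], [0, 0, 0, 0, 0], 8, 0x8000c00080000000c,
  0x80008000800080008, 1, 1, 6, 3, 21, [0, 47, 0, 0], 7, [1], (.splS 0 (.cons (.leaf 2
  0x8000008603) (.cons (.leaf 2 0x9603009008) (.cons (.splS 3 (.cons (.splT 5 (.cons (.leaf 4
  0x1000000a02a00c01900a019) (.cons (.leaf 3 0x800000c82a00a019) .nil))) (.cons (.splT 5 (.cons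
  (.leaf 4 0xa02a00c21900a219011020) (.cons (.leaf 3 0xc82a00a219009020) .nil))) (.cons (.splT 1
  (.cons (.splT 5 (.cons (.leaf 5 0x800000a22a00c61900a619009030) (.cons (.splS 2 (.cons (.leaf 2
  0x8000008213) (.cons (.leaf 3 0x981300c82a00a619) (.cons (.leaf 4 0x800000b21300a619009030)
  (.cons (.splT 0 (.cons (.leaf 3 0xa60200c811009000) (.cons (.splS 4 (.cons (.leaf 6
  0x800000a02100c60200c82a00a619009000) (.cons (.leaf 5 0x800000a22100c60200a619009000) (.cons
  (.leaf 5 0x800000a62100c60200c619009000) (.cons (.leaf 3 0xc82100c602009000) .nil))))) .nil)))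
  .nil))))) .nil))) (.cons (.leaf 4 0x800000c40c00a619009030) .nil))) (.cons (.leaf 2
  0x800000c819) .nil))))) (.cons (.leaf 2 0xc603009020) .nil)))))⟩

theorem kc_27_20_ok1 : kc_27_20.ok1 = true := by decide +kernel

theorem kc_27_20_ok2 : kc_27_20.ok2 = true := by decide +kernel

/-- A certificate. -/
def kc_28_2 : KCert :=
  ⟨28, 2, [2, 3, 4], [1], [0, 0, 16, -16, 12], [0, -4, 0, 0, 0], 16, 0x1c0000002000100010,
  0x1000100010000c0010, 1, 0, 4, 2, 54, [0, 0, 55, 0], 4, [1], (.splT 0 (.cons (.splS 1 (.cons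
  (.splS 2 (.cons (.leaf 3 0x800000941100a60b) (.cons (.leaf 3 0x800000961100a80b) (.cons (.leaf 6
  0x8000009402009811009409009030009000) .nil)))) (.cons (.leaf 3 0x9802009609009000) (.cons (.leaf
  4 0x9402009809009028009000) .nil)))) .nil))⟩

theorem kc_28_2_ok1 : kc_28_2.ok1 = true := by decide +kernel

theorem kc_28_2_ok2 : kc_28_2.ok2 = true := by decide +kernel

/-- A certificate. -/
def kc_28_6 : KCert :=
  ⟨28, 6, [2, 3, 4], [1, 2], [0, 0, 12, 4, -16], [0, 4, 16, 0, 0], 16, 0x14001c00100010,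
  0x100010002000140010, 1, 1, 4, 3, 29, [0, 0, 0, 30], 6, [1], (.splS 1 (.cons (.splT 1 (.cons
  (.leaf 2 0x940c009010) (.cons (.splT 0 (.cons (.leaf 3 0x960200a409009000) (.cons (.splS 3
  (.cons (.leaf 2 0x800000a419) (.cons (.splS 2 (.cons (.leaf 6
  0x800000941100961900a20400a40a009030) (.cons (.leaf 6 0x800000961100a61900a20400a40a009030)
  (.cons (.leaf 4 0x981100a602009030009000) .nil)))) (.cons (.splS 2 (.cons (.leaf 6
  0x800000941100981900a20400a40a009038) (.cons (.leaf 6 0x800000961100a81900a20400a40a009038)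
  (.cons (.leaf 5 0x981100c61b00a602009038009000) .nil)))) .nil)))) .nil))) .nil))) (.cons (.leaf
  2 0xb40b009020) (.cons (.leaf 2 0xc40b009028) .nil))))⟩

theorem kc_28_6_ok1 : kc_28_6.ok1 = true := by decide +kernel

theorem kc_28_6_ok2 : kc_28_6.ok2 = true := by decide +kernel

/-- A certificate. -/
def kc_28_13 : KCert :=
  ⟨28, 13, [2, 3, 4], [0, 2, 3], [0, 0, -6, 8, 0], [-8, 0, 8, 2, 0], 8, 0x80010000200080008,
  0x8000a001000080000, 1, 1, 6, 4, 24, [-2, 12, 36, -17], 6, [1], (.splS 4 (.cons (.leaf 2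
  0x800000a421) (.cons (.leaf 2 0x800000b621) (.cons (.splT 5 (.cons (.leaf 3 0x800000862c008821)
  (.cons (.leaf 3 0x800000a62c00b821) (.cons (.splT 3 (.cons (.leaf 2 0x841c00b62a) (.cons (.splT
  2 (.cons (.leaf 2 0x8000008414) (.cons (.splT 6 (.cons (.leaf 3 0x800000843200a821) (.cons
  (.splS 5 (.cons (.leaf 4 0x800000b42900b62a00b821) (.cons (.splS 2 (.cons (.splS 1 (.cons (.leaf
  2 0xa60b009018) (.cons (.splT 0 (.cons (.leaf 2 0x8802009000) (.cons (.leaf 3
  0xa80200a411009000) (.cons (.splS 3 (.cons (.leaf 3 0xa41900b802009000) (.cons (.leaf 6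
  0xa61900b80200b62a00a821009040009000) (.cons (.leaf 6 0xa81900b80200b62a00b821009040009000)
  .nil)))) .nil)))) (.cons (.leaf 3 0x800000c60b00b629) .nil)))) (.cons (.leaf 4
  0x800000a61100b62900a412) (.cons (.leaf 5 0x800000a81100a41200a821009040) .nil)))) (.cons (.leaf
  4 0x1462b00a63200a821009048) .nil)))) (.cons (.leaf 4 0xb43400b63200a821009048) .nil)))) (.cons
  (.leaf 2 0xb414009028) .nil)))) (.cons (.leaf 4 0xb41c00b62a00a821009040) .nil)))) .nil))))
  .nil))))⟩

theorem kc_28_13_ok1 : kc_28_13.ok1 = true := by decide +kernel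

theorem kc_28_13_ok2 : kc_28_13.ok2 = true := by decide +kernel

/-- A certificate. -/
def kc_28_20 : KCert :=
  ⟨28, 20, [2, 3, 4], [2, 4], [0, 0, 0, 4, -4], [0, 0, 4, 0, 0], 4, 0x8000400040004,
  0x40004000800040004, 1, 1, 6, 3, 10, [11, 0, 0, 11], 6, [1], (.splS 3 (.cons (.leaf 2
  0x800000a419) (.cons (.splS 0 (.cons (.leaf 2 0xa603009010) (.cons (.splT 1 (.cons (.splS 2
  (.cons (.splT 0 (.cons (.leaf 3 0xa60200a411009000) (.cons (.splS 4 (.cons (.leaf 3
  0xa42100c602009000) (.cons (.leaf 5 0x800000a62100c60200c619009000) (.cons (.leaf 3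
  0xc82100c602009000) .nil)))) .nil))) (.cons (.leaf 3 0x800000b81300a619) (.cons (.splT 0 (.cons
  (.leaf 3 0xa60200c811009000) (.cons (.splS 4 (.cons (.leaf 3 0xa42100c602009000) (.cons (.leaf 5
  0x800000a62100c60200c619009000) (.cons (.leaf 3 0xc82100c602009000) .nil)))) .nil))) .nil))))
  (.cons (.leaf 4 0x800000c40c00a619009030) .nil))) (.cons (.leaf 2 0xc603009020) .nil)))) (.cons
  (.leaf 2 0x800000c819) .nil))))⟩

theorem kc_28_20_ok1 : kc_28_20.ok1 = true := by decide +kernel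

theorem kc_28_20_ok2 : kc_28_20.ok2 = true := by decide +kernel

/-- A certificate. -/
def kc_29_7 : KCert :=
  ⟨29, 7, [0, 2, 3, 4], [0, 1, 2], [-6, 0, -12, 3, -12], [0, -3, -3, 0, 0], 12, 0xf0000000c0006,
  0xc000c00090009000c, 1, 1, 4, 3, 24, [0, 0, 25, 0], 5, [1], (.splS 3 (.cons (.leaf 2
  0x8000008019) (.cons (.leaf 2 0x800000a419) (.cons (.splS 2 (.cons (.leaf 3 0x8000008813008619)
  (.cons (.leaf 3 0x800000a813009619) (.cons (.leaf 3 0x800000b81300a619) (.cons (.splS 1 (.cons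
  (.leaf 2 0x800000840b) (.cons (.splT 0 (.cons (.leaf 2 0x8602009000) (.cons (.leaf 2
  0x900400a409) (.cons (.leaf 3 0xa004009811009030) .nil)))) (.cons (.leaf 4
  0x800000b40b009619009030) (.cons (.leaf 4 0x800000c40b00a619009030) .nil))))) .nil))))) (.cons
  (.leaf 2 0x8819009038) .nil)))))⟩

theorem kc_29_7_ok1 : kc_29_7.ok1 = true := by decide +kernel

theorem kc_29_7_ok2 : kc_29_7.ok2 = true := by decide +kernel

/-- A certificate. -/
def kc_29_12 : KCert :=
  ⟨29, 12, [0, 2, 3, 4], [2, 3], [-21, 0, 7, -7, 14], [0, 0, 0, -28, 0], 28, 0x2a00150023001c0007,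
  0x1c0000001c001c001c, 1, 1, 6, 4, 72, [0, 0, 73, 0], 6, [1], (.splS 0 (.cons (.leaf 2
  0x8000008803) (.cons (.leaf 2 0xa803009010) (.cons (.leaf 2 0xb803009018) (.cons (.splT 2 (.cons
  (.splS 4 (.cons (.splT 6 (.cons (.leaf 4 0x800000a03200882300a021) (.cons (.leaf 3
  0x800000b63200a021) .nil))) (.cons (.leaf 2 0x800000a421) (.cons (.leaf 2 0x800000b621) (.cons
  (.splS 2 (.cons (.leaf 3 0x800000a01100a412) (.cons (.splT 5 (.cons (.leaf 3 0x800000a62c00b821)
  (.cons (.splT 3 (.cons (.splT 6 (.cons (.splT 0 (.cons (.leaf 3 0xa80200a411009000) (.cons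
  (.splS 3 (.cons (.leaf 2 0x841b00b62a) (.cons (.leaf 3 0xa41900b802009000) (.cons (.leaf 6
  0xa61900b80200b62a00a821009040009000) (.cons (.leaf 6 0xa81900b80200b62a00b821009040009000)
  .nil))))) .nil))) (.cons (.leaf 4 0xb43400b63200a821009048) .nil))) (.cons (.leaf 4
  0xb41c00b62a00a821009040) .nil))) .nil))) (.cons (.leaf 2 0xb413009028) (.cons (.leaf 5
  0x800000a81100a82100a412009040) .nil))))) .nil))))) (.cons (.leaf 2 0xb414009028) .nil)))
  .nil)))))⟩

theorem kc_29_12_ok1 : kc_29_12.ok1 = true := by decide +kernel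

theorem kc_29_12_ok2 : kc_29_12.ok2 = true := by decide +kernel

/-- A certificate. -/
def kc_30_5 : KCert :=
  ⟨30, 5, [1, 2, 3, 4], [0, 2], [0, -12, 3, -6, 12], [9, 0, -3, 0, 0], 12, 0x180006000f0000000c,
  0xc000c0009000c0015, 1, 1, 4, 4, 27, [59, 0, 0, 0], 4, [1], (.splS 4 (.cons (.leaf 2
  0x8221009028) (.cons (.leaf 2 0x800000a421) (.cons (.leaf 2 0x8621009038) (.cons (.splS 2 (.cons
  (.leaf 2 0x9413009018) (.cons (.splT 0 (.cons (.leaf 2 0x8802009000) (.cons (.leaf 2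
  0xa00400a411) .nil))) (.cons (.leaf 2 0xb413009028) (.cons (.leaf 4 0x800000c41300a821009040)
  .nil))))) .nil)))))⟩

theorem kc_30_5_ok1 : kc_30_5.ok1 = true := by decide +kernel

theorem kc_30_5_ok2 : kc_30_5.ok2 = true := by decide +kernel

/-- A certificate. -/
def kc_30_7 : KCert :=
  ⟨30, 7, [1, 2, 3, 4], [0, 1, 2], [0, 0, -6, 6, -3], [3, -3, -3, 0, 0], 6, 0x3000c000000060006,
  0x60006000300030009, 1, 1, 4, 3, 24, [0, 0, 53, 0], 5, [1], (.splS 3 (.cons (.leaf 2
  0x8000009219) (.cons (.leaf 2 0x800000a419) (.cons (.splS 2 (.cons (.splS 1 (.cons (.leaf 3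
  0x800000940b009211) (.cons (.splT 0 (.cons (.leaf 2 0x8602009000) (.cons (.leaf 2 0x900400a409)
  (.cons (.leaf 3 0xa602009211009000) .nil)))) (.cons (.leaf 4 0x800000b40b009619009030) (.cons
  (.leaf 4 0x800000c40b00a619009030) .nil))))) (.cons (.leaf 4 0x800000a213009619009030) (.cons
  (.leaf 4 0x800000b21300a619009030) (.cons (.leaf 2 0xc213009030) .nil))))) (.cons (.leaf 2
  0x8819009038) .nil)))))⟩

theorem kc_30_7_ok1 : kc_30_7.ok1 = true := by decide +kernel

theorem kc_30_7_ok2 : kc_30_7.ok2 = true := by decide +kernel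

/-- A certificate. -/
def kc_30_17 : KCert :=
  ⟨30, 17, [1, 2, 3, 4], [0, 4], [0, -30, 10, 30, 10], [20, 0, 0, 0, -40], 40,
  0x3200460032000a0028, 0x2800280028003c, 1, 1, 8, 8, 157, [319, 0, 319, 0], 8, [1], (.splS 8
  (.cons (.leaf 2 0x8241009048) (.cons (.leaf 2 0x8441009050) (.cons (.splS 5 (.cons (.leaf 2
  0x962b009030) (.cons (.leaf 2 0xa62b009038) (.cons (.splT 7 (.cons (.leaf 3 0x800000883c008641)
  (.cons (.splT 5 (.cons (.leaf 2 0x862a009028) (.cons (.splS 9 (.cons (.leaf 2 0x944b00b443)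
  (.cons (.splS 11 (.cons (.leaf 3 0x800000825900c641) (.cons (.leaf 4 0x845900c44900c62a009028)
  (.cons (.splT 10 (.cons (.leaf 4 0x8000008854008659008641) (.cons (.splT 4 (.cons (.leaf 2
  0x8000008824) (.cons (.splT 12 (.cons (.leaf 4 0x800000846200865900c641) (.cons (.splT 1 (.cons
  (.leaf 4 0x880c00844900c62a009058) (.cons (.splS 7 (.cons (.leaf 2 0x983b008641) (.cons (.leaf 2
  0xa83b008449) (.cons (.splS 10 (.cons (.leaf 5 0x800000c25100c63900865900c23a) (.cons (.leaf 6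
  0x1000000c45100c63900865900c23a00c641) (.cons (.leaf 7
  0x800000c65100c63900865900c23a008641009068) (.cons (.leaf 4 0x800000c85100c63900c23a) .nil)))))
  (.cons (.splT 3 (.cons (.splS 4 (.cons (.leaf 2 0x9823009028) (.cons (.leaf 3
  0xa82300861a009018) (.cons (.leaf 4 0x800000c62100c83900c822) (.cons (.splT 0 (.cons (.splT 6
  (.cons (.leaf 4 0x843200860200861a009000) (.cons (.splS 10 (.cons (.leaf 2 0x9853008659) (.cons
  (.leaf 5 0x800000c45100c85200865900c641) (.cons (.leaf 9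
  0xc65100c43200860200861a00865900c44900c62a009028009000) (.cons (.leaf 2 0xc85100c034) .nil)))))
  .nil))) (.cons (.leaf 2 0xc00400c821) .nil))) .nil))))) (.cons (.leaf 2 0xc01c00c839) .nil)))
  .nil))))) .nil))) .nil))) .nil))) .nil))) (.cons (.leaf 3 0x800000c859008641) .nil))))) (.cons
  (.leaf 3 0x800000b44b00c641) (.cons (.leaf 3 0xc84900c62a009028) .nil))))) .nil))) .nil)))
  (.cons (.leaf 2 0xc62b009048) .nil))))) (.cons (.leaf 2 0x800000c841) .nil)))))⟩

theorem kc_30_17_ok1 : kc_30_17.ok1 = true := by decide +kernel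

theorem kc_30_17_ok2 : kc_30_17.ok2 = true := by decide +kernel

/-- A certificate. -/
def kc_31_3 : KCert :=
  ⟨31, 3, [0, 1, 2, 3, 4], [0, 1], [4, 4, 8, -8, -8], [4, 8, 0, 0, 0], 8, 0x10000c000c,
  0x8000800080010000c, 1, 1, 4, 2, 7, [0, 0, 0, 8], 5, [1], (.splS 2 (.cons (.leaf 2 0x8000008011)
  (.cons (.leaf 2 0x8000009211) (.cons (.splS 1 (.cons (.leaf 2 0x800000820b) (.cons (.splT 0
  (.cons (.leaf 2 0x8402009000) (.cons (.leaf 3 0x9402009209009000) .nil))) (.cons (.leaf 4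
  0x800000a20b009411009020) (.cons (.leaf 2 0xb20b009020) (.cons (.leaf 2 0xc20b009028) .nil))))))
  (.cons (.leaf 2 0x8611009028) (.cons (.leaf 2 0x8811009030) .nil))))))⟩

theorem kc_31_3_ok1 : kc_31_3.ok1 = true := by decide +kernel

theorem kc_31_3_ok2 : kc_31_3.ok2 = true := by decide +kernel

/-- A certificate. -/
def kc_31_8 : KCert :=
  ⟨31, 8, [0, 1, 2, 3, 4], [3], [-27, -27, 27, 18, -36], [0, 0, 0, 27, 0], 36, 0x36003f00090009,
  0x24003f002400240024, 1, 0, 10, 2, 128, [0, 0, 532, 0], 10, [1], (.splT 7 (.cons (.splT 6 (.cons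
  (.splT 5 (.cons (.splT 4 (.cons (.splT 3 (.cons (.splT 0 (.cons (.splS 2 (.cons (.leaf 8
  0x800000b02a00b82200b81a00881300841300821300b011) (.cons (.leaf 3 0xb62a00b211009018) (.cons
  (.splS 3 (.cons (.leaf 6 0x800000b02a00b82200881b01021b00b411) (.cons (.splS 4 (.cons (.leaf 8
  0x800000b43a00b83200b02a00882300842300b02100b411) (.cons (.leaf 4 0x800000b63a00b22100b411)
  (.cons (.leaf 3 0xb63a00b42100961b) (.cons (.leaf 6 0x800000b02a00b82301362100981b00b411) (.cons
  (.leaf 5 0xb63a00b62a00b82100b411009040) .nil)))))) (.cons (.leaf 3 0x800000a21b00b411) (.cons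
  (.leaf 3 0xb40200b619009000) (.cons (.leaf 4 0xb42a00c21b00b411009040) .nil)))))) (.cons (.leaf
  2 0x800000b611) (.cons (.leaf 3 0xb62a00b811009030) .nil)))))) .nil)) .nil)) .nil)) .nil))
  .nil)) .nil))⟩

theorem kc_31_8_ok1 : kc_31_8.ok1 = true := by decide +kernel

theorem kc_31_8_ok2 : kc_31_8.ok2 = true := by decide +kernel

/-- A certificate. -/
def kc_31_9 : KCert :=
  ⟨31, 9, [0, 1, 2, 3, 4], [0, 3], [-8, -16, 16, -8, 4], [12, 0, 0, 4, 0], 16,
  0x140008002000000008, 0x10001400100010001c, 1, 1, 6, 2, 45, [0, 0, 200, 0], 6, [1], (.splS 2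
  (.cons (.leaf 2 0x8000008011) (.cons (.leaf 2 0x8211009018) (.cons (.splS 0 (.cons (.leaf 2
  0x8000008403) (.cons (.leaf 2 0x9403009008) (.cons (.splS 4 (.cons (.leaf 3 0x8000008021008411)
  (.cons (.leaf 3 0x800000822100b411) (.cons (.splS 3 (.cons (.leaf 3 0x800000821b008411) (.cons
  (.leaf 2 0x961b008421) (.cons (.leaf 4 0x800000a61b00842100b411) (.cons (.splT 0 (.cons (.leaf 2
  0x8402009000) (.cons (.leaf 2 0xb00400b619) .nil))) (.cons (.leaf 5
  0x800000c21b00b421010411009030) .nil)))))) (.cons (.leaf 3 0x800000b621008411) (.cons (.leaf 3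
  0x8821008411009040) .nil)))))) (.cons (.leaf 2 0xb403009018) (.cons (.leaf 2 0xc403009020)
  .nil)))))) (.cons (.leaf 2 0x800000b611) (.cons (.leaf 2 0x8811009030) .nil))))))⟩

theorem kc_31_9_ok1 : kc_31_9.ok1 = true := by decide +kernel

theorem kc_31_9_ok2 : kc_31_9.ok2 = true := by decide +kernel

/-- A certificate. -/
def kc_31_23 : KCert :=
  ⟨31, 23, [0, 1, 2, 3, 4], [0, 1, 2, 4], [0, 16, -4, 12, -12], [8, 12, 4, 0, -16], 16,
  0x4001c000c00200010, 0x100014001c0018, 1, 1, 4, 3, 26, [0, 0, 57, 0], 5, [1], (.splS 3 (.cons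
  (.leaf 2 0x8000008019) (.cons (.leaf 2 0x8000009219) (.cons (.leaf 2 0x800000a419) (.cons (.splS
  2 (.cons (.leaf 2 0x8000008213) (.cons (.splS 1 (.cons (.leaf 2 0x800000840b) (.cons (.leaf 3
  0x800000940b009211) (.cons (.splT 0 (.cons (.leaf 2 0x8602009000) (.cons (.leaf 3
  0x960200a409009000) (.cons (.leaf 3 0xa602009211009000) (.cons (.leaf 3 0xc004009619009030)
  .nil))))) (.cons (.leaf 4 0x800000b40b009619009030) (.cons (.leaf 4 0x800000c40b00a619009030)
  .nil)))))) (.cons (.leaf 4 0x800000a213009619009030) (.cons (.leaf 4 0x800000b21300a619009030)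
  (.cons (.leaf 2 0xc213009030) .nil)))))) (.cons (.leaf 2 0x800000c819) .nil))))))⟩

theorem kc_31_23_ok1 : kc_31_23.ok1 = true := by decide +kernel

theorem kc_31_23_ok2 : kc_31_23.ok2 = true := by decide +kernel

/-- Certificates. -/
def kd7 : List KCert :=
  [kc_7_2, kc_8_1, kc_9_1, kc_9_2, kc_12_6, kc_12_16, kc_12_23, kc_13_8, kc_14_2, kc_14_9,
  kc_14_22, kc_15_8, kc_15_17, kc_17_11, kc_18_14, kc_18_15, kc_20_4, kc_20_5, kc_21_6, kc_21_15,
  kc_23_4, kc_24_9, kc_24_11, kc_24_15, kc_25_14, kc_27_1, kc_27_11, kc_27_14, kc_27_20, kc_28_2,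
  kc_28_6, kc_28_13, kc_28_20, kc_29_7, kc_29_12, kc_30_5, kc_30_7, kc_30_17, kc_31_3, kc_31_8,
  kc_31_9, kc_31_23]

theorem kd7_ok : AllK kd7 :=
  allK_cons kc_7_2_ok1 kc_7_2_ok2 (
  allK_cons kc_8_1_ok1 kc_8_1_ok2 (
  allK_cons kc_9_1_ok1 kc_9_1_ok2 (
  allK_cons kc_9_2_ok1 kc_9_2_ok2 (
  allK_cons kc_12_6_ok1 kc_12_6_ok2 (
  allK_cons kc_12_16_ok1 kc_12_16_ok2 (
  allK_cons kc_12_23_ok1 kc_12_23_ok2 (
  allK_cons kc_13_8_ok1 kc_13_8_ok2 (
  allK_cons kc_14_2_ok1 kc_14_2_ok2 (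
  allK_cons kc_14_9_ok1 kc_14_9_ok2 (
  allK_cons kc_14_22_ok1 kc_14_22_ok2 (
  allK_cons kc_15_8_ok1 kc_15_8_ok2 (
  allK_cons kc_15_17_ok1 kc_15_17_ok2 (
  allK_cons kc_17_11_ok1 kc_17_11_ok2 (
  allK_cons kc_18_14_ok1 kc_18_14_ok2 (
  allK_cons kc_18_15_ok1 kc_18_15_ok2 (
  allK_cons kc_20_4_ok1 kc_20_4_ok2 (
  allK_cons kc_20_5_ok1 kc_20_5_ok2 (
  allK_cons kc_21_6_ok1 kc_21_6_ok2 (
  allK_cons kc_21_15_ok1 kc_21_15_ok2 (
  allK_cons kc_23_4_ok1 kc_23_4_ok2 (
  allK_cons kc_24_9_ok1 kc_24_9_ok2 (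
  allK_cons kc_24_11_ok1 kc_24_11_ok2 (
  allK_cons kc_24_15_ok1 kc_24_15_ok2 (
  allK_cons kc_25_14_ok1 kc_25_14_ok2 (
  allK_cons kc_27_1_ok1 kc_27_1_ok2 (
  allK_cons kc_27_11_ok1 kc_27_11_ok2 (
  allK_cons kc_27_14_ok1 kc_27_14_ok2 (
  allK_cons kc_27_20_ok1 kc_27_20_ok2 (
  allK_cons kc_28_2_ok1 kc_28_2_ok2 (
  allK_cons kc_28_6_ok1 kc_28_6_ok2 (
  allK_cons kc_28_13_ok1 kc_28_13_ok2 (
  allK_cons kc_28_20_ok1 kc_28_20_ok2 (
  allK_cons kc_29_7_ok1 kc_29_7_ok2 (
  allK_cons kc_29_12_ok1 kc_29_12_ok2 (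
  allK_cons kc_30_5_ok1 kc_30_5_ok2 (
  allK_cons kc_30_7_ok1 kc_30_7_ok2 (
  allK_cons kc_30_17_ok1 kc_30_17_ok2 (
  allK_cons kc_31_3_ok1 kc_31_3_ok2 (
  allK_cons kc_31_8_ok1 kc_31_8_ok2 (
  allK_cons kc_31_9_ok1 kc_31_9_ok2 (
  allK_cons kc_31_23_ok1 kc_31_23_ok2 (
  allK_nil))))))))))))))))))))))))))))))))))))))))))

end Pool.Agent.RatRec
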