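import Pool.Agent.Lib_helper86.RatV.KCert

/-!
Packed certificates of unbounded special cases (data).
-/

set_option autoImplicit false
set_option maxRecDepth 100000

namespace Pool.Agent.RatRec

/-- A certificate. -/
def kc_2_12 : KCert :=
  ⟨2, 12, [1], [2, 3], [0, -4, 0, 0, 0], [0, 0, 0, -4, 0], 4, 0x40004000400000004,
  0x40000000400040004, 0, 1, 4, 7, 8, [-4, -16, -12, 14], 4, [1], (.splS 7 (.cons (.splS 6 (.cons
  (.splS 5 (.cons (.splS 4 (.cons (.splS 3 (.cons (.splT 6 (.cons (.splT 5 (.cons (.splT 3 (.cons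
  (.leaf 3 0x800000a22900a61c) (.cons (.splT 2 (.cons (.leaf 3 0x800000b22100a614) (.cons (.splT 0
  (.cons (.splT 1 (.cons (.leaf 7 0x800000a22900b22100b21900a20a00a202009000) (.cons (.leaf 5
  0xa22900a22100b20a00a202009000) .nil))) (.cons (.leaf 4 0xa22900b40400b212009030) .nil)))
  .nil))) .nil))) (.cons (.leaf 2 0xb42c009040) .nil))) (.cons (.leaf 4 0x800000a23900a23100b232)
  .nil))) .nil)) .nil)) .nil)) .nil)) .nil))⟩

theorem kc_2_12_ok1 : kc_2_12.ok1 = true := by decide +kernel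

theorem kc_2_12_ok2 : kc_2_12.ok2 = true := by decide +kernel

/-- A certificate. -/
def kc_4_2 : KCert :=
  ⟨4, 2, [2], [1], [0, 0, 1, 0, 0], [0, -1, 0, 0, 0], 1, 0x10001000200010001, 0x10001000100000001,
  0, 0, 4, 2, 5, [-6, 0, 6, 0], 4, [1], (.splT 0 (.cons (.splS 2 (.cons (.splS 1 (.cons (.leaf 6
  0x8000009411009409009402009020009000) .nil)) .nil)) .nil))⟩

theorem kc_4_2_ok1 : kc_4_2.ok1 = true := by decide +kernel

theorem kc_4_2_ok2 : kc_4_2.ok2 = true := by decide +kernel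

/-- A certificate. -/
def kc_5_9 : KCert :=
  ⟨5, 9, [0, 2], [0, 3], [3, 0, 0, 0, 0], [-3, 0, 0, 3, 0], 3, 0x30003000300030006,
  0x30006000300030000, 1, 1, 6, 2, 15, [9, 7, -6, 16], 7, [1], (.splS 2 (.cons (.leaf 2
  0x8000008011) (.cons (.splT 1 (.cons (.leaf 3 0x800000860c008411) (.cons (.splS 3 (.cons (.splS
  0 (.cons (.leaf 2 0x8000008403) (.cons (.splT 0 (.cons (.leaf 2 0x8402009000) (.cons (.splS 4
  (.cons (.leaf 3 0x8000008021008411) (.cons (.leaf 6 0x800000842100b40200b019008411009000)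
  .nil))) .nil))) .nil))) (.cons (.leaf 3 0xa01b00b411009020) .nil))) .nil))) .nil)))⟩

theorem kc_5_9_ok1 : kc_5_9.ok1 = true := by decide +kernel

theorem kc_5_9_ok2 : kc_5_9.ok2 = true := by decide +kernel

/-- A certificate. -/
def kc_7_8 : KCert :=
  ⟨7, 8, [0, 1, 2], [3], [8, -8, 8, 0, 0], [0, 0, 0, 0, 0], 8, 0x80008001000000010,
  0x80008000800080008, 1, 0, 10, 8, 35, [0, 0, 75, 0], 10, [1], (.splT 14 (.cons (.splT 13 (.cons
  (.splT 12 (.cons (.splT 11 (.cons (.splT 10 (.cons (.splT 6 (.cons (.splT 4 (.cons (.splT 2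
  (.cons (.splT 0 (.cons (.splS 6 (.cons (.leaf 2 0x8000008433) (.cons (.leaf 2 0x9433009038)
  (.cons (.splS 8 (.cons (.leaf 6 0xb46200b45a00b45200844300b041009078) (.cons (.splS 9 (.cons
  (.leaf 6 0xb46a00b46200b45a00b04900b241009080) (.cons (.splS 10 (.cons (.leaf 7
  0xb46a00b46200b05a00b05100b24900b241009080) (.cons (.leaf 3 0x905300b241009048) (.cons (.leaf 3
  0xa05300b249009443) .nil)))) (.cons (.leaf 7 0xb46a00b46200b45a00b449013241009080009048)
  .nil)))) (.cons (.splS 10 (.cons (.leaf 7 0xb46a00b46200b05a00845300b05100b441009080) (.cons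
  (.leaf 8 0xb47200b46a00b46200945300b251013441009088009050) (.cons (.splS 9 (.cons (.leaf 9
  0xb46a00b46200b05a01343201304900b45100b441009080011030) (.cons (.splS 14 (.cons (.leaf 6
  0x800000b26a00b25a00847300b45100b441) (.cons (.leaf 6 0xb46a00b43200947300b24900b451009030)
  (.cons (.splS 7 (.cons (.leaf 2 0x800000823b) (.cons (.splS 5 (.cons (.leaf 7
  0xb43200b42200b41200842b00b02900943b009010) (.cons (.splS 3 (.cons (.leaf 7
  0xb42200b41200b40200b01900942b00b229009000) (.cons (.leaf 5 0xb41200b40200b21900b229009000)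
  (.cons (.leaf 8 0xb42200b41200b40200b41901322900b23900904b009000) .nil)))) (.cons (.leaf 10
  0xb46a00b46200b05a01343201222b01323901324900b45100b441009080) .nil)))) (.cons (.splS 5 (.cons
  (.leaf 13 0xb47200b46a00b46201343201342201341201042b01302901324900b451009088009050011010) (.cons
  (.leaf 7 0xb42200b41200b22900b43900b24900a053009010) (.cons (.leaf 13
  0xb47200b46a00b46200b43200b42200b41200b42901343901b24900a05300b451009088009010) .nil))))
  .nil)))) .nil)))) (.cons (.leaf 3 0x800000a24b00b441) .nil)))) .nil)))) .nil)))) .nil)))) .nil))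
  .nil)) .nil)) .nil)) .nil)) .nil)) .nil)) .nil)) .nil))⟩

theorem kc_7_8_ok1 : kc_7_8.ok1 = true := by decide +kernel

theorem kc_7_8_ok2 : kc_7_8.ok2 = true := by decide +kernel

/-- A certificate. -/
def kc_8_23 : KCert :=
  ⟨8, 23, [3], [0, 1, 2, 4], [0, 0, 0, 9, 0], [6, 12, 3, 0, 0], 0, 0x9000000000000, 0x3000c0006,
  0, 1, 4, 3, 10, [0, 0, 60, 0], 5, [1], (.splS 3 (.cons (.splS 2 (.cons (.splS 1 (.cons (.splT 0
  (.cons (.leaf 2 0x8602009000) (.cons (.leaf 6 0x800000961900a609009602009030009000) (.cons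
  (.leaf 6 0x800000a61900961100a602009030009000) (.cons (.leaf 3 0x961900c004009030) .nil)))))
  .nil)) .nil)) .nil))⟩

theorem kc_8_23_ok1 : kc_8_23.ok1 = true := by decide +kernel

theorem kc_8_23_ok2 : kc_8_23.ok2 = true := by decide +kernel

/-- A certificate. -/
def kc_10_1 : KCert :=
  ⟨10, 1, [1, 3], [0], [0, 1, 0, -1, 0], [-1, 0, 0, 0, 0], 1, 0x10000000100020001,
  0x10001000100010000, 1, 0, 4, 1, 1, [0, 0, 0, 0], 4, [1], (.splT 0 (.cons (.leaf 2 0x8202009000)
  .nil))⟩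

theorem kc_10_1_ok1 : kc_10_1.ok1 = true := by decide +kernel

theorem kc_10_1_ok2 : kc_10_1.ok2 = true := by decide +kernel

/-- A certificate. -/
def kc_11_6 : KCert :=
  ⟨11, 6, [0, 1, 3], [1, 2], [4, 0, 0, -4, 0], [0, 4, -4, 0, 0], 4, 0x40000000400040008,
  0x40004000000080004, 1, 1, 4, 3, 23, [0, 0, 0, 51], 6, [1], (.splS 2 (.cons (.leaf 2
  0x8000008213) (.cons (.splT 2 (.cons (.splT 1 (.cons (.leaf 3 0x800000940c009211) (.cons (.splT
  0 (.cons (.splS 1 (.cons (.leaf 4 0x800000a009009404009212) (.cons (.leaf 5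
  0x800000a209009602009211009000) (.cons (.splS 3 (.cons (.leaf 5 0x1000000901900a609009404009212)
  (.cons (.leaf 2 0x8000009219) (.cons (.leaf 6 0x800000961900a609009404009212009030) .nil))))
  .nil)))) (.cons (.leaf 3 0xa602009211009000) .nil))) .nil))) (.cons (.leaf 2 0xa214009020)
  .nil))) (.cons (.leaf 2 0xb213009028) .nil))))⟩

theorem kc_11_6_ok1 : kc_11_6.ok1 = true := by decide +kernel

theorem kc_11_6_ok2 : kc_11_6.ok2 = true := by decide +kernel

/-- A certificate. -/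
def kc_11_20 : KCert :=
  ⟨11, 20, [0, 1, 3], [2, 4], [13, -13, 0, 13, 0], [0, 0, 13, 0, 0], 13, 0xd001a000d0000001a,
  0xd000d001a000d000d, 1, 1, 8, 6, 112, [0, 0, 113, 0], 8, [1], (.splS 3 (.cons (.leaf 2
  0x800000861b) (.cons (.leaf 2 0x961b009020) (.cons (.splT 4 (.cons (.splS 5 (.cons (.leaf 2
  0x800000822b) (.cons (.splT 6 (.cons (.splT 5 (.cons (.splS 4 (.cons (.leaf 5
  0x800001202100a22a00a62200a222) (.cons (.splS 2 (.cons (.leaf 5 0x800001061300a22100a22a00a622)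
  (.cons (.leaf 4 0x961300962300a22a00a619) (.cons (.splS 1 (.cons (.splT 3 (.cons (.splT 2 (.cons
  (.leaf 5 0x800000a61200c61100a221009028) (.cons (.splT 0 (.cons (.splS 0 (.cons (.splS 6 (.cons
  (.splT 8 (.cons (.leaf 4 0x1000000a04201203100a834) (.cons (.leaf 3 0xc04200a031009060) .nil)))
  (.cons (.leaf 4 0x903300860300a61a00a229) (.cons (.leaf 4 0xb03300860300a61a00c229) .nil))))
  (.cons (.leaf 5 0x800000a20100a60200a61a00c009) (.cons (.splT 7 (.cons (.splT 8 (.cons (.splS 6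
  (.cons (.leaf 4 0x1000001203100a04200a834) (.cons (.leaf 7
  0x800001223100a04200a22100a83400a22900a622) (.cons (.leaf 8
  0x1800002263101224200a22100a22a01283401422900a622) .nil)))) (.cons (.splS 6 (.cons (.leaf 3
  0xa03100c042009060) (.cons (.splS 7 (.cons (.splT 9 (.cons (.leaf 7
  0x1000001264a01a03901a23101404201283c00a632) (.cons (.leaf 5 0xc64a00a03900a23100c042009068)
  .nil))) (.cons (.leaf 7 0x800001223901223101203a00a22100a22900a622) (.cons (.leaf 8
  0x800001263901223101203a00a22101283400a22900a622) .nil)))) (.cons (.splS 7 (.cons (.leaf 5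
  0xa03901263101404200a82c011060) (.cons (.leaf 5 0x1000001223901263100a03a00a82c) (.cons (.leaf 6
  0x1000001263901263100a03a00a82c012834) .nil)))) .nil)))) .nil))) (.cons (.splS 8 (.cons (.splT 9
  (.cons (.leaf 3 0xa04a01064300c43c) (.cons (.splS 10 (.cons (.leaf 4 0x1065300c44c00c04a00c43c)
  (.cons (.leaf 2 0x965300c44c) (.cons (.splT 10 (.cons (.leaf 6
  0x1265201464a01064300a04101443c00a834) (.cons (.splS 6 (.cons (.leaf 6
  0xc03100c65200c04a00864300c43c009070) (.cons (.splS 7 (.cons (.leaf 5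
  0xa03900c23100c65200c04a009070) (.cons (.leaf 7 0x800001423901223101403a00a22100a22900a622)
  (.cons (.leaf 8 0x800001463901223101403a00a22101283400a22900a622) .nil)))) (.cons (.leaf 5
  0xc63100c65200c44c00c43c009070) .nil)))) .nil))) .nil)))) .nil))) (.cons (.leaf 2 0x964300c43c)
  (.cons (.splT 8 (.cons (.splS 6 (.cons (.leaf 5 0x1000001203100a64200b04300a834) (.cons (.leaf 8
  0x800001223100a64200b04300a22100a83400a22900a622) (.cons (.leaf 9
  0x1800002263101264201443c00a22100a22a01283401422900a622) .nil)))) (.cons (.splS 6 (.cons (.leaf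
  3 0xa03100c042009060) (.cons (.splS 7 (.cons (.leaf 5 0xc03900a23100c04200b043009060) (.cons
  (.leaf 4 0x800000c23900a23100b043) (.cons (.leaf 6 0x800001c63900a23100a64101403a012834)
  .nil)))) (.cons (.leaf 4 0xa63100c64200c43c009060) .nil)))) .nil))) .nil)))) .nil))) .nil))))
  (.cons (.leaf 3 0xc40400c61200a221) .nil))) .nil))) (.cons (.leaf 2 0xc41c009623) .nil))) (.cons
  (.leaf 3 0x900b00c611009028) (.cons (.leaf 3 0xb00b00a221009028) .nil)))) .nil)))) (.cons (.splT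
  2 (.cons (.leaf 4 0x800000a81400a621009038) (.cons (.splS 6 (.cons (.leaf 6
  0x800001203100a62100a22a01223200a222) (.cons (.splS 7 (.cons (.splS 8 (.cons (.splT 8 (.cons
  (.leaf 4 0xa04200c23100a231011038) (.cons (.splT 9 (.cons (.leaf 9
  0x1800001264a01404201403901203901223100a62100a22a00a222) (.cons (.leaf 5
  0xc64a00c04200a03900a231009068) .nil))) .nil))) (.cons (.leaf 6
  0x800001104301203900a62100a22a00a222) (.cons (.leaf 6 0x800001304301403900a62100a22a00a222)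
  .nil)))) (.cons (.leaf 3 0x903b00a231009038) (.cons (.leaf 3 0xb03b00c231009038) .nil)))) (.cons
  (.splS 7 (.cons (.leaf 7 0x800000a03900a63100a62100a22a00a23200a222) (.cons (.leaf 6
  0x1800001223901263100a62100a22a00a222) (.cons (.leaf 7
  0x1800001263901263100a62100a22a01283400a222) .nil)))) .nil)))) .nil))) .nil)))) (.cons (.splS 6
  (.cons (.splT 8 (.cons (.leaf 4 0x1000000a04201203100a834) (.cons (.leaf 3 0xc04200a031009060)
  .nil))) (.cons (.leaf 2 0x963300c42c) (.cons (.splT 8 (.cons (.leaf 5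
  0x800000a24201263100a834009048) (.cons (.splS 9 (.cons (.leaf 4 0x800000864b00c24200a631) (.cons
  (.leaf 6 0x800000964b00c24201263100a834009048) (.cons (.splT 7 (.cons (.splS 7 (.cons (.splT 3
  (.cons (.splS 4 (.cons (.splS 8 (.cons (.leaf 6 0x800000c04100a02100c24200c22a00a222) (.cons
  (.splS 2 (.cons (.leaf 5 0x800000821300a02100a61a00a222) (.cons (.splT 0 (.cons (.leaf 3
  0xa60200c211009000) (.cons (.leaf 6 0x800000c60201202100a61a00a222009000) .nil))) (.cons (.leaf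
  5 0x800000b21301202100a61a012222) .nil)))) (.cons (.leaf 7
  0x800000c64101202100a64901422a00a632012222) .nil)))) (.cons (.splT 2 (.cons (.leaf 6
  0x1000001281401222100a03a00c22900a229) (.cons (.splT 0 (.cons (.splS 2 (.cons (.leaf 6
  0x800001401100a80400c21200a61a00a222) (.cons (.leaf 3 0xc21100a602009000) (.cons (.splS 1 (.cons
  (.splS 0 (.cons (.leaf 5 0x1060301261a00a03a00c22900a229) (.cons (.leaf 5
  0x800000a20100c00900a60200a61a) (.cons (.splT 9 (.cons (.leaf 8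
  0xa64a00c61100a60200a61a00c64200a631014229009000) (.cons (.splT 10 (.cons (.leaf 8
  0xa65200c64a00c61100a60200a61a00c631014229009000) (.cons (.leaf 11
  0xc65200c64a00c61100a60200a61a00c24200c63100a631014229009070009000) .nil))) .nil))) .nil))))
  (.cons (.leaf 5 0x1100b01461100a03a00c22900a229) (.cons (.leaf 5
  0x1300b01222100a03a00c22900a229) .nil)))) .nil)))) (.cons (.leaf 3 0xc40400c61200a221) .nil)))
  .nil))) (.cons (.leaf 5 0x800000a62100a03900c22a00a222) .nil)))) (.cons (.leaf 4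
  0x800000c41c00a03900c22a) .nil))) (.cons (.leaf 3 0x903b00a631009048) (.cons (.splS 10 (.cons
  (.leaf 6 0x800000a05100a63900a03a00c24200a631) (.cons (.leaf 7
  0x800000a25101263901203a00a64900a63100a834) (.cons (.leaf 7
  0x800000a65101263901203a00c64900a63100a834) .nil)))) .nil)))) (.cons (.leaf 4
  0xc43c00c64200a631009060) .nil))) .nil)))) .nil))) .nil)))) .nil))) (.cons (.splS 7 (.cons
  (.splT 8 (.cons (.leaf 3 0xa04201063b00c434) (.cons (.splS 9 (.cons (.leaf 4
  0x1064b00c44400c04200c434) (.cons (.leaf 2 0x964b00c444) (.cons (.splS 10 (.cons (.leaf 3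
  0xa05100c04200c434) (.cons (.leaf 3 0xa25100c64200c434) (.cons (.splT 9 (.cons (.leaf 4
  0xa84c00a65100c64200c434) (.cons (.splS 6 (.cons (.leaf 5 0x863300a03100c64a00c042009068) (.cons
  (.leaf 5 0xa23100c64a00c04200a039009068) (.cons (.splT 5 (.cons (.leaf 6
  0xa82c00a63100c64a00c04200a039009068) (.cons (.splS 4 (.cons (.leaf 7
  0x800001202101422a00a65100c64900c632012222) (.cons (.splT 7 (.cons (.splT 3 (.cons (.splT 2
  (.cons (.leaf 6 0x1000001281400a03a01222100c22900a229) (.cons (.splT 0 (.cons (.splS 2 (.cons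
  (.leaf 6 0x800001401100a80400c21200a61a00a222) (.cons (.leaf 3 0xc21100a602009000) (.cons (.splT
  10 (.cons (.leaf 8 0xa65200c61100a60200a61a00c63100c64a014229009000) (.cons (.leaf 11
  0xc65200c61100a60200a61a00c63100a63100c64a00c242014229009070009000) .nil))) .nil)))) (.cons
  (.leaf 3 0xc40400c61200a221) .nil))) .nil))) (.cons (.leaf 4 0x800000c41c00c22a00a039) .nil)))
  (.cons (.leaf 4 0xc43c00a63100c642009060) .nil))) (.cons (.leaf 5
  0x800000a62100c22a00a03900a222) .nil)))) .nil))) .nil)))) .nil))) .nil)))) .nil)))) .nil)))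
  (.cons (.leaf 2 0x963b00c434) (.cons (.splS 6 (.cons (.leaf 3 0x800000c03100b03b) (.cons (.leaf
  3 0xc23100b03b009038) (.cons (.splS 4 (.cons (.splT 5 (.cons (.leaf 6
  0x1000000a22a00a02100c63100a63900a222) (.cons (.splT 8 (.cons (.leaf 5
  0x800000a24200c63100a631009048) (.cons (.splS 9 (.cons (.leaf 4 0x800000864b00c24200a631) (.cons
  (.leaf 6 0x800000964b00c24200c63100a631009048) (.cons (.splS 10 (.cons (.leaf 5
  0x800000a05100c24200a63100b03b) (.cons (.leaf 5 0x800000a25100a64900c63101303b) (.cons (.leaf 5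
  0x800000a65100c64900c63101303b) .nil)))) .nil)))) .nil))) .nil))) (.cons (.leaf 4
  0x902300c63100b03b00c229) (.cons (.leaf 5 0x800000a62100c63100a63900a022) .nil)))) .nil))))
  .nil)))) .nil))) (.cons (.splS 6 (.cons (.leaf 3 0x1000000a03100b22b) (.cons (.leaf 4
  0x800000a23100b22b009038) (.cons (.leaf 4 0x800000a63100b22b009048) .nil)))) .nil)))) (.cons
  (.leaf 2 0xc424009040) .nil))) .nil))))⟩

theorem kc_11_20_ok1 : kc_11_20.ok1 = true := by decide +kernel

theorem kc_11_20_ok2 : kc_11_20.ok2 = true := by decide +kernel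

/-- A certificate. -/
def kc_12_9 : KCert :=
  ⟨12, 9, [2, 3], [0, 3], [0, 0, 6, -3, 0], [3, 0, 0, 6, 0], 3, 0x30000000900030003,
  0x30009000300030006, 1, 1, 6, 2, 9, [0, 10, 0, 10], 7, [1], (.splS 2 (.cons (.splT 1 (.cons
  (.leaf 3 0x800000860c008411) (.cons (.splS 0 (.cons (.splT 0 (.cons (.leaf 2 0x8402009000)
  (.cons (.splS 3 (.cons (.splS 4 (.cons (.leaf 6 0x800000842100b41900b40200b411009000) (.cons
  (.leaf 3 0x800000b621008411) .nil))) (.cons (.leaf 2 0xb61900b004) .nil))) .nil))) (.cons (.leaf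
  2 0xb403009018) .nil))) .nil))) (.cons (.leaf 2 0x800000b611) .nil)))⟩

theorem kc_12_9_ok1 : kc_12_9.ok1 = true := by decide +kernel

theorem kc_12_9_ok2 : kc_12_9.ok2 = true := by decide +kernel

/-- A certificate. -/
def kc_12_20 : KCert :=
  ⟨12, 20, [2, 3], [2, 4], [0, 0, -4, 0, 0], [0, 0, 4, 0, 4], 4, 0x40004000000040004,
  0x80004000800040004, 1, 1, 6, 3, 2, [0, -9, -9, 9], 6, [1], (.splS 3 (.cons (.leaf 2
  0x800000a419) (.cons (.splS 4 (.cons (.splS 1 (.cons (.splT 1 (.cons (.splS 0 (.cons (.leaf 2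
  0xa603009010) (.cons (.splT 0 (.cons (.splS 2 (.cons (.leaf 3 0xa41100a602009000) (.cons (.leaf
  5 0x800000c61100a60200a619009000) .nil))) (.cons (.leaf 3 0xc60200a421009000) .nil))) .nil)))
  (.cons (.leaf 5 0x800000c40a00a40900a619009030) .nil))) (.cons (.leaf 3 0x800000b40b00a421)
  .nil))) (.cons (.leaf 3 0x800000b42300c619) .nil))) .nil)))⟩

theorem kc_12_20_ok1 : kc_12_20.ok1 = true := by decide +kernel

theorem kc_12_20_ok2 : kc_12_20.ok2 = true := by decide +kernel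

/-- A certificate. -/
def kc_13_22 : KCert :=
  ⟨13, 22, [0, 2, 3], [1, 2, 4], [-4, 0, -2, -4, 0], [0, -2, 4, 0, -2], 4, 0x40000000200040000,
  0x20004000800020004, 1, 1, 6, 3, 13, [-7, 6, -3, 14], 6, [1], (.splS 1 (.cons (.leaf 2
  0x800000840b) (.cons (.splT 1 (.cons (.leaf 2 0x940c009010) (.cons (.splS 3 (.cons (.splT 5
  (.cons (.leaf 4 0x800000902a00861b00a019) (.cons (.leaf 4 0x1000000a02a00c01900a019) (.cons
  (.leaf 3 0xc02a00a019009048) .nil)))) (.cons (.leaf 2 0x800000a419) (.cons (.splS 4 (.cons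
  (.leaf 2 0x842300b01b) (.cons (.splS 2 (.cons (.splT 0 (.cons (.leaf 3 0x960200a409009000)
  (.cons (.leaf 4 0x800000a20400901100a40a) (.cons (.leaf 3 0xc60200a421009000) .nil)))) (.cons
  (.leaf 2 0xa01300a421) (.cons (.leaf 3 0xb01300a619009030) .nil)))) (.cons (.leaf 3
  0x800000b42300c619) .nil)))) .nil)))) (.cons (.leaf 2 0xc40c009028) .nil)))) (.cons (.leaf 2
  0xb40b009020) .nil))))⟩

theorem kc_13_22_ok1 : kc_13_22.ok1 = true := by decide +kernel

theorem kc_13_22_ok2 : kc_13_22.ok2 = true := by decide +kernel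

/-- A certificate. -/
def kc_14_1 : KCert :=
  ⟨14, 1, [1, 2, 3], [0], [0, 1, -1, -1, 0], [-1, 0, 0, 0, 0], 1, 0x10000000000020001,
  0x10001000100010000, 1, 0, 4, 1, 1, [0, 0, 0, 0], 4, [1], (.splT 0 (.cons (.leaf 2 0x8202009000)
  .nil))⟩

theorem kc_14_1_ok1 : kc_14_1.ok1 = true := by decide +kernel

theorem kc_14_1_ok2 : kc_14_1.ok2 = true := by decide +kernel

/-- A certificate. -/
def kc_14_17 : KCert :=
  ⟨14, 17, [1, 2, 3], [0, 4], [0, -16, 0, 8, 0], [0, 0, 0, 0, 0], 16, 0x100018001000000010,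
  0x100010001000100010, 1, 1, 8, 8, 46, [0, 47, 0, 47], 9, [1], (.splS 5 (.cons (.leaf 2
  0x962b009030) (.cons (.leaf 2 0xa62b009038) (.cons (.splT 5 (.cons (.leaf 2 0x862a009028) (.cons
  (.splT 4 (.cons (.leaf 2 0x8000008824) (.cons (.splT 1 (.cons (.leaf 3 0x880c00c62a009048)
  (.cons (.splS 8 (.cons (.leaf 2 0x8241009048) (.cons (.splS 7 (.cons (.leaf 2 0x963b008441)
  (.cons (.leaf 3 0xa63b008441009048) (.cons (.splS 10 (.cons (.leaf 2 0x825100a643) (.cons (.leaf
  3 0x800000845100c441) (.cons (.splS 9 (.cons (.leaf 4 0xc24900865100c62a009028) (.cons (.leaf 5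
  0xc44900865100a64300c62a009028) (.cons (.leaf 6 0x800000c64900865100c44100c62a009028) .nil))))
  .nil)))) .nil)))) (.cons (.splS 9 (.cons (.leaf 2 0x944b00b443) (.cons (.splS 11 (.cons (.leaf 3
  0x800000825900c641) (.cons (.leaf 4 0x845900c44900c62a009028) (.cons (.splS 12 (.cons (.leaf 2
  0x946300b45b) (.cons (.splT 7 (.cons (.leaf 3 0x800000883c008641) (.cons (.splT 10 (.cons (.leaf
  4 0x8000008854008659008641) (.cons (.splT 12 (.cons (.leaf 4 0x800000846200865900c641) (.cons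
  (.splS 6 (.cons (.leaf 2 0x9433009038) (.cons (.splS 10 (.cons (.splT 6 (.cons (.splS 3 (.cons
  (.leaf 3 0x961b008432009020) (.cons (.leaf 3 0xa61b008432009028) (.cons (.splT 3 (.cons (.leaf 3
  0x861a008432009018) (.cons (.splS 7 (.cons (.leaf 5 0xc23900c61a008432008641009018) (.cons
  (.leaf 5 0xc43900c61a008632008641009018) (.cons (.leaf 5 0x800000c63900c25100c23a008659)
  .nil)))) .nil))) .nil)))) (.cons (.leaf 3 0xc03400c251008659) .nil))) (.cons (.leaf 4
  0x800000c45100c25200c641) (.cons (.splS 7 (.cons (.splT 9 (.cons (.leaf 6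
  0x800000844a00c65100c25200c449008641) (.cons (.splT 3 (.cons (.splT 6 (.cons (.leaf 3
  0x843200861a009018) (.cons (.splS 4 (.cons (.leaf 7 0x942300c43200c65100865900c44900c62a011028)
  (.cons (.splT 0 (.cons (.leaf 9 0x1060200c43200861a00841a00c65100865900c44900c62a011000) (.cons
  (.leaf 4 0xc60200c42100861a009000) .nil))) (.cons (.leaf 11
  0x1000001462100c43201423900c65100865900c44901064100c42200c22200c62a) .nil)))) .nil))) (.cons
  (.leaf 3 0xc01c00c239008641) .nil))) .nil))) (.cons (.leaf 6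
  0x800000c43900c65100c25200c23a00c449) (.cons (.leaf 8
  0x800000c63900c65100c23a00865900c44900c62a009028) .nil)))) .nil)))) (.cons (.splS 10 (.cons
  (.splS 7 (.cons (.leaf 2 0x943b00b433) (.cons (.splT 6 (.cons (.splT 3 (.cons (.leaf 3
  0x861a008432009018) (.cons (.leaf 5 0xc61a00843200c439008449009018) .nil))) (.cons (.leaf 3
  0xc03400c251008659) .nil))) (.cons (.leaf 5 0x800000c63900c25100c23a008659) .nil)))) (.cons
  (.leaf 4 0x800000c45100c25200c641) (.cons (.leaf 5 0x800000c65100b43300c25200c449) .nil))))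
  .nil)))) .nil))) .nil))) .nil))) (.cons (.leaf 4 0x800000b46300c659008641) .nil)))) .nil))))
  (.cons (.leaf 3 0x800000b44b00c641) .nil)))) .nil)))) .nil))) .nil))) .nil))) .nil))))⟩

theorem kc_14_17_ok1 : kc_14_17.ok1 = true := by decide +kernel

theorem kc_14_17_ok2 : kc_14_17.ok2 = true := by decide +kernel

/-- A certificate. -/
def kc_16_14 : KCert :=
  ⟨16, 14, [4], [1, 2, 3], [0, 0, 0, 0, 1], [0, -1, -1, -1, 0], 1, 0x20001000100010001,
  0x10000000000000001, 0, 1, 4, 4, 6, [7, 0, 0, 0], 4, [1], (.splS 4 (.cons (.splS 3 (.cons (.splS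
  2 (.cons (.splS 1 (.cons (.splT 0 (.cons (.leaf 6 0x800000982100b809009802009040009000) (.cons
  (.leaf 6 0x800000a82100a81100a802009040009000) (.cons (.leaf 6
  0x800000b82100981900b802009040009000) .nil)))) .nil)) .nil)) .nil)) .nil))⟩

theorem kc_16_14_ok1 : kc_16_14.ok1 = true := by decide +kernel

theorem kc_16_14_ok2 : kc_16_14.ok2 = true := by decide +kernel

/-- A certificate. -/
def kc_17_4 : KCert :=
  ⟨17, 4, [0, 4], [2], [1, 0, 0, 0, -1], [0, 0, -1, 0, 0], 1, 0x1000100010002,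
  0x10001000000010001, 1, 0, 4, 4, 5, [0, 6, 0, 0], 5, [1], (.splT 0 (.cons (.splS 2 (.cons (.leaf
  4 0x800000a80200a011009000) (.cons (.splS 4 (.cons (.leaf 5 0x1000000a80200a02100a811009000)
  (.cons (.leaf 6 0x800000a80200a82100a811009040009000) .nil))) .nil))) .nil))⟩

theorem kc_17_4_ok1 : kc_17_4.ok1 = true := by decide +kernel

theorem kc_17_4_ok2 : kc_17_4.ok2 = true := by decide +kernel

/-- A certificate. -/
def kc_17_6 : KCert :=
  ⟨17, 6, [0, 4], [1, 2], [0, 0, 0, 0, 7], [0, 0, -7, 0, 0], 7, 0xe0007000700070007,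
  0x70007000000070007, 1, 1, 4, 7, 82, [83, 0, 0, 0], 4, [1], (.splT 6 (.cons (.splS 3 (.cons
  (.leaf 2 0x800000881b) (.cons (.splS 7 (.cons (.splS 5 (.cons (.splS 4 (.cons (.splT 3 (.cons
  (.splT 5 (.cons (.leaf 6 0x800000902a00981a00a02100a029009018) (.cons (.splS 1 (.cons (.splS 0
  (.cons (.leaf 3 0x880300981a009018) (.cons (.splT 0 (.cons (.leaf 4 0x980200a00900981a009000)
  (.cons (.splS 2 (.cons (.leaf 4 0x901100a80200981a009000) (.cons (.leaf 6
  0x981100a80201181a00a021009018009000) .nil))) .nil))) .nil))) (.cons (.leaf 3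
  0x800000c00b00a029) .nil))) .nil))) (.cons (.leaf 4 0x800000a81a00a029009018) .nil))) (.cons
  (.leaf 3 0x800000c023009039) .nil))) (.cons (.leaf 3 0x800000c02b00a039) .nil))) (.cons (.splT 7
  (.cons (.splS 6 (.cons (.splT 5 (.cons (.leaf 3 0x1000000942c009031) (.cons (.splT 4 (.cons
  (.splS 2 (.cons (.splS 5 (.cons (.splT 3 (.cons (.splT 2 (.cons (.leaf 6
  0x800000901201202900a011011022009819) (.cons (.splS 1 (.cons (.splT 0 (.cons (.leaf 4
  0x980200a00900981a009000) (.cons (.leaf 6 0x800000a80201202900a011011022009000) .nil))) (.cons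
  (.leaf 3 0x800000c00b00a029) .nil))) .nil))) (.cons (.leaf 4 0x1000000a21c012029009022) .nil)))
  (.cons (.splT 3 (.cons (.splT 2 (.cons (.leaf 8
  0x800000901201282900a01101182201183a012839009819) (.cons (.splS 1 (.cons (.splT 0 (.cons (.leaf
  4 0x980200a00900981a009000) (.cons (.leaf 8 0x800000a80201282900a011011022012839011058009000)
  .nil))) (.cons (.leaf 5 0x800000c00b00a82900a839009058) .nil))) .nil))) (.cons (.leaf 7
  0x1000000a81a012829009022012839009819011058) .nil))) .nil))) (.cons (.leaf 3 0x800000c013009031)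
  .nil))) (.cons (.leaf 3 0xa22400a02a009031) .nil))) .nil))) (.cons (.splT 5 (.cons (.leaf 4
  0x800000942c009831009050) (.cons (.splS 5 (.cons (.splT 3 (.cons (.splS 1 (.cons (.splS 0 (.cons
  (.leaf 3 0x880300981a009018) (.cons (.splT 0 (.cons (.leaf 4 0x980200a00900981a009000) (.cons
  (.splS 2 (.cons (.leaf 4 0x901100a80200981a009000) (.cons (.leaf 6
  0x981100a80200981a009831009050009000) .nil))) .nil))) .nil))) (.cons (.leaf 3
  0x800000c00b00a029) .nil))) (.cons (.leaf 4 0x800000a81a00a029009018) .nil))) (.cons (.splT 3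
  (.cons (.splS 1 (.cons (.splS 0 (.cons (.leaf 3 0x880300981a009018) (.cons (.splT 0 (.cons
  (.leaf 4 0x980200a00900981a009000) (.cons (.splS 2 (.cons (.leaf 4 0x901100a80200981a009000)
  (.cons (.leaf 6 0x981100a80200981a009831009050009000) .nil))) .nil))) .nil))) (.cons (.leaf 5
  0x800000c00b00a82900a839009058) .nil))) (.cons (.leaf 6 0x800000a81a00a82900a839009058009018)
  .nil))) .nil))) .nil))) .nil))) (.cons (.splS 6 (.cons (.splT 5 (.cons (.leaf 3
  0x1000000942c009031) (.cons (.splT 4 (.cons (.splS 2 (.cons (.splS 5 (.cons (.splS 4 (.cons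
  (.splT 3 (.cons (.splT 2 (.cons (.leaf 6 0x800000901201202900a011011022009819) (.cons (.splS 1
  (.cons (.splT 0 (.cons (.leaf 4 0x980200a00900981a009000) (.cons (.leaf 6
  0x800000a80201202900a011011022009000) .nil))) (.cons (.leaf 3 0x800000c00b00a029) .nil)))
  .nil))) (.cons (.leaf 4 0x1000000a21c012029009022) .nil))) (.cons (.leaf 3 0xc02300882b00a23c)
  .nil))) (.cons (.splT 3 (.cons (.splT 2 (.cons (.leaf 8
  0x800000901201282900a011011022012839009819011058) (.cons (.splS 1 (.cons (.splT 0 (.cons (.leaf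
  4 0x980200a00900981a009000) (.cons (.leaf 8 0x800000a80201282900a011011022012839011058009000)
  .nil))) (.cons (.leaf 5 0x800000c00b00a82900a839009058) .nil))) .nil))) (.cons (.leaf 7
  0x1000000a81a012829009022012839009819011058) .nil))) .nil))) (.cons (.leaf 3 0x800000c013009031)
  .nil))) (.cons (.leaf 3 0xa22400a02a009031) .nil))) .nil))) (.cons (.splT 5 (.cons (.leaf 4
  0x800000942c009831009050) (.cons (.splS 5 (.cons (.splS 4 (.cons (.splT 3 (.cons (.splS 1 (.cons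
  (.splS 0 (.cons (.leaf 3 0x880300981a009018) (.cons (.splT 0 (.cons (.leaf 4
  0x980200a00900981a009000) (.cons (.splS 2 (.cons (.leaf 4 0x901100a80200981a009000) (.cons
  (.leaf 6 0x981100a80201181a00a021009018009000) .nil))) .nil))) .nil))) (.cons (.leaf 3
  0x800000c00b00a029) .nil))) (.cons (.leaf 4 0x800000a81a00a029009018) .nil))) (.cons (.leaf 3
  0xc02300882b00a23c) .nil))) (.cons (.splT 3 (.cons (.splS 1 (.cons (.splS 0 (.cons (.leaf 3
  0x880300981a009018) (.cons (.splT 0 (.cons (.leaf 4 0x980200a00900981a009000) (.cons (.splS 2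
  (.cons (.leaf 4 0x901100a80200981a009000) (.cons (.leaf 6 0x981100a80200981a009831009050009000)
  .nil))) .nil))) .nil))) (.cons (.leaf 5 0x800000c00b00a82900a839009058) .nil))) (.cons (.leaf 6
  0x800000a81a00a82900a839009058009018) .nil))) .nil))) .nil))) .nil))) .nil))) .nil))) .nil)))
  (.cons (.leaf 2 0xa234009040) .nil)))⟩

theorem kc_17_6_ok1 : kc_17_6.ok1 = true := by decide +kernel

theorem kc_17_6_ok2 : kc_17_6.ok2 = true := by decide +kernel

/-- A certificate. -/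
def kc_18_2 : KCert :=
  ⟨18, 2, [1, 4], [1], [0, -40, 0, 0, 40], [0, -40, 0, 0, 0], 40, 0x500028002800000028,
  0x280028002800000028, 1, 0, 12, 4, 808, [0, 0, 0, -809], 12, [1], (.splT 12 (.cons (.splT 10
  (.cons (.splT 9 (.cons (.splT 8 (.cons (.splT 6 (.cons (.splT 5 (.cons (.splT 3 (.cons (.splT 2
  (.cons (.splT 0 (.cons (.splS 4 (.cons (.leaf 2 0x8000009221) (.cons (.splS 1 (.cons (.leaf 3
  0x9802009209009000) (.cons (.splS 0 (.cons (.leaf 6 0x8000009212009803009809009821009040) (.cons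
  (.splS 8 (.cons (.leaf 5 0x800000921200924100c20b009821) (.cons (.splS 12 (.cons (.leaf 7
  0x800000924a00921200926100984100c20b009821) (.cons (.splS 3 (.cons (.splS 5 (.cons (.leaf 8
  0x924a00981200980200982b009229009219009809009000) (.cons (.splS 2 (.cons (.leaf 3
  0x9232009813009219) (.cons (.splS 7 (.cons (.leaf 10
  0x9252009832009812009802009239009219009809009821009040009000) (.cons (.splS 11 (.cons (.leaf 6
  0x800000921200925900c23b00c20b009821) (.cons (.leaf 11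
  0x800000921a02121200985900c23b00981100982900984101c20b011821009078) .nil))) .nil))) .nil)))
  .nil))) (.cons (.splS 7 (.cons (.leaf 3 0x800000923900c21b) (.cons (.leaf 12
  0x1000000986200984200982a00981201983901421b00981900c26300c20b011821019058) .nil))) .nil)))
  .nil))) .nil))) .nil))) .nil))) .nil))) .nil)) .nil)) .nil)) .nil)) .nil)) .nil)) .nil)) .nil))
  .nil))⟩

theorem kc_18_2_ok1 : kc_18_2.ok1 = true := by decide +kernel

theorem kc_18_2_ok2 : kc_18_2.ok2 = true := by decide +kernel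

/-- A certificate. -/
def kc_18_4 : KCert :=
  ⟨18, 4, [1, 4], [2], [0, -4, 0, 0, 0], [0, 0, -4, 0, 0], 4, 0x40004000400000004,
  0x40004000000040004, 1, 0, 4, 4, 9, [8, 7, 7, 0], 5, [1], (.splT 0 (.cons (.splS 2 (.cons (.leaf
  4 0xa80200a211009018009000) (.cons (.splS 4 (.cons (.leaf 6
  0x800000a80200a22100a811009028009000) (.cons (.leaf 6 0x800000a80200a82100a811009040009000)
  .nil))) .nil))) .nil))⟩

theorem kc_18_4_ok1 : kc_18_4.ok1 = true := by decide +kernel

theorem kc_18_4_ok2 : kc_18_4.ok2 = true := by decide +kernel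

/-- A certificate. -/
def kc_18_10 : KCert :=
  ⟨18, 10, [1, 4], [1, 3], [0, 0, 0, 0, 4], [0, 0, 0, 0, 0], 0, 0x40000000000000000, 0x0, 1, 1, 4,
  4, 11, [210, 0, 0, 0], 4, [1], (.splS 4 (.cons (.leaf 2 0x8000009221) (.cons (.splS 3 (.cons
  (.splS 0 (.cons (.leaf 2 0x9803009008) (.cons (.splT 0 (.cons (.splS 1 (.cons (.leaf 3
  0x9209009802009000) (.cons (.leaf 6 0x800000b809009802009821009040009000) .nil))) (.cons (.leaf
  3 0xb802009219009000) .nil))) .nil))) (.cons (.leaf 4 0x800000c21b00b821009040) .nil))) .nil)))⟩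

theorem kc_18_10_ok1 : kc_18_10.ok1 = true := by decide +kernel

theorem kc_18_10_ok2 : kc_18_10.ok2 = true := by decide +kernel

/-- A certificate. -/
def kc_19_6 : KCert :=
  ⟨19, 6, [0, 1, 4], [1, 2], [-6, 12, 0, 0, 0], [0, 9, 6, 0, 0], 6, 0x60006000600120000,
  0x60006000c000f0006, 1, 1, 4, 4, 30, [0, -65, 65, 0], 6, [1], (.splS 3 (.cons (.leaf 2
  0x800000821b) (.cons (.splT 3 (.cons (.splT 2 (.cons (.leaf 3 0x8000009414009219) (.cons (.splS
  4 (.cons (.splS 2 (.cons (.leaf 2 0x821300921a) (.cons (.splS 1 (.cons (.splT 0 (.cons (.leaf 4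
  0x980200a00900921a009000) (.cons (.leaf 5 0x800000a80200a211009219009000) .nil))) (.cons (.leaf
  4 0x800000900b00a211009219) (.cons (.leaf 3 0x800000c00b009021) .nil)))) (.cons (.leaf 5
  0x800000a81100a02100a21200921a) .nil)))) (.cons (.leaf 2 0x8000009221) (.cons (.splS 2 (.cons
  (.leaf 2 0x821300921a) (.cons (.splS 1 (.cons (.splT 0 (.cons (.leaf 4 0x980200a00900921a009000)
  (.cons (.leaf 5 0x800000a80200a211009219009000) .nil))) (.cons (.leaf 4
  0x800000900b00a211009219) (.cons (.leaf 3 0xc00b009821009040) .nil)))) (.cons (.leaf 4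
  0xc21300a82100921a009040) .nil)))) .nil)))) .nil))) (.cons (.leaf 2 0xa21c009028) .nil))) (.cons
  (.leaf 2 0xc21b009038) .nil))))⟩

theorem kc_19_6_ok1 : kc_19_6.ok1 = true := by decide +kernel

theorem kc_19_6_ok2 : kc_19_6.ok2 = true := by decide +kernel

/-- A certificate. -/
def kc_19_10 : KCert :=
  ⟨19, 10, [0, 1, 4], [1, 3], [2, -2, 0, 0, 2], [0, -2, 0, -2, 0], 2, 0x40002000200000004,
  0x20000000200000002, 1, 1, 4, 4, 11, [27, 0, 0, 0], 4, [1], (.splS 0 (.cons (.leaf 2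
  0x8000008803) (.cons (.leaf 2 0x9803009008) (.cons (.splS 4 (.cons (.splS 3 (.cons (.leaf 2
  0x800000821b) (.cons (.splT 0 (.cons (.splS 1 (.cons (.leaf 4 0x800000b009009802009000) (.cons
  (.leaf 3 0x9209009802009000) (.cons (.leaf 5 0x1000000b809009802009021009000) .nil)))) (.cons
  (.leaf 3 0xb802009219009000) .nil))) (.cons (.leaf 3 0x1000000c21b00b021) .nil)))) (.cons (.leaf
  2 0x8000009221) (.cons (.splS 3 (.cons (.leaf 2 0x800000821b) (.cons (.splT 0 (.cons (.splS 1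
  (.cons (.leaf 4 0x800000b009009802009000) (.cons (.leaf 3 0x9209009802009000) (.cons (.leaf 6
  0x800000b809009802009821009040009000) .nil)))) (.cons (.leaf 3 0xb802009219009000) .nil)))
  (.cons (.leaf 4 0x800000c21b00b821009040) .nil)))) .nil)))) .nil))))⟩

theorem kc_19_10_ok1 : kc_19_10.ok1 = true := by decide +kernel

theorem kc_19_10_ok2 : kc_19_10.ok2 = true := by decide +kernel

/-- A certificate. -/
def kc_19_14 : KCert :=
  ⟨19, 14, [0, 1, 4], [1, 2, 3], [2, -2, 0, 0, -4], [0, 4, 2, -2, 0], 4, 0x4000400020006,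
  0x40002000600080004, 1, 1, 4, 4, 19, [0, 0, 0, 43], 7, [1], (.splS 3 (.cons (.leaf 2
  0x800000821b) (.cons (.splT 3 (.cons (.splT 2 (.cons (.leaf 3 0x8000009414009219) (.cons (.splS
  4 (.cons (.splS 2 (.cons (.splS 1 (.cons (.splT 0 (.cons (.leaf 4 0x800000960400b00900921a)
  (.cons (.leaf 4 0x800000a60400a01100921a) (.cons (.leaf 3 0xb802009219009000) .nil)))) (.cons
  (.leaf 3 0x800000900b00a011) (.cons (.leaf 3 0x800000c00b009021) .nil)))) (.cons (.leaf 2
  0x9013009219) (.cons (.leaf 5 0x800000a81100a02100a21200921a) .nil)))) (.cons (.leaf 2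
  0x8000009221) (.cons (.splS 2 (.cons (.splS 1 (.cons (.splT 0 (.cons (.leaf 4
  0x800000960400b00900921a) (.cons (.leaf 4 0x800000a60400a01100921a) (.cons (.leaf 3
  0xb802009219009000) .nil)))) (.cons (.leaf 3 0x800000900b00a011) (.cons (.leaf 3
  0xc00b009821009040) .nil)))) (.cons (.leaf 2 0x9013009219) (.cons (.leaf 3 0xc01300a821009040)
  .nil)))) .nil)))) (.cons (.leaf 2 0xb414009028) .nil)))) (.cons (.leaf 2 0xa21c009028) (.cons
  (.leaf 2 0xb21c009030) .nil)))) (.cons (.leaf 2 0xc21b009038) .nil))))⟩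

theorem kc_19_14_ok1 : kc_19_14.ok1 = true := by decide +kernel

theorem kc_19_14_ok2 : kc_19_14.ok2 = true := by decide +kernel

/-- A certificate. -/
def kc_20_1 : KCert :=
  ⟨20, 1, [2, 4], [0], [0, 0, 1, 0, -1], [-1, 0, 0, 0, 0], 1, 0x1000200010001,
  0x10001000100010000, 1, 0, 4, 2, 1, [0, 0, 0, 0], 4, [1], (.splT 0 (.cons (.leaf 2 0x8402009000)
  .nil))⟩

theorem kc_20_1_ok1 : kc_20_1.ok1 = true := by decide +kernel

theorem kc_20_1_ok2 : kc_20_1.ok2 = true := by decide +kernel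

/-- A certificate. -/
def kc_21_3 : KCert :=
  ⟨21, 3, [0, 2, 4], [0, 1], [9, 0, 6, 0, -12], [3, -12, 0, 0, 0], 12, 0xc0012000c0015,
  0xc000c000c0000000f, 1, 1, 4, 2, 41, [0, 0, 42, 0], 4, [1], (.splS 2 (.cons (.leaf 2
  0x8000008011) (.cons (.splS 0 (.cons (.leaf 2 0x8000008403) (.cons (.splT 1 (.cons (.leaf 2
  0x800000820c) (.cons (.splT 0 (.cons (.leaf 2 0x8402009000) (.cons (.splS 1 (.cons (.leaf 4
  0x8000009009009402009000) (.cons (.leaf 5 0x8000009409009802009411009000) (.cons (.leaf 3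
  0x9809009004009028) .nil)))) .nil))) .nil))) (.cons (.leaf 2 0xc403009020) .nil)))) (.cons
  (.leaf 2 0x8811009030) .nil))))⟩

theorem kc_21_3_ok1 : kc_21_3.ok1 = true := by decide +kernel

theorem kc_21_3_ok2 : kc_21_3.ok2 = true := by decide +kernel

/-- A certificate. -/
def kc_23_7 : KCert :=
  ⟨23, 7, [0, 1, 2, 4], [0, 1, 2], [-4, 16, -12, 0, 0], [-4, -12, 8, 0, 0], 12,
  0xc000c0000001c0008, 0xc000c001400000008, 1, 1, 4, 4, 58, [0, 0, 59, 0], 6, [1], (.splS 4 (.cons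
  (.leaf 2 0x8000008021) (.cons (.leaf 2 0x8000009221) (.cons (.leaf 2 0x800000a421) (.cons (.splS
  3 (.cons (.leaf 2 0x800000821b) (.cons (.splS 2 (.cons (.leaf 2 0x8000008413) (.cons (.leaf 3
  0x8000009413009219) (.cons (.splT 3 (.cons (.leaf 3 0x800000821a009219) (.cons (.splS 1 (.cons
  (.leaf 2 0x840b00921a) (.cons (.leaf 3 0x940b00921a00a411) (.cons (.splT 0 (.cons (.leaf 2
  0x8802009000) (.cons (.leaf 2 0x900400a409) (.cons (.leaf 2 0xa00400a411) .nil)))) (.cons (.leaf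
  4 0xc40b00921a009821009040) .nil))))) (.cons (.leaf 5 0x800000a21a009219009821009040) .nil))))
  (.cons (.leaf 4 0x800000c41300a821009040) .nil))))) (.cons (.leaf 4 0x800000a21b009821009040)
  (.cons (.leaf 2 0xc21b009038) .nil))))) .nil)))))⟩

theorem kc_23_7_ok1 : kc_23_7.ok1 = true := by decide +kernel

theorem kc_23_7_ok2 : kc_23_7.ok2 = true := by decide +kernel

/-- A certificate. -/
def kc_24_3 : KCert :=
  ⟨24, 3, [3, 4], [0, 1], [0, 0, 0, -7, 7], [0, -7, 0, 0, 0], 7, 0xe0000000700070007,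
  0x70007000700000007, 1, 1, 6, 4, 65, [66, 0, 66, 0], 8, [1], (.splS 4 (.cons (.leaf 2
  0x8621009038) (.cons (.splT 3 (.cons (.leaf 2 0x800000821c) (.cons (.splT 5 (.cons (.leaf 3
  0x800000862a009821) (.cons (.splS 2 (.cons (.leaf 5 0x800000b81300962a011821009040) (.cons
  (.splS 6 (.cons (.leaf 4 0x863100982a009821009040) (.cons (.splS 3 (.cons (.splT 2 (.cons (.splS
  1 (.cons (.splT 0 (.cons (.leaf 2 0x8802009000) (.cons (.leaf 6
  0x980200960900881200962a009821009000) .nil))) (.cons (.leaf 4 0x800000c60b009821009040) .nil)))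
  (.cons (.leaf 3 0x9812009619009010) .nil))) (.cons (.leaf 7
  0x800000981900983101162a00961a011821009050) .nil))) .nil))) .nil))) .nil))) .nil))) .nil)))⟩

theorem kc_24_3_ok1 : kc_24_3.ok1 = true := by decide +kernel

theorem kc_24_3_ok2 : kc_24_3.ok2 = true := by decide +kernel

/-- A certificate. -/
def kc_24_10 : KCert :=
  ⟨24, 10, [3, 4], [1, 3], [0, 0, 0, -4, 0], [0, 0, 0, 0, 0], 4, 0x40000000400040004,
  0x40004000400040004, 1, 1, 4, 4, 7, [7, -4, 5, -8], 4, [1], (.splS 4 (.cons (.leaf 2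
  0x800000b621) (.cons (.splS 1 (.cons (.splS 0 (.cons (.leaf 2 0xb803009018) (.cons (.splT 0
  (.cons (.leaf 3 0x980200b609009000) (.cons (.splS 3 (.cons (.leaf 3 0xb61900b802009000) (.cons
  (.leaf 6 0x800000981900b80200b821009040009000) .nil))) .nil))) .nil))) (.cons (.leaf 4
  0x800000c60b009821009040) .nil))) .nil)))⟩

theorem kc_24_10_ok1 : kc_24_10.ok1 = true := by decide +kernel

theorem kc_24_10_ok2 : kc_24_10.ok2 = true := by decide +kernel

/-- A certificate. -/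
def kc_25_4 : KCert :=
  ⟨25, 4, [0, 3, 4], [2], [0, 0, 0, -2, 2], [0, 0, 2, 0, 0], 2, 0x40000000200020002,
  0x20002000400020002, 1, 0, 4, 4, 5, [6, 0, 0, 0], 4, [1], (.splT 0 (.cons (.splS 2 (.cons (.leaf
  4 0x800000a80200a011009000) (.cons (.leaf 4 0xa80200a611009028009000) (.cons (.splS 4 (.cons
  (.leaf 5 0x1000000a80200a02100a811009000) (.cons (.leaf 6 0x800000a80200a62100a811009038009000)
  (.cons (.leaf 6 0x800000a80200a82100a811009040009000) .nil)))) .nil)))) .nil))⟩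

theorem kc_25_4_ok1 : kc_25_4.ok1 = true := by decide +kernel

theorem kc_25_4_ok2 : kc_25_4.ok2 = true := by decide +kernel

/-- A certificate. -/
def kc_25_11 : KCert :=
  ⟨25, 11, [0, 3, 4], [0, 1, 3], [-3, 0, 0, -3, 6], [3, -3, 0, -3, 0], 3, 0x90000000300030000,
  0x30000000300000006, 1, 1, 4, 4, 21, [22, 0, 0, 0], 4, [1], (.splS 4 (.cons (.leaf 2
  0x8000008021) (.cons (.leaf 2 0x800000b621) (.cons (.splS 1 (.cons (.leaf 2 0x800000860b) (.cons
  (.splS 0 (.cons (.leaf 2 0x8000008803) (.cons (.leaf 2 0xb803009018) (.cons (.splT 0 (.cons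
  (.leaf 2 0x8802009000) (.cons (.leaf 2 0x900400b609) (.cons (.splS 3 (.cons (.leaf 4
  0x800000901900b802009000) (.cons (.leaf 2 0xb61900b004) (.cons (.leaf 5
  0x800000981900b00400b821009040) .nil)))) .nil)))) .nil)))) (.cons (.leaf 4
  0x800000c60b009821009040) .nil)))) .nil))))⟩

theorem kc_25_11_ok1 : kc_25_11.ok1 = true := by decide +kernel

theorem kc_25_11_ok2 : kc_25_11.ok2 = true := by decide +kernel

/-- A certificate. -/
def kc_26_2 : KCert :=
  ⟨26, 2, [1, 3, 4], [1], [0, 0, 0, -5, 5], [0, -5, 0, 0, 0], 5, 0xa0000000500050005,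
  0x50005000500000005, 1, 0, 6, 4, 29, [38, 40, 63, -9], 6, [1], (.splT 5 (.cons (.splT 2 (.cons
  (.splT 0 (.cons (.splS 4 (.cons (.leaf 2 0x8000009221) (.cons (.leaf 3 0x922a009621009038)
  (.cons (.splS 1 (.cons (.leaf 3 0x9802009209009000) (.cons (.splS 3 (.cons (.leaf 7
  0x962a009812009802009219009609009821009000) (.cons (.leaf 3 0x981200961900b20b) (.cons (.splS 6
  (.cons (.leaf 4 0x800000962a009231009821) (.cons (.leaf 6 0x800000962a00963100c21b009821009048)
  (.cons (.leaf 6 0x800000962a00983100c21b009821009050) .nil)))) .nil)))) (.cons (.leaf 4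
  0x800000c60b009821009040) .nil)))) .nil)))) .nil)) .nil)) .nil))⟩

theorem kc_26_2_ok1 : kc_26_2.ok1 = true := by decide +kernel

theorem kc_26_2_ok2 : kc_26_2.ok2 = true := by decide +kernel

/-- A certificate. -/
def kc_26_9 : KCert :=
  ⟨26, 9, [1, 3, 4], [0, 3], [0, -7, 0, -7, 7], [0, 0, 0, -7, 0], 7, 0xe0000000700000007,
  0x70000000700070007, 1, 1, 10, 4, 63, [-48, 126, -57, 131], 11, [1], (.splS 4 (.cons (.leaf 2
  0x8221009028) (.cons (.leaf 2 0x800000b621) (.cons (.splS 0 (.cons (.leaf 2 0x9803009008) (.cons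
  (.leaf 2 0xb803009018) (.cons (.splT 5 (.cons (.leaf 3 0x800000862c008821) (.cons (.splT 1
  (.cons (.leaf 2 0x800000860c) (.cons (.splT 7 (.cons (.leaf 3 0x800000823a00b821) (.cons (.splS
  10 (.cons (.leaf 4 0x825100b83a00b821009040) (.cons (.leaf 4 0x800000b65100b23a00b821) (.cons
  (.splT 0 (.cons (.leaf 2 0x8802009000) (.cons (.splS 3 (.cons (.splT 6 (.cons (.leaf 6
  0x883200b21900b80200b23a00b821009000) (.cons (.splS 9 (.cons (.splS 8 (.cons (.leaf 4
  0x8241008249008821009050) (.cons (.leaf 3 0x800000b641008821) (.cons (.leaf 7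
  0x884100b24900b83200b21900b802008821009000) .nil)))) (.cons (.leaf 2 0xb64900b034) (.cons (.leaf
  6 0x800000c24b00b85101323a013821009070) .nil)))) .nil))) (.cons (.leaf 3 0xb61900b802009000)
  (.cons (.leaf 4 0x800000c21b00b821009040) .nil)))) .nil))) .nil)))) .nil))) .nil))) .nil)))
  .nil)))) .nil))))⟩

theorem kc_26_9_ok1 : kc_26_9.ok1 = true := by decide +kernel

theorem kc_26_9_ok2 : kc_26_9.ok2 = true := by decide +kernel

/-- A certificate. -/
def kc_26_10 : KCert :=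
  ⟨26, 10, [1, 3, 4], [1, 3], [0, -14, 0, 0, 7], [0, 0, 0, -14, 0], 14, 0x15000e000e0000000e,
  0xe0000000e000e000e, 1, 1, 6, 2, 47, [0, 99, 0, 99], 7, [1], (.splS 2 (.cons (.leaf 2
  0x8000009211) (.cons (.leaf 2 0x800000b611) (.cons (.splT 1 (.cons (.splT 3 (.cons (.splS 1
  (.cons (.leaf 3 0x960b00961a009811) (.cons (.splT 0 (.cons (.leaf 3 0x9802009609009000) (.cons
  (.leaf 5 0xb80200961a011811009030009000) .nil))) (.cons (.leaf 5 0x800000980900920a00b811009030)
  .nil)))) (.cons (.leaf 3 0xb61a009811009030) .nil))) (.cons (.leaf 2 0xb20c009020) .nil)))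
  .nil))))⟩

theorem kc_26_10_ok1 : kc_26_10.ok1 = true := by decide +kernel

theorem kc_26_10_ok2 : kc_26_10.ok2 = true := by decide +kernel

/-- A certificate. -/
def kc_27_21 : KCert :=
  ⟨27, 21, [0, 1, 3, 4], [0, 2, 4], [8, 0, 0, 12, 8], [8, 0, -16, 0, -12], 16,
  0x18001c001000100018, 0x40010000000100018, 1, 1, 6, 3, 43, [0, 91, 0, 0], 7, [1], (.splS 3
  (.cons (.leaf 2 0x8000008019) (.cons (.leaf 2 0x8219009020) (.cons (.splS 2 (.cons (.leaf 2
  0x8000008213) (.cons (.leaf 2 0x9813008619) (.cons (.leaf 4 0x800000b21300a619009030) (.cons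
  (.splS 0 (.cons (.leaf 2 0x8000008603) (.cons (.leaf 2 0x9603009008) (.cons (.splT 1 (.cons
  (.leaf 2 0x800000840c) (.cons (.splT 5 (.cons (.leaf 3 0x800000822a00a619) (.cons (.leaf 5
  0x800000a22a00c61900a619009030) (.cons (.splT 0 (.cons (.leaf 2 0x8602009000) (.cons (.leaf 3
  0xa60200c811009000) (.cons (.splS 4 (.cons (.leaf 5 0x800000a02100c602008619009000) (.cons
  (.leaf 5 0x800000a22100c60200a619009000) (.cons (.leaf 5 0x800000a62100c60200c619009000) (.cons
  (.leaf 3 0xc82100c602009000) .nil))))) .nil)))) .nil)))) (.cons (.leaf 4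
  0x800000c40c00a619009030) .nil)))) (.cons (.leaf 2 0xc603009020) .nil))))) .nil))))) (.cons
  (.leaf 2 0x800000c819) .nil)))))⟩

theorem kc_27_21_ok1 : kc_27_21.ok1 = true := by decide +kernel

theorem kc_27_21_ok2 : kc_27_21.ok2 = true := by decide +kernel

/-- A certificate. -/
def kc_28_7 : KCert :=
  ⟨28, 7, [2, 3, 4], [0, 1, 2], [0, 0, -12, 6, -9], [3, 12, 3, 0, 0], 12, 0x300120000000c000c,
  0xc000c000f0018000f, 1, 1, 4, 3, 20, [0, 0, 45, 0], 5, [1], (.splS 3 (.cons (.leaf 2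
  0x800000a419) (.cons (.splS 2 (.cons (.leaf 3 0x800000a813009619) (.cons (.leaf 3
  0x800000b81300a619) (.cons (.splT 2 (.cons (.leaf 3 0x8000008812009811) (.cons (.splS 1 (.cons
  (.splT 0 (.cons (.leaf 2 0x8602009000) (.cons (.leaf 2 0x900400a409) (.cons (.leaf 3
  0xa004009811009030) .nil)))) (.cons (.leaf 4 0x800000b40b009619009030) (.cons (.leaf 4
  0x800000c40b00a619009030) .nil)))) (.cons (.leaf 5 0x800000a812009811009619009030) .nil))))
  .nil)))) (.cons (.leaf 2 0x8819009038) .nil))))⟩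

theorem kc_28_7_ok1 : kc_28_7.ok1 = true := by decide +kernel

theorem kc_28_7_ok2 : kc_28_7.ok2 = true := by decide +kernel

/-- A certificate. -/
def kc_28_11 : KCert :=
  ⟨28, 11, [2, 3, 4], [0, 1, 3], [0, 0, 6, -12, -9], [3, 9, 0, -12, 0], 12, 0x300000012000c000c,
  0xc0000000c0015000f, 1, 1, 4, 2, 23, [0, 0, 0, 24], 5, [1], (.splS 2 (.cons (.splS 1 (.cons
  (.leaf 3 0x800000a60b009411) (.cons (.splT 0 (.cons (.leaf 2 0x8402009000) (.cons (.leaf 3
  0x9004009609009020) (.cons (.leaf 3 0xb004009411009020) .nil)))) (.cons (.leaf 3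
  0x800000c60b00b411) .nil)))) (.cons (.leaf 2 0x800000b611) (.cons (.leaf 2 0x8811009030)
  .nil))))⟩

theorem kc_28_11_ok1 : kc_28_11.ok1 = true := by decide +kernel

theorem kc_28_11_ok2 : kc_28_11.ok2 = true := by decide +kernel

/-- A certificate. -/
def kc_28_17 : KCert :=
  ⟨28, 17, [2, 3, 4], [0, 4], [0, 0, -20, 30, -40], [-30, 0, 0, 0, 30], 40, 0x46001400280028,
  0x46002800280028000a, 1, 1, 8, 5, 147, [0, 608, 0, 0], 9, [1], (.splS 2 (.cons (.leaf 2
  0xa613009020) (.cons (.splT 3 (.cons (.leaf 2 0x841a009018) (.cons (.splT 2 (.cons (.leaf 2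
  0x8612009010) (.cons (.splT 1 (.cons (.leaf 2 0x800000880c) (.cons (.splS 5 (.cons (.splS 4
  (.cons (.leaf 3 0xa623008429009030) (.cons (.splS 7 (.cons (.leaf 3 0x800000843900c429) (.cons
  (.splS 6 (.cons (.leaf 5 0xc43100863900a62b00c612009010) (.cons (.leaf 6
  0x800000c63100863900c42900c612009010) (.cons (.leaf 3 0xc83100c612009010) .nil)))) (.cons (.leaf
  3 0x800000c839008429) .nil)))) (.cons (.leaf 2 0xc62300a62b) .nil)))) (.cons (.splS 6 (.cons
  (.splS 8 (.cons (.leaf 4 0x844100c43100c612009010) (.cons (.splS 7 (.cons (.leaf 6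
  0x800000c43900864100c62900c41a009018) (.cons (.splS 4 (.cons (.leaf 8
  0x800000a82300c63900864100c43100862900c41a009018) (.cons (.leaf 8
  0x800000b82300c63900864100c43100862900c612009010) (.cons (.splT 0 (.cons (.leaf 8
  0x860200840200c63900864100c43100c61200c41a011000) (.cons (.leaf 2 0xc00400c821) .nil))) .nil))))
  (.cons (.leaf 3 0xc83900c41a009018) .nil)))) (.cons (.leaf 3 0x800000c841008629) .nil)))) (.cons
  (.leaf 3 0x800000b43300c629) (.cons (.leaf 3 0xc83100c612009010) .nil)))) (.cons (.leaf 2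
  0x800000c829) .nil)))) .nil))) .nil))) .nil))) (.cons (.leaf 2 0xc613009030) .nil))))⟩

theorem kc_28_17_ok1 : kc_28_17.ok1 = true := by decide +kernel

theorem kc_28_17_ok2 : kc_28_17.ok2 = true := by decide +kernel

/-- A certificate. -/
def kc_30_9 : KCert :=
  ⟨30, 9, [1, 2, 3, 4], [0, 3], [0, -3, 12, 6, 0], [9, 0, 0, -6, 0], 6, 0x6000c001200030006,
  0x6000000060006000f, 1, 1, 6, 2, 32, [0, 0, 33, 0], 6, [1], (.splS 2 (.cons (.leaf 2
  0x8211009018) (.cons (.splS 0 (.cons (.leaf 2 0x9403009008) (.cons (.splS 4 (.cons (.leaf 3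
  0x800000822100b411) (.cons (.splS 3 (.cons (.leaf 2 0x961b008421) (.cons (.leaf 4
  0x800000a61b00842100b411) (.cons (.splT 0 (.cons (.leaf 2 0x8402009000) (.cons (.leaf 3
  0xb40200b619009000) .nil))) (.cons (.leaf 5 0x800000c21b00b421010411009030) .nil))))) (.cons
  (.leaf 3 0x800000b621008411) (.cons (.leaf 3 0x8821008411009040) .nil))))) (.cons (.leaf 2
  0xb403009018) (.cons (.leaf 2 0xc403009020) .nil))))) (.cons (.leaf 2 0x800000b611) (.cons
  (.leaf 2 0x8811009030) .nil)))))⟩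

theorem kc_30_9_ok1 : kc_30_9.ok1 = true := by decide +kernel

theorem kc_30_9_ok2 : kc_30_9.ok2 = true := by decide +kernel

/-- A certificate. -/
def kc_30_14 : KCert :=
  ⟨30, 14, [1, 2, 3, 4], [1, 2, 3], [0, -4, 0, 4, 4], [0, 0, 4, 4, 0], 4, 0x80008000400000004,
  0x40008000800040004, 1, 1, 4, 4, 11, [9, -10, -5, -6], 4, [1], (.splS 4 (.cons (.leaf 2
  0x8000009221) (.cons (.leaf 2 0x800000a421) (.cons (.leaf 2 0x800000b621) (.cons (.splS 3 (.cons
  (.splS 2 (.cons (.leaf 3 0x8000009413009219) (.cons (.splS 1 (.cons (.leaf 3 0x800000960b00a411)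
  (.cons (.leaf 3 0x800000a60b009219) (.cons (.splT 0 (.cons (.leaf 3 0x980200b609009000) (.cons
  (.leaf 3 0xa80200a411009000) (.cons (.leaf 3 0xb802009219009000) .nil)))) (.cons (.leaf 4
  0x800000c60b009821009040) .nil))))) (.cons (.leaf 4 0x800000b413009821009040) (.cons (.leaf 4
  0x800000c41300a821009040) .nil))))) (.cons (.leaf 4 0x800000a21b009821009040) (.cons (.leaf 4
  0x800000b21b00a821009040) (.cons (.leaf 4 0x800000c21b00b821009040) .nil))))) .nil)))))⟩

theorem kc_30_14_ok1 : kc_30_14.ok1 = true := by decide +kernel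

theorem kc_30_14_ok2 : kc_30_14.ok2 = true := by decide +kernel

/-- A certificate. -/
def kc_30_15 : KCert :=
  ⟨30, 15, [1, 2, 3, 4], [0, 1, 2, 3], [0, -8, -8, 0, 4], [0, 8, 4, 8, 0], 8, 0xc0008000000000008,
  0x80010000c00100008, 1, 1, 4, 4, 15, [0, 0, 0, 250], 7, [1], (.splS 4 (.cons (.leaf 2
  0x8000009221) (.cons (.leaf 2 0x800000a421) (.cons (.leaf 2 0x800000b621) (.cons (.splS 3 (.cons
  (.splT 3 (.cons (.leaf 3 0x800000821a009219) (.cons (.splS 2 (.cons (.leaf 3 0x8000009413009219)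
  (.cons (.splT 2 (.cons (.leaf 3 0x800000841200a411) (.cons (.leaf 4 0x800000941200a411009219)
  (.cons (.splS 1 (.cons (.leaf 3 0x800000960b00a411) (.cons (.leaf 3 0x800000a60b009219) (.cons
  (.splT 0 (.cons (.leaf 2 0x8802009000) (.cons (.leaf 3 0x980200b609009000) (.cons (.leaf 2
  0xa00400a411) (.cons (.leaf 2 0xb004009219) .nil))))) (.cons (.leaf 4 0x800000c60b009821009040)
  .nil))))) (.cons (.leaf 5 0x800000b41200a411009821009040) .nil))))) (.cons (.leaf 4
  0x800000b413009821009040) (.cons (.leaf 4 0x800000c41300a821009040) .nil))))) (.cons (.leaf 5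
  0x800000a21a009219009821009040) (.cons (.leaf 5 0x800000b21a00921900a821009040) .nil))))) (.cons
  (.leaf 4 0x800000a21b009821009040) (.cons (.leaf 4 0x800000b21b00a821009040) (.cons (.leaf 4
  0x800000c21b00b821009040) .nil))))) .nil)))))⟩

theorem kc_30_15_ok1 : kc_30_15.ok1 = true := by decide +kernel

theorem kc_30_15_ok2 : kc_30_15.ok2 = true := by decide +kernel

/-- A certificate. -/
def kc_31_6 : KCert :=
  ⟨31, 6, [0, 1, 2, 3, 4], [1, 2], [0, 0, -15, 20, -15], [0, 0, 5, 0, 0], 15, 0x230000000f000f,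
  0xf000f0014000f000f, 1, 1, 4, 3, 38, [0, 0, 39, 0], 5, [1], (.splS 0 (.cons (.leaf 2
  0x8000008603) (.cons (.leaf 2 0x9603009008) (.cons (.leaf 2 0xa603009010) (.cons (.splT 1 (.cons
  (.leaf 2 0x940c009010) (.cons (.splS 2 (.cons (.leaf 2 0x8000008213) (.cons (.splT 0 (.cons
  (.splS 1 (.cons (.leaf 3 0x800000a00900a40a) (.cons (.leaf 4 0x800000a20900921100a40a) (.cons
  (.leaf 3 0xa409009602009000) (.cons (.leaf 4 0xa609009602009020009000) (.cons (.leaf 4
  0xa809009602009613009000) .nil)))))) (.cons (.leaf 3 0xa602009211009000) .nil))) (.cons (.leaf 2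
  0xa213009020) (.cons (.splS 3 (.cons (.leaf 3 0x1000000a01900b213) (.cons (.leaf 2 0x8000009219)
  (.cons (.leaf 2 0x800000a419) (.cons (.leaf 4 0x800000a61900b213009030) (.cons (.leaf 4
  0x800000a81900b213009038) .nil)))))) (.cons (.leaf 2 0xc213009030) .nil)))))) .nil))) (.cons
  (.leaf 2 0xc603009020) .nil))))))⟩

theorem kc_31_6_ok1 : kc_31_6.ok1 = true := by decide +kernel

theorem kc_31_6_ok2 : kc_31_6.ok2 = true := by decide +kernel

/-- A certificate. -/
def kc_31_10 : KCert :=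
  ⟨31, 10, [0, 1, 2, 3, 4], [1, 3], [4, 4, -4, 12, 16], [0, 16, 0, -4, 0], 4,
  0x140010000000080008, 0x40000000400140004, 1, 1, 6, 2, 37, [79, 0, 79, 0], 6, [1], (.splT 1
  (.cons (.splS 2 (.cons (.splT 3 (.cons (.leaf 4 0x800000901a008413009011) (.cons (.leaf 4
  0x800000b01a008813009011) .nil))) (.cons (.leaf 2 0x8000009211) (.cons (.splT 3 (.cons (.leaf 3
  0x921a009411009020) (.cons (.leaf 2 0xb21c00a813) .nil))) (.cons (.leaf 2 0x800000b611) (.cons
  (.splT 3 (.cons (.splS 1 (.cons (.leaf 3 0x800000900900920a) (.cons (.leaf 3 0x960b00961a009811)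
  (.cons (.leaf 5 0x800000940900981100920a009030) (.cons (.splT 0 (.cons (.leaf 3
  0x9802009609009000) (.cons (.leaf 5 0xb80200961a011811009030009000) .nil))) (.cons (.leaf 5
  0x800000980900b81100920a009030) .nil)))))) (.cons (.leaf 3 0xb61a009811009030) .nil)))
  .nil)))))) (.cons (.leaf 2 0xb20c009020) .nil)))⟩

theorem kc_31_10_ok1 : kc_31_10.ok1 = true := by decide +kernel

theorem kc_31_10_ok2 : kc_31_10.ok2 = true := by decide +kernel

/-- A certificate. -/
def kc_31_14 : KCert :=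
  ⟨31, 14, [0, 1, 2, 3, 4], [1, 2, 3], [12, 0, -12, 8, 8], [0, 8, -16, 12, 0], 16,
  0x18001800040010001c, 0x10001c000000180010, 1, 1, 4, 4, 47, [0, 0, 0, 48], 7, [1], (.splT 1
  (.cons (.leaf 2 0x960c009010) (.cons (.leaf 2 0xa60c009018) (.cons (.splS 4 (.cons (.splS 3
  (.cons (.leaf 2 0x800000821b) (.cons (.splS 2 (.cons (.leaf 2 0x8000008413) (.cons (.leaf 3
  0x8000009413009219) (.cons (.splS 1 (.cons (.leaf 2 0x800000860b) (.cons (.leaf 4
  0x800000b20900a41100b60a) (.cons (.leaf 3 0x800000a60b009219) (.cons (.splT 0 (.cons (.leaf 3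
  0x980200b609009000) (.cons (.leaf 3 0xa80200a411009000) (.cons (.leaf 3 0xb802009219009000)
  .nil)))) (.cons (.leaf 3 0x1000000c60b009021) .nil)))))) (.cons (.leaf 3 0x1000000b413009021)
  (.cons (.leaf 3 0x1000000c41300a021) .nil)))))) (.cons (.leaf 3 0x1000000a21b009021) (.cons
  (.leaf 3 0x1000000b21b00a021) (.cons (.leaf 3 0x1000000c21b00b021) .nil)))))) (.cons (.leaf 2
  0x8000009221) (.cons (.leaf 2 0x800000a421) (.cons (.leaf 2 0x800000b621) (.cons (.splS 3 (.cons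
  (.leaf 2 0x800000821b) (.cons (.splS 2 (.cons (.leaf 2 0x8000008413) (.cons (.leaf 3
  0x8000009413009219) (.cons (.splS 1 (.cons (.leaf 2 0x800000860b) (.cons (.leaf 4
  0x800000b20900a41100b60a) (.cons (.leaf 3 0x800000a60b009219) (.cons (.splT 0 (.cons (.leaf 3
  0x980200b609009000) (.cons (.leaf 3 0xa80200a411009000) (.cons (.leaf 3 0xb802009219009000)
  .nil)))) (.cons (.leaf 4 0x800000c60b009821009040) .nil)))))) (.cons (.leaf 4
  0x800000b413009821009040) (.cons (.leaf 4 0x800000c41300a821009040) .nil)))))) (.cons (.leaf 4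
  0x800000a21b009821009040) (.cons (.leaf 4 0x800000b21b00a821009040) (.cons (.leaf 4
  0x800000c21b00b821009040) .nil)))))) .nil)))))) .nil))))⟩

theorem kc_31_14_ok1 : kc_31_14.ok1 = true := by decide +kernel

theorem kc_31_14_ok2 : kc_31_14.ok2 = true := by decide +kernel

/-- Certificates. -/
def kd8 : List KCert :=
  [kc_2_12, kc_4_2, kc_5_9, kc_7_8, kc_8_23, kc_10_1, kc_11_6, kc_11_20, kc_12_9, kc_12_20,
  kc_13_22, kc_14_1, kc_14_17, kc_16_14, kc_17_4, kc_17_6, kc_18_2, kc_18_4, kc_18_10, kc_19_6,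
  kc_19_10, kc_19_14, kc_20_1, kc_21_3, kc_23_7, kc_24_3, kc_24_10, kc_25_4, kc_25_11, kc_26_2,
  kc_26_9, kc_26_10, kc_27_21, kc_28_7, kc_28_11, kc_28_17, kc_30_9, kc_30_14, kc_30_15, kc_31_6,
  kc_31_10, kc_31_14]

theorem kd8_ok : AllK kd8 :=
  allK_cons kc_2_12_ok1 kc_2_12_ok2 (
  allK_cons kc_4_2_ok1 kc_4_2_ok2 (
  allK_cons kc_5_9_ok1 kc_5_9_ok2 (
  allK_cons kc_7_8_ok1 kc_7_8_ok2 (
  allK_cons kc_8_23_ok1 kc_8_23_ok2 (
  allK_cons kc_10_1_ok1 kc_10_1_ok2 (
  allK_cons kc_11_6_ok1 kc_11_6_ok2 (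
  allK_cons kc_11_20_ok1 kc_11_20_ok2 (
  allK_cons kc_12_9_ok1 kc_12_9_ok2 (
  allK_cons kc_12_20_ok1 kc_12_20_ok2 (
  allK_cons kc_13_22_ok1 kc_13_22_ok2 (
  allK_cons kc_14_1_ok1 kc_14_1_ok2 (
  allK_cons kc_14_17_ok1 kc_14_17_ok2 (
  allK_cons kc_16_14_ok1 kc_16_14_ok2 (
  allK_cons kc_17_4_ok1 kc_17_4_ok2 (
  allK_cons kc_17_6_ok1 kc_17_6_ok2 (
  allK_cons kc_18_2_ok1 kc_18_2_ok2 (
  allK_cons kc_18_4_ok1 kc_18_4_ok2 (
  allK_cons kc_18_10_ok1 kc_18_10_ok2 (
  allK_cons kc_19_6_ok1 kc_19_6_ok2 (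
  allK_cons kc_19_10_ok1 kc_19_10_ok2 (
  allK_cons kc_19_14_ok1 kc_19_14_ok2 (
  allK_cons kc_20_1_ok1 kc_20_1_ok2 (
  allK_cons kc_21_3_ok1 kc_21_3_ok2 (
  allK_cons kc_23_7_ok1 kc_23_7_ok2 (
  allK_cons kc_24_3_ok1 kc_24_3_ok2 (
  allK_cons kc_24_10_ok1 kc_24_10_ok2 (
  allK_cons kc_25_4_ok1 kc_25_4_ok2 (
  allK_cons kc_25_11_ok1 kc_25_11_ok2 (
  allK_cons kc_26_2_ok1 kc_26_2_ok2 (
  allK_cons kc_26_9_ok1 kc_26_9_ok2 (
  allK_cons kc_26_10_ok1 kc_26_10_ok2 (
  allK_cons kc_27_21_ok1 kc_27_21_ok2 (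
  allK_cons kc_28_7_ok1 kc_28_7_ok2 (
  allK_cons kc_28_11_ok1 kc_28_11_ok2 (
  allK_cons kc_28_17_ok1 kc_28_17_ok2 (
  allK_cons kc_30_9_ok1 kc_30_9_ok2 (
  allK_cons kc_30_14_ok1 kc_30_14_ok2 (
  allK_cons kc_30_15_ok1 kc_30_15_ok2 (
  allK_cons kc_31_6_ok1 kc_31_6_ok2 (
  allK_cons kc_31_10_ok1 kc_31_10_ok2 (
  allK_cons kc_31_14_ok1 kc_31_14_ok2 (
  allK_nil))))))))))))))))))))))))))))))))))))))))))

end Pool.Agent.RatRec
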