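import Pool.Agent.Lib_helper86.RatV.KCert

/-!
Packed certificates of unbounded special cases (data).
-/

set_option autoImplicit false
set_option maxRecDepth 100000

namespace Pool.Agent.RatRec

/-- A certificate. -/
def kc_2_28 : KCert :=
  ⟨2, 28, [1], [2, 3, 4], [0, 1, 0, 0, 0], [0, 0, -1, -1, -1], 1, 0x10001000100020001, 0x10001, 0,
  1, 4, 9, 9, [0, 0, 0, 23], 4, [1], (.splS 9 (.cons (.splS 8 (.cons (.splS 7 (.cons (.splS 6
  (.cons (.splS 5 (.cons (.splS 4 (.cons (.splS 3 (.cons (.splT 8 (.cons (.splT 4 (.cons (.leaf 4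
  0x1000000a23900b23100a824) (.cons (.leaf 3 0x800000a23900b824) (.cons (.splT 3 (.cons (.leaf 4
  0x1000000b23100c22900a81c) (.cons (.leaf 3 0x800000b23100b81c) (.cons (.splT 2 (.cons (.leaf 6
  0x800000c22900c22100a81400a242009050) (.cons (.leaf 3 0x800000c22900b814) (.cons (.splT 1 (.cons
  (.leaf 9 0x800000a23901323100c22100c21900a80c01220a014212011008) (.cons (.leaf 9
  0x1000001223900b23101422101380c00b20a00c21200c21a009008) (.cons (.splT 0 (.cons (.leaf 8
  0x800000a23900b23100c22900a20200c20a009040009000) (.cons (.leaf 9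
  0x1000001323100c22901421901380400b20200c20a00c212009000) (.cons (.leaf 9
  0x800001223901223100a22900c20200c20a00c21200c21a009000) .nil)))) .nil)))) .nil)))) .nil))))
  .nil)))) (.cons (.leaf 4 0x800000a24900a24100b242) (.cons (.leaf 4 0x800000b24900a24100c242)
  .nil)))) .nil)) .nil)) .nil)) .nil)) .nil)) .nil)) .nil))⟩

theorem kc_2_28_ok1 : kc_2_28.ok1 = true := by decide +kernel

theorem kc_2_28_ok2 : kc_2_28.ok2 = true := by decide +kernel

/-- A certificate. -/
def kc_4_1 : KCert :=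
  ⟨4, 1, [2], [0], [0, 0, 1, 0, 0], [-1, 0, 0, 0, 0], 1, 0x10001000200010001, 0x10001000100010000,
  0, 0, 4, 2, 1, [0, 2, 0, 0], 4, [1], (.splT 0 (.cons (.leaf 2 0x8402009000) .nil))⟩

theorem kc_4_1_ok1 : kc_4_1.ok1 = true := by decide +kernel

theorem kc_4_1_ok2 : kc_4_1.ok2 = true := by decide +kernel

/-- A certificate. -/
def kc_5_1 : KCert :=
  ⟨5, 1, [0, 2], [0], [-2, 0, 2, 0, 0], [0, 0, 0, 0, 0], 2, 0x20002000400020000,
  0x20002000200020002, 1, 0, 4, 2, 1, [2, 2, 0, 0], 4, [1], (.splT 0 (.cons (.leaf 2 0x8402009000)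
  .nil))⟩

theorem kc_5_1_ok1 : kc_5_1.ok1 = true := by decide +kernel

theorem kc_5_1_ok2 : kc_5_1.ok2 = true := by decide +kernel

/-- A certificate. -/
def kc_6_2 : KCert :=
  ⟨6, 2, [1, 2], [1], [0, -2, 2, 0, 0], [0, -2, 0, 0, 0], 2, 0x20002000400000002,
  0x20002000200000002, 1, 0, 4, 2, 11, [0, 0, 12, 0], 4, [1], (.splT 0 (.cons (.splS 2 (.cons
  (.leaf 2 0x8000009211) (.cons (.splS 1 (.cons (.leaf 3 0x9402009209009000) (.cons (.leaf 4
  0x800000a20b009411009020) .nil))) .nil))) .nil))⟩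

theorem kc_6_2_ok1 : kc_6_2.ok1 = true := by decide +kernel

theorem kc_6_2_ok2 : kc_6_2.ok2 = true := by decide +kernel

/-- A certificate. -/
def kc_6_10 : KCert :=
  ⟨6, 10, [1, 2], [1, 3], [0, -3, 3, 0, 0], [0, 3, 0, -3, 0], 3, 0x30003000600000003,
  0x30000000300060003, 1, 1, 4, 2, 9, [0, 2, 6, -9], 6, [1], (.splS 2 (.cons (.leaf 2
  0x8000009211) (.cons (.splS 1 (.cons (.splT 0 (.cons (.leaf 3 0x9402009209009000) (.cons (.leaf
  4 0xb402009411009020009000) .nil))) (.cons (.leaf 4 0x800000a20b009411009020) .nil))) .nil)))⟩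

theorem kc_6_10_ok1 : kc_6_10.ok1 = true := by decide +kernel

theorem kc_6_10_ok2 : kc_6_10.ok2 = true := by decide +kernel

/-- A certificate. -/
def kc_8_4 : KCert :=
  ⟨8, 4, [3], [2], [0, 0, 0, 1, 0], [0, 0, -1, 0, 0], 1, 0x10002000100010001, 0x10001000000010001,
  0, 0, 8, 4, 11, [0, 27, 0, 0], 8, [1], (.splT 1 (.cons (.splT 0 (.cons (.splS 8 (.cons (.splS 7
  (.cons (.splS 6 (.cons (.splS 5 (.cons (.splS 4 (.cons (.splS 3 (.cons (.splS 2 (.cons (.leaf 13
  0x1000000a64100a63900a63101262901a62102261903261105260a032602009058051008031000) .nil)) .nil))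
  .nil)) .nil)) .nil)) .nil)) .nil)) .nil)) .nil))⟩

theorem kc_8_4_ok1 : kc_8_4.ok1 = true := by decide +kernel

theorem kc_8_4_ok2 : kc_8_4.ok2 = true := by decide +kernel

/-- A certificate. -/
def kc_9_7 : KCert :=
  ⟨9, 7, [0, 3], [0, 1, 2], [3, 0, 0, 0, 0], [-3, 0, -3, 0, 0], 3, 0x30003000300030006,
  0x30003000000030000, 1, 1, 4, 3, 10, [0, 0, 60, 0], 5, [1], (.splT 2 (.cons (.leaf 2
  0x8000008214) (.cons (.splS 3 (.cons (.leaf 2 0x8000008019) (.cons (.splS 1 (.cons (.splT 0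
  (.cons (.leaf 2 0x8602009000) (.cons (.leaf 4 0x800000960200a009009000) (.cons (.splS 2 (.cons
  (.leaf 4 0x800000901100a602009000) (.cons (.leaf 5 0x800000961100a00400a619009030) .nil)))
  .nil)))) (.cons (.leaf 3 0xb00b009619009030) .nil))) .nil))) (.cons (.leaf 2 0xa214009020)
  .nil))))⟩

theorem kc_9_7_ok1 : kc_9_7.ok1 = true := by decide +kernel

theorem kc_9_7_ok2 : kc_9_7.ok2 = true := by decide +kernel

/-- A certificate. -/
def kc_10_4 : KCert :=
  ⟨10, 4, [1, 3], [2], [0, -9, 0, 9, 0], [0, 0, -9, 0, 0], 9, 0x90012000900000009,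
  0x90009000000090009, 1, 0, 8, 4, 76, [0, 77, 0, 0], 9, [1, 1], (.splT 2 (.cons (.splT 1 (.cons
  (.splT 0 (.cons (.splS 2 (.cons (.leaf 2 0x9613009018) (.cons (.splS 3 (.cons (.leaf 5
  0x1260a00a20201221900a611009000) (.cons (.splS 4 (.cons (.leaf 5 0xa61200a60a00a22100a619009008)
  (.cons (.splS 5 (.cons (.leaf 3 0x800000a22900a621) (.cons (.leaf 6
  0x800000a62900b22300a62100b21b009038) .nil))) .nil))) .nil))) .nil))) .nil)) .nil)) .nil))⟩

theorem kc_10_4_ok1 : kc_10_4.ok1 = true := by decide +kernel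

theorem kc_10_4_ok2 : kc_10_4.ok2 = true := by decide +kernel

/-- A certificate. -/
def kc_10_20 : KCert :=
  ⟨10, 20, [1, 3], [2, 4], [0, -6, 0, 12, 0], [0, 0, -6, 0, 0], 6, 0x60012000600000006,
  0x60006000000060006, 1, 1, 10, 6, 61, [0, 62, 0, 0], 10, [1], (.splS 3 (.cons (.leaf 2
  0x961b009020) (.cons (.splT 2 (.cons (.leaf 2 0xa814009020) (.cons (.splS 6 (.cons (.splS 5
  (.cons (.splT 5 (.cons (.splT 4 (.cons (.splS 2 (.cons (.leaf 3 0x961300a22a00c619) (.cons
  (.splS 1 (.cons (.leaf 3 0x960b00c61100a222) (.cons (.splT 6 (.cons (.splS 7 (.cons (.splT 7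
  (.cons (.splS 4 (.cons (.splT 8 (.cons (.leaf 5 0xa24200962300a63a00a22900a231) (.cons (.splT 3
  (.cons (.splS 9 (.cons (.leaf 6 0x964b00c24200962300a63a00a22900a231) (.cons (.splT 9 (.cons
  (.leaf 8 0x1800001264a00a61a01424201423900a22902223100c619) (.cons (.splT 10 (.cons (.leaf 9
  0x1800001265201464a00a61a01223900a22901423101223100c619) (.cons (.leaf 8
  0xc65200c64a00c24200962300963b00a229012231009070) .nil))) .nil))) .nil))) (.cons (.leaf 2
  0xc41c009623) .nil))) .nil))) (.cons (.splS 8 (.cons (.splT 8 (.cons (.splT 3 (.cons (.leaf 5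
  0xa81c00a24200a63a00a22900a231) (.cons (.splT 9 (.cons (.leaf 6
  0x800000a24a00a24200c239012231009038) (.cons (.splT 10 (.cons (.leaf 8
  0x1800001265201424a00a24201424101a23900c231012231) (.cons (.leaf 5
  0xc65200c24a00a23900a231009070) .nil))) .nil))) .nil))) (.cons (.splS 9 (.cons (.leaf 2
  0x964b00c444) (.cons (.splT 9 (.cons (.leaf 6 0x800000a64a00c24200c239012231009038) (.cons
  (.splT 10 (.cons (.leaf 10 0x1800001265201424a01424100a62102223900b20b00a22a01223100c612) (.cons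
  (.leaf 6 0xc65200c64a00c44400a23900a231009070) .nil))) .nil))) .nil))) .nil))) (.cons (.splT 10
  (.cons (.leaf 3 0xa25200c64100963b) (.cons (.splT 9 (.cons (.splT 8 (.cons (.leaf 6
  0x800000a24200a24a00c239012231009038) (.cons (.leaf 6 0x800000c24200a64a00c239012231009038)
  .nil))) (.cons (.leaf 5 0xc24a00c65200a23900a231009070) .nil))) .nil))) .nil))) .nil))) (.cons
  (.splS 8 (.cons (.leaf 2 0x964300c43c) (.cons (.splT 10 (.cons (.leaf 3 0xa25200c64100963b)
  (.cons (.splT 9 (.cons (.splT 8 (.cons (.leaf 6 0x800000a24200a24a00c239012231009038) (.cons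
  (.leaf 6 0x800000c24200a64a00c239012231009038) .nil))) (.cons (.leaf 5
  0xc24a00c65200a23900a231009070) .nil))) .nil))) .nil))) .nil))) (.cons (.splT 9 (.cons (.leaf 7
  0x800000a24a00c63900a63900a22a00c231009028) (.cons (.splS 10 (.cons (.leaf 8
  0x800000965300c24a00c63900a63900a22a00c231009028) (.cons (.splT 10 (.cons (.leaf 6
  0x800000a65200c64a00a639014231009038) (.cons (.splT 11 (.cons (.leaf 6
  0x800000a65a00c65200c639014231009038) (.cons (.leaf 8
  0x800000c65a00c65200c24a00c63900a639014231009078) .nil))) .nil))) .nil))) .nil))) .nil))) (.cons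
  (.splS 7 (.cons (.leaf 2 0x963b00c434) (.cons (.splT 9 (.cons (.leaf 7
  0x800000a24a00c63900a63900a22a00c231009028) (.cons (.splS 10 (.cons (.leaf 8
  0x800000965300c24a00c63900a63900a22a00c231009028) (.cons (.splT 10 (.cons (.leaf 6
  0x800000a65200c64a00a639014231009038) (.cons (.splT 11 (.cons (.leaf 6
  0x800000a65a00c65200c639014231009038) (.cons (.leaf 8
  0x800000c65a00c65200c24a00c63900a639014231009078) .nil))) .nil))) .nil))) .nil))) .nil)))
  .nil))) .nil))) .nil))) (.cons (.leaf 4 0x800000c42400a231009038) .nil))) (.cons (.leaf 2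
  0xc42c009633) .nil))) (.cons (.leaf 4 0x800000b22b00a231009038) .nil))) (.cons (.splS 5 (.cons
  (.splT 4 (.cons (.splT 8 (.cons (.leaf 5 0x800000a24200c63100a631009048) (.cons (.splS 9 (.cons
  (.leaf 6 0x800000964b00c24200c63100a631009048) (.cons (.splT 6 (.cons (.splT 5 (.cons (.splS 7
  (.cons (.leaf 5 0x800000a23900a22a00a631009028) (.cons (.leaf 5 0x800000a63900a22a00c631009028)
  .nil))) (.cons (.splS 7 (.cons (.splS 4 (.cons (.splT 3 (.cons (.splT 0 (.cons (.splS 2 (.cons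
  (.leaf 3 0xc21100a602009000) (.cons (.splT 9 (.cons (.leaf 8
  0xa64a00c61100a60200a61a00c64201422900a631009000) (.cons (.splT 10 (.cons (.leaf 9
  0xa65200c64a00c61100a60200a61a00963b01422900a631009000) (.cons (.leaf 11
  0xc65200c64a00c61100a60200a61a00963b00c242014229012631009070009000) .nil))) .nil))) .nil)))
  (.cons (.leaf 3 0xc40400a22100c612) .nil))) (.cons (.leaf 5 0x800000c61a00a23900a631009018)
  .nil))) (.cons (.leaf 7 0x800000a62100a23900c22a00a22200a631009048) .nil))) (.cons (.splS 4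
  (.cons (.splT 3 (.cons (.splT 0 (.cons (.splS 2 (.cons (.leaf 3 0xc21100a602009000) (.cons
  (.splT 9 (.cons (.leaf 8 0xa64a00c61100a60200a61a00c64201422900a631009000) (.cons (.splT 10
  (.cons (.leaf 8 0xa65200c64a00c61100a60200a61a01422900c631009000) (.cons (.leaf 11
  0xc65200c64a00c61100a60200a61a00c24201422900c63100a631009070009000) .nil))) .nil))) .nil)))
  (.cons (.leaf 3 0xc40400a22100c612) .nil))) (.cons (.leaf 5 0x800000c61a00a63900c631009018)
  .nil))) (.cons (.leaf 7 0x800000a62100a63900c22a00a22200c631009048) .nil))) .nil))) .nil)))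
  (.cons (.splS 7 (.cons (.leaf 2 0x963b00c434) (.cons (.splT 5 (.cons (.leaf 5
  0x800000a22a00a63900c631009028) (.cons (.splS 4 (.cons (.splT 3 (.cons (.splS 10 (.cons (.leaf 3
  0xa25100c43400c642) (.cons (.splT 0 (.cons (.splS 2 (.cons (.leaf 3 0xc21100a602009000) (.cons
  (.splT 9 (.cons (.leaf 8 0xa64a00c61100a60200a61a00c64201422900a631009000) (.cons (.splT 10
  (.cons (.leaf 8 0xa65200c64a00c61100a60200a61a01422900c631009000) (.cons (.leaf 11
  0xc65200c64a00c61100a60200a61a00c24201422900c63100a631009070009000) .nil))) .nil))) .nil)))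
  (.cons (.leaf 3 0xc40400a22100c612) .nil))) .nil))) (.cons (.leaf 5
  0x800000c61a00a63900c631009018) .nil))) (.cons (.leaf 7
  0x800000a62100c22a00a63900a22200c631009048) .nil))) .nil))) .nil))) .nil))) .nil))) .nil)))
  (.cons (.leaf 4 0x800000c42400a631009048) .nil))) (.cons (.leaf 4 0x800000b22b00a631009048)
  .nil))) .nil))) .nil))) .nil)))⟩

theorem kc_10_20_ok1 : kc_10_20.ok1 = true := by decide +kernel

theorem kc_10_20_ok2 : kc_10_20.ok2 = true := by decide +kernel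

/-- A certificate. -/
def kc_10_21 : KCert :=
  ⟨10, 21, [1, 3], [0, 2, 4], [0, -10, 0, 5, 0], [-5, 0, 0, 0, 0], 10, 0xa000f000a0000000a,
  0xa000a000a000a0005, 1, 1, 6, 3, 25, [22, 9, 0, 21], 9, [1], (.splS 3 (.cons (.leaf 2
  0x8219009020) (.cons (.splT 1 (.cons (.leaf 2 0x800000840c) (.cons (.splT 5 (.cons (.leaf 3
  0x800000822a00a619) (.cons (.leaf 5 0x800000a22a00c61900a619009030) (.cons (.splS 2 (.cons
  (.splT 0 (.cons (.leaf 2 0x8602009000) (.cons (.leaf 4 0xa60200c211008619009000) (.cons (.splS 4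
  (.cons (.leaf 5 0x800000a22100c60200a619009000) (.cons (.leaf 5 0x800000a62100c60200c619009000)
  .nil))) .nil)))) (.cons (.leaf 4 0x800000b21300a619009030) .nil))) .nil)))) (.cons (.leaf 4
  0x800000c40c00a619009030) .nil)))) .nil)))⟩

theorem kc_10_21_ok1 : kc_10_21.ok1 = true := by decide +kernel

theorem kc_10_21_ok2 : kc_10_21.ok2 = true := by decide +kernel

/-- A certificate. -/
def kc_11_21 : KCert :=
  ⟨11, 21, [0, 1, 3], [0, 2, 4], [15, -10, 0, 10, 0], [-5, 0, 10, 0, 10], 10, 0xa0014000a00000019,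
  0x14000a0014000a0005, 1, 1, 6, 3, 26, [0, 0, 27, 0], 8, [1], (.splS 3 (.cons (.leaf 2
  0x8000008019) (.cons (.leaf 2 0x8219009020) (.cons (.splS 2 (.cons (.leaf 2 0x8000008213) (.cons
  (.splS 4 (.cons (.splT 0 (.cons (.leaf 2 0x8602009000) (.cons (.leaf 4 0xa60200c211008619009000)
  (.cons (.leaf 5 0x800000c60200a021008619009000) .nil)))) (.cons (.leaf 3 0x902300a619009030)
  (.cons (.leaf 3 0xb02300c619009030) .nil)))) (.cons (.leaf 4 0x800000b21300a619009030) .nil))))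
  .nil))))⟩

theorem kc_11_21_ok1 : kc_11_21.ok1 = true := by decide +kernel

theorem kc_11_21_ok2 : kc_11_21.ok2 = true := by decide +kernel

/-- A certificate. -/
def kc_11_23 : KCert :=
  ⟨11, 23, [0, 1, 3], [0, 1, 2, 4], [0, 0, 0, 0, 0], [-3, 3, -3, 0, 3], 3, 0x30003000300030003,
  0x60003000000060000, 1, 1, 6, 3, 14, [9, 2, -9, 13], 6, [1], (.splS 3 (.cons (.leaf 2
  0x8000008019) (.cons (.leaf 2 0x8000009219) (.cons (.splS 2 (.cons (.leaf 2 0x8000008213) (.cons
  (.splT 1 (.cons (.leaf 2 0x800000840c) (.cons (.leaf 3 0x800000940c009211) (.cons (.splS 1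
  (.cons (.splT 0 (.cons (.leaf 2 0x8602009000) (.cons (.leaf 4 0x800000960200a009009000) (.cons
  (.leaf 3 0xa602009211009000) (.cons (.splS 4 (.cons (.leaf 5 0x800000a02100c602008619009000)
  (.cons (.leaf 5 0x800000a22100c60200a619009000) (.cons (.leaf 5 0x800000a62100c60200c619009000)
  .nil)))) .nil))))) (.cons (.leaf 2 0x900b009211) (.cons (.leaf 3 0xb00b009619009030) .nil))))
  (.cons (.leaf 4 0x800000c40c00a619009030) .nil))))) (.cons (.leaf 4 0x800000b21300a619009030)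
  .nil)))) .nil))))⟩

theorem kc_11_23_ok1 : kc_11_23.ok1 = true := by decide +kernel

theorem kc_11_23_ok2 : kc_11_23.ok2 = true := by decide +kernel

/-- A certificate. -/
def kc_12_3 : KCert :=
  ⟨12, 3, [2, 3], [0, 1], [0, 0, 6, -6, 0], [3, -6, 0, 0, 0], 6, 0x60000000c00060006,
  0x60006000600000009, 1, 1, 4, 2, 26, [0, 0, 27, 0], 4, [1], (.splS 2 (.cons (.splS 1 (.cons
  (.leaf 3 0x800000a60b009411) (.cons (.splT 0 (.cons (.leaf 2 0x8402009000) (.cons (.leaf 3
  0x9004009609009020) .nil))) .nil))) (.cons (.leaf 2 0x8611009028) .nil)))⟩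

theorem kc_12_3_ok1 : kc_12_3.ok1 = true := by decide +kernel

theorem kc_12_3_ok2 : kc_12_3.ok2 = true := by decide +kernel

/-- A certificate. -/
def kc_12_22 : KCert :=
  ⟨12, 22, [2, 3], [1, 2, 4], [0, 0, 0, 4, 0], [0, 0, 0, 0, 0], 0, 0x4000000000000, 0x0, 1, 1, 6,
  3, 11, [0, 0, 0, 27], 6, [1], (.splS 3 (.cons (.leaf 2 0x800000a419) (.cons (.splS 4 (.cons
  (.splS 1 (.cons (.splT 0 (.cons (.leaf 3 0x960200a409009000) (.cons (.splS 2 (.cons (.leaf 3
  0x800000941100a804) (.cons (.leaf 6 0x800000961100a60200a619009030009000) .nil))) (.cons (.leaf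
  3 0xc60200a421009000) .nil)))) (.cons (.leaf 4 0x800000b40b009619009030) .nil))) (.cons (.leaf 3
  0x800000b42300c619) .nil))) .nil)))⟩

theorem kc_12_22_ok1 : kc_12_22.ok1 = true := by decide +kernel

theorem kc_12_22_ok2 : kc_12_22.ok2 = true := by decide +kernel

/-- A certificate. -/
def kc_13_20 : KCert :=
  ⟨13, 20, [0, 2, 3], [2, 4], [-3, 0, -3, 0, 0], [0, 0, 6, 0, -3], 3, 0x30003000000030000,
  0x3000900030003, 1, 1, 8, 3, 24, [0, 0, 25, 0], 8, [1], (.splS 0 (.cons (.leaf 2 0x8000008603)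
  (.cons (.leaf 2 0xa603009010) (.cons (.splT 1 (.cons (.splS 3 (.cons (.splT 5 (.cons (.leaf 4
  0x1000000a02a00c01900a019) (.cons (.leaf 3 0xc02a00a019009048) .nil))) (.cons (.leaf 2
  0x800000a419) (.cons (.splS 2 (.cons (.splS 1 (.cons (.leaf 3 0x800000a00900a40a) (.cons (.splT
  0 (.cons (.splT 5 (.cons (.leaf 7 0x1000000a02a01260201401100c61900a619011000) (.cons (.splT 7
  (.cons (.leaf 6 0x800000a43a00a60200c01100c619009000) (.cons (.leaf 9
  0x800000c43a00c02a01260201401100c61900a619009058011000) .nil))) .nil))) (.cons (.leaf 3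
  0xc602008413009000) .nil))) (.cons (.leaf 4 0x800000a60900841300a40a) .nil)))) (.cons (.splS 4
  (.cons (.leaf 3 0xa02100a01300b01b) (.cons (.leaf 2 0xa42100a013) (.cons (.leaf 4
  0x800000a62100a01300c619) .nil)))) (.cons (.leaf 3 0xb01300a619009030) .nil)))) .nil)))) (.cons
  (.leaf 2 0xc40c009028) .nil))) .nil))))⟩

theorem kc_13_20_ok1 : kc_13_20.ok1 = true := by decide +kernel

theorem kc_13_20_ok2 : kc_13_20.ok2 = true := by decide +kernel

/-- A certificate. -/
def kc_14_10 : KCert :=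
  ⟨14, 10, [1, 2, 3], [1, 3], [0, 0, 5, -5, 0], [0, 0, 0, -5, 0], 5, 0x50000000a00050005,
  0x50000000500050005, 1, 1, 4, 2, 13, [0, 0, 14, 0], 4, [1], (.splS 2 (.cons (.leaf 2
  0x8000009211) (.cons (.splS 1 (.cons (.splT 0 (.cons (.leaf 3 0x9402009209009000) (.cons (.leaf
  4 0xb402009411009020009000) .nil))) (.cons (.leaf 4 0x800000a20b009411009020) (.cons (.leaf 2
  0xb20b009020) .nil)))) (.cons (.leaf 2 0x800000b611) .nil))))⟩

theorem kc_14_10_ok1 : kc_14_10.ok1 = true := by decide +kernel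

theorem kc_14_10_ok2 : kc_14_10.ok2 = true := by decide +kernel

/-- A certificate. -/
def kc_15_2 : KCert :=
  ⟨15, 2, [0, 1, 2, 3], [1], [0, 0, 3, -3, 0], [0, 0, 0, 0, 0], 3, 0x30000000600030003,
  0x30003000300030003, 1, 0, 4, 2, 9, [0, 0, 23, 0], 4, [1], (.splT 0 (.cons (.splS 1 (.cons
  (.leaf 2 0x800000820b) (.cons (.leaf 3 0x9402009209009000) (.cons (.splS 2 (.cons (.leaf 3
  0x1000000901100a20b) (.cons (.leaf 2 0x8000009211) (.cons (.leaf 4 0x800000941100a20b009020)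
  (.cons (.leaf 4 0x800000961100a20b009028) .nil))))) (.cons (.leaf 2 0xb20b009020) .nil)))))
  .nil))⟩

theorem kc_15_2_ok1 : kc_15_2.ok1 = true := by decide +kernel

theorem kc_15_2_ok2 : kc_15_2.ok2 = true := by decide +kernel

/-- A certificate. -/
def kc_15_21 : KCert :=
  ⟨15, 21, [0, 1, 2, 3], [0, 2, 4], [-10, -5, 0, 10, 0], [5, 0, 5, 0, 0], 10, 0xa0014000a00050000,
  0xa000a000f000a000f, 1, 1, 6, 3, 23, [0, 24, 0, 0], 7, [1], (.splS 3 (.cons (.leaf 2
  0x8000008019) (.cons (.leaf 2 0x8219009020) (.cons (.leaf 2 0x800000a419) (.cons (.splS 4 (.cons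
  (.leaf 3 0x8000008423008619) (.cons (.leaf 3 0x800000942300a619) (.cons (.splS 2 (.cons (.leaf 2
  0x8000008213) (.cons (.splT 0 (.cons (.leaf 2 0x8602009000) (.cons (.leaf 4
  0xa60200c211008619009000) (.cons (.leaf 2 0xc00400a421) .nil)))) (.cons (.leaf 3
  0x800000a21300a421) (.cons (.leaf 4 0x800000b21300a619009030) .nil))))) (.cons (.leaf 3
  0x800000b42300c619) .nil))))) .nil)))))⟩

theorem kc_15_21_ok1 : kc_15_21.ok1 = true := by decide +kernel

theorem kc_15_21_ok2 : kc_15_21.ok2 = true := by decide +kernel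

/-- A certificate. -/
def kc_17_12 : KCert :=
  ⟨17, 12, [0, 4], [2, 3], [4, 0, 0, 0, 0], [0, 0, 4, 0, 0], 0, 0x4, 0x400000000, 1, 1, 4, 9, 20,
  [0, 6, 28, 18], 7, [1], (.splT 7 (.cons (.splS 5 (.cons (.leaf 2 0x800000882b) (.cons (.splS 9
  (.cons (.splS 8 (.cons (.splT 8 (.cons (.splS 7 (.cons (.splT 5 (.cons (.leaf 4
  0x800000a82a00a039009028) (.cons (.splS 6 (.cons (.splT 4 (.cons (.splT 6 (.cons (.leaf 5
  0x800000a03200a822013031009020) (.cons (.splS 3 (.cons (.splT 3 (.cons (.splS 2 (.cons (.splT 0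
  (.cons (.leaf 6 0x800000a80200a011012022013031009000) (.cons (.leaf 7
  0x800000b80200a01900a82200b03100b82a009000) .nil))) (.cons (.leaf 3 0x800000c01300b031) .nil)))
  (.cons (.leaf 7 0x1000000b01a00a01900a82201303100b82a009020) .nil))) (.cons (.leaf 3
  0x800000c01b00a039) .nil))) .nil))) (.cons (.leaf 3 0xb02200a039009020) .nil))) (.cons (.leaf 4
  0xc03300b82a00a041009028) .nil))) .nil))) (.cons (.leaf 4 0x800000a83900a04900a03a) .nil)))
  (.cons (.leaf 3 0xb04200a049009040) .nil))) (.cons (.leaf 3 0x800000c04300b049) .nil))) (.cons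
  (.splS 8 (.cons (.splS 7 (.cons (.splT 5 (.cons (.leaf 4 0x800000a82a00a039009028) (.cons (.splS
  6 (.cons (.splT 4 (.cons (.splT 6 (.cons (.leaf 5 0x800000a03200a822013031009020) (.cons (.splS
  3 (.cons (.splT 3 (.cons (.splS 2 (.cons (.splT 0 (.cons (.leaf 6
  0x800000a80200a011012022013031009000) (.cons (.leaf 7
  0x800000b80200a01900a82200b03100b82a009000) .nil))) (.cons (.leaf 3 0x800000c01300b031) .nil)))
  (.cons (.leaf 7 0x1000000b01a00a01900a82201303100b82a009020) .nil))) (.cons (.leaf 3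
  0x800000c01b00a039) .nil))) .nil))) (.cons (.leaf 3 0xb02200a039009020) .nil))) (.cons (.leaf 4
  0xc03300b82a00a041009028) .nil))) .nil))) (.cons (.leaf 3 0xc03b00a849009068) .nil))) (.cons
  (.leaf 3 0xc04300b849009068) .nil))) .nil))) .nil))) (.cons (.leaf 2 0xb43c009050) .nil)))⟩

theorem kc_17_12_ok1 : kc_17_12.ok1 = true := by decide +kernel

theorem kc_17_12_ok2 : kc_17_12.ok2 = true := by decide +kernel

/-- A certificate. -/
def kc_18_12 : KCert :=
  ⟨18, 12, [1, 4], [2, 3], [0, 0, 0, 0, 8], [0, 0, 24, -24, 0], 24, 0x200018001800180018,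
  0x180000003000180018, 1, 1, 8, 5, 270, [0, 0, 0, 271], 9, [1, 1], (.splS 5 (.cons (.splT 4
  (.cons (.splT 5 (.cons (.splS 4 (.cons (.splT 2 (.cons (.leaf 4 0x800001a614012221009020) (.cons
  (.splS 6 (.cons (.splT 6 (.cons (.splS 3 (.cons (.splT 3 (.cons (.splS 2 (.cons (.leaf 6
  0x1000001b21101a21901b81200a221011020) (.cons (.splS 1 (.cons (.leaf 6
  0x1000002180b02381101981b01a22101a22a) (.cons (.splT 1 (.cons (.leaf 7
  0x1000002280a02380900981b02221900a22100a22a) (.cons (.splT 0 (.cons (.leaf 5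
  0xa20201380a00b811012221009000) (.cons (.leaf 4 0xb40400a21900b812009020) .nil))) .nil)))
  .nil))) .nil))) (.cons (.leaf 4 0x1341c00981b00a22100a22a) .nil))) (.cons (.splS 2 (.cons (.leaf
  6 0x1000002b21101a81903b81201a229011010) (.cons (.splT 1 (.cons (.leaf 5
  0xa80a00b81900b81200a229009008) (.cons (.splT 0 (.cons (.leaf 5 0xa20201380a00b811012221009000)
  (.cons (.leaf 7 0x1000002b40400b40c02281902b81200a221022229) .nil))) .nil))) .nil))) .nil)))
  (.cons (.splS 3 (.cons (.splT 3 (.cons (.splS 2 (.cons (.leaf 6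
  0x1000001b21101a21901b81200a221011020) (.cons (.splT 8 (.cons (.leaf 6
  0x1224200981b01343401183300a22100a229) (.cons (.splT 7 (.cons (.leaf 7
  0x1000002283a02324201981b02223101a22102a229) (.cons (.leaf 5 0x1383a01344400981b00a22100a229)
  .nil))) .nil))) .nil))) (.cons (.leaf 4 0x1341c00981b00a22100a22a) .nil))) (.cons (.splS 7
  (.cons (.leaf 5 0x1223900c21b01343400a22a00a222) (.cons (.splS 2 (.cons (.leaf 6
  0x1000002b21101a81903b81201a229011010) (.cons (.splT 1 (.cons (.leaf 5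
  0xa80a00b81900b81200a229009008) (.cons (.splT 0 (.cons (.leaf 5 0xa20201380a00b811012221009000)
  (.cons (.leaf 7 0x1000002b40400b40c02281902b81200a221022229) .nil))) .nil))) .nil))) .nil)))
  .nil))) .nil))) (.cons (.splT 7 (.cons (.leaf 5 0x800001a63c01b83100a222009020) (.cons (.splT 6
  (.cons (.splS 3 (.cons (.splT 3 (.cons (.splS 2 (.cons (.leaf 6
  0x1000001b21101a21901b81200a221011020) (.cons (.splT 8 (.cons (.splS 1 (.cons (.leaf 6
  0x1000002180b02381101981b01a22101a22a) (.cons (.splT 1 (.cons (.leaf 7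
  0x1000002280a02380900981b02221900a22100a22a) (.cons (.splT 0 (.cons (.leaf 5
  0xa20201380a00b811012221009000) (.cons (.leaf 4 0xb40400a21900b812009020) .nil))) .nil)))
  .nil))) (.cons (.leaf 5 0x1344400981b01383a00a22100a229) .nil))) .nil))) (.cons (.leaf 4
  0x1341c00981b00a22100a22a) .nil))) (.cons (.splS 7 (.cons (.leaf 6
  0x1000002323901c21b02283100a22a01a222) (.cons (.splS 2 (.cons (.leaf 6
  0x1000002b21101a81903b81201a229011010) (.cons (.splT 1 (.cons (.leaf 5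
  0xa80a00b81900b81200a229009008) (.cons (.splT 0 (.cons (.leaf 5 0xa20201380a00b811012221009000)
  (.cons (.leaf 7 0x1000002b40400b40c02281902b81200a221022229) .nil))) .nil))) .nil))) .nil)))
  .nil))) (.cons (.splS 3 (.cons (.splT 3 (.cons (.splS 2 (.cons (.leaf 6
  0x1000001b21101a21901b81200a221011020) (.cons (.splT 8 (.cons (.splS 1 (.cons (.leaf 6
  0x1000002180b02381101981b01a22101a22a) (.cons (.splT 1 (.cons (.leaf 7
  0x1000002280a02380900981b02221900a22100a22a) (.cons (.splT 0 (.cons (.leaf 5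
  0xa20201380a00b811012221009000) (.cons (.leaf 4 0xb40400a21900b812009020) .nil))) .nil)))
  .nil))) (.cons (.leaf 5 0x1344400981b01383a00a22100a229) .nil))) .nil))) (.cons (.leaf 4
  0x1341c00981b00a22100a22a) .nil))) (.cons (.splS 7 (.cons (.leaf 6
  0x1000002323901c21b02283100a22a01a222) (.cons (.splS 2 (.cons (.leaf 6
  0x1000002b21101a81903b81201a229011010) (.cons (.splT 1 (.cons (.leaf 5
  0xa80a00b81900b81200a229009008) (.cons (.splT 0 (.cons (.leaf 5 0xa20201380a00b811012221009000)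
  (.cons (.leaf 7 0x1000002b40400b40c02281902b81200a221022229) .nil))) .nil))) .nil))) .nil)))
  .nil))) .nil))) .nil))) .nil))) .nil))) (.cons (.splS 6 (.cons (.leaf 6
  0x1000001a23101a82101a22200a229011030) (.cons (.splS 7 (.cons (.leaf 7
  0x800000b23900a83100a82100a22a00a22200b229) (.cons (.leaf 8
  0x2000001b83903283104282101a22a042222013229019050) .nil))) .nil))) .nil))) (.cons (.splS 6
  (.cons (.leaf 6 0x800001a23101b22a00a22201a229009020) (.cons (.splT 7 (.cons (.leaf 5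
  0x800001a63c01b83100a222009020) (.cons (.splT 8 (.cons (.splS 4 (.cons (.splT 2 (.cons (.leaf 4
  0x800001a614012221009020) (.cons (.splT 6 (.cons (.splS 8 (.cons (.leaf 4
  0xa24100a63400b23a00b42c) (.cons (.splT 9 (.cons (.leaf 4 0xa64c00a84100b83a00b42c) (.cons
  (.splS 10 (.cons (.leaf 9 0x1000002225102b24a00a84201b83a02b83100a83101a229009050) (.cons (.splS
  9 (.cons (.splT 10 (.cons (.splS 3 (.cons (.splS 2 (.cons (.leaf 10
  0x1000001321101221900b24a00a83201381201222100a84200b831013229) (.cons (.splS 1 (.cons (.leaf 4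
  0x980b00b81100982300b22a) (.cons (.splT 1 (.cons (.leaf 7
  0x800001a80a01b80901a21900a22100b22a00a822) (.cons (.splT 0 (.cons (.leaf 5
  0xa20201380a00b811012221009000) (.cons (.leaf 10
  0x1000002340402221901b24a01a83202381202222101a84201b831033229) .nil))) .nil))) .nil))) .nil)))
  (.cons (.splS 7 (.cons (.leaf 7 0x800001b23901c21b01a83100b22a00a822012222) (.cons (.leaf 8
  0x1383902c21b01284102283101b42c01b22a02a222011058) .nil))) .nil))) (.cons (.leaf 9
  0x1000002385204285106b24a00a83202a84206b831033229021068) .nil))) (.cons (.leaf 9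
  0x1000002384902285107b24a03a84205b83100a831033229021068) .nil))) .nil))) .nil))) .nil))) (.cons
  (.splS 3 (.cons (.splS 2 (.cons (.leaf 6 0x1000001b21101a21901b81200a221011020) (.cons (.splS 1
  (.cons (.leaf 7 0x800002980b02b81101b83203283103322a019048) (.cons (.splT 1 (.cons (.leaf 7
  0x800001a80a01380901a21900b81200a221009008) (.cons (.splT 0 (.cons (.leaf 5
  0xa20201380a00b811012221009000) (.cons (.leaf 4 0xb40400a21900b812009020) .nil))) .nil)))
  .nil))) .nil))) (.cons (.splS 7 (.cons (.leaf 8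
  0x1000002b23902c21b00b83203a83101322a02a222009048) (.cons (.leaf 7
  0xb83901421b01283100b42c00b22a012222009050) .nil))) .nil))) .nil))) .nil))) (.cons (.splT 6
  (.cons (.splT 3 (.cons (.leaf 5 0x800001a61c012821012222013229) (.cons (.splS 7 (.cons (.splS 3
  (.cons (.splS 2 (.cons (.leaf 6 0x1800001181300b21900a219012821013229) (.cons (.splS 8 (.cons
  (.leaf 5 0x800000a24100a82100b83100a222) (.cons (.splT 1 (.cons (.leaf 4
  0x800001260c00b21900a219) (.cons (.splT 2 (.cons (.splT 9 (.cons (.leaf 8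
  0x1800000a24a02261402282101283100b229009050009040) (.cons (.leaf 10
  0x800000b24a01281200b20a01a82100a84200a83101b229009048009008) .nil))) (.cons (.leaf 5
  0xb81200b80a00a82100b229009008) .nil))) .nil))) .nil))) .nil))) (.cons (.leaf 8
  0x800001b81901b23901b21a01a83100b22a00a822012222) .nil))) (.cons (.leaf 8
  0x800001b83902a82101b23a01a83100b22a02a222019050) .nil))) .nil))) (.cons (.leaf 7
  0x800001b83202a82103283100b22a02a222019048) .nil))) .nil))) (.cons (.leaf 6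
  0x2344401b83a01283101342c00a229009050) .nil))) .nil))) .nil))) .nil))) (.cons (.leaf 4
  0x800001b424012229009030) .nil))) (.cons (.splS 6 (.cons (.leaf 3 0x800000b23100a829) (.cons
  (.splS 4 (.cons (.splT 4 (.cons (.splT 6 (.cons (.leaf 6 0x1000001a83202383101422b01b829009048)
  (.cons (.splS 3 (.cons (.splT 3 (.cons (.splT 7 (.cons (.leaf 5 0x800001a63c00a22201b831009020)
  (.cons (.splS 2 (.cons (.leaf 7 0x1000001981301a21900b83101422b009048019020) (.cons (.splT 2
  (.cons (.leaf 7 0x800001a81201b81101383102422b011048019020) (.cons (.splT 8 (.cons (.splS 1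
  (.cons (.leaf 6 0x800000980b00b81100b83101422b009048) (.cons (.splT 1 (.cons (.leaf 7
  0x1000001a80a01b80901a21900b83101422b009048) (.cons (.splT 0 (.cons (.leaf 5
  0xa20201380a00b811012221009000) (.cons (.leaf 4 0xb40400b81200a219009020) .nil))) .nil)))
  .nil))) (.cons (.leaf 8 0x1000003324200b83a02383101c22b03382900a829029050) .nil))) .nil)))
  .nil))) .nil))) (.cons (.leaf 6 0x800001b21a01a21901383102422b011048) .nil))) (.cons (.leaf 7
  0x1000001c21b01a22202383102c22b01a829021048) .nil))) .nil))) (.cons (.leaf 7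
  0x2000002b42400b22201b831032829019048009020) .nil))) (.cons (.leaf 6
  0x800000c22300b83100c22b00b829009048) .nil))) .nil))) .nil)))⟩

theorem kc_18_12_ok1 : kc_18_12.ok1 = true := by decide +kernel

theorem kc_18_12_ok2 : kc_18_12.ok2 = true := by decide +kernel

/-- A certificate. -/
def kc_20_12 : KCert :=
  ⟨20, 12, [2, 4], [2, 3], [0, 0, -17, 0, 0], [0, 0, -17, 17, 0], 17, 0x110011000000110011,
  0x110022000000110011, 1, 1, 8, 4, 92, [93, -93, 0, 0], 8, [1], (.splS 4 (.cons (.leaf 2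
  0x800000a421) (.cons (.splT 5 (.cons (.leaf 3 0x800000a62c00b821) (.cons (.splS 2 (.cons (.splT
  1 (.cons (.leaf 2 0xa60c009018) (.cons (.splT 7 (.cons (.leaf 3 0xa43a00b821009040) (.cons
  (.splS 0 (.cons (.leaf 3 0x800000a80300a411) (.cons (.splT 0 (.cons (.leaf 3 0xa80200a411009000)
  (.cons (.splT 4 (.cons (.splS 3 (.cons (.splT 3 (.cons (.splS 5 (.cons (.splT 6 (.cons (.leaf 7
  0x1000001243201342900a81a00b41900b82100a821) (.cons (.leaf 7
  0x1000000b83201342900a81a00b41900b43a013821) .nil))) (.cons (.splT 6 (.cons (.leaf 4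
  0xa63400a43200b82900a61c) (.cons (.leaf 7 0xb83201382901261c00a62401b43a013821011050) .nil)))
  .nil))) (.cons (.splT 2 (.cons (.splS 5 (.cons (.splT 6 (.cons (.leaf 7
  0x800000a43200b42900b41900b80200b821009000) (.cons (.leaf 9
  0x1000000b83201342901341900a82201380200b43a01b821011000) .nil))) (.cons (.splT 6 (.cons (.leaf 6
  0xa63400a43200b82900b41900b802009000) (.cons (.leaf 9
  0xb83201382901341900a62401380201b43a013821011050011000) .nil))) .nil))) (.cons (.leaf 7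
  0x800000b41200b41a00a41900a41100a821009040) .nil))) .nil))) (.cons (.leaf 4
  0xb81900a62400b802009000) .nil))) (.cons (.splS 3 (.cons (.splT 3 (.cons (.splS 5 (.cons (.splT
  6 (.cons (.leaf 7 0x1000001243201342900a81a00b41900b82100a821) (.cons (.leaf 8
  0x2000001343202342900a81a00b41901382a01b82100a821) .nil))) (.cons (.splT 6 (.cons (.leaf 4
  0xa63400a43200b82900a61c) (.cons (.leaf 6 0xb83200b82900a61c00b43a00b821009048) .nil))) .nil)))
  (.cons (.splT 2 (.cons (.splS 5 (.cons (.splT 6 (.cons (.leaf 7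
  0x800000a43200b42900b41900b80200b821009000) (.cons (.leaf 7
  0x1000000b43201342900a81b00b82a00b82100a821) .nil))) (.cons (.splS 6 (.cons (.leaf 4
  0xa83300b82900a81b00b43a) (.cons (.splT 6 (.cons (.leaf 6 0xa63400a43200b82900b41900b802009000)
  (.cons (.splS 8 (.cons (.leaf 6 0x1000001244100b83200b43a00b82100a821) (.cons (.leaf 10
  0x800000a84100b83200b82900b41900b80201343a013821009060009000) .nil))) .nil))) .nil))) .nil)))
  (.cons (.leaf 7 0x800000b41200b41a00a41900a41100a821009040) .nil))) .nil))) (.cons (.splT 2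
  (.cons (.splT 6 (.cons (.leaf 6 0xa43200b81900b80200b821009040009000) (.cons (.splS 8 (.cons
  (.leaf 6 0x1000001244100b83200b43a00b82100a821) (.cons (.leaf 7
  0x800000a84100b43200b43a00b82100a821009060) .nil))) .nil))) (.cons (.leaf 6
  0x800000b41200a81900b40400b821009040) .nil))) .nil))) .nil))) .nil))) .nil))) .nil))) .nil)))
  (.cons (.leaf 4 0x800000c41300a821009040) .nil))) .nil))) .nil)))⟩

theorem kc_20_12_ok1 : kc_20_12.ok1 = true := by decide +kernel

theorem kc_20_12_ok2 : kc_20_12.ok2 = true := by decide +kernel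

/-- A certificate. -/
def kc_20_13 : KCert :=
  ⟨20, 13, [2, 4], [0, 2, 3], [0, 0, 12, 0, 24], [12, 0, 12, 48, 0], 0, 0x180000000c00000000,
  0x30000c0000000c, 1, 1, 8, 4, 79, [80, -80, 0, 0], 8, [1], (.splT 1 (.cons (.leaf 2
  0x800000860c) (.cons (.leaf 2 0xa60c009018) (.cons (.splS 4 (.cons (.leaf 2 0x800000a421) (.cons
  (.splT 5 (.cons (.leaf 3 0x800000862c008821) (.cons (.leaf 3 0x800000a62c00b821) (.cons (.splS 2
  (.cons (.splT 0 (.cons (.leaf 2 0x8802009000) (.cons (.leaf 3 0xa80200a411009000) (.cons (.splS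
  0 (.cons (.leaf 4 0x800000b40100b80200a411) (.cons (.splS 8 (.cons (.leaf 3 0x800000a441008821)
  (.cons (.splS 6 (.cons (.splT 2 (.cons (.leaf 3 0x800000841200a411) (.cons (.splT 6 (.cons
  (.leaf 3 0x800000843200a821) (.cons (.splS 3 (.cons (.splS 5 (.cons (.leaf 6
  0x800000b42900841900b80200b821009000) (.cons (.leaf 5 0xb82900b41900a63400a43200b004) .nil)))
  (.cons (.leaf 6 0xb81900a43200b80200b821009040009000) .nil))) (.cons (.splT 7 (.cons (.leaf 6
  0x800000843a00b43200b82100a821009040) (.cons (.leaf 3 0xa43a00b821009040) (.cons (.leaf 7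
  0x800000b43a00b43200a84100b82100a821009060) .nil)))) .nil)))) (.cons (.splS 5 (.cons (.leaf 4
  0x1000000b42900b41400b821) (.cons (.leaf 6 0x800000b82900b41200a411008821009048) .nil)))
  .nil)))) (.cons (.leaf 5 0x800000c43300a841010821009060) .nil))) .nil))) .nil))) .nil)))) (.cons
  (.leaf 4 0x800000c41300a821009040) .nil))) .nil)))) .nil))) .nil))))⟩

theorem kc_20_13_ok1 : kc_20_13.ok1 = true := by decide +kernel

theorem kc_20_13_ok2 : kc_20_13.ok2 = true := by decide +kernel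

/-- A certificate. -/
def kc_21_10 : KCert :=
  ⟨21, 10, [0, 2, 4], [1, 3], [3, 0, 0, 0, -3], [0, 3, 0, -3, 0], 3, 0x3000300030006,
  0x30000000300060003, 1, 1, 4, 2, 10, [0, 0, 0, 25], 5, [1], (.splS 0 (.cons (.leaf 2
  0x8000008403) (.cons (.splT 1 (.cons (.splT 2 (.cons (.splT 0 (.cons (.splS 1 (.cons (.leaf 4
  0x8000009009009402009000) (.cons (.leaf 4 0x800000940900940200b401) (.cons (.leaf 5
  0x800000980900940200961400b401) .nil)))) (.cons (.splS 2 (.cons (.leaf 4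
  0x800000901100b402009000) (.cons (.leaf 4 0x941100b402009020009000) (.cons (.leaf 4
  0x981100b402009030009000) .nil)))) .nil))) (.cons (.splS 1 (.cons (.splT 0 (.cons (.leaf 4
  0x8000009402009009009000) (.cons (.leaf 4 0xb40200880b00b214009000) .nil))) (.cons (.leaf 2
  0xa80b00b214) (.cons (.splS 2 (.cons (.leaf 4 0x800000b01100980900900a) (.cons (.leaf 3
  0xb41100c00b009020) (.cons (.leaf 3 0xb81100c00b009030) .nil)))) .nil)))) .nil))) (.cons (.leaf
  2 0xb20c009020) .nil))) (.cons (.leaf 2 0xc403009020) .nil))))⟩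

theorem kc_21_10_ok1 : kc_21_10.ok1 = true := by decide +kernel

theorem kc_21_10_ok2 : kc_21_10.ok2 = true := by decide +kernel

/-- A certificate. -/
def kc_21_13 : KCert :=
  ⟨21, 13, [0, 2, 4], [0, 2, 3], [24, 0, 12, 0, 24], [-12, 0, -24, 24, 0], 24,
  0x300018002400180030, 0x18003000000018000c, 1, 1, 8, 4, 137, [0, 0, 568, 0], 10, [1], (.splS 4
  (.cons (.leaf 2 0x8000008021) (.cons (.leaf 2 0x800000a421) (.cons (.splT 5 (.cons (.leaf 3
  0x800000862c008821) (.cons (.leaf 3 0x800000a62c00b821) (.cons (.splS 2 (.cons (.leaf 2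
  0x8000008413) (.cons (.splT 1 (.cons (.leaf 2 0x800000860c) (.cons (.leaf 2 0xa60c009018) (.cons
  (.splT 7 (.cons (.leaf 3 0x803a00b821009040) (.cons (.leaf 3 0xa43a00b821009040) (.cons (.splS 0
  (.cons (.leaf 2 0x8000008803) (.cons (.leaf 3 0x800000a80300a411) (.cons (.splT 0 (.cons (.leaf
  2 0x8802009000) (.cons (.leaf 3 0xa80200a411009000) (.cons (.splS 8 (.cons (.leaf 4
  0x800000a04100b03a00b821) (.cons (.leaf 3 0x800000a441008821) (.cons (.splS 6 (.cons (.leaf 3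
  0x8000008433008821) (.cons (.splT 6 (.cons (.leaf 3 0x800000843200a821) (.cons (.splS 3 (.cons
  (.leaf 4 0xb01900a43200b802009000) (.cons (.splS 5 (.cons (.leaf 7
  0x800000b02900a81b00a84100b03a010821009060) (.cons (.leaf 6
  0x800000b42900841900b80200b821009000) (.cons (.leaf 11
  0x1000001b82901841900a83201284101b80201b43a01b82100a821011060019000) .nil)))) (.cons (.leaf 6
  0xb81900a43200b80200b821009040009000) .nil)))) (.cons (.leaf 7
  0x800000b43200a84100b43a00b82100a821009060) .nil)))) (.cons (.leaf 5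
  0x800000c43300a841010821009060) .nil)))) .nil)))) .nil)))) .nil)))) .nil)))) .nil)))) (.cons
  (.leaf 4 0x800000c41300a821009040) .nil)))) .nil)))) .nil))))⟩

theorem kc_21_13_ok1 : kc_21_13.ok1 = true := by decide +kernel

theorem kc_21_13_ok2 : kc_21_13.ok2 = true := by decide +kernel

/-- A certificate. -/
def kc_22_2 : KCert :=
  ⟨22, 2, [1, 2, 4], [1], [0, 0, 3, 0, -3], [0, -3, 0, 0, 0], 3, 0x3000600030003,
  0x30003000300000003, 1, 0, 4, 2, 12, [13, 0, 0, 0], 4, [1], (.splT 0 (.cons (.splS 1 (.cons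
  (.leaf 3 0x9402009209009000) (.cons (.splS 2 (.cons (.leaf 2 0x8000009211) (.cons (.leaf 4
  0x800000941100a20b009020) (.cons (.leaf 4 0x800000981100a20b009030) .nil)))) (.cons (.leaf 2
  0xc20b009028) .nil)))) .nil))⟩

theorem kc_22_2_ok1 : kc_22_2.ok1 = true := by decide +kernel

theorem kc_22_2_ok2 : kc_22_2.ok2 = true := by decide +kernel

/-- A certificate. -/
def kc_22_7 : KCert :=
  ⟨22, 7, [1, 2, 4], [0, 1, 2], [0, 16, -12, 0, -8], [-16, -4, 4, 0, 0], 16, 0x80010000400200010,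
  0x1000100014000c0000, 1, 1, 4, 4, 50, [0, 0, 0, 105], 7, [1], (.splS 4 (.cons (.leaf 2
  0x8000009221) (.cons (.leaf 2 0x800000a421) (.cons (.splS 3 (.cons (.splT 3 (.cons (.leaf 3
  0x800000821a009219) (.cons (.splS 2 (.cons (.leaf 3 0x8000009413009219) (.cons (.splT 2 (.cons
  (.leaf 3 0x800000841200a411) (.cons (.leaf 4 0x800000941200a411009219) (.cons (.splS 1 (.cons
  (.leaf 3 0x940b00a41100921a) (.cons (.splT 0 (.cons (.leaf 2 0x8802009000) (.cons (.leaf 3
  0x980200a409009000) (.cons (.leaf 3 0xa80200a411009000) .nil)))) (.cons (.leaf 4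
  0xc40b00921a009821009040) .nil)))) .nil)))) (.cons (.leaf 4 0x800000c41300a821009040) .nil))))
  (.cons (.leaf 5 0x800000a21a009219009821009040) .nil)))) (.cons (.leaf 4
  0x800000a21b009821009040) (.cons (.leaf 2 0xc21b009038) .nil)))) .nil))))⟩

theorem kc_22_7_ok1 : kc_22_7.ok1 = true := by decide +kernel

theorem kc_22_7_ok2 : kc_22_7.ok2 = true := by decide +kernel

/-- A certificate. -/
def kc_22_9 : KCert :=
  ⟨22, 9, [1, 2, 4], [0, 3], [0, 10, 20, 0, -5], [15, 0, 0, 20, 0], 5, 0x50019000f0005,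
  0x50019000500050014, 1, 1, 6, 2, 12, [0, 4, -2, 7], 9, [1], (.splS 2 (.cons (.leaf 2
  0x8211009018) (.cons (.splS 3 (.cons (.splS 0 (.cons (.leaf 2 0x9403009008) (.cons (.splS 4
  (.cons (.leaf 3 0x800000822100b411) (.cons (.splT 0 (.cons (.leaf 2 0x8402009000) (.cons (.leaf
  4 0xb40200842100b219009000) .nil))) (.cons (.leaf 3 0x8821008411009040) .nil)))) (.cons (.leaf 2
  0xc403009020) .nil)))) (.cons (.leaf 3 0x800000a21b00b411) (.cons (.leaf 3 0xc21b008411009038)
  .nil)))) (.cons (.leaf 2 0x8811009030) .nil))))⟩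

theorem kc_22_9_ok1 : kc_22_9.ok1 = true := by decide +kernel

theorem kc_22_9_ok2 : kc_22_9.ok2 = true := by decide +kernel

/-- A certificate. -/
def kc_22_11 : KCert :=
  ⟨22, 11, [1, 2, 4], [0, 1, 3], [0, -6, 6, 0, -6], [3, 6, 0, -6, 0], 6, 0x6000c00000006,
  0x600000006000c0009, 1, 1, 4, 2, 15, [0, 0, 0, 80], 5, [1], (.splS 2 (.cons (.leaf 2
  0x8000009211) (.cons (.splS 1 (.cons (.splT 0 (.cons (.leaf 2 0x8402009000) (.cons (.leaf 2
  0x9004009209) (.cons (.leaf 3 0xb004009411009020) .nil)))) (.cons (.leaf 4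
  0x800000a20b009411009020) (.cons (.leaf 4 0x800000c20b00b411009020) .nil)))) (.cons (.leaf 2
  0x8811009030) .nil))))⟩

theorem kc_22_11_ok1 : kc_22_11.ok1 = true := by decide +kernel

theorem kc_22_11_ok2 : kc_22_11.ok2 = true := by decide +kernel

/-- A certificate. -/
def kc_23_6 : KCert :=
  ⟨23, 6, [0, 1, 2, 4], [1, 2], [-4, 16, -16, 0, 0], [0, -4, -8, 0, 0], 16, 0x10001000000020000c,
  0x1000100008000c0010, 1, 1, 4, 4, 56, [660, 0, 0, 0], 4, [1], (.splS 3 (.cons (.leaf 2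
  0x800000821b) (.cons (.splT 3 (.cons (.splT 2 (.cons (.leaf 3 0x8000009414009219) (.cons (.splS
  4 (.cons (.splS 2 (.cons (.leaf 3 0x800000a01100a412) (.cons (.leaf 4 0x800000a21100a412009219)
  (.cons (.splS 1 (.cons (.leaf 2 0x820b00a412) (.cons (.splT 0 (.cons (.leaf 5
  0x980200a20900a41100921a009000) (.cons (.leaf 3 0xa80200a411009000) .nil))) (.cons (.leaf 3
  0xa20b00a412009219) (.cons (.leaf 4 0x800000c40b00902100921a) .nil))))) (.cons (.leaf 3
  0x1000000c41300a021) .nil))))) (.cons (.leaf 2 0x8000009221) (.cons (.leaf 2 0x800000a421)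
  (.cons (.splS 2 (.cons (.leaf 3 0x800000a01100a412) (.cons (.leaf 4 0x800000a21100a412009219)
  (.cons (.splS 1 (.cons (.leaf 2 0x820b00a412) (.cons (.splT 0 (.cons (.leaf 5
  0x980200a20900a41100921a009000) (.cons (.leaf 3 0xa80200a411009000) .nil))) (.cons (.leaf 3
  0xa20b00a412009219) (.cons (.leaf 4 0xc20b00982100a412009040) .nil))))) (.cons (.leaf 5
  0x800000a81100a82100a412009040) .nil))))) .nil))))) .nil))) (.cons (.leaf 2 0xa21c009028)
  .nil))) (.cons (.leaf 2 0xa21b009028) (.cons (.leaf 2 0xc21b009038) .nil)))))⟩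

theorem kc_23_6_ok1 : kc_23_6.ok1 = true := by decide +kernel

theorem kc_23_6_ok2 : kc_23_6.ok2 = true := by decide +kernel

/-- A certificate. -/
def kc_23_9 : KCert :=
  ⟨23, 9, [0, 1, 2, 4], [0, 3], [15, 10, 20, 0, -5], [15, 0, 0, -15, 0], 15, 0xa000f00230019001e,
  0xf0000000f000f001e, 1, 1, 6, 2, 47, [0, 0, 99, 0], 6, [1], (.splS 2 (.cons (.leaf 2
  0x8000008011) (.cons (.leaf 2 0x8211009018) (.cons (.splS 3 (.cons (.leaf 3 0x800000821b008411)
  (.cons (.splS 0 (.cons (.leaf 2 0x8000008403) (.cons (.leaf 2 0x9403009008) (.cons (.splS 4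
  (.cons (.leaf 3 0x8000008021008411) (.cons (.leaf 3 0x800000822100b411) (.cons (.splT 0 (.cons
  (.leaf 2 0x8402009000) (.cons (.leaf 4 0xb40200842100b219009000) .nil))) (.cons (.leaf 3
  0x8821008411009040) .nil))))) (.cons (.leaf 2 0xc403009020) .nil))))) (.cons (.leaf 3
  0x800000a21b00b411) (.cons (.leaf 3 0xc21b008411009038) .nil))))) (.cons (.leaf 2 0x8811009030)
  .nil)))))⟩

theorem kc_23_9_ok1 : kc_23_9.ok1 = true := by decide +kernel

theorem kc_23_9_ok2 : kc_23_9.ok2 = true := by decide +kernel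

/-- A certificate. -/
def kc_23_10 : KCert :=
  ⟨23, 10, [0, 1, 2, 4], [1, 3], [10, -10, -15, 0, 10], [0, 5, 0, 10, 0], 15,
  0x19000f000000050019, 0xf0019000f0014000f, 1, 1, 4, 4, 23, [51, -51, 0, 0], 4, [1], (.splS 0
  (.cons (.leaf 2 0x8000008803) (.cons (.leaf 2 0x9803009008) (.cons (.leaf 2 0xa803009010) (.cons
  (.splT 1 (.cons (.leaf 2 0x960c009010) (.cons (.splS 3 (.cons (.leaf 2 0x800000821b) (.cons
  (.splT 0 (.cons (.splS 1 (.cons (.leaf 4 0x800000b009009802009000) (.cons (.leaf 3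
  0x9209009802009000) (.cons (.leaf 5 0x800000b409009802009219009000) (.cons (.leaf 4
  0xb809009802009028009000) .nil))))) (.cons (.leaf 3 0xb802009219009000) .nil))) (.cons (.leaf 2
  0xa21b009028) (.cons (.splS 4 (.cons (.leaf 3 0x1000000b02100c21b) (.cons (.leaf 2 0x8000009221)
  (.cons (.leaf 4 0x800000b42100c21b009030) (.cons (.leaf 4 0x800000b82100c21b009040) .nil)))))
  .nil))))) .nil))) .nil)))))⟩

theorem kc_23_10_ok1 : kc_23_10.ok1 = true := by decide +kernel

theorem kc_23_10_ok2 : kc_23_10.ok2 = true := by decide +kernel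

/-- A certificate. -/
def kc_25_1 : KCert :=
  ⟨25, 1, [0, 3, 4], [0], [-2, 0, 0, 0, 2], [-2, 0, 0, 0, 0], 2, 0x40002000200020000,
  0x20002000200020000, 1, 0, 4, 3, 1, [0, 8, 6, 3], 4, [1], (.splT 0 (.cons (.leaf 2 0x8602009000)
  .nil))⟩

theorem kc_25_1_ok1 : kc_25_1.ok1 = true := by decide +kernel

theorem kc_25_1_ok2 : kc_25_1.ok2 = true := by decide +kernel

/-- A certificate. -/
def kc_25_10 : KCert :=
  ⟨25, 10, [0, 3, 4], [1, 3], [0, 0, 0, -4, 0], [0, 4, 0, 4, 0], 4, 0x40000000400040004,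
  0x40008000400080004, 1, 1, 4, 4, 5, [0, 10, -10, 6], 5, [1], (.splS 0 (.cons (.leaf 2
  0x8000008803) (.cons (.leaf 2 0xb803009018) (.cons (.splS 4 (.cons (.splS 1 (.cons (.leaf 2
  0x800000860b) (.cons (.splT 0 (.cons (.leaf 3 0x980200b609009000) (.cons (.splS 3 (.cons (.leaf
  4 0x800000901900b802009000) (.cons (.leaf 3 0xb61900b802009000) (.cons (.leaf 5
  0x1000000981900b80200b021009000) .nil)))) .nil))) (.cons (.leaf 3 0x1000000c60b009021) .nil))))
  (.cons (.leaf 2 0x800000b621) (.cons (.splS 1 (.cons (.leaf 2 0x800000860b) (.cons (.splT 0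
  (.cons (.leaf 3 0x980200b609009000) (.cons (.splS 3 (.cons (.leaf 4 0x800000901900b802009000)
  (.cons (.leaf 3 0xb61900b802009000) (.cons (.leaf 6 0x800000981900b80200b821009040009000)
  .nil)))) .nil))) (.cons (.leaf 4 0x800000c60b009821009040) .nil)))) .nil)))) .nil))))⟩

theorem kc_25_10_ok1 : kc_25_10.ok1 = true := by decide +kernel

theorem kc_25_10_ok2 : kc_25_10.ok2 = true := by decide +kernel

/-- A certificate. -/
def kc_25_15 : KCert :=
  ⟨25, 15, [0, 3, 4], [0, 1, 2, 3], [3, 0, 0, -12, 9], [6, 3, 6, -9, 0], 12, 0x150000000c000c000f,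
  0xc00030012000f0012, 1, 1, 4, 4, 30, [65, 0, 0, 0], 4, [1], (.splT 2 (.cons (.leaf 2
  0x8000008414) (.cons (.leaf 2 0x9414009018) (.cons (.splS 4 (.cons (.leaf 2 0x8000008021) (.cons
  (.leaf 2 0x800000b621) (.cons (.splT 3 (.cons (.leaf 2 0x800000821c) (.cons (.splS 1 (.cons
  (.leaf 2 0x800000860b) (.cons (.splS 0 (.cons (.leaf 2 0x8000008803) (.cons (.leaf 2
  0xb803009018) (.cons (.splT 0 (.cons (.leaf 2 0x8802009000) (.cons (.leaf 2 0x900400b609) (.cons
  (.splS 2 (.cons (.leaf 4 0x800000a01100a802009000) (.cons (.leaf 5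
  0x800000a61100a004009821009040) (.cons (.leaf 5 0x800000a81100a00400a821009040) .nil)))) (.cons
  (.splS 3 (.cons (.leaf 4 0x800000901900b802009000) (.cons (.leaf 5
  0x800000961900b00400a821009040) (.cons (.leaf 5 0x800000981900b00400b821009040) .nil))))
  .nil))))) .nil)))) (.cons (.leaf 4 0x800000c60b009821009040) .nil)))) (.cons (.leaf 4
  0x800000a21c009821009040) (.cons (.leaf 4 0x800000b21c00a821009040) .nil))))) .nil)))) (.cons
  (.leaf 2 0xb414009028) .nil)))))⟩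

theorem kc_25_15_ok1 : kc_25_15.ok1 = true := by decide +kernel

theorem kc_25_15_ok2 : kc_25_15.ok2 = true := by decide +kernel

/-- A certificate. -/
def kc_26_6 : KCert :=
  ⟨26, 6, [1, 3, 4], [1, 2], [0, 20, 0, 15, -5], [0, 15, 0, 0, 0], 5, 0x14000500190005,
  0x50005000500140005, 1, 1, 4, 3, 54, [0, 0, 640, 0], 5, [1], (.splS 2 (.cons (.splT 2 (.cons
  (.splT 1 (.cons (.leaf 3 0x800000940c009211) (.cons (.splT 0 (.cons (.splS 1 (.cons (.leaf 5
  0x800000a209009602009211009000) (.cons (.splS 3 (.cons (.leaf 2 0x8000009219) (.cons (.leaf 5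
  0x800000961900a609009404009812) (.cons (.leaf 6 0x800000981900a609009404009212009038) .nil))))
  (.cons (.leaf 4 0xa809009602009028009000) .nil)))) (.cons (.leaf 3 0xa602009211009000) .nil)))
  .nil))) (.cons (.leaf 2 0xa214009020) .nil))) (.cons (.leaf 2 0xb213009028) (.cons (.leaf 2
  0xc213009030) .nil))))⟩

theorem kc_26_6_ok1 : kc_26_6.ok1 = true := by decide +kernel

theorem kc_26_6_ok2 : kc_26_6.ok2 = true := by decide +kernel

/-- A certificate. -/
def kc_27_7 : KCert :=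
  ⟨27, 7, [0, 1, 3, 4], [0, 1, 2], [8, 0, 0, 4, -16], [-4, 4, 4, 0, 0], 16, 0x14001000100018,
  0x10001000140014000c, 1, 1, 4, 3, 14, [0, 0, 0, 15], 6, [1], (.splS 3 (.cons (.leaf 2
  0x8000008019) (.cons (.leaf 2 0x8000009219) (.cons (.splS 2 (.cons (.leaf 2 0x8000008213) (.cons
  (.splS 1 (.cons (.splT 0 (.cons (.leaf 2 0x8602009000) (.cons (.leaf 4 0x800000960200a009009000)
  (.cons (.leaf 3 0xa602009211009000) .nil)))) (.cons (.leaf 2 0x900b009211) (.cons (.leaf 3
  0xb00b009619009030) (.cons (.leaf 3 0xc00b00a619009030) .nil))))) (.cons (.leaf 4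
  0x800000b21300a619009030) (.cons (.leaf 2 0xc213009030) .nil))))) (.cons (.leaf 2 0x8819009038)
  .nil)))))⟩

theorem kc_27_7_ok1 : kc_27_7.ok1 = true := by decide +kernel

theorem kc_27_7_ok2 : kc_27_7.ok2 = true := by decide +kernel

/-- A certificate. -/
def kc_27_10 : KCert :=
  ⟨27, 10, [0, 1, 3, 4], [1, 3], [8, -8, 0, 8, 12], [0, 16, 0, -8, 0], 8, 0x140010000800000010,
  0x80000000800180008, 1, 1, 6, 2, 45, [41, -15, 32, -9], 6, [1], (.splT 1 (.cons (.splS 2 (.cons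
  (.splT 3 (.cons (.leaf 3 0x800000921a009011) (.cons (.leaf 4 0x800000b01a008813009011) .nil)))
  (.cons (.leaf 2 0x8000009211) (.cons (.leaf 2 0x800000b611) (.cons (.splT 3 (.cons (.splS 1
  (.cons (.leaf 3 0x800000900900920a) (.cons (.leaf 3 0x960b00961a009811) (.cons (.splT 0 (.cons
  (.leaf 3 0x9802009609009000) (.cons (.leaf 5 0xb80200961a011811009030009000) .nil))) (.cons
  (.leaf 5 0x800000980900b81100920a009030) .nil))))) (.cons (.leaf 3 0xb61a009811009030) .nil)))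
  .nil))))) (.cons (.leaf 2 0xb20c009020) .nil)))⟩

theorem kc_27_10_ok1 : kc_27_10.ok1 = true := by decide +kernel

theorem kc_27_10_ok2 : kc_27_10.ok2 = true := by decide +kernel

/-- A certificate. -/
def kc_27_15 : KCert :=
  ⟨27, 15, [0, 1, 3, 4], [0, 1, 2, 3], [16, -16, 0, -8, -4], [-8, -8, 4, -8, 0], 16,
  0xc0008001000000020, 0x100008001400080008, 1, 1, 4, 4, 38, [0, 0, 172, 0], 6, [1], (.splS 4
  (.cons (.leaf 2 0x8000008021) (.cons (.leaf 2 0x8000009221) (.cons (.leaf 2 0x800000b621) (.cons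
  (.splS 3 (.cons (.leaf 2 0x800000821b) (.cons (.splT 3 (.cons (.leaf 3 0x800000821a009219)
  (.cons (.splS 2 (.cons (.splT 2 (.cons (.leaf 4 0x800000821200a01100921a) (.cons (.leaf 4
  0x800000901200a011009219) (.cons (.splS 1 (.cons (.leaf 2 0x800000860b) (.cons (.leaf 3
  0x1000000960b00a011) (.cons (.splT 0 (.cons (.leaf 2 0x8802009000) (.cons (.leaf 3
  0x980200b609009000) (.cons (.leaf 4 0x800000a60400a01100921a) (.cons (.leaf 2 0xb004009219)
  .nil))))) (.cons (.leaf 4 0x800000c60b009821009040) .nil))))) (.cons (.leaf 6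
  0x800000b21200a01100921a009821009040) .nil))))) (.cons (.leaf 2 0x9013009219) (.cons (.leaf 3
  0xb013009821009040) (.cons (.leaf 3 0xc01300a821009040) .nil))))) (.cons (.leaf 5
  0x800000a21a009219009821009040) (.cons (.leaf 5 0x800000b21a00921900a821009040) .nil))))) (.cons
  (.leaf 4 0x800000b21b00a821009040) (.cons (.leaf 4 0x800000c21b00b821009040) .nil)))))
  .nil)))))⟩

theorem kc_27_15_ok1 : kc_27_15.ok1 = true := by decide +kernel

theorem kc_27_15_ok2 : kc_27_15.ok2 = true := by decide +kernel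

/-- A certificate. -/
def kc_28_23 : KCert :=
  ⟨28, 23, [2, 3, 4], [0, 1, 2, 4], [0, 0, 4, 4, -16], [-12, -12, -4, 0, -8], 16,
  0x14001400100010, 0x80010000c00040004, 1, 1, 6, 3, 38, [0, 0, 0, 81], 6, [1], (.splT 1 (.cons
  (.leaf 2 0x800000840c) (.cons (.leaf 2 0x940c009010) (.cons (.splS 3 (.cons (.leaf 2
  0x800000a419) (.cons (.splS 2 (.cons (.leaf 3 0x800000a813009619) (.cons (.leaf 3
  0x800000b81300a619) (.cons (.splS 4 (.cons (.splT 0 (.cons (.leaf 2 0x8602009000) (.cons (.splS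
  1 (.cons (.leaf 3 0xa409009602009000) (.cons (.leaf 5 0x800000a60900961900a40a009030) (.cons
  (.leaf 5 0x800000a80900a61900a40a009030) .nil)))) (.cons (.leaf 3 0xa60200c811009000) (.cons
  (.leaf 3 0xc60200a421009000) .nil))))) (.cons (.leaf 3 0x800000b42300c619) (.cons (.leaf 3
  0xc423008619009040) .nil)))) .nil)))) (.cons (.leaf 2 0x800000c819) .nil)))) (.cons (.leaf 2
  0xc40c009028) .nil)))))⟩

theorem kc_28_23_ok1 : kc_28_23.ok1 = true := by decide +kernel

theorem kc_28_23_ok2 : kc_28_23.ok2 = true := by decide +kernel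

/-- A certificate. -/
def kc_31_5 : KCert :=
  ⟨31, 5, [0, 1, 2, 3, 4], [0, 2], [-4, -4, 0, -4, 4], [0, 0, 0, 0, 0], 4, 0x80000000400000000,
  0x40004000400040004, 1, 1, 4, 4, 11, [64, 0, 0, 0], 4, [1], (.splS 4 (.cons (.leaf 2
  0x8000008021) (.cons (.leaf 2 0x8221009028) (.cons (.leaf 2 0x800000a421) (.cons (.leaf 2
  0x8621009038) (.cons (.splS 2 (.cons (.leaf 2 0x8000008413) (.cons (.leaf 2 0x9413009018) (.cons
  (.splT 0 (.cons (.leaf 2 0x8802009000) (.cons (.leaf 3 0xa80200a411009000) .nil))) (.cons (.leaf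
  2 0xb413009028) (.cons (.leaf 4 0x800000c41300a821009040) .nil)))))) .nil))))))⟩

theorem kc_31_5_ok1 : kc_31_5.ok1 = true := by decide +kernel

theorem kc_31_5_ok2 : kc_31_5.ok2 = true := by decide +kernel

/-- A certificate. -/
def kc_31_7 : KCert :=
  ⟨31, 7, [0, 1, 2, 3, 4], [0, 1, 2], [6, 3, -6, 6, -3], [3, 6, 0, 0, 0], 6, 0x3000c00000009000c,
  0x600060006000c0009, 1, 1, 4, 3, 15, [0, 0, 35, 0], 5, [1], (.splS 3 (.cons (.leaf 2
  0x8000008019) (.cons (.leaf 2 0x8000009219) (.cons (.leaf 2 0x800000a419) (.cons (.splS 2 (.cons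
  (.leaf 2 0x8000008213) (.cons (.splS 1 (.cons (.leaf 2 0x800000840b) (.cons (.leaf 3
  0x800000940b009211) (.cons (.splT 0 (.cons (.leaf 2 0x8602009000) (.cons (.leaf 3
  0x960200a409009000) (.cons (.leaf 2 0xa004009211) .nil)))) (.cons (.leaf 4
  0x800000b40b009619009030) (.cons (.leaf 4 0x800000c40b00a619009030) .nil)))))) (.cons (.leaf 4
  0x800000a213009619009030) (.cons (.leaf 4 0x800000b21300a619009030) (.cons (.leaf 2
  0xc213009030) .nil)))))) (.cons (.leaf 2 0x8819009038) .nil))))))⟩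

theorem kc_31_7_ok1 : kc_31_7.ok1 = true := by decide +kernel

theorem kc_31_7_ok2 : kc_31_7.ok2 = true := by decide +kernel

/-- A certificate. -/
def kc_31_15 : KCert :=
  ⟨31, 15, [0, 1, 2, 3, 4], [0, 1, 2, 3], [-3, 0, -3, -3, 6], [3, 3, 0, 3, 0], 3,
  0x90000000000030000, 0x30006000300060006, 1, 1, 4, 4, 18, [19, 0, 0, 0], 4, [1], (.splS 4 (.cons
  (.leaf 2 0x8000008021) (.cons (.leaf 2 0x8000009221) (.cons (.leaf 2 0x800000a421) (.cons (.leaf
  2 0x800000b621) (.cons (.splS 3 (.cons (.leaf 2 0x800000821b) (.cons (.splS 2 (.cons (.leaf 2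
  0x8000008413) (.cons (.leaf 3 0x8000009413009219) (.cons (.splS 1 (.cons (.leaf 2 0x800000860b)
  (.cons (.leaf 3 0x800000960b00a411) (.cons (.leaf 3 0x800000a60b009219) (.cons (.splT 0 (.cons
  (.leaf 2 0x8802009000) (.cons (.leaf 2 0x900400b609) (.cons (.leaf 2 0xa00400a411) (.cons (.leaf
  3 0xb802009219009000) .nil))))) (.cons (.leaf 4 0x800000c60b009821009040) .nil)))))) (.cons
  (.leaf 4 0x800000b413009821009040) (.cons (.leaf 4 0x800000c41300a821009040) .nil)))))) (.cons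
  (.leaf 4 0x800000a21b009821009040) (.cons (.leaf 4 0x800000b21b00a821009040) (.cons (.leaf 4
  0x800000c21b00b821009040) .nil)))))) .nil))))))⟩

theorem kc_31_15_ok1 : kc_31_15.ok1 = true := by decide +kernel

theorem kc_31_15_ok2 : kc_31_15.ok2 = true := by decide +kernel

/-- Certificates. -/
def kd9 : List KCert :=
  [kc_2_28, kc_4_1, kc_5_1, kc_6_2, kc_6_10, kc_8_4, kc_9_7, kc_10_4, kc_10_20, kc_10_21,
  kc_11_21, kc_11_23, kc_12_3, kc_12_22, kc_13_20, kc_14_10, kc_15_2, kc_15_21, kc_17_12,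
  kc_18_12, kc_20_12, kc_20_13, kc_21_10, kc_21_13, kc_22_2, kc_22_7, kc_22_9, kc_22_11, kc_23_6,
  kc_23_9, kc_23_10, kc_25_1, kc_25_10, kc_25_15, kc_26_6, kc_27_7, kc_27_10, kc_27_15, kc_28_23,
  kc_31_5, kc_31_7, kc_31_15]

theorem kd9_ok : AllK kd9 :=
  allK_cons kc_2_28_ok1 kc_2_28_ok2 (
  allK_cons kc_4_1_ok1 kc_4_1_ok2 (
  allK_cons kc_5_1_ok1 kc_5_1_ok2 (
  allK_cons kc_6_2_ok1 kc_6_2_ok2 (
  allK_cons kc_6_10_ok1 kc_6_10_ok2 (
  allK_cons kc_8_4_ok1 kc_8_4_ok2 (
  allK_cons kc_9_7_ok1 kc_9_7_ok2 (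
  allK_cons kc_10_4_ok1 kc_10_4_ok2 (
  allK_cons kc_10_20_ok1 kc_10_20_ok2 (
  allK_cons kc_10_21_ok1 kc_10_21_ok2 (
  allK_cons kc_11_21_ok1 kc_11_21_ok2 (
  allK_cons kc_11_23_ok1 kc_11_23_ok2 (
  allK_cons kc_12_3_ok1 kc_12_3_ok2 (
  allK_cons kc_12_22_ok1 kc_12_22_ok2 (
  allK_cons kc_13_20_ok1 kc_13_20_ok2 (
  allK_cons kc_14_10_ok1 kc_14_10_ok2 (
  allK_cons kc_15_2_ok1 kc_15_2_ok2 (
  allK_cons kc_15_21_ok1 kc_15_21_ok2 (
  allK_cons kc_17_12_ok1 kc_17_12_ok2 (
  allK_cons kc_18_12_ok1 kc_18_12_ok2 (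
  allK_cons kc_20_12_ok1 kc_20_12_ok2 (
  allK_cons kc_20_13_ok1 kc_20_13_ok2 (
  allK_cons kc_21_10_ok1 kc_21_10_ok2 (
  allK_cons kc_21_13_ok1 kc_21_13_ok2 (
  allK_cons kc_22_2_ok1 kc_22_2_ok2 (
  allK_cons kc_22_7_ok1 kc_22_7_ok2 (
  allK_cons kc_22_9_ok1 kc_22_9_ok2 (
  allK_cons kc_22_11_ok1 kc_22_11_ok2 (
  allK_cons kc_23_6_ok1 kc_23_6_ok2 (
  allK_cons kc_23_9_ok1 kc_23_9_ok2 (
  allK_cons kc_23_10_ok1 kc_23_10_ok2 (
  allK_cons kc_25_1_ok1 kc_25_1_ok2 (
  allK_cons kc_25_10_ok1 kc_25_10_ok2 (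
  allK_cons kc_25_15_ok1 kc_25_15_ok2 (
  allK_cons kc_26_6_ok1 kc_26_6_ok2 (
  allK_cons kc_27_7_ok1 kc_27_7_ok2 (
  allK_cons kc_27_10_ok1 kc_27_10_ok2 (
  allK_cons kc_27_15_ok1 kc_27_15_ok2 (
  allK_cons kc_28_23_ok1 kc_28_23_ok2 (
  allK_cons kc_31_5_ok1 kc_31_5_ok2 (
  allK_cons kc_31_7_ok1 kc_31_7_ok2 (
  allK_cons kc_31_15_ok1 kc_31_15_ok2 (
  allK_nil))))))))))))))))))))))))))))))))))))))))))

end Pool.Agent.RatRec
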