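import Pool.Agent.Lib_helper86.RatV.K0
import Pool.Agent.Lib_helper86.RatV.K1
import Pool.Agent.Lib_helper86.RatV.K2
import Pool.Agent.Lib_helper86.RatV.K3
import Pool.Agent.Lib_helper86.RatV.K4
import Pool.Agent.Lib_helper86.RatV.K5
import Pool.Agent.Lib_helper86.RatV.K6
import Pool.Agent.Lib_helper86.RatV.K7
import Pool.Agent.Lib_helper86.RatV.K8
import Pool.Agent.Lib_helper86.RatV.K9
import Pool.Agent.Lib_helper86.RatU.C162
import Pool.Agent.Lib_helper86.RatU.C312
import Pool.Agent.Lib_helper86.RatU.C328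
import Pool.Agent.Lib_helper96.RatU.P14
import Pool.Agent.Lib_helper96.RatU.Alt
import Pool.Agent.Lib_helper96.RatU.D16
import Pool.Agent.Lib_helper18.RatU.C6_20

/-!
The special cases with unbounded solutions.
-/

set_option autoImplicit false

namespace Pool.Agent.RatRec

/-- The cases with a certificate. -/
def certPairsU : List (ℕ × ℕ) :=
  (kd0 ++ kd1 ++ kd2 ++ kd3 ++ kd4 ++ kd5 ++ kd6 ++ kd7 ++ kd8 ++ kd9).map (fun c => (c.S, c.T))

theorem certPairsU_ok : ∀ p ∈ certPairsU, ¬ BoundedOnly (fs p.1) (fs p.2) := by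
  intro p hp
  simp only [certPairsU, List.mem_map, List.mem_append] at hp
  obtain ⟨c, hc, rfl⟩ := hp
  rcases hc with ((((((((hc | hc) | hc) | hc) | hc) | hc) | hc) | hc) | hc) | hc
  · exact of_AllK kd0_ok c hc
  · exact of_AllK kd1_ok c hc
  · exact of_AllK kd2_ok c hc
  · exact of_AllK kd3_ok c hc
  · exact of_AllK kd4_ok c hc
  · exact of_AllK kd5_ok c hc
  · exact of_AllK kd6_ok c hc
  · exact of_AllK kd7_ok c hc
  · exact of_AllK kd8_ok c hc
  · exact of_AllK kd9_ok c hc

/-- Cases proved separately. -/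
def handPairsU : List (ℕ × ℕ) :=
  [(16, 2), (3, 12), (6, 20), (14, 16), (15, 16), (18, 8), (19, 8), (3, 28), (10, 16), (11, 16)]

/-- All cases with unbounded solutions. -/
def unbPairs : List (ℕ × ℕ) := certPairsU ++ zeroPairs ++ handPairsU

theorem unbPairs_ok : ∀ p ∈ unbPairs, ¬ BoundedOnly (fs p.1) (fs p.2) := by
  intro p hp
  simp only [unbPairs, List.mem_append] at hp
  rcases hp with (hp | hp) | hp
  · exact certPairsU_ok p hp
  · exact zeroPairs_unb p hp
  · simp only [handPairsU, List.mem_cons, List.not_mem_nil, or_false] at hp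
    rcases hp with rfl | rfl | rfl | rfl | rfl | rfl | rfl | rfl | rfl | rfl
    · exact unb_16_2
    · exact unb_3_12
    · exact unb_6_20
    · exact unb_14_16
    · exact unb_15_16
    · exact unb_18_8
    · exact unb_19_8
    · exact unb_3_28
    · exact unb_10_16
    · exact unb_11_16

theorem length_unbPairs : unbPairs.length = 417 := by decide +kernel

end Pool.Agent.RatRec
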