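import Pool.Agent.Lib_helper86.RatV.KChk

/-!
Unbounded solutions from a packed certificate.
-/

set_option autoImplicit false

namespace Pool.Agent.RatRec

/-- The packed value of a form. -/
def pkN : List ℕ → ℕ
  | [] => 0
  | a :: l => Nat.add a (Nat.mul PB (pkN l))

theorem rep_form (y : ℕ → ℝ) (f : List ℕ) (s : ℕ) :
    Rep y (PB ^ (s + 1) * pkN f) f.sum (ev y s (f.map (fun a : ℕ => (a : ℤ)))) := by
  induction f generalizing s with
  | nil => simpa [pkN, ev] using (Rep.zero (y := y))
  | cons a f ih =>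
    have h1 := ((Rep.var (y := y) s).smul a).add (ih (s + 1))
    have e1 : PB ^ (s + 1) * pkN (a :: f) = a * PB ^ (s + 1) + PB ^ (s + 1 + 1) * pkN f := by
      have : pkN (a :: f) = a + PB * pkN f := rfl
      rw [this, pow_succ PB (s + 1)]
      ring
    have e2 : (a :: f).sum = a * 1 + f.sum := by simp
    rw [e1, e2]
    simpa [ev] using h1

/-- A certificate with packed trees. -/
structure KCert where
  /-- the numerator mask -/
  S : ℕ
  /-- the denominator mask -/
  T : ℕ
  /-- the numerator indices -/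
  lS : List ℕ
  /-- the denominator indices -/
  lT : List ℕ
  /-- exponents of the numerator coefficients -/
  g : List ℤ
  /-- exponents of the denominator coefficients -/
  h : List ℤ
  /-- the offset -/
  off : ℕ
  /-- packed exponents of the numerator -/
  Gp : ℕ
  /-- packed exponents of the denominator -/
  Hp : ℕ
  /-- numerator error -/
  eS : ℕ
  /-- denominator error -/
  eT : ℕ
  /-- terms of the window before the term which is almost the supremum -/
  L : ℕ
  /-- terms of the window after it -/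
  H : ℕ
  /-- the threshold -/
  K : ℕ
  /-- exponents of the initial values -/
  s : List ℤ
  /-- the index of the record -/
  n0 : ℕ
  /-- the form -/
  f : List ℕ
  /-- the tree -/
  t : KTree

/-- The window. -/
def KCert.W (c : KCert) : ℕ := c.L + c.H + c.f.length

/-- The data of the check. -/
def KCert.data (c : KCert) : KData where
  mS := c.S
  mT := c.T
  lS := c.lS
  lT := c.lT
  Gp := c.Gp
  Hp := c.Hp
  eS := c.eS
  eT := c.eT
  W := c.W
  C := 65542 + c.eS + c.eT + c.K + c.f.sum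
  P := pkN c.f
  sm := c.L + c.H + 1
  K := c.K
  R := PB ^ (c.H + 1) * pkN c.f

/-- The form with integer coefficients. -/
def KCert.fz (c : KCert) : List ℤ := c.f.map (fun a : ℕ => (a : ℤ))

/-- The simple part of the check. -/
def KCert.ok1 (c : KCert) : Bool :=
  decide (c.lS = bits c.S) && decide (c.lT = bits c.T) && !c.lS.isEmpty && !c.lT.isEmpty &&
    Nat.blt c.S 32 && Nat.blt c.T 32 &&
    (List.range 5).all (fun i => decide (((dg c.Gp i : ℕ) : ℤ) = c.g.getD i 0 + c.off) &&
      decide (((dg c.Hp i : ℕ) : ℤ) = c.h.getD i 0 + c.off)) &&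
    decide ((c.eS : ℤ) = er c.S) && decide ((c.eT : ℤ) = er c.T) &&
    Nat.ble 3 c.n0 && Nat.ble (c.L + c.f.length) (c.n0 + 1) &&
    segFin [(c.fz, 0)] c.K c.L c.n0
      (segN (bits c.S) (bits c.T) c.g c.h (er c.S) (er c.T) (c.n0 - 3)
        ([c.s.getD 3 0, c.s.getD 2 0, c.s.getD 1 0, c.s.getD 0 0],
          [c.s.getD 3 0, c.s.getD 2 0, c.s.getD 1 0, c.s.getD 0 0]))

/-- The check of the tree. -/
noncomputable def KCert.ok2 (c : KCert) : Bool := chkK c.data c.t 0 0 none

theorem mem_bits_of_bt {m i : ℕ} (hm : m < 32) (h : bt m i = true) : i ∈ bits m := by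
  have hj' := bt_iff.mp h
  simp only [bits, List.mem_filter, List.mem_range]
  refine ⟨?_, hj'⟩
  by_contra h5
  have h6 : m < 2 ^ i := lt_of_lt_of_le hm (by
    calc (32 : ℕ) = 2 ^ 5 := by norm_num
      _ ≤ 2 ^ i := Nat.pow_le_pow_right (by norm_num) (by omega))
  rw [Nat.testBit_lt_two_pow h6] at hj'
  simp at hj'

theorem bt_of_mem_bits {m i : ℕ} (h : i ∈ bits m) : bt m i = true ∧ i < 5 := by
  simp only [bits, List.mem_filter, List.mem_range] at h
  exact ⟨bt_iff.mpr h.2, h.1⟩

/-- The functional of the certificate is unbounded along some solution. -/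
theorem KCert.unbounded {c : KCert} (h1 : c.ok1 = true) (h2 : c.ok2 = true) :
    ∃ x : ℕ → ℝ, PosSolution (coef c.S c.g) (coef c.T c.h) x ∧
      IsSolution (coef c.S c.g) (coef c.T c.h) x ∧
      ¬ ∃ M : ℝ, ∀ n, vmax (lb x n) 0 [(c.fz, 0)] ≤ M := by
  simp only [KCert.ok1, Bool.and_eq_true, Bool.not_eq_true', List.isEmpty_eq_false_iff,
    Nat.ble_eq, Nat.blt_eq, List.all_eq_true, decide_eq_true_eq, List.mem_range] at h1
  obtain ⟨⟨⟨⟨⟨⟨⟨⟨⟨⟨⟨hlS, hlT⟩, hS0⟩, hT0⟩, hmS⟩, hmT⟩, hdg⟩, heS⟩, heT⟩, h3⟩, hn0⟩, hseg⟩ := h1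
  have hS : bits c.S ≠ [] := by rw [← hlS]; exact hS0
  have hT : bits c.T ≠ [] := by rw [← hlT]; exact hT0
  obtain ⟨x, hx, hx', hs⟩ := exists_sol (nonempty_of_bits hS) (nonempty_of_bits hT) c.g c.h c.s
  refine ⟨x, hx, hx', ?_⟩
  rintro ⟨M, hM⟩
  have hP := segOK_N hx hS hT (c.n0 - 3) (n := 4) le_rfl (segOK_start hs)
  have e4 : 4 + (c.n0 - 3) = c.n0 + 1 := by omega
  rw [e4] at hP
  obtain ⟨k1, k2⟩ := segFin_sound hP hseg
  obtain ⟨N, hN, hKN, hrec⟩ := near_sup hM k1 k2
  set N' := N + c.H with hN'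
  set y := lb x N' with hy
  have hVN : ev y c.H c.fz = vmax (lb x N) 0 [(c.fz, 0)] := by
    have e1 := vmax_shift x N' c.H [(c.fz, 0)]
    have e2 : N' - c.H = N := by omega
    rw [e2] at e1
    rw [← e1]
    simp [vmax, hy]
  have hw := awindow_back hx (N := N') (W := c.W) (by
    unfold KCert.W
    omega)
  have hrG : ∀ d i, i ∈ bits c.S → rG c.data y d i = zc c.g y d i + c.off := by
    intro d i hi
    have h5 := (hdg i (bt_of_mem_bits hi).2).1
    have h6 : ((dg c.Gp i : ℕ) : ℝ) = ((c.g.getD i 0 : ℤ) : ℝ) + c.off := by exact_mod_cast h5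
    have h7 : rG c.data y d i = zv y d i + ((dg c.Gp i : ℕ) : ℝ) := rfl
    rw [h7, h6, zc]
    ring
  have hrH : ∀ d i, i ∈ bits c.T → rH c.data y d i = zc c.h y d i + c.off := by
    intro d i hi
    have h5 := (hdg i (bt_of_mem_bits hi).2).2
    have h6 : ((dg c.Hp i : ℕ) : ℝ) = ((c.h.getD i 0 : ℤ) : ℝ) + c.off := by exact_mod_cast h5
    have h7 : rH c.data y d i = zv y d i + ((dg c.Hp i : ℕ) : ℝ) := rfl
    rw [h7, h6, zc]
    ring
  have hES : ((c.eS : ℕ) : ℝ) = ((er c.S : ℤ) : ℝ) := by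
    exact_mod_cast congrArg (Int.cast (R := ℝ)) heS
  have hET : ((c.eT : ℕ) : ℝ) = ((er c.T : ℤ) : ℝ) := by
    exact_mod_cast congrArg (Int.cast (R := ℝ)) heT
  have hD : KHolds c.data y := by
    refine ⟨?_, ?_, ?_, ?_⟩
    · intro d i j hd hi hmax hj
      have hi' := mem_bits_of_bt hmS hi
      have hj' := mem_bits_of_bt hmT hj
      have h6 := (hw d hd).1 i hi' (fun k hk => by
        have h7 := hmax k (bt_of_mem_bits hk).1
        rw [hrG d k hk, hrG d i hi'] at h7
        linarith) j hj'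
      rw [hrG d i hi', hrH d j hj']
      have h8 : ((c.data.eS : ℕ) : ℝ) = ((er c.S : ℤ) : ℝ) := hES
      rw [h8]
      linarith
    · intro d i j hd hj hmax hi
      have hi' := mem_bits_of_bt hmS hi
      have hj' := mem_bits_of_bt hmT hj
      have h6 := (hw d hd).2 j hj' (fun k hk => by
        have h7 := hmax k (bt_of_mem_bits hk).1
        rw [hrH d k hk, hrH d j hj'] at h7
        linarith) i hi'
      rw [hrG d i hi', hrH d j hj']
      have h8 : ((c.data.eT : ℕ) : ℝ) = ((er c.T : ℤ) : ℝ) := hET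
      rw [h8]
      linarith
    · show 65540 + c.eS + c.eT ≤ 65542 + c.eS + c.eT + c.K + c.f.sum
      omega
    · have hr := rep_form y c.f c.H
      have hr1 : Rep y (PB ^ (c.H + 1) * pkN c.f + 1) (65542 + c.eS + c.eT + c.K + c.f.sum)
          (ev y c.H c.fz + 1) := by
        have := (hr.add (Rep.const 1)).mono
          (show c.f.sum + 1 ≤ 65542 + c.eS + c.eT + c.K + c.f.sum by omega)
        simpa [KCert.fz] using this
      refine ⟨ev y c.H c.fz, hr.mono ?_, hr1, ?_, ?_, ?_⟩
      · show c.f.sum ≤ 65542 + c.eS + c.eT + c.K + c.f.sum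
        omega
      · rw [hVN]
        exact hKN
      · show c.K ≤ 65542 + c.eS + c.eT + c.K + c.f.sum
        omega
      · intro s hs
        refine ⟨ev y s c.fz, (rep_form y c.f s).mono ?_, ?_⟩
        · show c.f.sum ≤ 65542 + c.eS + c.eT + c.K + c.f.sum
          omega
        · have hs' : s < c.L + c.H + 1 := hs
          have h7 := hrec (N' - s) (by omega)
          have e1 := vmax_shift x N' s [(c.fz, 0)]
          rw [← e1, ← hVN] at h7
          simpa [vmax, hy] using h7
  exact (chkK_sound hD hlS hlT hmS hmT hS hT c.t 0 0 none h2 (by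
    intro t ht
    rw [bt_iff] at ht
    simp at ht)).1 rfl

/-- The certificate gives an unbounded solution. -/
theorem KCert.not_boundedOnly {c : KCert} (h1 : c.ok1 = true) (h2 : c.ok2 = true) :
    ¬ BoundedOnly (fs c.S) (fs c.T) := by
  intro hB
  obtain ⟨x, hx, hx', hV⟩ := KCert.unbounded h1 h2
  obtain ⟨M, hM⟩ := hB _ _ (coef_supported c.S c.g) (coef_supported c.T c.h) x hx'
  apply hV
  have h5 : (1 : ℝ) < 5 := by norm_num
  set M1 : ℝ := max (Real.logb 5 M) 0 with hM1
  have hy : ∀ n t, lb x n t ≤ M1 := by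
    intro n t
    refine le_trans ?_ (le_max_left _ _)
    simp only [lb]
    exact (Real.logb_le_logb h5 (hx.pos _) (lt_of_lt_of_le (hx.pos _) (hM (n - t)))).mpr
      (hM (n - t))
  have hM0 : 0 ≤ M1 := le_max_right _ _
  refine ⟨(c.fz.sum : ℤ) * M1, fun n => ?_⟩
  have := ev_le_of_nonneg hM0 (hy n) c.fz (by
    intro a ha
    simp only [KCert.fz, List.mem_map] at ha
    obtain ⟨b, _, rfl⟩ := ha
    exact Int.natCast_nonneg b) 0
  simpa [vmax] using this

/-- A list of certificates which are all correct. -/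
def AllK (l : List KCert) : Prop := ∀ c ∈ l, c.ok1 = true ∧ c.ok2 = true

theorem allK_nil : AllK [] := by simp [AllK]

theorem allK_cons {c : KCert} {l : List KCert} (h1 : c.ok1 = true) (h2 : c.ok2 = true)
    (h : AllK l) : AllK (c :: l) := by
  intro d hd
  rcases List.mem_cons.mp hd with rfl | hd
  · exact ⟨h1, h2⟩
  · exact h d hd

theorem of_AllK {l : List KCert} (h : AllK l) : ∀ c ∈ l, ¬ BoundedOnly (fs c.S) (fs c.T) :=
  fun c hc => KCert.not_boundedOnly (h c hc).1 (h c hc).2

end Pool.Agent.RatRec
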