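import Pool.Agent.Lib_helper86.RatV.Pack

/-!
A checker of the affine certificates with packed forms.
-/

set_option autoImplicit false

namespace Pool.Agent.RatRec

/-- Case trees whose leaves are packed: the number of atoms and their code. -/
inductive KTree where
  | leaf (n c : ℕ)
  | splS (d : ℕ) (ch : KTree)
  | splT (d : ℕ) (ch : KTree)
  | cons (a b : KTree)
  | nil

/-- The data of a check. -/
structure KData where
  /-- the numerator mask -/
  mS : ℕ
  /-- the denominator mask -/
  mT : ℕ
  /-- the numerator indices -/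
  lS : List ℕ
  /-- the denominator indices -/
  lT : List ℕ
  /-- packed exponents of the numerator -/
  Gp : ℕ
  /-- packed exponents of the denominator -/
  Hp : ℕ
  /-- numerator error -/
  eS : ℕ
  /-- denominator error -/
  eT : ℕ
  /-- window -/
  W : ℕ
  /-- the bound for the sums of coefficients -/
  C : ℕ
  /-- the packed form -/
  P : ℕ
  /-- the number of places of the record hypotheses -/
  sm : ℕ
  /-- the threshold -/
  K : ℕ
  /-- the packed form at the record -/
  R : ℕ

/-- A digit in base `65536`. -/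
def dg (P i : ℕ) : ℕ := Nat.land (Nat.shiftRight P (Nat.mul 16 i)) 65535

/-- The packed numerator term. -/
def aG (D : KData) (d i : ℕ) : ℕ := Nat.add (zP d i) (dg D.Gp i)

/-- The packed denominator term. -/
def aH (D : KData) (d i : ℕ) : ℕ := Nat.add (zP d i) (dg D.Hp i)

/-- The real numerator term. -/
def rG (D : KData) (y : ℕ → ℝ) (d i : ℕ) : ℝ := zv y d i + (dg D.Gp i : ℕ)

/-- The real denominator term. -/
def rH (D : KData) (y : ℕ → ℝ) (d i : ℕ) : ℝ := zv y d i + (dg D.Hp i : ℕ)

/-- The meaning of a fact. -/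
def KFact (D : KData) (y : ℕ → ℝ) (d k i : ℕ) : Prop :=
  d + 4 < D.W ∧ ((k = 0 ∧ bt D.mS i = true ∧ ∀ j, bt D.mS j = true → rG D y d j ≤ rG D y d i) ∨
    (k = 1 ∧ bt D.mT i = true ∧ ∀ j, bt D.mT j = true → rH D y d j ≤ rH D y d i))

/-- The facts of a context. -/
def KCtx (D : KData) (y : ℕ → ℝ) (ctx : ℕ) : Prop :=
  ∀ t, bt ctx t = true → KFact D y (t / 16) (t / 8 % 2) (t % 8)

/-- The hypotheses. -/
structure KHolds (D : KData) (y : ℕ → ℝ) : Prop where
  winS : ∀ d i j, d + 4 < D.W → bt D.mS i = true →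
    (∀ k, bt D.mS k = true → rG D y d k ≤ rG D y d i) → bt D.mT j = true →
      y d + rH D y d j ≤ rG D y d i + D.eS
  winT : ∀ d i j, d + 4 < D.W → bt D.mT j = true →
    (∀ k, bt D.mT k = true → rH D y d k ≤ rH D y d j) → bt D.mS i = true →
      rG D y d i ≤ y d + rH D y d j + D.eT
  hC : 65540 + D.eS + D.eT ≤ D.C
  hrec : ∃ r : ℝ, Rep y D.R D.C r ∧ Rep y (D.R + 1) D.C (r + 1) ∧ (D.K : ℝ) ≤ r ∧ D.K ≤ D.C ∧
    ∀ s, s < D.sm → ∃ q : ℝ, Rep y (PB ^ (s + 1) * D.P) D.C q ∧ q ≤ r + 1

theorem dg_lt (P i : ℕ) : dg P i < 65536 := by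
  have h1 : dg P i = (P >>> (16 * i)) &&& (2 ^ 16 - 1) := rfl
  rw [h1, Nat.and_two_pow_sub_one_eq_mod]
  exact Nat.mod_lt _ (by norm_num)

theorem rep_aG (D : KData) (y : ℕ → ℝ) (d i : ℕ) : Rep y (aG D d i) 65536 (rG D y d i) :=
  ((rep_zP y d i).add (Rep.const (dg D.Gp i))).mono (by have := dg_lt D.Gp i; omega)

theorem rep_aH (D : KData) (y : ℕ → ℝ) (d i : ℕ) : Rep y (aH D d i) 65536 (rH D y d i) :=
  ((rep_zP y d i).add (Rep.const (dg D.Hp i))).mono (by have := dg_lt D.Hp i; omega)

/-- Conjunction by the recursor. -/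
def an (a b : Bool) : Bool := Bool.rec false b a

theorem an_iff {a b : Bool} : an a b = true ↔ a = true ∧ b = true := by
  cases a <;> simp [an]

/-- The index of an atom of the first kind in the context, or of the second kind. -/
def atomK (D : KData) (ctx m d i j : ℕ) (k : ℕ → ℕ → ℕ → Bool) (ty : ℕ) : Bool :=
  Nat.rec
    -- type 0
    (Nat.rec (k m D.K D.R)
      (fun _ _ => an (Nat.blt d D.sm) (k m (Nat.mul (Nat.pow PB (Nat.succ d)) D.P)
        (Nat.succ D.R))) j)
    (fun ty1 _ => Nat.rec
      -- type 1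
      (an (bt ctx (Nat.add (Nat.mul 16 d) i)) (an (bt D.mT j)
        (k m (Nat.add (Nat.pow PB (Nat.succ d)) (aH D d j)) (Nat.add (aG D d i) D.eS))))
      (fun ty2 _ => Nat.rec
        -- type 2
        (an (bt ctx (Nat.add (Nat.add (Nat.mul 16 d) 8) j)) (an (bt D.mS i)
          (k m (aG D d i) (Nat.add (Nat.add (Nat.pow PB (Nat.succ d)) (aH D d j)) D.eT))))
        (fun ty3 _ => Nat.rec
          -- type 3
          (an (bt ctx (Nat.add (Nat.mul 16 d) j)) (an (bt D.mS i)
            (k m (aG D d i) (aG D d j))))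
          (fun ty4 _ => Nat.rec
            -- type 4
            (an (bt ctx (Nat.add (Nat.add (Nat.mul 16 d) 8) j)) (an (bt D.mT i)
              (k m (aH D d i) (aH D d j))))
            (fun _ _ => false) ty4) ty3) ty2) ty1) ty

/-- The atom with code `a`. -/
def atomC (D : KData) (ctx a : ℕ) (k : ℕ → ℕ → ℕ → Bool) : Bool :=
  atomK D ctx (Nat.shiftRight a 15) (Nat.land (Nat.shiftRight a 3) 63)
    (Nat.land (Nat.shiftRight a 9) 7) (Nat.land (Nat.shiftRight a 12) 7) k (Nat.land a 7)

/-- The loop over the atoms of a leaf. -/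
def leafK (D : KData) (ctx n : ℕ) : ℕ → ℕ → ℕ → ℕ → Bool :=
  Nat.rec (motive := fun _ => ℕ → ℕ → ℕ → ℕ → Bool)
    (fun _ U V M => an (Nat.blt V U) (Nat.blt (Nat.add (Nat.sub U V) M) PB))
    (fun _ ih c U V M => atomC D ctx (Nat.land c 16777215)
      (fun m l r => ih (Nat.shiftRight c 24) (Nat.add U (Nat.mul m l)) (Nat.add V (Nat.mul m r))
        (Nat.add M (Nat.mul m D.C)))) n

theorem atomK_sound {D : KData} {y : ℕ → ℝ} (hD : KHolds D y) {ctx : ℕ} (hctx : KCtx D y ctx)
    {m d i j : ℕ} (hi : i < 8) (hj : j < 8) {k : ℕ → ℕ → ℕ → Bool} {ty : ℕ}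
    (h : atomK D ctx m d i j k ty = true) :
    ∃ (l r : ℕ) (ul ur : ℝ), k m l r = true ∧ Rep y l D.C ul ∧ Rep y r D.C ur ∧ ul ≤ ur := by
  have hC := hD.hC
  match ty with
  | 0 =>
    obtain ⟨r, h1, h2, h3, h4, h5⟩ := hD.hrec
    cases j with
    | zero =>
      exact ⟨D.K, D.R, D.K, r, h, (Rep.const D.K).mono h4, h1, h3⟩
    | succ j =>
      have h6 : an (Nat.blt d D.sm) (k m (PB ^ (d + 1) * D.P) (D.R + 1)) = true := h
      rw [an_iff, Nat.blt_eq] at h6
      obtain ⟨q, h7, h8⟩ := h5 d h6.1
      exact ⟨_, _, q, r + 1, h6.2, h7, h2, h8⟩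
  | 1 =>
    have h6 : an (bt ctx (16 * d + i)) (an (bt D.mT j)
        (k m (PB ^ (d + 1) + aH D d j) (aG D d i + D.eS))) = true := h
    rw [an_iff, an_iff] at h6
    obtain ⟨h6, h7, h8⟩ := h6
    have h9 := hctx _ h6
    have e1 : (16 * d + i) / 16 = d := by omega
    have e2 : (16 * d + i) / 8 % 2 = 0 := by omega
    have e3 : (16 * d + i) % 8 = i := by omega
    rw [e1, e2, e3] at h9
    obtain ⟨hd, h9⟩ := h9
    rcases h9 with ⟨_, h9, h10⟩ | ⟨h0, _⟩
    · have h11 := hD.winS d i j hd h9 h10 h7
      exact ⟨_, _, _, _, h8, ((Rep.var d).add (rep_aH D y d j)).mono (by omega),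
        ((rep_aG D y d i).add (Rep.const D.eS)).mono (by omega), h11⟩
    · omega
  | 2 =>
    have h6 : an (bt ctx (16 * d + 8 + j)) (an (bt D.mS i)
        (k m (aG D d i) (PB ^ (d + 1) + aH D d j + D.eT))) = true := h
    rw [an_iff, an_iff] at h6
    obtain ⟨h6, h7, h8⟩ := h6
    have h9 := hctx _ h6
    have e1 : (16 * d + 8 + j) / 16 = d := by omega
    have e2 : (16 * d + 8 + j) / 8 % 2 = 1 := by omega
    have e3 : (16 * d + 8 + j) % 8 = j := by omega
    rw [e1, e2, e3] at h9
    obtain ⟨hd, h9⟩ := h9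
    rcases h9 with ⟨h0, _⟩ | ⟨_, h9, h10⟩
    · omega
    · have h11 := hD.winT d i j hd h9 h10 h7
      exact ⟨_, _, _, _, h8, (rep_aG D y d i).mono (by omega),
        (((Rep.var d).add (rep_aH D y d j)).add (Rep.const D.eT)).mono (by omega), h11⟩
  | 3 =>
    have h6 : an (bt ctx (16 * d + j)) (an (bt D.mS i)
        (k m (aG D d i) (aG D d j))) = true := h
    rw [an_iff, an_iff] at h6
    obtain ⟨h6, h7, h8⟩ := h6
    have h9 := hctx _ h6
    have e1 : (16 * d + j) / 16 = d := by omega
    have e2 : (16 * d + j) / 8 % 2 = 0 := by omega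
    have e3 : (16 * d + j) % 8 = j := by omega
    rw [e1, e2, e3] at h9
    obtain ⟨hd, h9⟩ := h9
    rcases h9 with ⟨_, h9, h10⟩ | ⟨h0, _⟩
    · exact ⟨_, _, _, _, h8, (rep_aG D y d i).mono (by omega),
        (rep_aG D y d j).mono (by omega), h10 i h7⟩
    · omega
  | 4 =>
    have h6 : an (bt ctx (16 * d + 8 + j)) (an (bt D.mT i)
        (k m (aH D d i) (aH D d j))) = true := h
    rw [an_iff, an_iff] at h6
    obtain ⟨h6, h7, h8⟩ := h6
    have h9 := hctx _ h6
    have e1 : (16 * d + 8 + j) / 16 = d := by omega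
    have e2 : (16 * d + 8 + j) / 8 % 2 = 1 := by omega
    have e3 : (16 * d + 8 + j) % 8 = j := by omega
    rw [e1, e2, e3] at h9
    obtain ⟨hd, h9⟩ := h9
    rcases h9 with ⟨h0, _⟩ | ⟨_, h9, h10⟩
    · omega
    · exact ⟨_, _, _, _, h8, (rep_aH D y d i).mono (by omega),
        (rep_aH D y d j).mono (by omega), h10 i h7⟩
  | n + 5 =>
    have h6 : false = true := h
    simp at h6

theorem leafK_sound {D : KData} {y : ℕ → ℝ} (hD : KHolds D y) {ctx : ℕ} (hctx : KCtx D y ctx)
    (n : ℕ) : ∀ (c U V M : ℕ) (u v : ℝ), leafK D ctx n c U V M = true → Rep y U M u →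
      Rep y V M v → u ≤ v → False := by
  induction n with
  | zero =>
    intro c U V M u v h hU hV huv
    have h1 : an (Nat.blt V U) (Nat.blt (U - V + M) PB) = true := h
    rw [an_iff, Nat.blt_eq, Nat.blt_eq] at h1
    obtain ⟨h1, h2⟩ := h1
    have h3 := hV.add (Rep.const (y := y) (U - V))
    have e : V + (U - V) = U := by omega
    rw [e] at h3
    have h4 := hU.eq h3 (by omega) (by omega)
    have h5 : (0 : ℝ) < ((U - V : ℕ) : ℝ) := by
      have : 0 < U - V := by omega
      exact_mod_cast this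
    linarith
  | succ n ih =>
    intro c U V M u v h hU hV huv
    have h1 : atomK D ctx (Nat.shiftRight (Nat.land c 16777215) 15)
      (Nat.land (Nat.shiftRight (Nat.land c 16777215) 3) 63)
      (Nat.land (Nat.shiftRight (Nat.land c 16777215) 9) 7)
      (Nat.land (Nat.shiftRight (Nat.land c 16777215) 12) 7)
      (fun m l r => leafK D ctx n (Nat.shiftRight c 24) (Nat.add U (Nat.mul m l))
        (Nat.add V (Nat.mul m r)) (Nat.add M (Nat.mul m D.C)))
      (Nat.land (Nat.land c 16777215) 7) = true := h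
    have h7 : ∀ x : ℕ, Nat.land x 7 < 8 := by
      intro x
      have : Nat.land x 7 = x &&& (2 ^ 3 - 1) := rfl
      rw [this, Nat.and_two_pow_sub_one_eq_mod]
      exact Nat.mod_lt _ (by norm_num)
    obtain ⟨l, r, ul, ur, h2, h3, h4, h5⟩ := atomK_sound hD hctx (h7 _) (h7 _) h1
    set m := Nat.shiftRight (Nat.land c 16777215) 15 with hm
    refine ih _ _ _ _ _ _ h2 (hU.add (h3.smul m)) (hV.add (h4.smul m)) ?_
    have := mul_le_mul_of_nonneg_left h5 (Nat.cast_nonneg (α := ℝ) m)
    linarith

/-- The checker. -/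
noncomputable def chkK (D : KData) (t : KTree) : ℕ → ℕ → Option (List ℕ) → Bool :=
  KTree.rec (motive := fun _ => ℕ → ℕ → Option (List ℕ) → Bool)
    (fun n c ctx _ pend => Option.rec (leafK D ctx n c 0 0 0) (fun _ => false) pend)
    (fun d _ ih ctx _ pend => Option.rec (an (Nat.blt (Nat.add d 4) D.W)
      (ih ctx (Nat.mul 16 d) (some D.lS))) (fun _ => false) pend)
    (fun d _ ih ctx _ pend => Option.rec (an (Nat.blt (Nat.add d 4) D.W)
      (ih ctx (Nat.add (Nat.mul 16 d) 8) (some D.lT))) (fun _ => false) pend)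
    (fun _ _ iha ihb ctx base pend => Option.rec false
      (fun l => List.rec false (fun i r _ => an (iha (sb ctx (Nat.add base i)) 0 none)
        (ihb ctx base (some r))) l) pend)
    (fun _ _ pend => Option.rec false (fun l => List.rec true (fun _ _ _ => false) l) pend) t

theorem chkK_sound {D : KData} {y : ℕ → ℝ} (hD : KHolds D y) (hS : D.lS = bits D.mS)
    (hT : D.lT = bits D.mT) (hmS : D.mS < 32) (hmT : D.mT < 32) (hS0 : bits D.mS ≠ [])
    (hT0 : bits D.mT ≠ []) (t : KTree) :
    ∀ ctx base pend, chkK D t ctx base pend = true → KCtx D y ctx →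
      ((pend = none → False) ∧
        ∀ d k l, pend = some l → base = 16 * d + 8 * k → k < 2 →
          (∃ i ∈ l, i < 8 ∧ KFact D y d k i) → False) := by
  induction t with
  | leaf n c =>
    intro ctx base pend hc hctx
    cases pend with
    | some p => exact absurd hc (by simp [chkK])
    | none =>
      refine ⟨fun _ => ?_, fun d k l h => by simp at h⟩
      exact leafK_sound hD hctx n c 0 0 0 0 0 hc Rep.zero Rep.zero le_rfl
  | splS d ch ih =>
    intro ctx base pend hc hctx
    cases pend with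
    | some p => exact absurd hc (by simp [chkK])
    | none =>
      refine ⟨fun _ => ?_, fun d k l h => by simp at h⟩
      have hc' : an (Nat.blt (d + 4) D.W) (chkK D ch ctx (16 * d) (some D.lS)) = true := hc
      rw [an_iff, Nat.blt_eq] at hc'
      obtain ⟨h1, h2⟩ := hc'
      refine (ih ctx _ _ h2 hctx).2 d 0 _ rfl (by omega) (by omega) ?_
      rw [hS]
      obtain ⟨i, hi, hm⟩ : ∃ i ∈ bits D.mS, ∀ k ∈ bits D.mS, rG D y d k ≤ rG D y d i := by
        have hne : (bits D.mS).toFinset.Nonempty := by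
          obtain ⟨a, l, hl⟩ := List.exists_cons_of_ne_nil hS0
          exact ⟨a, by simp [hl]⟩
        obtain ⟨i, hi, hm⟩ := Finset.exists_max_image (bits D.mS).toFinset
          (fun k => rG D y d k) hne
        exact ⟨i, by simpa using hi, fun k hk => hm k (by simpa using hk)⟩
      have hi' := hi
      simp only [bits, List.mem_filter, List.mem_range] at hi'
      refine ⟨i, hi, by omega, h1, Or.inl ⟨rfl, bt_iff.mpr hi'.2, ?_⟩⟩
      intro j hj
      apply hm
      have hj' := bt_iff.mp hj
      simp only [bits, List.mem_filter, List.mem_range]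
      refine ⟨?_, hj'⟩
      by_contra h5
      have h6 : D.mS < 2 ^ j := lt_of_lt_of_le hmS (by
        calc (32 : ℕ) = 2 ^ 5 := by norm_num
          _ ≤ 2 ^ j := Nat.pow_le_pow_right (by norm_num) (by omega))
      rw [Nat.testBit_lt_two_pow h6] at hj'
      simp at hj'
  | splT d ch ih =>
    intro ctx base pend hc hctx
    cases pend with
    | some p => exact absurd hc (by simp [chkK])
    | none =>
      refine ⟨fun _ => ?_, fun d k l h => by simp at h⟩
      have hc' : an (Nat.blt (d + 4) D.W) (chkK D ch ctx (16 * d + 8) (some D.lT)) = true := hc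
      rw [an_iff, Nat.blt_eq] at hc'
      obtain ⟨h1, h2⟩ := hc'
      refine (ih ctx _ _ h2 hctx).2 d 1 _ rfl (by omega) (by omega) ?_
      rw [hT]
      obtain ⟨i, hi, hm⟩ : ∃ i ∈ bits D.mT, ∀ k ∈ bits D.mT, rH D y d k ≤ rH D y d i := by
        have hne : (bits D.mT).toFinset.Nonempty := by
          obtain ⟨a, l, hl⟩ := List.exists_cons_of_ne_nil hT0
          exact ⟨a, by simp [hl]⟩
        obtain ⟨i, hi, hm⟩ := Finset.exists_max_image (bits D.mT).toFinset
          (fun k => rH D y d k) hne
        exact ⟨i, by simpa using hi, fun k hk => hm k (by simpa using hk)⟩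
      have hi' := hi
      simp only [bits, List.mem_filter, List.mem_range] at hi'
      refine ⟨i, hi, by omega, h1, Or.inr ⟨rfl, bt_iff.mpr hi'.2, ?_⟩⟩
      intro j hj
      apply hm
      have hj' := bt_iff.mp hj
      simp only [bits, List.mem_filter, List.mem_range]
      refine ⟨?_, hj'⟩
      by_contra h5
      have h6 : D.mT < 2 ^ j := lt_of_lt_of_le hmT (by
        calc (32 : ℕ) = 2 ^ 5 := by norm_num
          _ ≤ 2 ^ j := Nat.pow_le_pow_right (by norm_num) (by omega))
      rw [Nat.testBit_lt_two_pow h6] at hj'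
      simp at hj'
  | cons a b iha ihb =>
    intro ctx base pend hc hctx
    cases pend with
    | none => exact absurd hc (by simp [chkK])
    | some l =>
      refine ⟨fun h => by simp at h, ?_⟩
      intro d k l' hp hb hk hex
      simp only [Option.some.injEq] at hp
      subst hp
      cases l with
      | nil => simp at hex
      | cons i r =>
        have hc' : an (chkK D a (sb ctx (base + i)) 0 none) (chkK D b ctx base (some r)) = true :=
          hc
        rw [an_iff] at hc'
        obtain ⟨h1, h2⟩ := hc'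
        obtain ⟨i', hi', hi8, hf⟩ := hex
        rcases List.mem_cons.mp hi' with rfl | hi'
        · refine (iha _ _ _ h1 ?_).1 rfl
          intro t ht
          rcases bt_sb ht with ht | rfl
          · exact hctx t ht
          · have e1 : (base + i') / 16 = d := by omega
            have e2 : (base + i') / 8 % 2 = k := by omega
            have e3 : (base + i') % 8 = i' := by omega
            rw [e1, e2, e3]
            exact hf
        · exact (ihb _ _ _ h2 hctx).2 d k r rfl hb hk ⟨i', hi', hi8, hf⟩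
  | nil =>
    intro ctx base pend hc hctx
    cases pend with
    | none => exact absurd hc (by simp [chkK])
    | some l =>
      refine ⟨fun h => by simp at h, ?_⟩
      intro d k l' hp hb hk hex
      simp only [Option.some.injEq] at hp
      subst hp
      cases l with
      | nil => simp at hex
      | cons i r => exact absurd hc (by simp [chkK])

end Pool.Agent.RatRec
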