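import Pool.Agent.Lib_helper86.RatU.Cert

/-!
Linear forms packed in natural numbers: the kernel adds them with one operation.
-/

set_option autoImplicit false

namespace Pool.Agent.RatRec

/-- The base of the packing. -/
def PB : ℕ := 4294967296

/-- The value of a form at the base. -/
noncomputable def valH : (ℕ →₀ ℕ) →+ ℕ :=
  Finsupp.liftAddHom (fun t => AddMonoidHom.mulRight (PB ^ t))

/-- The sum of the coefficients. -/
noncomputable def massH : (ℕ →₀ ℕ) →+ ℕ :=
  Finsupp.liftAddHom (fun _ => AddMonoidHom.id ℕ)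

/-- The variable number `t`: number `0` is the constant one. -/
def Yv (y : ℕ → ℝ) : ℕ → ℝ
  | 0 => 1
  | t + 1 => y t

/-- The real value of a form. -/
noncomputable def realH (y : ℕ → ℝ) : (ℕ →₀ ℕ) →+ ℝ :=
  Finsupp.liftAddHom (fun t => (AddMonoidHom.mulRight (Yv y t)).comp (Nat.castAddMonoidHom ℝ))

@[simp] theorem valH_single (t c : ℕ) : valH (Finsupp.single t c) = c * PB ^ t := by
  simp [valH]

@[simp] theorem massH_single (t c : ℕ) : massH (Finsupp.single t c) = c := by
  simp [massH]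

@[simp] theorem realH_single (y : ℕ → ℝ) (t c : ℕ) :
    realH y (Finsupp.single t c) = c * Yv y t := by
  simp [realH]

/-- The natural number `x` packs a form with real value `r` whose coefficients have sum at most
`μ`. -/
def Rep (y : ℕ → ℝ) (x μ : ℕ) (r : ℝ) : Prop :=
  ∃ f : ℕ →₀ ℕ, valH f = x ∧ massH f ≤ μ ∧ realH y f = r

theorem Rep.add {y : ℕ → ℝ} {x x' μ μ' : ℕ} {r r' : ℝ} (h : Rep y x μ r) (h' : Rep y x' μ' r') :
    Rep y (x + x') (μ + μ') (r + r') := by
  obtain ⟨f, rfl, h2, rfl⟩ := h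
  obtain ⟨g, rfl, h2', rfl⟩ := h'
  exact ⟨f + g, by simp, by rw [map_add]; omega, by simp⟩

theorem Rep.smul {y : ℕ → ℝ} {x μ : ℕ} {r : ℝ} (h : Rep y x μ r) (m : ℕ) :
    Rep y (m * x) (m * μ) (m * r) := by
  obtain ⟨f, rfl, h2, rfl⟩ := h
  refine ⟨m • f, by simp, ?_, by simp⟩
  rw [map_nsmul, smul_eq_mul]
  exact Nat.mul_le_mul_left m h2

theorem Rep.mono {y : ℕ → ℝ} {x μ μ' : ℕ} {r : ℝ} (h : Rep y x μ r) (hm : μ ≤ μ') :
    Rep y x μ' r := by
  obtain ⟨f, h1, h2, h3⟩ := h
  exact ⟨f, h1, h2.trans hm, h3⟩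

theorem Rep.zero {y : ℕ → ℝ} : Rep y 0 0 0 := ⟨0, by simp, by simp, by simp⟩

theorem Rep.const {y : ℕ → ℝ} (c : ℕ) : Rep y c c c :=
  ⟨Finsupp.single 0 c, by simp, by simp, by simp [Yv]⟩

theorem Rep.var {y : ℕ → ℝ} (t : ℕ) : Rep y (PB ^ (t + 1)) 1 (y t) :=
  ⟨Finsupp.single (t + 1) 1, by simp, by simp, by simp [Yv]⟩

theorem PB_pos : 0 < PB := by decide

/-- The digits are determined by the value. -/
theorem digits_unique (N : ℕ) : ∀ f g : ℕ → ℕ, (∀ t, f t < PB) → (∀ t, g t < PB) →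
    ∑ t ∈ Finset.range N, f t * PB ^ t = ∑ t ∈ Finset.range N, g t * PB ^ t →
    ∀ t, t < N → f t = g t := by
  induction N with
  | zero => intro f g _ _ _ t ht; omega
  | succ N ih =>
    intro f g hf hg h
    have e : ∀ f : ℕ → ℕ, ∑ t ∈ Finset.range (N + 1), f t * PB ^ t =
        f 0 + PB * ∑ t ∈ Finset.range N, f (t + 1) * PB ^ t := by
      intro f
      rw [Finset.sum_range_succ', Finset.mul_sum]
      simp only [pow_zero, mul_one]
      rw [add_comm]
      congr 1
      exact Finset.sum_congr rfl (fun t _ => by rw [pow_succ]; ring)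
    rw [e f, e g] at h
    have h0 : f 0 = g 0 := by
      have h1 := congrArg (· % PB) h
      simpa [Nat.add_mul_mod_self_left, Nat.mod_eq_of_lt (hf 0), Nat.mod_eq_of_lt (hg 0)] using h1
    have h1 : ∑ t ∈ Finset.range N, f (t + 1) * PB ^ t =
        ∑ t ∈ Finset.range N, g (t + 1) * PB ^ t := by
      rw [h0] at h
      exact Nat.eq_of_mul_eq_mul_left PB_pos (Nat.add_left_cancel h)
    have h2 := ih (fun t => f (t + 1)) (fun t => g (t + 1)) (fun t => hf _) (fun t => hg _) h1
    intro t ht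
    cases t with
    | zero => exact h0
    | succ t => exact h2 t (by omega)

theorem valH_eq (f : ℕ →₀ ℕ) {N : ℕ} (hN : f.support ⊆ Finset.range N) :
    valH f = ∑ t ∈ Finset.range N, f t * PB ^ t := by
  have h1 : valH f = f.sum (fun t c => c * PB ^ t) := by
    simp [valH, Finsupp.liftAddHom_apply]
  rw [h1]
  exact Finsupp.sum_of_support_subset _ hN _ (fun _ _ => by simp)

theorem le_massH (f : ℕ →₀ ℕ) (t : ℕ) : f t ≤ massH f := by
  have h1 : massH f = f.sum (fun _ c => c) := rfl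
  rw [h1]
  by_cases ht : t ∈ f.support
  · exact Finset.single_le_sum (f := fun t => f t) (fun _ _ => Nat.zero_le _) ht
  · rw [Finsupp.notMem_support_iff.mp ht]
    exact Nat.zero_le _

theorem valH_inj {f g : ℕ →₀ ℕ} (hf : massH f < PB) (hg : massH g < PB)
    (h : valH f = valH g) : f = g := by
  obtain ⟨N, hN⟩ : ∃ N, f.support ∪ g.support ⊆ Finset.range N := by
    obtain ⟨N, hN⟩ := (f.support ∪ g.support).exists_nat_subset_range
    exact ⟨N, hN⟩
  have hNf := (Finset.subset_union_left).trans hN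
  have hNg := (Finset.subset_union_right).trans hN
  rw [valH_eq f hNf, valH_eq g hNg] at h
  have h1 := digits_unique N f g (fun t => (le_massH f t).trans_lt hf)
    (fun t => (le_massH g t).trans_lt hg) h
  ext t
  by_cases ht : t < N
  · exact h1 t ht
  · have e1 : f t = 0 := by
      by_contra h2
      exact ht (Finset.mem_range.mp (hNf (Finsupp.mem_support_iff.mpr h2)))
    have e2 : g t = 0 := by
      by_contra h2
      exact ht (Finset.mem_range.mp (hNg (Finsupp.mem_support_iff.mpr h2)))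
    rw [e1, e2]

/-- Equal packed numbers have equal real values. -/
theorem Rep.eq {y : ℕ → ℝ} {x μ μ' : ℕ} {r r' : ℝ} (h : Rep y x μ r) (h' : Rep y x μ' r')
    (hμ : μ < PB) (hμ' : μ' < PB) : r = r' := by
  obtain ⟨f, h1, h2, rfl⟩ := h
  obtain ⟨g, h1', h2', rfl⟩ := h'
  rw [valH_inj (h2.trans_lt hμ) (h2'.trans_lt hμ') (h1.trans h1'.symm)]

/-- The packed form of `y_{d+k}`, where the number `0` stands for the constant one, whose
logarithm vanishes. -/
def zP (d k : ℕ) : ℕ :=
  Nat.rec 0 (fun _ _ => Nat.pow PB (Nat.succ (Nat.add d k))) k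

theorem rep_zP (y : ℕ → ℝ) (d k : ℕ) : Rep y (zP d k) 1 (zv y d k) := by
  cases k with
  | zero =>
    simp only [zP, zv, if_true]
    exact Rep.zero.mono (by omega)
  | succ k =>
    have h1 : zP d (k + 1) = PB ^ (d + (k + 1) + 1) := rfl
    have h2 : zv y d (k + 1) = y (d + (k + 1)) := by simp [zv]
    rw [h1, h2]
    exact Rep.var _

/-- A bit. -/
def bt (m i : ℕ) : Bool := Nat.beq (Nat.land (Nat.shiftRight m i) 1) 1

theorem bt_iff {m i : ℕ} : bt m i = true ↔ m.testBit i = true := by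
  have h1 : bt m i = Nat.beq ((m >>> i) &&& 1) 1 := rfl
  rw [h1, Nat.testBit_eq_decide_div_mod_eq, Nat.beq_eq, decide_eq_true_eq, Nat.and_one_is_mod,
    Nat.shiftRight_eq_div_pow]

/-- Set a bit. -/
def sb (m i : ℕ) : ℕ := Nat.lor m (Nat.shiftLeft 1 i)

theorem bt_sb {m i j : ℕ} (h : bt (sb m i) j = true) : bt m j = true ∨ j = i := by
  rw [bt_iff] at h
  have h1 : sb m i = m ||| (1 <<< i) := rfl
  rw [h1, Nat.testBit_or, Bool.or_eq_true] at h
  rcases h with h | h
  · exact Or.inl (bt_iff.mpr h)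
  · right
    rw [Nat.testBit_shiftLeft] at h
    simp only [Bool.and_eq_true, decide_eq_true_eq] at h
    obtain ⟨h1, h2⟩ := h
    by_contra h3
    have h4 : 1 ≤ j - i := by omega
    obtain ⟨k, hk⟩ : ∃ k, j - i = k + 1 := ⟨j - i - 1, by omega⟩
    rw [hk] at h2
    simp [Nat.testBit_succ] at h2

end Pool.Agent.RatRec
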