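import Pool.Agent.Lib_helper18.RatU.GenK
import Pool.Agent.Lib_helper86.RatV.All
import Pool.Agent.Lib_helper86.RatW.Count

/-!
The table of the special cases with bounded solutions only, for `k = 3` and `k = 4`.
-/

set_option autoImplicit false
set_option maxRecDepth 100000

namespace Pool.Agent.RatRecK

open Pool.Agent.RatRec (fs allPairs unbPairs allPairs_ok unbPairs_ok countB countB_sound
  countB_allPairs fs_nonempty)

/-- The table: the entry number `s` (the numerator mask) is a number whose binary digit number `t`
(the denominator mask) is 1 exactly when the special case has bounded solutions only. -/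
def table : List ℕ :=
  [0, 4294967294, 4008636156, 4009684732, 4294963440, 4294963440, 4008636656, 4278120688,
    4278255360, 4278910760, 4279172908, 4279172908, 4278775856, 4278775856, 4279038000,
    4279038000, 4294901760, 4294910080, 4294909952, 4294909952, 4294901760, 4294901760,
    4294914048, 4294914048, 4279173120, 4279173120, 4279185408, 4279185408, 4278976512,
    4278976512, 4278988800, 4278988800]

/-- The row of the table with the number `s`. -/
def row (s : ℕ) : ℕ := table.getD s 0

/-- The digits of the listed pairs. -/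
def maskL : List (ℕ × ℕ) → ℕ → ℕ
  | [], acc => acc
  | p :: l, acc => maskL l (acc ||| 2 ^ (32 * p.1 + p.2))

theorem maskL_testBit {l : List (ℕ × ℕ)} {acc j : ℕ} (h : (maskL l acc).testBit j = true) :
    acc.testBit j = true ∨ ∃ p ∈ l, 32 * p.1 + p.2 = j := by
  induction l generalizing acc with
  | nil => exact Or.inl h
  | cons p l ih =>
    rcases ih (acc := acc ||| 2 ^ (32 * p.1 + p.2)) h with h1 | ⟨q, hq, h1⟩
    · rw [Nat.testBit_or, Bool.or_eq_true] at h1
      rcases h1 with h1 | h1
      · exact Or.inl h1
      · rw [Nat.testBit_two_pow] at h1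
        exact Or.inr ⟨p, by simp, by simpa using h1⟩
    · exact Or.inr ⟨q, List.mem_cons_of_mem _ hq, h1⟩

theorem countB_unbPairs : countB unbPairs 0 = true := by decide +kernel

theorem mem_of_maskL {l : List (ℕ × ℕ)} (hl : countB l 0 = true) {a b : ℕ} (hb : b < 32)
    (h : (maskL l 0).testBit (32 * a + b) = true) : (a, b) ∈ l := by
  rcases maskL_testBit h with h1 | ⟨p, hp, h1⟩
  · simp at h1
  · obtain ⟨k1, k2, _⟩ := (countB_sound hl).2 p hp
    have e1 : p.1 = a := by omega
    have e2 : p.2 = b := by omega
    have : p = (a, b) := Prod.ext e1 e2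
    rwa [← this]

/-- The digits of the pairs with bounded solutions only. -/
def codeB : ℕ :=
  179100520715670299678860049286217306975847905293874458011503715647364524485569999200784706827990198173636696365904848587137853798946941046558349050897229007735531291579077061148750485054144723394832796165514048543098737419450742419936402682671294514287924888603531032332108248066788405313176091705108305281024

/-- The digits of the other pairs. -/
def codeU : ℕ :=
  668792728705486116111588554468306092278458983880384422402504299352787544563106141169402682005747103948422558639390438866963885859140939986026827412800095655301677029843371995352556700672107145968032085420064538421521644618489656332400505961754118814873110431871564571974390725725314540810919735115823185920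

theorem maskL_all : maskL allPairs 0 = codeB := by decide +kernel

theorem maskL_unb : maskL unbPairs 0 = codeU := by decide +kernel

/-- The comparison of the table with the codes. -/
def tableAll (x y : ℕ) : Bool :=
  (List.range 31).all (fun a => (List.range 31).all (fun b =>
    if (row (a + 1)).testBit (b + 1) then x.testBit (32 * (a + 1) + (b + 1))
    else y.testBit (32 * (a + 1) + (b + 1))))

theorem tableAll_ok : tableAll codeB codeU = true := by decide +kernel

theorem listed_iff {a b : ℕ} (ha : 0 < a) (ha' : a < 32) (hb : 0 < b) (hb' : b < 32) :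
    RatRec.BoundedOnly (fs a) (fs b) ↔ (row a).testBit b = true := by
  have h := tableAll_ok
  simp only [tableAll, List.all_eq_true, List.mem_range] at h
  have h := h (a - 1) (by omega) (b - 1) (by omega)
  have e1 : a - 1 + 1 = a := by omega
  have e2 : b - 1 + 1 = b := by omega
  rw [e1, e2] at h
  by_cases ht : (row a).testBit b = true
  · rw [if_pos ht, ← maskL_all] at h
    exact ⟨fun _ => ht, fun _ => allPairs_ok _ (mem_of_maskL countB_allPairs hb' h)⟩
  · rw [if_neg ht, ← maskL_unb] at h
    exact ⟨fun hB => absurd hB (unbPairs_ok _ (mem_of_maskL countB_unbPairs hb' h)),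
      fun hl => absurd hl ht⟩

theorem testBit_mask' {k : ℕ} (S : Finset (Fin (k + 1))) (j : ℕ) :
    (mask S).testBit j = true ↔ ∃ i ∈ S, (i : ℕ) = j := by
  have e : mask S = ∑ j ∈ S.map Fin.valEmbedding, 2 ^ j := by
    rw [Finset.sum_map]
    rfl
  rw [← Nat.mem_bitIndices, e, ← List.mem_toFinset, Finset.toFinset_bitIndices_sum_two_pow]
  simp only [Finset.mem_map, Fin.valEmbedding_apply]

theorem testBit_mask {k : ℕ} (S : Finset (Fin (k + 1))) (i : Fin (k + 1)) :
    (mask S).testBit i = true ↔ i ∈ S := by
  rw [testBit_mask']
  constructor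
  · rintro ⟨j, hj, h⟩
    rwa [← Fin.ext h]
  · intro h
    exact ⟨i, h, rfl⟩

theorem mask_lt {k : ℕ} (S : Finset (Fin (k + 1))) : mask S < 2 ^ (k + 1) := by
  apply Nat.lt_pow_two_of_testBit
  intro j hj
  by_contra h
  rw [Bool.not_eq_false] at h
  obtain ⟨i, _, rfl⟩ := (testBit_mask' S j).mp h
  have := i.isLt
  omega

theorem mask_pos {k : ℕ} {S : Finset (Fin (k + 1))} (hS : S.Nonempty) : 0 < mask S := by
  rcases Nat.eq_zero_or_pos (mask S) with h | h
  · obtain ⟨i, hi⟩ := hS
    have := (testBit_mask S i).mpr hi
    rw [h] at this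
    simp at this
  · exact h

theorem mask_inj {k : ℕ} {S T : Finset (Fin (k + 1))} (h : mask S = mask T) : S = T := by
  ext i
  rw [← testBit_mask, ← testBit_mask, h]

theorem fs_mask (S : Finset (Fin 5)) : fs (mask S) = S := by
  ext i
  simp only [fs, Finset.mem_filter, Finset.mem_univ, true_and]
  exact testBit_mask (k := 4) S i

/-- The set of a mask. -/
def setOf' (k m : ℕ) : Finset (Fin (k + 1)) :=
  Finset.univ.filter (fun i => m.testBit i = true)

theorem mask_setOf {k m : ℕ} (hm : m < 2 ^ (k + 1)) : mask (setOf' k m) = m := by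
  apply Nat.eq_of_testBit_eq
  intro j
  rw [Bool.eq_iff_iff, testBit_mask']
  simp only [setOf', Finset.mem_filter, Finset.mem_univ, true_and]
  constructor
  · rintro ⟨i, hi, rfl⟩
    exact hi
  · intro h
    have hj : j < k + 1 := by
      by_contra hc
      have h1 : 2 ^ (k + 1) ≤ 2 ^ j := Nat.pow_le_pow_right (by norm_num) (by omega)
      rw [Nat.testBit_lt_two_pow (lt_of_lt_of_le hm h1)] at h
      exact Bool.noConfusion h
    exact ⟨⟨j, hj⟩, h, rfl⟩

theorem setOf_nonempty {k m : ℕ} (hm : m < 2 ^ (k + 1)) (h0 : 0 < m) :
    (setOf' k m).Nonempty := by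
  rw [Finset.nonempty_iff_ne_empty]
  intro h
  have := mask_setOf hm
  rw [h] at this
  simp [mask] at this
  omega

/-- The answer for `k = 4`. -/
theorem classification_four {S T : Finset (Fin 5)} (hS : S.Nonempty) (hT : T.Nonempty) :
    BoundedOnly 4 S T ↔ (row (mask S)).testBit (mask T) = true := by
  rw [boundedOnly_four, ← listed_iff (mask_pos hS) (mask_lt S) (mask_pos hT) (mask_lt T),
    fs_mask, fs_mask]

theorem mask_map (S : Finset (Fin 4)) : mask (k := 4) (S.map Fin.castSuccEmb) = mask (k := 3) S := by
  unfold mask
  rw [Finset.sum_map]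
  rfl

/-- The answer for `k = 3`. -/
theorem classification_three {S T : Finset (Fin 4)} (hS : S.Nonempty) (hT : T.Nonempty) :
    BoundedOnly 3 S T ↔ (row (mask S)).testBit (mask T) = true := by
  rw [boundedOnly_three, ← boundedOnly_four, classification_four (hS.map) (hT.map), mask_map,
    mask_map]

/-- The number of `j < n` with `f j`. -/
def cnt (f : ℕ → Bool) : ℕ → ℕ
  | 0 => 0
  | n + 1 => cnt f n + (if f n then 1 else 0)

theorem card_eq_cnt (f : ℕ → Bool) (n : ℕ) :
    ((Finset.range n).filter (fun j => f j = true)).card = cnt f n := by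
  induction n with
  | zero => simp [cnt]
  | succ n ih =>
    rw [Finset.range_add_one, Finset.filter_insert, cnt]
    by_cases h : f n = true
    · rw [if_pos h, Finset.card_insert_of_notMem (by simp), ih, if_pos h]
    · rw [if_neg h, ih, if_neg h, add_zero]

/-- The listed pairs below `m`, coded. -/
def listedB (m : ℕ) (j : ℕ) : Bool :=
  (row (j / 32)).testBit (j % 32) && Nat.blt (j / 32) m && Nat.blt (j % 32) m

theorem cnt32 : cnt (listedB 32) 1024 = 544 := by decide +kernel

theorem cnt16 : cnt (listedB 16) 1024 = 135 := by decide +kernel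

theorem row_zero : ∀ t, (row 0).testBit t = false := by
  intro t
  simp [row, table]

theorem bit_zero : ∀ s, s < 32 → (row s).testBit 0 = false := by decide

theorem numBounded_eq {k : ℕ} (hk : k + 1 ≤ 5)
    (h : ∀ S T : Finset (Fin (k + 1)), S.Nonempty → T.Nonempty →
      (BoundedOnly k S T ↔ (row (mask S)).testBit (mask T) = true)) :
    numBounded k = cnt (listedB (2 ^ (k + 1))) 1024 := by
  classical
  have h32 : 2 ^ (k + 1) ≤ 32 := by
    have : 2 ^ (k + 1) ≤ 2 ^ 5 := Nat.pow_le_pow_right (by norm_num) hk
    simpa using this
  rw [← card_eq_cnt]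
  unfold numBounded
  rw [Nat.card_eq_fintype_card, Fintype.card_subtype]
  apply Finset.card_bij (fun p _ => 32 * mask p.1 + mask p.2)
  · intro p hp
    simp only [Finset.mem_filter, Finset.mem_univ, true_and] at hp
    obtain ⟨h1, h2, h3⟩ := hp
    have l1 := mask_lt p.1
    have l2 := mask_lt p.2
    have e1 : (32 * mask p.1 + mask p.2) / 32 = mask p.1 := by omega
    have e2 : (32 * mask p.1 + mask p.2) % 32 = mask p.2 := by omega
    simp only [Finset.mem_filter, Finset.mem_range, listedB, e1, e2, Bool.and_eq_true,
      Nat.blt_eq]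
    exact ⟨by omega, ⟨(h _ _ h1 h2).mp h3, l1⟩, l2⟩
  · intro p _ q _ hpq
    have l1 := mask_lt p.1
    have l2 := mask_lt p.2
    have l3 := mask_lt q.1
    have l4 := mask_lt q.2
    exact Prod.ext (mask_inj (by omega)) (mask_inj (by omega))
  · intro j hj
    simp only [Finset.mem_filter, Finset.mem_range, listedB, Bool.and_eq_true, Nat.blt_eq] at hj
    obtain ⟨h1, ⟨h2, h3⟩, h4⟩ := hj
    have p1 : 0 < j / 32 := by
      rcases Nat.eq_zero_or_pos (j / 32) with h0 | h0
      · rw [h0, row_zero] at h2
        exact Bool.noConfusion h2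
      · exact h0
    have p2 : 0 < j % 32 := by
      rcases Nat.eq_zero_or_pos (j % 32) with h0 | h0
      · rw [h0, bit_zero _ (by omega)] at h2
        exact Bool.noConfusion h2
      · exact h0
    refine ⟨(setOf' k (j / 32), setOf' k (j % 32)), ?_, ?_⟩
    · simp only [Finset.mem_filter, Finset.mem_univ, true_and]
      have n1 := setOf_nonempty h3 p1
      have n2 := setOf_nonempty h4 p2
      refine ⟨n1, n2, (h _ _ n1 n2).mpr ?_⟩
      rw [mask_setOf h3, mask_setOf h4]
      exact h2
    · simp only [mask_setOf h3, mask_setOf h4]
      omega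

theorem numBounded_four : numBounded 4 = 544 := by
  rw [numBounded_eq (by norm_num) (fun S T hS hT => classification_four hS hT)]
  exact cnt32

theorem numBounded_three : numBounded 3 = 135 := by
  rw [numBounded_eq (by norm_num) (fun S T hS hT => classification_three hS hT)]
  exact cnt16

end Pool.Agent.RatRecK
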